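import Pool.Agent.Lib.MI.SpecA

/-! MP_00e23e_nt, Lib/MI, module Acl: decomposition of a bilinear sum into cells. -/

namespace Pool.Agent.Lib.MI

open Finset Pool.Agent.Lib.EH3 Pool.Agent.Lib.TB Pool.Agent.Results.MP_00e23e_nt

/-- the cell of m -/
private noncomputable def Acl_c (K m : ℕ) : ℕ := ⌊(K : ℝ) * Real.log m⌋₊

private lemma Acl_nn (K m : ℕ) : 0 ≤ (K : ℝ) * Real.log m :=
  mul_nonneg (Nat.cast_nonneg _) (Real.log_natCast_nonneg _)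

private lemma Acl_cl (K i m : ℕ) (α : ℕ → ℂ) : cl K i α m = if i = Acl_c K m then α m else 0 := by
  unfold cl
  have h : ((i : ℝ) ≤ K * Real.log m ∧ (K : ℝ) * Real.log m < i + 1) ↔ i = Acl_c K m := by
    unfold Acl_c
    rw [eq_comm, Nat.floor_eq_iff (Acl_nn K m)]
  by_cases hi : i = Acl_c K m
  · rw [if_pos (h.2 hi), if_pos hi]
  · rw [if_neg (fun hh => hi (h.1 hh)), if_neg hi]

private lemma Acl_lt {K Y I m : ℕ} (h : (K : ℝ) * Real.log Y < I) (hm : m ∈ Icc 1 Y) : Acl_c K m < I := by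
  rw [mem_Icc] at hm
  have h0 : (0 : ℝ) < m := by exact_mod_cast hm.1
  have h1 : Real.log m ≤ Real.log Y := Real.log_le_log h0 (by exact_mod_cast hm.2)
  have h2 : (K : ℝ) * Real.log m ≤ K * Real.log Y := mul_le_mul_of_nonneg_left h1 (Nat.cast_nonneg _)
  unfold Acl_c
  rw [Nat.floor_lt (Acl_nn K m)]
  linarith

/-- the good pairs of cells -/
private def Acl_g (K G Y i j : ℕ) : Prop := G ≤ i + j ∧ ((i : ℝ) + j + 2) ≤ K * Real.log Y

/-- the bad products -/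
private def Acl_b (K G Y k : ℕ) : Prop :=
  (K : ℝ) * Real.log k < G + 1 ∨ (K : ℝ) * Real.log Y - 2 < K * Real.log k

private lemma Acl_log {K m n : ℕ} (hm : 1 ≤ m) (hn : 1 ≤ n) :
    (Acl_c K m : ℝ) + Acl_c K n ≤ (K : ℝ) * Real.log ((m * n : ℕ) : ℝ) ∧
    (K : ℝ) * Real.log ((m * n : ℕ) : ℝ) < (Acl_c K m : ℝ) + Acl_c K n + 2 := by
  have hm0 : (m : ℝ) ≠ 0 := by positivity
  have hn0 : (n : ℝ) ≠ 0 := by positivity
  have e : (K : ℝ) * Real.log ((m * n : ℕ) : ℝ) = K * Real.log m + K * Real.log n := by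
    push_cast
    rw [Real.log_mul hm0 hn0, mul_add]
  have h1 : (Acl_c K m : ℝ) ≤ K * Real.log m := Nat.floor_le (Acl_nn K m)
  have h2 : (Acl_c K n : ℝ) ≤ K * Real.log n := Nat.floor_le (Acl_nn K n)
  have h3 : (K : ℝ) * Real.log m < Acl_c K m + 1 := Nat.lt_floor_add_one _
  have h4 : (K : ℝ) * Real.log n < Acl_c K n + 1 := Nat.lt_floor_add_one _
  rw [e]
  constructor <;> linarith

private lemma Acl_good {K G Y m n : ℕ} (hK : 1 ≤ K) (hY : 1 ≤ Y) (hm : 1 ≤ m) (hn : 1 ≤ n)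
    (h : Acl_g K G Y (Acl_c K m) (Acl_c K n)) : m * n ≤ Y := by
  have h1 := (Acl_log (K := K) hm hn).2
  have h2 := h.2
  have h3 : (K : ℝ) * Real.log ((m * n : ℕ) : ℝ) < K * Real.log Y := by linarith
  have hK0 : (0 : ℝ) < K := by exact_mod_cast hK
  have h4 : Real.log ((m * n : ℕ) : ℝ) < Real.log Y := lt_of_mul_lt_mul_left h3 hK0.le
  have h5 : (0 : ℝ) < ((m * n : ℕ) : ℝ) := by
    have : 1 ≤ m * n := Nat.mul_pos hm hn
    exact_mod_cast this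
  have h6 : (0 : ℝ) < (Y : ℝ) := by exact_mod_cast hY
  have h7 := (Real.log_lt_log_iff h5 h6).1 h4
  exact_mod_cast h7.le

private lemma Acl_bad {K G Y m n : ℕ} (hm : 1 ≤ m) (hn : 1 ≤ n)
    (h : ¬ Acl_g K G Y (Acl_c K m) (Acl_c K n)) : Acl_b K G Y (m * n) := by
  obtain ⟨h1, h2⟩ := Acl_log (K := K) hm hn
  unfold Acl_g at h
  by_cases hG : G ≤ Acl_c K m + Acl_c K n
  · right
    have h3 : ¬ ((Acl_c K m : ℝ) + Acl_c K n + 2 ≤ K * Real.log Y) := fun hh => h ⟨hG, hh⟩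
    push Not at h3
    linarith
  · left
    have h4 : Acl_c K m + Acl_c K n + 1 ≤ G := by omega
    have h5 : (Acl_c K m : ℝ) + Acl_c K n + 1 ≤ G := by exact_mod_cast h4
    linarith

open Classical in
private lemma Acl_left (Y : ℕ) (w : ℕ → ℕ → ℂ) :
    ∑ m ∈ Icc 1 Y, ∑ n ∈ Icc 1 (Y / m), w m n =
      ∑ p ∈ Icc 1 Y ×ˢ Icc 1 Y, if p.1 * p.2 ≤ Y then w p.1 p.2 else 0 := by
  rw [Finset.sum_product]
  refine Finset.sum_congr rfl fun m hm => ?_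
  rw [← Finset.sum_filter]
  refine Finset.sum_congr ?_ fun _ _ => rfl
  ext n
  rw [mem_filter, mem_Icc, mem_Icc]
  have hm1 : 1 ≤ m := (mem_Icc.1 hm).1
  rw [Nat.le_div_iff_mul_le (by omega), mul_comm n m]
  constructor
  · rintro ⟨h1, h2⟩
    refine ⟨⟨h1, ?_⟩, h2⟩
    calc n = 1 * n := (one_mul n).symm
      _ ≤ m * n := Nat.mul_le_mul_right n hm1
      _ ≤ Y := h2
  · rintro ⟨⟨h1, _⟩, h2⟩
    exact ⟨h1, h2⟩

open Classical in
private lemma Acl_cells (K G Y I : ℕ) (α β F : ℕ → ℂ) (hI : (K : ℝ) * Real.log Y < I) :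
    ∑ q ∈ range I ×ˢ range I, (if Acl_g K G Y q.1 q.2 then
        ∑ p ∈ Icc 1 Y ×ˢ Icc 1 Y, cl K q.1 α p.1 * cl K q.2 β p.2 * F (p.1 * p.2) else 0) =
      ∑ p ∈ Icc 1 Y ×ˢ Icc 1 Y, if Acl_g K G Y (Acl_c K p.1) (Acl_c K p.2) then
        α p.1 * β p.2 * F (p.1 * p.2) else 0 := by
  have h1 : ∀ q : ℕ × ℕ, (if Acl_g K G Y q.1 q.2 then
        ∑ p ∈ Icc 1 Y ×ˢ Icc 1 Y, cl K q.1 α p.1 * cl K q.2 β p.2 * F (p.1 * p.2) else 0) =
      ∑ p ∈ Icc 1 Y ×ˢ Icc 1 Y, if q = (Acl_c K p.1, Acl_c K p.2) then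
        (if Acl_g K G Y (Acl_c K p.1) (Acl_c K p.2) then α p.1 * β p.2 * F (p.1 * p.2) else 0) else 0 := by
    rintro ⟨i, j⟩
    dsimp only
    by_cases hg : Acl_g K G Y i j
    · rw [if_pos hg]
      refine Finset.sum_congr rfl fun p _ => ?_
      rw [Acl_cl, Acl_cl]
      by_cases hi : i = Acl_c K p.1
      · by_cases hj : j = Acl_c K p.2
        · rw [if_pos hi, if_pos hj, if_pos (by rw [← hi, ← hj]), ← hi, ← hj, if_pos hg]
        · rw [if_neg hj, if_neg (fun h => hj (Prod.ext_iff.1 h).2)]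
          ring
      · rw [if_neg hi, if_neg (fun h => hi (Prod.ext_iff.1 h).1)]
        ring
    · rw [if_neg hg]
      symm
      refine Finset.sum_eq_zero fun p _ => ?_
      by_cases h : (i, j) = (Acl_c K p.1, Acl_c K p.2)
      · have hi := (Prod.ext_iff.1 h).1
        have hj := (Prod.ext_iff.1 h).2
        dsimp only at hi hj
        rw [if_pos h, ← hi, ← hj, if_neg hg]
      · rw [if_neg h]
  rw [Finset.sum_congr rfl fun q _ => h1 q, Finset.sum_comm]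
  refine Finset.sum_congr rfl fun p hp => ?_
  rw [mem_product] at hp
  rw [Finset.sum_ite_eq', if_pos]
  rw [mem_product, mem_range, mem_range]
  exact ⟨Acl_lt hI hp.1, Acl_lt hI hp.2⟩

open Classical in
private lemma Acl_count (Y : ℕ) (B : ℕ → Prop) (f : ℕ → ℝ) (hf : ∀ k, 0 ≤ f k) :
    ∑ p ∈ (Icc 1 Y ×ˢ Icc 1 Y).filter (fun p => p.1 * p.2 ≤ Y ∧ B (p.1 * p.2)), f (p.1 * p.2) ≤
      ∑ k ∈ (Icc 1 Y).filter B, (k.divisors.card : ℝ) * f k := by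
  have hmap : ∀ p ∈ (Icc 1 Y ×ˢ Icc 1 Y).filter (fun p => p.1 * p.2 ≤ Y ∧ B (p.1 * p.2)),
      p.1 * p.2 ∈ (Icc 1 Y).filter B := by
    intro p hp
    rw [mem_filter, mem_product, mem_Icc, mem_Icc] at hp
    rw [mem_filter, mem_Icc]
    exact ⟨⟨Nat.mul_pos hp.1.1.1 hp.1.2.1, hp.2.1⟩, hp.2.2⟩
  rw [← Finset.sum_fiberwise_of_maps_to hmap]
  refine Finset.sum_le_sum fun k hk => ?_
  have h1 : ∀ p ∈ ((Icc 1 Y ×ˢ Icc 1 Y).filter (fun p => p.1 * p.2 ≤ Y ∧ B (p.1 * p.2))).filter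
      (fun p => p.1 * p.2 = k), f (p.1 * p.2) = f k := by
    intro p hp
    rw [(mem_filter.1 hp).2]
  rw [Finset.sum_congr rfl h1, Finset.sum_const, nsmul_eq_mul]
  refine mul_le_mul_of_nonneg_right ?_ (hf k)
  rw [Nat.cast_le]
  have hk1 : 1 ≤ k := (mem_Icc.1 (mem_filter.1 hk).1).1
  refine Finset.card_le_card_of_injOn (fun p => p.1) ?_ ?_
  · intro p hp
    rw [mem_coe, mem_filter] at hp
    rw [mem_coe, Nat.mem_divisors]
    exact ⟨⟨p.2, hp.2.symm⟩, by omega⟩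
  · intro p hp p' hp' he
    rw [mem_coe, mem_filter, mem_filter, mem_product, mem_Icc] at hp
    rw [mem_coe, mem_filter] at hp'
    have he' : p.1 = p'.1 := he
    have h2 : p.1 * p.2 = p.1 * p'.2 := by
      rw [hp.2, he', hp'.2]
    exact Prod.ext he' (Nat.eq_of_mul_eq_mul_left hp.1.1.1.1 h2)

theorem tAcl : AclStmt := by
  classical
  intro K G Y I α β F hK hI hα hβ
  by_cases hY : Y = 0
  · subst hY
    simp
  have hY1 : 1 ≤ Y := Nat.one_le_iff_ne_zero.2 hY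
  obtain ⟨w, hw⟩ : ∃ w : ℕ → ℕ → ℂ, w = fun m n => α m * β n * F (m * n) := ⟨_, rfl⟩
  have hwn : ∀ m n, ‖w m n‖ ≤ ‖F (m * n)‖ := by
    intro m n
    rw [hw]
    dsimp only
    rw [norm_mul, norm_mul]
    calc ‖α m‖ * ‖β n‖ * ‖F (m * n)‖ ≤ 1 * 1 * ‖F (m * n)‖ := by
          gcongr
          · exact hα m
          · exact hβ n
      _ = ‖F (m * n)‖ := by ring
  -- the splitting
  have hsplit : ∑ m ∈ Icc 1 Y, ∑ n ∈ Icc 1 (Y / m), α m * β n * F (m * n) =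
      (∑ q ∈ range I ×ˢ range I, (if Acl_g K G Y q.1 q.2 then
        ∑ p ∈ Icc 1 Y ×ˢ Icc 1 Y, cl K q.1 α p.1 * cl K q.2 β p.2 * F (p.1 * p.2) else 0)) +
      ∑ p ∈ (Icc 1 Y ×ˢ Icc 1 Y).filter (fun p => p.1 * p.2 ≤ Y ∧
        ¬ Acl_g K G Y (Acl_c K p.1) (Acl_c K p.2)), w p.1 p.2 := by
    rw [Acl_cells K G Y I α β F hI, Finset.sum_filter, ← Finset.sum_add_distrib]
    rw [show (∑ m ∈ Icc 1 Y, ∑ n ∈ Icc 1 (Y / m), α m * β n * F (m * n)) =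
      ∑ m ∈ Icc 1 Y, ∑ n ∈ Icc 1 (Y / m), w m n by rw [hw], Acl_left]
    refine Finset.sum_congr rfl fun p hp => ?_
    rw [mem_product, mem_Icc, mem_Icc] at hp
    have hwp : α p.1 * β p.2 * F (p.1 * p.2) = w p.1 p.2 := by rw [hw]
    rw [hwp]
    by_cases hg : Acl_g K G Y (Acl_c K p.1) (Acl_c K p.2)
    · have h1 := Acl_good hK hY1 hp.1.1 hp.2.1 hg
      rw [if_pos h1, if_pos hg, if_neg (fun h => h.2 hg), add_zero]
    · rw [if_neg hg, zero_add]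
      by_cases h1 : p.1 * p.2 ≤ Y
      · rw [if_pos h1, if_pos ⟨h1, hg⟩]
      · rw [if_neg h1, if_neg (fun h => h1 h.1)]
  rw [hsplit]
  refine (norm_add_le _ _).trans (add_le_add ?_ ?_)
  · refine (norm_sum_le _ _).trans ?_
    rw [Finset.sum_product]
    refine Finset.sum_le_sum fun i _ => Finset.sum_le_sum fun j _ => ?_
    by_cases hg : Acl_g K G Y i j
    · have hg' : G ≤ i + j ∧ ((i : ℝ) + j + 2) ≤ K * Real.log Y := hg
      rw [if_pos hg, if_pos hg', Finset.sum_product]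
    · have hg' : ¬ (G ≤ i + j ∧ ((i : ℝ) + j + 2) ≤ K * Real.log Y) := hg
      rw [if_neg hg, if_neg hg', norm_zero]
  · refine (norm_sum_le _ _).trans ?_
    calc ∑ p ∈ (Icc 1 Y ×ˢ Icc 1 Y).filter (fun p => p.1 * p.2 ≤ Y ∧
          ¬ Acl_g K G Y (Acl_c K p.1) (Acl_c K p.2)), ‖w p.1 p.2‖
        ≤ ∑ p ∈ (Icc 1 Y ×ˢ Icc 1 Y).filter (fun p => p.1 * p.2 ≤ Y ∧
          ¬ Acl_g K G Y (Acl_c K p.1) (Acl_c K p.2)), ‖F (p.1 * p.2)‖ :=
          Finset.sum_le_sum fun p _ => hwn p.1 p.2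
      _ ≤ ∑ p ∈ (Icc 1 Y ×ˢ Icc 1 Y).filter (fun p => p.1 * p.2 ≤ Y ∧
          Acl_b K G Y (p.1 * p.2)), ‖F (p.1 * p.2)‖ := by
          refine Finset.sum_le_sum_of_subset_of_nonneg ?_ fun _ _ _ => norm_nonneg _
          intro p hp
          rw [mem_filter] at hp ⊢
          have hp1 := mem_product.1 hp.1
          exact ⟨hp.1, hp.2.1, Acl_bad (mem_Icc.1 hp1.1).1 (mem_Icc.1 hp1.2).1 hp.2.2⟩
      _ ≤ ∑ k ∈ (Icc 1 Y).filter (fun k => Acl_b K G Y k), (k.divisors.card : ℝ) * ‖F k‖ :=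
          Acl_count Y (fun k => Acl_b K G Y k) (fun k => ‖F k‖) fun _ => norm_nonneg _
      _ = _ := by
          refine Finset.sum_congr ?_ fun _ _ => rfl
          ext k
          rw [mem_filter, mem_filter]
          rfl

end Pool.Agent.Lib.MI
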