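import Pool.Agent.Lib.MI.SpecA

namespace Pool.Agent.Lib.MI

open Finset Pool.Agent.Lib.EH3 Pool.Agent.Lib.TB Pool.Agent.Results.MP_00e23e_nt

private theorem Act_tot (u : ℕ) (hu : 1 ≤ u) :
    ∑ e ∈ u.divisors, ((ArithmeticFunction.moebius e : ℤ) : ℝ) / (e : ℝ) = (u.totient : ℝ) / (u : ℝ) := by
  have h := (ArithmeticFunction.sum_eq_iff_sum_mul_moebius_eq
    (f := fun n : ℕ => (n.totient : ℝ)) (g := fun n : ℕ => (n : ℝ))).1
    (by
      intro n hn
      have := Nat.sum_totient n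
      exact_mod_cast this) u (by omega)
  rw [Nat.sum_divisorsAntidiagonal (fun a b => ((ArithmeticFunction.moebius a : ℤ) : ℝ) * ((b : ℕ) : ℝ))] at h
  rw [← h, Finset.sum_div]
  refine Finset.sum_congr rfl (fun e he => ?_)
  have hd : e ∣ u := Nat.dvd_of_mem_divisors he
  have he0 : (e : ℝ) ≠ 0 := by
    have : 0 < e := Nat.pos_of_mem_divisors he
    positivity
  have hu0 : (u : ℝ) ≠ 0 := by positivity
  rw [Nat.cast_div hd he0]
  field_simp

private theorem Act_mu (k : ℕ) : ∑ d ∈ k.divisors, ((ArithmeticFunction.moebius d : ℤ) : ℝ) =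
    if k = 1 then 1 else 0 := by
  have h1 : ∑ d ∈ k.divisors, ArithmeticFunction.moebius d = if k = 1 then 1 else 0 := by
    rw [← ArithmeticFunction.coe_mul_zeta_apply, ArithmeticFunction.moebius_mul_coe_zeta,
      ArithmeticFunction.one_apply]
  have h2 := congrArg (fun z : ℤ => (z : ℝ)) h1
  simp only [Int.cast_sum] at h2
  rw [h2]
  split_ifs <;> simp

private theorem Act_cnt (r X : ℕ) (hr : 0 < r) (v : ℤ) :
    |(((Icc 1 X).filter (fun c : ℕ => (r : ℤ) ∣ (c : ℤ) - v)).card : ℝ) - (X : ℝ) / (r : ℝ)| ≤ 1 := by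
  set w : ℕ := (v % (r : ℤ)).toNat with hw
  have hr' : (0 : ℤ) < r := by exact_mod_cast hr
  have hwv : ((w : ℕ) : ℤ) = v % (r : ℤ) := by
    rw [hw, Int.toNat_of_nonneg (Int.emod_nonneg _ hr'.ne')]
  have hset : (Icc 1 X).filter (fun c : ℕ => (r : ℤ) ∣ (c : ℤ) - v) =
      (Ioc 0 X).filter (fun c : ℕ => c ≡ w [MOD r]) := by
    ext c
    simp only [Finset.mem_filter, Finset.mem_Icc, Finset.mem_Ioc]
    have h1 : ((r : ℤ) ∣ (c : ℤ) - v) ↔ c ≡ w [MOD r] := by
      rw [← Int.natCast_modEq_iff, hwv, Int.modEq_comm, Int.modEq_iff_dvd]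
      constructor
      · intro h
        have : (c : ℤ) - v % r = ((c : ℤ) - v) + r * (v / r) := by
          have := Int.emod_add_mul_ediv v (r : ℤ)
          linarith
        rw [this]
        exact dvd_add h (dvd_mul_right _ _)
      · intro h
        have : (c : ℤ) - v = ((c : ℤ) - v % r) - r * (v / r) := by
          have := Int.emod_add_mul_ediv v (r : ℤ)
          linarith
        rw [this]
        exact dvd_sub h (dvd_mul_right _ _)
    rw [h1]
    constructor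
    · rintro ⟨⟨h2, h3⟩, h4⟩
      exact ⟨⟨by omega, h3⟩, h4⟩
    · rintro ⟨⟨h2, h3⟩, h4⟩
      exact ⟨⟨by omega, h3⟩, h4⟩
  rw [hset]
  have hc := Nat.Ioc_filter_modEq_card 0 X hr w
  have hrq : (0 : ℚ) < (r : ℚ) := by exact_mod_cast hr
  have hmono : ⌊(((0 : ℕ) : ℚ) - (w : ℚ)) / (r : ℚ)⌋ ≤ ⌊((X : ℚ) - (w : ℚ)) / (r : ℚ)⌋ := by
    apply Int.floor_le_floor
    apply div_le_div_of_nonneg_right _ hrq.le
    have : (0 : ℚ) ≤ (X : ℚ) := by positivity
    push_cast
    linarith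
  rw [max_eq_left (by linarith)] at hc
  have hA1 := Int.floor_le (((X : ℚ) - (w : ℚ)) / (r : ℚ))
  have hA2 := Int.lt_floor_add_one (((X : ℚ) - (w : ℚ)) / (r : ℚ))
  have hB1 := Int.floor_le ((((0 : ℕ) : ℚ) - (w : ℚ)) / (r : ℚ))
  have hB2 := Int.lt_floor_add_one ((((0 : ℕ) : ℚ) - (w : ℚ)) / (r : ℚ))
  have hcq : (((Ioc 0 X).filter (fun c : ℕ => c ≡ w [MOD r])).card : ℚ) =
      (⌊((X : ℚ) - (w : ℚ)) / (r : ℚ)⌋ : ℚ) - (⌊(((0 : ℕ) : ℚ) - (w : ℚ)) / (r : ℚ)⌋ : ℚ) := by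
    exact_mod_cast hc
  have hAB : ((X : ℚ) - (w : ℚ)) / (r : ℚ) - (((0 : ℕ) : ℚ) - (w : ℚ)) / (r : ℚ) = (X : ℚ) / r := by
    push_cast
    field_simp
    ring
  have hq : |(((Ioc 0 X).filter (fun c : ℕ => c ≡ w [MOD r])).card : ℚ) - (X : ℚ) / (r : ℚ)| ≤ 1 := by
    rw [hcq, ← hAB, abs_le]
    constructor <;> linarith
  have hq2 := (Rat.cast_le (K := ℝ)).2 hq
  push_cast at hq2
  exact hq2

private theorem Act_crt (e t : ℕ) (h : Nat.Coprime e t) (a : ℤ) :
    ∃ v : ℤ, ∀ c : ℤ, ((e : ℤ) ∣ c ∧ (t : ℤ) ∣ c - a) ↔ (((e * t : ℕ) : ℤ) ∣ c - v) := by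
  have hc : IsCoprime (e : ℤ) (t : ℤ) := Nat.isCoprime_iff_coprime.2 h
  obtain ⟨x, y, hxy⟩ := hc
  refine ⟨a * (x * e), fun c => ?_⟩
  have hva : a * (x * e) - a = (t : ℤ) * (-(a * y)) := by
    have : x * (e : ℤ) = 1 - y * t := by linarith
    rw [this]; ring
  push_cast
  constructor
  · rintro ⟨h1, h2⟩
    apply IsCoprime.mul_dvd ⟨x, y, hxy⟩
    · exact dvd_sub h1 (Dvd.intro_left (a * x) (by ring))
    · have : c - a * (x * e) = (c - a) - (a * (x * e) - a) := by ring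
      rw [this, hva]
      exact dvd_sub h2 (dvd_mul_right _ _)
  · intro h1
    have h2 : (e : ℤ) ∣ c - a * (x * e) := (dvd_mul_right _ _).trans h1
    have h3 : (t : ℤ) ∣ c - a * (x * e) := (dvd_mul_left _ _).trans h1
    constructor
    · have : c = (c - a * (x * e)) + a * x * e := by ring
      rw [this]
      exact dvd_add h2 (dvd_mul_left _ _)
    · have : c - a = (c - a * (x * e)) + (a * (x * e) - a) := by ring
      rw [this, hva]
      exact dvd_add h3 (dvd_mul_right _ _)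

theorem tAct : ActStmt := by
  classical
  intro t u X a ht hu htu
  -- the number as a sum over e | u
  have h1 : ((((Icc 1 X).filter (fun c : ℕ => c.Coprime u ∧ (t : ℤ) ∣ (c : ℤ) - a)).card : ℝ)) =
      ∑ e ∈ u.divisors, ((ArithmeticFunction.moebius e : ℤ) : ℝ) *
        (((Icc 1 X).filter (fun c : ℕ => e ∣ c ∧ (t : ℤ) ∣ (c : ℤ) - a)).card : ℝ) := by
    have h2 : ∀ c ∈ (Icc 1 X).filter (fun c : ℕ => (t : ℤ) ∣ (c : ℤ) - a),
        (if c.Coprime u then (1 : ℝ) else 0) =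
        ∑ e ∈ u.divisors, if e ∣ c then ((ArithmeticFunction.moebius e : ℤ) : ℝ) else 0 := by
      intro c hc
      rw [← Finset.sum_filter]
      have h3 : u.divisors.filter (fun e => e ∣ c) = (Nat.gcd c u).divisors := by
        ext e
        simp only [Finset.mem_filter, Nat.mem_divisors, Nat.dvd_gcd_iff]
        constructor
        · rintro ⟨⟨h4, _⟩, h5⟩
          exact ⟨⟨h5, h4⟩, fun h0 => by
            have := Nat.gcd_eq_zero_iff.1 h0
            omega⟩
        · rintro ⟨⟨h4, h5⟩, _⟩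
          exact ⟨⟨h5, by omega⟩, h4⟩
      rw [h3, Act_mu]
    calc ((((Icc 1 X).filter (fun c : ℕ => c.Coprime u ∧ (t : ℤ) ∣ (c : ℤ) - a)).card : ℝ))
        = ∑ c ∈ (Icc 1 X).filter (fun c : ℕ => (t : ℤ) ∣ (c : ℤ) - a),
            (if c.Coprime u then (1 : ℝ) else 0) := by
          rw [Finset.sum_boole, Finset.filter_filter]
          congr 2
          ext c
          simp only [Finset.mem_filter]
          tauto
      _ = ∑ c ∈ (Icc 1 X).filter (fun c : ℕ => (t : ℤ) ∣ (c : ℤ) - a),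
            ∑ e ∈ u.divisors, (if e ∣ c then ((ArithmeticFunction.moebius e : ℤ) : ℝ) else 0) :=
          Finset.sum_congr rfl h2
      _ = ∑ e ∈ u.divisors, ((ArithmeticFunction.moebius e : ℤ) : ℝ) *
          (((Icc 1 X).filter (fun c : ℕ => e ∣ c ∧ (t : ℤ) ∣ (c : ℤ) - a)).card : ℝ) := by
          rw [Finset.sum_comm]
          refine Finset.sum_congr rfl (fun e _ => ?_)
          rw [← Finset.sum_filter, Finset.sum_const, Finset.filter_filter, nsmul_eq_mul, mul_comm]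
          congr 3
          ext c
          simp only [Finset.mem_filter]
          tauto
  have h5 : (X : ℝ) * (u.totient : ℝ) / ((t : ℝ) * u) =
      ∑ e ∈ u.divisors, ((ArithmeticFunction.moebius e : ℤ) : ℝ) * ((X : ℝ) / ((e * t : ℕ) : ℝ)) := by
    have h6 : (X : ℝ) * (u.totient : ℝ) / ((t : ℝ) * u) = (X : ℝ) / t * ((u.totient : ℝ) / u) := by
      have ht0 : (t : ℝ) ≠ 0 := by positivity
      have hu0 : (u : ℝ) ≠ 0 := by positivity
      field_simp
    rw [h6, ← Act_tot u hu, Finset.mul_sum]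
    refine Finset.sum_congr rfl (fun e he => ?_)
    have he0 : (e : ℝ) ≠ 0 := by
      have : 0 < e := Nat.pos_of_mem_divisors he
      positivity
    have ht0 : (t : ℝ) ≠ 0 := by positivity
    push_cast
    field_simp
  rw [h1, h5, ← Finset.sum_sub_distrib]
  calc |∑ e ∈ u.divisors, (((ArithmeticFunction.moebius e : ℤ) : ℝ) *
        (((Icc 1 X).filter (fun c : ℕ => e ∣ c ∧ (t : ℤ) ∣ (c : ℤ) - a)).card : ℝ) -
        ((ArithmeticFunction.moebius e : ℤ) : ℝ) * ((X : ℝ) / ((e * t : ℕ) : ℝ)))|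
      ≤ ∑ e ∈ u.divisors, |((ArithmeticFunction.moebius e : ℤ) : ℝ) *
        (((Icc 1 X).filter (fun c : ℕ => e ∣ c ∧ (t : ℤ) ∣ (c : ℤ) - a)).card : ℝ) -
        ((ArithmeticFunction.moebius e : ℤ) : ℝ) * ((X : ℝ) / ((e * t : ℕ) : ℝ))| :=
        Finset.abs_sum_le_sum_abs _ _
    _ ≤ ∑ e ∈ u.divisors, (1 : ℝ) := by
        refine Finset.sum_le_sum (fun e he => ?_)
        rw [← mul_sub, abs_mul]
        have hm : |((ArithmeticFunction.moebius e : ℤ) : ℝ)| ≤ 1 := by
          exact_mod_cast (ArithmeticFunction.abs_moebius_le_one (n := e))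
        have he1 : 0 < e := Nat.pos_of_mem_divisors he
        have hed : e ∣ u := Nat.dvd_of_mem_divisors he
        have hcop : Nat.Coprime e t := (Nat.Coprime.coprime_dvd_right hed htu).symm
        obtain ⟨v, hv⟩ := Act_crt e t hcop a
        have hset : (Icc 1 X).filter (fun c : ℕ => e ∣ c ∧ (t : ℤ) ∣ (c : ℤ) - a) =
            (Icc 1 X).filter (fun c : ℕ => ((e * t : ℕ) : ℤ) ∣ (c : ℤ) - v) := by
          ext c
          simp only [Finset.mem_filter]
          rw [← hv (c : ℤ), Int.natCast_dvd_natCast]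
        have hcnt := Act_cnt (e * t) X (by positivity) v
        rw [hset]
        calc _ ≤ (1 : ℝ) * 1 := mul_le_mul hm hcnt (abs_nonneg _) zero_le_one
          _ = 1 := one_mul 1
    _ = (u.divisors.card : ℝ) := by
        rw [Finset.sum_const, nsmul_eq_mul, mul_one]

end Pool.Agent.Lib.MI
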