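import Pool.Agent.Lib.MI.SpecA

/-!
MP_00e23e_nt, directory Lib/MI, module Atr (helper68): the boundary terms on average over q.
-/

namespace Pool.Agent.Lib.MI

open Finset Pool.Agent.Lib.EH3 Pool.Agent.Lib.TB Pool.Agent.Results.MP_00e23e_nt

private lemma Atr_union (A B S : Finset ℕ) (f : ℕ → ℝ) (hf : ∀ k, 0 ≤ f k) (hS : S ⊆ A ∪ B) :
    ∑ k ∈ S, f k ≤ ∑ k ∈ A, f k + ∑ k ∈ B, f k := by
  have h1 : ∑ k ∈ S, f k ≤ ∑ k ∈ A ∪ B, f k :=
    Finset.sum_le_sum_of_subset_of_nonneg hS (fun k _ _ => hf k)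
  have h2 := Finset.sum_union_inter (s₁ := A) (s₂ := B) (f := f)
  have h3 : 0 ≤ ∑ k ∈ A ∩ B, f k := Finset.sum_nonneg (fun k _ => hf k)
  linarith

theorem tAtr (hAnm : AnmStmt) : AtrStmt := by
  intro X T D K G Y a F t hT hD hDX hYX hY hK hF
  have hT1 : 1 ≤ T := hT.1
  have hK' : (2 : ℝ) ≤ K := by exact_mod_cast hK
  have hKpos : (0 : ℝ) < K := by linarith
  have hY' : (1 : ℝ) ≤ Y := by exact_mod_cast hY
  have hD' : (1 : ℝ) ≤ D := by exact_mod_cast hD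
  have hTD : Tau D T := hT.mono hDX hD'
  obtain ⟨e, he⟩ : ∃ e, e = Real.exp (((G : ℝ) + 1) / K) := ⟨_, rfl⟩
  have hepos : 0 < e := by rw [he]; exact Real.exp_pos _
  obtain ⟨K2, hK2⟩ : ∃ K2, K2 = ⌊e⌋₊ := ⟨_, rfl⟩
  have hK2e : (K2 : ℝ) ≤ e := by rw [hK2]; exact Nat.floor_le hepos.le
  obtain ⟨y1, hy1⟩ : ∃ y1 : ℝ, y1 = (Y : ℝ) * (1 - 2 / K) := ⟨_, rfl⟩
  have h2K : 2 / (K : ℝ) ≤ 1 := by rw [div_le_one hKpos]; exact hK'
  have h2K0 : 0 < 2 / (K : ℝ) := by positivity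
  have hy10 : 0 ≤ y1 := by rw [hy1]; exact mul_nonneg (by linarith) (by linarith)
  have hy1Y : y1 ≤ Y := by
    rw [hy1]
    have : (Y : ℝ) * (1 - 2 / K) ≤ Y * 1 := mul_le_mul_of_nonneg_left (by linarith) (by linarith)
    linarith
  obtain ⟨K1, hK1⟩ : ∃ K1, K1 = ⌊y1⌋₊ := ⟨_, rfl⟩
  have hK1y : (K1 : ℝ) ≤ y1 := by rw [hK1]; exact Nat.floor_le hy10
  have hK1y' : y1 - 1 < K1 := by rw [hK1]; exact Nat.sub_one_lt_floor y1
  have hK1Y : K1 ≤ Y := by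
    have : (K1 : ℝ) ≤ Y := hK1y.trans hy1Y
    exact_mod_cast this
  have hlow : y1 ≤ (Y : ℝ) * Real.exp (-(2 / (K : ℝ))) := by
    rw [hy1]
    apply mul_le_mul_of_nonneg_left _ (by linarith)
    have := Real.add_one_le_exp (-(2 / (K : ℝ)))
    linarith
  have hsub : (Icc 1 Y).filter (fun k : ℕ => (K : ℝ) * Real.log k < G + 1 ∨
      (K : ℝ) * Real.log Y - 2 < K * Real.log k) ⊆ Ioc 0 K2 ∪ Ioc K1 Y := by
    intro k hk
    rw [Finset.mem_filter, Finset.mem_Icc] at hk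
    obtain ⟨⟨hk1, hk2⟩, hk3⟩ := hk
    have hkpos : (0 : ℝ) < k := by exact_mod_cast hk1
    rw [Finset.mem_union, Finset.mem_Ioc, Finset.mem_Ioc]
    rcases hk3 with h | h
    · left
      refine ⟨hk1, ?_⟩
      rw [hK2]
      apply Nat.le_floor
      rw [he]
      apply le_of_lt
      rw [← Real.log_lt_iff_lt_exp hkpos, lt_div_iff₀ hKpos]
      linarith
    · right
      refine ⟨?_, hk2⟩
      have h1 : (Y : ℝ) * Real.exp (-(2 / (K : ℝ))) < k := by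
        have h2 : Real.log Y + -(2 / (K : ℝ)) < Real.log k := by
          have h3 : (K : ℝ) * (2 / K) = 2 := by field_simp
          have h4 : (K : ℝ) * (Real.log Y + -(2 / (K : ℝ))) < K * Real.log k := by
            rw [mul_add, mul_neg, h3]
            linarith
          exact lt_of_mul_lt_mul_left h4 hKpos.le
        have h5 := Real.exp_lt_exp.2 h2
        rw [Real.exp_add, Real.exp_log (by linarith), Real.exp_log hkpos] at h5
        exact h5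
      have h2 : (K1 : ℝ) < k := by linarith
      exact_mod_cast h2
  have hA1 := hAnm T D 0 K2 a F t hTD hD (Nat.zero_le _) hF
  have hA2 := hAnm T D K1 Y a F t hTD hD hK1Y hF
  have hterm : ∀ q ∈ F, ∑ k ∈ (Icc 1 Y).filter (fun k : ℕ => (K : ℝ) * Real.log k < G + 1 ∨
      (K : ℝ) * Real.log Y - 2 < K * Real.log k), (k.divisors.card : ℝ) * ‖Ek a (t q) q k‖ ≤
      T * ∑ k ∈ Ioc 0 K2, ‖Ek a (t q) q k‖ + T * ∑ k ∈ Ioc K1 Y, ‖Ek a (t q) q k‖ := by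
    intro q _
    have h1 : ∑ k ∈ (Icc 1 Y).filter (fun k : ℕ => (K : ℝ) * Real.log k < G + 1 ∨
        (K : ℝ) * Real.log Y - 2 < K * Real.log k), (k.divisors.card : ℝ) * ‖Ek a (t q) q k‖ ≤
        ∑ k ∈ (Icc 1 Y).filter (fun k : ℕ => (K : ℝ) * Real.log k < G + 1 ∨
        (K : ℝ) * Real.log Y - 2 < K * Real.log k), T * ‖Ek a (t q) q k‖ := by
      apply Finset.sum_le_sum
      intro k hk
      rw [Finset.mem_filter, Finset.mem_Icc] at hk
      apply mul_le_mul_of_nonneg_right _ (norm_nonneg _)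
      apply hT.2.2 k hk.1.1
      have : (k : ℝ) ≤ Y := by exact_mod_cast hk.1.2
      linarith
    refine h1.trans ?_
    rw [Finset.mul_sum, Finset.mul_sum]
    exact Atr_union _ _ _ _ (fun k => mul_nonneg (by linarith) (norm_nonneg _)) hsub
  refine (Finset.sum_le_sum hterm).trans ?_
  rw [Finset.sum_add_distrib, ← Finset.mul_sum, ← Finset.mul_sum, ← he]
  have hT2 : 1 ≤ T ^ 2 := one_le_pow₀ hT1
  have hT3 : T ≤ T ^ 3 := by
    have : T * 1 ≤ T * T ^ 2 := mul_le_mul_of_nonneg_left hT2 (by linarith)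
    have e : T * T ^ 2 = T ^ 3 := by ring
    linarith
  have hT3' : 1 ≤ T ^ 3 := one_le_pow₀ hT1
  have hYK : (Y : ℝ) - K1 ≤ 2 * (Y / K) + 1 := by
    have e : y1 = Y - 2 * (Y / K) := by
      rw [hy1]
      ring
    linarith
  have b1 : T * ∑ q ∈ F, ∑ k ∈ Ioc 0 K2, ‖Ek a (t q) q k‖ ≤ T * (2 * T ^ 2 * e + 2 * D) := by
    apply mul_le_mul_of_nonneg_left _ (by linarith)
    refine hA1.trans ?_
    have : 2 * T ^ 2 * ((K2 : ℝ) - (0 : ℕ)) ≤ 2 * T ^ 2 * e := by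
      apply mul_le_mul_of_nonneg_left _ (by positivity)
      push_cast
      linarith
    linarith
  have b2 : T * ∑ q ∈ F, ∑ k ∈ Ioc K1 Y, ‖Ek a (t q) q k‖ ≤ T * (2 * T ^ 2 * (2 * (Y / K) + 1) + 2 * D) := by
    apply mul_le_mul_of_nonneg_left _ (by linarith)
    refine hA2.trans ?_
    have : 2 * T ^ 2 * ((Y : ℝ) - K1) ≤ 2 * T ^ 2 * (2 * (Y / K) + 1) :=
      mul_le_mul_of_nonneg_left hYK (by positivity)
    linarith
  have b3 : T * D ≤ T ^ 3 * D := mul_le_mul_of_nonneg_right hT3 (by linarith)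
  have b4 : 0 ≤ T ^ 3 * e := by positivity
  have b5 : T * (2 * T ^ 2 * e + 2 * D) = 2 * (T ^ 3 * e) + 2 * (T * D) := by ring
  have b6 : T * (2 * T ^ 2 * (2 * ((Y : ℝ) / K) + 1) + 2 * D) = 4 * (T ^ 3 * (Y / K)) + 2 * T ^ 3 + 2 * (T * D) := by ring
  have b7 : 4 * T ^ 3 * (e + (Y : ℝ) / K + 1 + D) = 4 * (T ^ 3 * e) + 4 * (T ^ 3 * (Y / K)) + 4 * T ^ 3 + 4 * (T ^ 3 * D) := by
    ring
  rw [b7]
  rw [b5] at b1
  rw [b6] at b2
  linarith

end Pool.Agent.Lib.MI
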