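import Pool.Agent.Lib.MI.SpecA

/-!
MP_00e23e_nt, directory Lib/MI, module Atu: the divisor bound in the form Tau.
-/

namespace Pool.Agent.Lib.MI

open Finset Pool.Agent.Lib.EH3 Pool.Agent.Lib.TB Pool.Agent.Results.MP_00e23e_nt

theorem tAtu (h1 : TaukStmt) : AtuStmt := by
  intro e A he hA
  obtain ⟨C1, hC1, h2⟩ := h1 (e / A) (by positivity)
  have hAe : 0 < A / e := by positivity
  refine ⟨C1 + (1 + A / e), by linarith, fun x hx => ?_⟩
  have hx0 : 0 < x := by linarith
  have hxe : 1 ≤ x ^ e := Real.one_le_rpow hx he.le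
  have hxe0 : 0 ≤ x ^ e := by linarith
  refine ⟨?_, ?_, ?_⟩
  · nlinarith
  · rw [Real.log_rpow hx0]
    have h3 : Real.log x ≤ x ^ e / e := Real.log_le_rpow_div hx0.le he
    have h4 : A * Real.log x ≤ A / e * x ^ e := by
      calc A * Real.log x ≤ A * (x ^ e / e) := by gcongr
        _ = A / e * x ^ e := by ring
    nlinarith
  · intro n hn hnx
    have h5 := h2 n hn
    have hn0 : (0 : ℝ) ≤ n := by positivity
    have h6 : (n : ℝ) ^ (e / A) ≤ x ^ e := by
      calc (n : ℝ) ^ (e / A) ≤ (x ^ A) ^ (e / A) := Real.rpow_le_rpow hn0 hnx (by positivity)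
        _ = x ^ e := by
          rw [← Real.rpow_mul hx0.le]
          congr 1
          field_simp
    calc (n.divisors.card : ℝ) ≤ C1 * (n : ℝ) ^ (e / A) := h5
      _ ≤ C1 * x ^ e := by gcongr
      _ ≤ (C1 + (1 + A / e)) * x ^ e := by nlinarith

end Pool.Agent.Lib.MI
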