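import Pool.Agent.Lib.MI.SpecA

/-!
MP_00e23e_nt, Lib/MI, chapter A, module Aty: type I sums.
-/

namespace Pool.Agent.Lib.MI

open Finset Pool.Agent.Lib.EH3 Pool.Agent.Lib.TB Pool.Agent.Results.MP_00e23e_nt

/-- Abel summation with the logarithm -/
private lemma Aty_abel (g : ℕ → ℂ) (B : ℝ) (hB : ∀ X : ℕ, ‖∑ c ∈ Icc 1 X, g c‖ ≤ B) (X : ℕ) :
    ‖∑ c ∈ Icc 1 X, ((Real.log c : ℝ) : ℂ) * g c‖ ≤ 2 * B * Real.log X := by
  have hB0 : 0 ≤ B := (norm_nonneg _).trans (hB 0)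
  rcases Nat.eq_zero_or_pos X with h0 | h0
  · subst h0
    simp
  have key : ‖∑ c ∈ Icc 1 X, ((Real.log c : ℝ) : ℂ) * g c -
      ((Real.log X : ℝ) : ℂ) * ∑ c ∈ Icc 1 X, g c‖ ≤ B * Real.log X := by
    induction X, h0 using Nat.le_induction with
    | base => simp
    | succ n hn ih =>
      rw [Finset.sum_Icc_succ_top (by omega), Finset.sum_Icc_succ_top (by omega)]
      have hn0 : (0 : ℝ) < n := by exact_mod_cast hn
      have hlog : Real.log (n : ℝ) ≤ Real.log ((n + 1 : ℕ) : ℝ) :=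
        Real.log_le_log hn0 (by push_cast; linarith)
      have e1 : ∑ c ∈ Icc 1 n, ((Real.log c : ℝ) : ℂ) * g c +
          ((Real.log ((n + 1 : ℕ) : ℝ) : ℝ) : ℂ) * g (n + 1) -
          ((Real.log ((n + 1 : ℕ) : ℝ) : ℝ) : ℂ) * (∑ c ∈ Icc 1 n, g c + g (n + 1)) =
          (∑ c ∈ Icc 1 n, ((Real.log c : ℝ) : ℂ) * g c -
            ((Real.log (n : ℝ) : ℝ) : ℂ) * ∑ c ∈ Icc 1 n, g c) -
          ((Real.log ((n + 1 : ℕ) : ℝ) - Real.log (n : ℝ) : ℝ) : ℂ) * ∑ c ∈ Icc 1 n, g c := by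
        push_cast
        ring
      rw [e1]
      refine (norm_sub_le _ _).trans ?_
      have e2 : ‖((Real.log ((n + 1 : ℕ) : ℝ) - Real.log (n : ℝ) : ℝ) : ℂ) * ∑ c ∈ Icc 1 n, g c‖ ≤
          (Real.log ((n + 1 : ℕ) : ℝ) - Real.log (n : ℝ)) * B := by
        rw [norm_mul, Complex.norm_real, Real.norm_eq_abs, abs_of_nonneg (by linarith)]
        exact mul_le_mul_of_nonneg_left (hB n) (by linarith)
      linarith
  have hX0 : 0 ≤ Real.log (X : ℝ) := Real.log_natCast_nonneg X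
  have e3 : ‖((Real.log X : ℝ) : ℂ) * ∑ c ∈ Icc 1 X, g c‖ ≤ Real.log X * B := by
    rw [norm_mul, Complex.norm_real, Real.norm_eq_abs, abs_of_nonneg hX0]
    exact mul_le_mul_of_nonneg_left (hB X) hX0
  have e4 := norm_add_le (∑ c ∈ Icc 1 X, ((Real.log c : ℝ) : ℂ) * g c -
      ((Real.log X : ℝ) : ℂ) * ∑ c ∈ Icc 1 X, g c) (((Real.log X : ℝ) : ℂ) * ∑ c ∈ Icc 1 X, g c)
  rw [sub_add_cancel] at e4
  linarith

/-- a common prime factor of b and q: all terms vanish -/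
private lemma Aty_zero {q t b : ℕ} {a : ℤ} (hq : Squarefree q) (ht : t ∣ q) (ha : Int.gcd a q = 1)
    (hb : ¬ b.Coprime q) (c : ℕ) : Ek a t q (b * c) = 0 := by
  obtain ⟨p, hp, hpb, hpq⟩ := Nat.Prime.not_coprime_iff_dvd.1 hb
  have hpa : ∀ d : ℕ, p ∣ d → ¬ ((d : ℤ) ∣ ((b * c : ℕ) : ℤ) - a) := by
    intro d hd h
    have h1 : (p : ℤ) ∣ ((b * c : ℕ) : ℤ) - a := (Int.natCast_dvd_natCast.2 hd).trans h
    have h2 : (p : ℤ) ∣ ((b * c : ℕ) : ℤ) := Int.natCast_dvd_natCast.2 (hpb.mul_right c)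
    have h3 : (p : ℤ) ∣ a := by
      have h4 := dvd_sub h2 h1
      rwa [sub_sub_cancel] at h4
    have h5 : p ∣ Int.gcd a q := Int.natCast_dvd_natCast.1
      (Int.dvd_coe_gcd h3 (Int.natCast_dvd_natCast.2 hpq))
    rw [ha] at h5
    exact hp.one_lt.ne' (Nat.dvd_one.1 h5)
  unfold Ek dl
  rw [if_neg (hpa q hpq)]
  have hq0 : q ≠ 0 := hq.ne_zero
  have htu : t * (q / t) = q := Nat.mul_div_cancel' ht
  split_ifs with h1 h2
  · exfalso
    have h3 : p ∣ t := by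
      have h4 : p ∣ t * (q / t) := by rw [htu]; exact hpq
      rcases hp.dvd_mul.1 h4 with h5 | h5
      · exact h5
      · exfalso
        have h6 : p ∣ Nat.gcd (b * c) (q / t) := Nat.dvd_gcd (hpb.mul_right c) h5
        rw [h1] at h6
        exact hp.one_lt.ne' (Nat.dvd_one.1 h6)
    exact hpa t h3 h2
  · simp
  · simp

private lemma Aty_card (X : ℕ) (p : ℕ → Prop) [DecidablePred p] :
    ∑ c ∈ Icc 1 X, (if p c then (1 : ℂ) else 0) = (((Icc 1 X).filter p).card : ℂ) := by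
  rw [Finset.sum_boole]

/-- the sum for b coprime to q -/
private lemma Aty_sum (h1 : ActStmt) {q t b : ℕ} {a : ℤ} (hq : Squarefree q) (ht : t ∣ q)
    (hb : b.Coprime q) (X : ℕ) :
    ‖∑ c ∈ Icc 1 X, Ek a t q (b * c)‖ ≤ 3 * (q.divisors.card : ℝ) := by
  have hq0 : q ≠ 0 := hq.ne_zero
  have hq1 : 1 ≤ q := Nat.pos_of_ne_zero hq0
  obtain ⟨u, hu⟩ : ∃ u, u = q / t := ⟨_, rfl⟩
  have htu : t * u = q := by rw [hu]; exact Nat.mul_div_cancel' ht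
  have ht1 : 1 ≤ t := Nat.pos_of_dvd_of_pos ht hq1
  have hu1 : 1 ≤ u := by
    rcases Nat.eq_zero_or_pos u with h | h
    · rw [h, mul_zero] at htu
      exact absurd htu.symm hq0
    · exact h
  have huq : u ∣ q := ⟨t, by rw [← htu]; ring⟩
  have hcop : t.Coprime u := Nat.coprime_of_squarefree_mul (by rw [htu]; exact hq)
  obtain ⟨a', ha'⟩ : ∃ a' : ℤ, a' = a * (iv b q : ℤ) := ⟨_, rfl⟩
  have ha'q : (q : ℤ) ∣ (b : ℤ) * a' - a := by
    have h2 := iv_dvd hb hq1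
    have h3 : (b : ℤ) * a' - a = a * ((iv b q : ℤ) * b - 1) := by rw [ha']; ring
    rw [h3]
    exact dvd_mul_of_dvd_right h2 a
  have hiff : ∀ (d c : ℕ), d ∣ q → ((d : ℤ) ∣ ((b * c : ℕ) : ℤ) - a ↔ (d : ℤ) ∣ (c : ℤ) - a') := by
    intro d c hd
    have h2 : (d : ℤ) ∣ (b : ℤ) * a' - a := (Int.natCast_dvd_natCast.2 hd).trans ha'q
    have h3 : ((b * c : ℕ) : ℤ) - a = (b : ℤ) * ((c : ℤ) - a') + ((b : ℤ) * a' - a) := by
      push_cast
      ring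
    have h4 : IsCoprime (d : ℤ) (b : ℤ) :=
      Nat.isCoprime_iff_coprime.2 (hb.symm.coprime_dvd_left hd)
    rw [h3, dvd_add_left h2]
    exact ⟨fun h => h4.dvd_of_dvd_mul_left h, fun h => dvd_mul_of_dvd_right h _⟩
  have hbu : b.Coprime u := hb.coprime_dvd_right huq
  have hcopu : ∀ c : ℕ, (b * c).Coprime u ↔ c.Coprime u := by
    intro c
    rw [Nat.coprime_mul_iff_left]
    exact ⟨fun h => h.2, fun h => ⟨hbu, h⟩⟩
  have hEk : ∀ c : ℕ, Ek a t q (b * c) = (if (q : ℤ) ∣ (c : ℤ) - a' then (1 : ℂ) else 0) -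
      (1 / (u.totient : ℂ)) * (if c.Coprime u ∧ (t : ℤ) ∣ (c : ℤ) - a' then (1 : ℂ) else 0) := by
    intro c
    unfold Ek dl
    rw [← hu]
    simp only [hiff q c dvd_rfl, hiff t c ht, hcopu c]
    by_cases h2 : c.Coprime u
    · by_cases h3 : (t : ℤ) ∣ (c : ℤ) - a'
      · simp [h2, h3]
      · simp [h2, h3]
    · simp [h2]
  rw [Finset.sum_congr rfl fun c _ => hEk c, Finset.sum_sub_distrib, ← Finset.mul_sum, Aty_card,
    Aty_card]
  obtain ⟨N1, hN1⟩ : ∃ N1 : ℕ, N1 = ((Icc 1 X).filter (fun c : ℕ => (q : ℤ) ∣ (c : ℤ) - a')).card :=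
    ⟨_, rfl⟩
  obtain ⟨N2, hN2⟩ : ∃ N2 : ℕ, N2 =
      ((Icc 1 X).filter (fun c : ℕ => c.Coprime u ∧ (t : ℤ) ∣ (c : ℤ) - a')).card := ⟨_, rfl⟩
  rw [← hN1, ← hN2]
  have f1 := h1 q 1 X a' hq1 le_rfl (Nat.coprime_one_right q)
  have f2 := h1 t u X a' ht1 hu1 hcop
  rw [← hN2] at f2
  have f3 : ((Icc 1 X).filter (fun c : ℕ => c.Coprime 1 ∧ (q : ℤ) ∣ (c : ℤ) - a')).card = N1 := by
    rw [hN1]
    congr 1
    ext c
    simp
  rw [f3] at f1
  have hφ : (1 : ℝ) ≤ (u.totient : ℝ) := by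
    exact_mod_cast Nat.totient_pos.2 hu1
  have hφ0 : (0 : ℝ) < (u.totient : ℝ) := by linarith
  have ht0 : (0 : ℝ) < t := by exact_mod_cast ht1
  have hu0 : (0 : ℝ) < u := by exact_mod_cast hu1
  have e1 : ((N1 : ℂ) - 1 / (u.totient : ℂ) * (N2 : ℂ)) =
      (((N1 : ℝ) - 1 / (u.totient : ℝ) * (N2 : ℝ) : ℝ) : ℂ) := by push_cast; rfl
  rw [e1, Complex.norm_real, Real.norm_eq_abs]
  have e2 : (X : ℝ) * ((1 : ℕ).totient : ℝ) / ((q : ℝ) * ((1 : ℕ) : ℝ)) = (X : ℝ) / (t * u) := by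
    rw [← htu]
    push_cast
    simp
  rw [e2] at f1
  have e3 : (N1 : ℝ) - 1 / (u.totient : ℝ) * (N2 : ℝ) = ((N1 : ℝ) - X / (t * u)) -
      1 / (u.totient : ℝ) * ((N2 : ℝ) - (X : ℝ) * (u.totient : ℝ) / ((t : ℝ) * u)) := by
    field_simp
    ring
  rw [e3]
  refine (abs_sub _ _).trans ?_
  have e4 : |1 / (u.totient : ℝ) * ((N2 : ℝ) - (X : ℝ) * (u.totient : ℝ) / ((t : ℝ) * u))| ≤
      (u.divisors.card : ℝ) := by
    rw [abs_mul, abs_of_nonneg (by positivity)]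
    calc 1 / (u.totient : ℝ) * |(N2 : ℝ) - (X : ℝ) * (u.totient : ℝ) / ((t : ℝ) * u)|
        ≤ 1 * (u.divisors.card : ℝ) := by
          refine mul_le_mul ?_ f2 (abs_nonneg _) zero_le_one
          rw [div_le_one hφ0]
          exact hφ
      _ = _ := one_mul _
  have e5 : (u.divisors.card : ℝ) ≤ (q.divisors.card : ℝ) := by
    exact_mod_cast Finset.card_le_card (Nat.divisors_subset_of_dvd hq0 huq)
  have e6 : (1 : ℝ) ≤ (q.divisors.card : ℝ) := by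
    exact_mod_cast Finset.card_pos.2 ⟨1, Nat.one_mem_divisors.2 hq0⟩
  have e7 : (((1 : ℕ).divisors.card : ℕ) : ℝ) = 1 := by simp
  rw [e7] at f1
  linarith

theorem tAty (h1 : ActStmt) : AtyStmt := by
  intro q t b X a hq ht _ ha
  have key : ∀ X : ℕ, ‖∑ c ∈ Icc 1 X, Ek a t q (b * c)‖ ≤ 3 * (q.divisors.card : ℝ) := by
    intro X
    by_cases hbq : b.Coprime q
    · exact Aty_sum h1 hq ht hbq X
    · rw [Finset.sum_eq_zero fun c _ => Aty_zero hq ht ha hbq c, norm_zero]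
      positivity
  refine ⟨key X, ?_⟩
  have h2 := Aty_abel (fun c => Ek a t q (b * c)) _ key X
  linarith

end Pool.Agent.Lib.MI
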