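import Pool.Agent.Lib.MI.SpecA

/-! MP_00e23e_nt, Lib/MI, module Ava: Vaughan's identity for sums of Λ F, F arbitrary. -/

namespace Pool.Agent.Lib.MI

open Finset Pool.Agent.Lib.EH3 Pool.Agent.Lib.TB Pool.Agent.Results.MP_00e23e_nt

open Pool.Agent.Lib.CO (vg vh vl)

/-- the function A cut to the n ≤ z -/
private noncomputable def Ava_lo (z : ℕ) (A : ArithmeticFunction ℝ) : ArithmeticFunction ℝ :=
  ⟨fun n => if n ≤ z then A n else 0, by simp⟩

/-- the function A cut to the n > z -/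
private noncomputable def Ava_hi (z : ℕ) (A : ArithmeticFunction ℝ) : ArithmeticFunction ℝ :=
  ⟨fun n => if z < n then A n else 0, by simp⟩

private lemma Ava_lo_apply (z : ℕ) (A : ArithmeticFunction ℝ) (n : ℕ) :
    Ava_lo z A n = if n ≤ z then A n else 0 := rfl

private lemma Ava_hi_apply (z : ℕ) (A : ArithmeticFunction ℝ) (n : ℕ) :
    Ava_hi z A n = if z < n then A n else 0 := rfl

private lemma Ava_split (z : ℕ) (A : ArithmeticFunction ℝ) : A = Ava_lo z A + Ava_hi z A := by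
  ext n
  rw [ArithmeticFunction.add_apply, Ava_lo_apply, Ava_hi_apply]
  by_cases h : n ≤ z
  · rw [if_pos h, if_neg (by omega), add_zero]
  · rw [if_neg h, if_pos (by omega), zero_add]

private lemma Ava_sub_apply (A B : ArithmeticFunction ℝ) (n : ℕ) : (A - B) n = A n - B n := by
  have h : ((A - B) + B) n = A n := by rw [sub_add_cancel]
  rw [ArithmeticFunction.add_apply] at h
  linarith

private lemma Ava_sum (F : ℕ → ℂ) (A B : ArithmeticFunction ℝ) (Y : ℕ) :
    ∑ n ∈ Icc 1 Y, (((A * B) n : ℝ) : ℂ) * F n =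
      ∑ b ∈ Icc 1 Y, ((A b : ℝ) : ℂ) * ∑ c ∈ Icc 1 (Y / b), ((B c : ℝ) : ℂ) * F (b * c) := by
  have h1 : ∑ n ∈ Icc 1 Y, (((A * B) n : ℝ) : ℂ) * F n =
      ∑ n ∈ Icc 1 Y, ∑ x ∈ n.divisorsAntidiagonal,
        ((A x.1 : ℝ) : ℂ) * ((B x.2 : ℝ) : ℂ) * F (x.1 * x.2) := by
    refine Finset.sum_congr rfl fun n _ => ?_
    rw [ArithmeticFunction.mul_apply, Complex.ofReal_sum, Finset.sum_mul]
    refine Finset.sum_congr rfl fun x hx => ?_
    rw [(Nat.mem_divisorsAntidiagonal.mp hx).1, Complex.ofReal_mul]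
  rw [h1, Finset.sum_sigma']
  have h2 : ∑ b ∈ Icc 1 Y, ((A b : ℝ) : ℂ) * ∑ c ∈ Icc 1 (Y / b), ((B c : ℝ) : ℂ) * F (b * c) =
      ∑ b ∈ Icc 1 Y, ∑ c ∈ Icc 1 (Y / b), ((A b : ℝ) : ℂ) * ((B c : ℝ) : ℂ) * F (b * c) := by
    refine Finset.sum_congr rfl fun b _ => ?_
    rw [Finset.mul_sum]
    refine Finset.sum_congr rfl fun c _ => ?_
    ring
  rw [h2, Finset.sum_sigma']
  refine Finset.sum_bij' (fun x _ => (⟨x.2.1, x.2.2⟩ : Σ _ : ℕ, ℕ))
    (fun y _ => (⟨y.1 * y.2, (y.1, y.2)⟩ : Σ _ : ℕ, ℕ × ℕ)) ?_ ?_ ?_ ?_ ?_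
  · rintro ⟨n, b, c⟩ hx
    rw [Finset.mem_sigma, Finset.mem_Icc, Nat.mem_divisorsAntidiagonal] at hx
    obtain ⟨⟨h3, h4⟩, h5, h6⟩ := hx
    dsimp only at h3 h4 h5 h6
    have hb : 0 < b := by
      rcases Nat.eq_zero_or_pos b with h | h
      · rw [h, zero_mul] at h5
        omega
      · exact h
    have hc : 0 < c := by
      rcases Nat.eq_zero_or_pos c with h | h
      · rw [h, mul_zero] at h5
        omega
      · exact h
    rw [Finset.mem_sigma, Finset.mem_Icc, Finset.mem_Icc]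
    dsimp only
    have h7 : b ≤ b * c := Nat.le_mul_of_pos_right b hc
    refine ⟨⟨hb, by omega⟩, hc, ?_⟩
    rw [Nat.le_div_iff_mul_le hb, mul_comm]
    omega
  · rintro ⟨b, c⟩ hy
    rw [Finset.mem_sigma, Finset.mem_Icc, Finset.mem_Icc] at hy
    obtain ⟨⟨h3, h4⟩, h5, h6⟩ := hy
    dsimp only at h3 h4 h5 h6
    rw [Nat.le_div_iff_mul_le (by omega), mul_comm] at h6
    have h8 : 0 < b * c := Nat.mul_pos (by omega) (by omega)
    rw [Finset.mem_sigma, Finset.mem_Icc, Nat.mem_divisorsAntidiagonal]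
    exact ⟨⟨h8, h6⟩, rfl, h8.ne'⟩
  · rintro ⟨n, b, c⟩ hx
    rw [Finset.mem_sigma, Finset.mem_Icc, Nat.mem_divisorsAntidiagonal] at hx
    obtain ⟨_, h5, h6⟩ := hx
    dsimp only at h5 ⊢
    subst h5
    rfl
  · rintro ⟨b, c⟩ _
    rfl
  · rintro ⟨n, b, c⟩ _
    rfl

/-- a sum over b ≤ Y of terms that vanish for b > w, and for b > Y -/
private lemma Ava_cut (Y w : ℕ) (g : ℕ → ℂ) (h1 : ∀ b, w < b → g b = 0) (h2 : ∀ b, Y < b → g b = 0) :
    ∑ b ∈ Icc 1 Y, g b = ∑ b ∈ Icc 1 w, g b := by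
  have e1 : ∑ b ∈ Icc 1 Y, g b = ∑ b ∈ Icc 1 (max Y w), g b := by
    apply Finset.sum_subset
    · exact Finset.Icc_subset_Icc le_rfl (le_max_left _ _)
    · intro b hb hn
      apply h2
      rw [Finset.mem_Icc] at hb hn
      omega
  have e2 : ∑ b ∈ Icc 1 w, g b = ∑ b ∈ Icc 1 (max Y w), g b := by
    apply Finset.sum_subset
    · exact Finset.Icc_subset_Icc le_rfl (le_max_right _ _)
    · intro b hb hn
      apply h1
      rw [Finset.mem_Icc] at hb hn
      omega
  rw [e1, e2]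

private lemma Ava_vg (z b : ℕ) :
    (Ava_lo z (ArithmeticFunction.moebius : ArithmeticFunction ℝ) *
      Ava_lo z ArithmeticFunction.vonMangoldt) b = vg z b := by
  rw [ArithmeticFunction.mul_apply, vg]
  refine Finset.sum_congr rfl fun x _ => ?_
  rw [Ava_lo_apply, Ava_lo_apply, ArithmeticFunction.intCoe_apply]
  by_cases h1 : x.1 ≤ z
  · by_cases h2 : x.2 ≤ z
    · rw [if_pos h1, if_pos h2, if_pos ⟨h1, h2⟩]
    · have h3 : ¬ (x.1 ≤ z ∧ x.2 ≤ z) := fun h => h2 h.2
      rw [if_neg h2, if_neg h3, mul_zero]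
  · have h3 : ¬ (x.1 ≤ z ∧ x.2 ≤ z) := fun h => h1 h.1
    rw [if_neg h1, if_neg h3, zero_mul]

private lemma Ava_vh (z m : ℕ) :
    (Ava_hi z (ArithmeticFunction.moebius : ArithmeticFunction ℝ) *
      (ArithmeticFunction.zeta : ArithmeticFunction ℝ)) m = vh z m := by
  rw [ArithmeticFunction.coe_mul_zeta_apply, vh]
  refine Finset.sum_congr rfl fun r _ => ?_
  rw [Ava_hi_apply, ArithmeticFunction.intCoe_apply]

private lemma Ava_vl (z n : ℕ) : Ava_hi z ArithmeticFunction.vonMangoldt n = vl z n := rfl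

private lemma Ava_id (z : ℕ) :
    (ArithmeticFunction.vonMangoldt : ArithmeticFunction ℝ) =
      Ava_lo z ArithmeticFunction.vonMangoldt +
        Ava_lo z (ArithmeticFunction.moebius : ArithmeticFunction ℝ) * ArithmeticFunction.log -
        (Ava_lo z (ArithmeticFunction.moebius : ArithmeticFunction ℝ) *
          Ava_lo z ArithmeticFunction.vonMangoldt) * (ArithmeticFunction.zeta : ArithmeticFunction ℝ) +
        (Ava_hi z (ArithmeticFunction.moebius : ArithmeticFunction ℝ) *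
          (ArithmeticFunction.zeta : ArithmeticFunction ℝ)) * Ava_hi z ArithmeticFunction.vonMangoldt := by
  have h1 := Ava_split z (ArithmeticFunction.moebius : ArithmeticFunction ℝ)
  have h2 := Ava_split z ArithmeticFunction.vonMangoldt
  have h3 : ((ArithmeticFunction.moebius : ArithmeticFunction ℝ)) *
      (ArithmeticFunction.zeta : ArithmeticFunction ℝ) = 1 := ArithmeticFunction.coe_moebius_mul_coe_zeta
  have h4 : ArithmeticFunction.vonMangoldt * (ArithmeticFunction.zeta : ArithmeticFunction ℝ) =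
      ArithmeticFunction.log := ArithmeticFunction.vonMangoldt_mul_zeta
  have h1' : Ava_hi z (ArithmeticFunction.moebius : ArithmeticFunction ℝ) =
      (ArithmeticFunction.moebius : ArithmeticFunction ℝ) -
        Ava_lo z (ArithmeticFunction.moebius : ArithmeticFunction ℝ) := by
    rw [eq_sub_iff_add_eq, add_comm]; exact h1.symm
  have h2' : Ava_hi z ArithmeticFunction.vonMangoldt =
      ArithmeticFunction.vonMangoldt - Ava_lo z ArithmeticFunction.vonMangoldt := by
    rw [eq_sub_iff_add_eq, add_comm]; exact h2.symm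
  rw [h1', h2', ← h4]
  generalize Ava_lo z (ArithmeticFunction.moebius : ArithmeticFunction ℝ) = a at *
  generalize Ava_lo z ArithmeticFunction.vonMangoldt = b at *
  generalize (ArithmeticFunction.moebius : ArithmeticFunction ℝ) = m at *
  generalize (ArithmeticFunction.zeta : ArithmeticFunction ℝ) = s at *
  generalize (ArithmeticFunction.vonMangoldt : ArithmeticFunction ℝ) = l at *
  have e : (m - a) * s * (l - b) = (m * s) * l - (m * s) * b - a * (l * s) + a * b * s := by ring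
  rw [e, h3]
  ring

theorem tAva : AvaStmt := by
  intro z Y f hz
  have hid := Ava_id z
  have hsum : ∑ n ∈ Icc 1 Y, ((ArithmeticFunction.vonMangoldt n : ℝ) : ℂ) * f n =
      ∑ n ∈ Icc 1 Y, ((Ava_lo z ArithmeticFunction.vonMangoldt n : ℝ) : ℂ) * f n +
      ∑ n ∈ Icc 1 Y, (((Ava_lo z (ArithmeticFunction.moebius : ArithmeticFunction ℝ) *
        ArithmeticFunction.log) n : ℝ) : ℂ) * f n -
      ∑ n ∈ Icc 1 Y, ((((Ava_lo z (ArithmeticFunction.moebius : ArithmeticFunction ℝ) *
          Ava_lo z ArithmeticFunction.vonMangoldt) *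
            (ArithmeticFunction.zeta : ArithmeticFunction ℝ)) n : ℝ) : ℂ) * f n +
      ∑ n ∈ Icc 1 Y, ((((Ava_hi z (ArithmeticFunction.moebius : ArithmeticFunction ℝ) *
          (ArithmeticFunction.zeta : ArithmeticFunction ℝ)) *
            Ava_hi z ArithmeticFunction.vonMangoldt) n : ℝ) : ℂ) * f n := by
    rw [← Finset.sum_add_distrib, ← Finset.sum_sub_distrib, ← Finset.sum_add_distrib]
    refine Finset.sum_congr rfl fun n _ => ?_
    have h := congrArg (fun A : ArithmeticFunction ℝ => ((A n : ℝ) : ℂ)) hid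
    simp only [ArithmeticFunction.add_apply, Ava_sub_apply, Complex.ofReal_add,
      Complex.ofReal_sub] at h
    rw [h]
    ring
  rw [hsum]
  refine congrArg₂ (· + ·) (congrArg₂ (· - ·) (congrArg₂ (· + ·) ?_ ?_) ?_) ?_
  · rw [Finset.sum_filter]
    refine Finset.sum_congr rfl fun n _ => ?_
    rw [Ava_lo_apply]
    by_cases h : n ≤ z
    · rw [if_pos h, if_pos h]
    · rw [if_neg h, if_neg h, Complex.ofReal_zero, zero_mul]
  · rw [Ava_sum f, Ava_cut Y z]
    · refine Finset.sum_congr rfl fun b hb => ?_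
      rw [Ava_lo_apply, if_pos (Finset.mem_Icc.mp hb).2, ArithmeticFunction.intCoe_apply]
      rfl
    · intro b hb
      rw [Ava_lo_apply, if_neg (by omega), Complex.ofReal_zero, zero_mul]
    · intro b hb
      rw [Nat.div_eq_of_lt hb, Finset.Icc_eq_empty (by norm_num), Finset.sum_empty, mul_zero]
  · rw [Ava_sum f, Ava_cut Y (z ^ 2)]
    · refine Finset.sum_congr rfl fun b hb => ?_
      rw [Ava_vg]
      congr 1
      refine Finset.sum_congr rfl fun c hc => ?_
      rw [ArithmeticFunction.natCoe_apply, ArithmeticFunction.zeta_apply,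
        if_neg (by have := (Finset.mem_Icc.mp hc).1; omega)]
      simp
    · intro b hb
      rw [Ava_vg]
      have h0 : vg z b = 0 := by
        rw [vg]
        refine Finset.sum_eq_zero fun w hw => ?_
        rw [if_neg]
        rintro ⟨h1, h2⟩
        have h3 := (Nat.mem_divisorsAntidiagonal.mp hw).1
        have h4 : w.1 * w.2 ≤ z * z := Nat.mul_le_mul h1 h2
        rw [h3] at h4
        rw [pow_two] at hb
        omega
      rw [h0, Complex.ofReal_zero, zero_mul]
    · intro b hb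
      rw [Nat.div_eq_of_lt hb, Finset.Icc_eq_empty (by norm_num), Finset.sum_empty, mul_zero]
  · rw [Ava_sum f]
    refine Finset.sum_congr rfl fun m _ => ?_
    rw [Finset.mul_sum]
    refine Finset.sum_congr rfl fun n _ => ?_
    rw [Ava_vh, Ava_vl, mul_assoc]

end Pool.Agent.Lib.MI
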