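import Pool.Agent.Lib.MI.Afi
import Pool.Agent.Lib.MI.Ava
import Pool.Agent.Lib.MI.Aty
import Pool.Agent.Lib.MI.Act
import Pool.Agent.Lib.MI.Abi
import Pool.Agent.Lib.MI.Acl
import Pool.Agent.Lib.MI.Atr
import Pool.Agent.Lib.MI.Anm
import Pool.Agent.Lib.MI.Acb
import Pool.Agent.Lib.MI.Atu
import Pool.Agent.Lib.TB.Tauk
import Pool.Agent.Lib.CO.Vgb

/-! MP_00e23e_nt, directory Lib/MI: chapter A without hypotheses. -/

namespace Pool.Agent.Lib.MI

open Pool.Agent.Lib.TB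

/-- Chapter A, unconditional. -/
theorem tAAll : AAllStmt :=
  tAfi tAva Pool.Agent.Lib.CO.tVgb (tAty tAct) (tAbi tAcl (tAtr tAnm) tAcb (tAtu tTauk)) (tAtu tTauk)

end Pool.Agent.Lib.MI
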