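import Pool.Agent.Lib.MI.SpecF

/-!
# MI, chapter F: module Fab (Abel summation)
-/

namespace Pool.Agent.Lib.MI

open Finset Pool.Agent.Lib.EH3 Pool.Agent.Lib.TB Pool.Agent.Results.MP_00e23e_nt

/-- the sum of `log p * g p` over the primes up to `Y` -/
private noncomputable def Fab_TH (g : ℕ → ℂ) (Y : ℕ) : ℂ :=
  ∑ p ∈ (Icc 1 Y).filter Nat.Prime, ((Real.log p : ℝ) : ℂ) * g p

/-- the weights of the Abel summation -/
private noncomputable def Fab_dl (n : ℕ) : ℝ := 1 / Real.log n - 1 / Real.log ((n + 1 : ℕ) : ℝ)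

private theorem Fab_dl_nonneg (n : ℕ) (hn : 2 ≤ n) : 0 ≤ Fab_dl n := by
  have h1 : (1 : ℝ) < n := by exact_mod_cast (by omega : 1 < n)
  have h2 : 0 < Real.log n := Real.log_pos h1
  have h3 : Real.log n ≤ Real.log ((n + 1 : ℕ) : ℝ) :=
    Real.log_le_log (by linarith) (by push_cast; linarith)
  have h4 := one_div_le_one_div_of_le h2 h3
  unfold Fab_dl
  linarith

private theorem Fab_dl_sum (N : ℕ) (hN : 2 ≤ N) :
    ∑ n ∈ Ico 2 N, Fab_dl n = 1 / Real.log 2 - 1 / Real.log N := by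
  induction N, hN using Nat.le_induction with
  | base => simp
  | succ N hN ih =>
    rw [Finset.sum_Ico_succ_top hN, ih, Fab_dl]
    ring

private theorem Fab_filter_succ (Y : ℕ) :
    (Icc 1 (Y + 1)).filter Nat.Prime =
      if (Y + 1).Prime then insert (Y + 1) ((Icc 1 Y).filter Nat.Prime)
      else (Icc 1 Y).filter Nat.Prime := by
  have h1 : Icc 1 (Y + 1) = insert (Y + 1) (Icc 1 Y) := by
    ext n
    simp only [Finset.mem_insert, Finset.mem_Icc]
    omega
  rw [h1, Finset.filter_insert]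

private theorem Fab_sum_succ (g : ℕ → ℂ) (Y : ℕ) :
    ∑ p ∈ (Icc 1 (Y + 1)).filter Nat.Prime, g p =
      ∑ p ∈ (Icc 1 Y).filter Nat.Prime, g p + (if (Y + 1).Prime then g (Y + 1) else 0) := by
  rw [Fab_filter_succ]
  split_ifs with h
  · rw [Finset.sum_insert, add_comm]
    simp
  · rw [add_zero]

private theorem Fab_abel (g : ℕ → ℂ) (Y : ℕ) (hY : 2 ≤ Y) :
    ∑ p ∈ (Icc 1 Y).filter Nat.Prime, g p = ((1 / Real.log Y : ℝ) : ℂ) * Fab_TH g Y +
      ∑ n ∈ Ico 2 Y, ((Fab_dl n : ℝ) : ℂ) * Fab_TH g n := by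
  induction Y, hY using Nat.le_induction with
  | base =>
    have h1 : (Icc 1 2).filter Nat.Prime = {2} := by decide
    have h2 : ((Real.log 2 : ℝ) : ℂ) ≠ 0 := by
      have := Real.log_pos (by norm_num : (1 : ℝ) < 2)
      exact_mod_cast this.ne'
    rw [Fab_TH, h1, Finset.sum_singleton, Finset.sum_singleton, Finset.Ico_self,
      Finset.sum_empty, add_zero]
    push_cast
    field_simp
  | succ Y hY ih =>
    have h1 : (1 : ℝ) < ((Y + 1 : ℕ) : ℝ) := by exact_mod_cast (by omega : 1 < Y + 1)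
    have h2 : ((Real.log ((Y + 1 : ℕ) : ℝ) : ℝ) : ℂ) ≠ 0 := by
      have := Real.log_pos h1
      exact_mod_cast this.ne'
    have h4 : Fab_TH g (Y + 1) = Fab_TH g Y +
        (if (Y + 1).Prime then ((Real.log ((Y + 1 : ℕ) : ℝ) : ℝ) : ℂ) * g (Y + 1) else 0) := by
      rw [Fab_TH, Fab_TH, Fab_sum_succ]
    rw [Finset.sum_Ico_succ_top hY, Fab_sum_succ, ih, h4, Fab_dl]
    generalize ((Y + 1 : ℕ) : ℝ) = y at *
    generalize g (Y + 1) = c at *
    rw [Complex.ofReal_sub, Complex.ofReal_div 1 (Real.log y), Complex.ofReal_one]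
    split_ifs with h5
    · field_simp
      ring
    · ring

theorem tFab : FabStmt := by
  intro F f Y G hG
  have hl := Real.log_pos (by norm_num : (1 : ℝ) < 2)
  have hG0 : 0 ≤ G := by
    refine le_trans ?_ (hG 0 (Nat.zero_le _))
    exact Finset.sum_nonneg fun q _ => norm_nonneg _
  rcases Nat.lt_or_ge Y 2 with h | h
  · have h1 : (Icc 1 Y).filter Nat.Prime = ∅ := by
      rw [Finset.filter_eq_empty_iff]
      intro p hp hpp
      have := hpp.two_le
      have := (Finset.mem_Icc.1 hp).2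
      omega
    rw [h1]
    simp only [Finset.sum_empty, norm_zero, Finset.sum_const_zero]
    linarith
  · have hlY : 0 < Real.log Y := Real.log_pos (by exact_mod_cast (by omega : 1 < Y))
    have h1 : ∀ q ∈ F, ‖∑ p ∈ (Icc 1 Y).filter Nat.Prime, f q p‖ ≤
        1 / Real.log Y * ‖Fab_TH (f q) Y‖ + ∑ n ∈ Ico 2 Y, Fab_dl n * ‖Fab_TH (f q) n‖ := by
      intro q _
      rw [Fab_abel (f q) Y h]
      refine (norm_add_le _ _).trans (add_le_add ?_ ?_)
      · rw [norm_mul, Complex.norm_real, Real.norm_eq_abs, abs_of_pos (by positivity)]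
      · refine (norm_sum_le _ _).trans (Finset.sum_le_sum fun n hn => ?_)
        rw [norm_mul, Complex.norm_real, Real.norm_eq_abs,
          abs_of_nonneg (Fab_dl_nonneg n (Finset.mem_Ico.1 hn).1)]
    have h2 := Finset.sum_le_sum h1
    rw [Finset.sum_add_distrib, ← Finset.mul_sum, Finset.sum_comm] at h2
    have h3 : 1 / Real.log Y * ∑ q ∈ F, ‖Fab_TH (f q) Y‖ ≤ 1 / Real.log Y * G :=
      mul_le_mul_of_nonneg_left (hG Y le_rfl) (by positivity)
    have h4 : ∑ n ∈ Ico 2 Y, ∑ q ∈ F, Fab_dl n * ‖Fab_TH (f q) n‖ ≤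
        ∑ n ∈ Ico 2 Y, Fab_dl n * G := by
      refine Finset.sum_le_sum fun n hn => ?_
      have hn' := Finset.mem_Ico.1 hn
      rw [← Finset.mul_sum]
      exact mul_le_mul_of_nonneg_left (hG n hn'.2.le) (Fab_dl_nonneg n hn'.1)
    rw [← Finset.sum_mul, Fab_dl_sum Y h] at h4
    have h5 : 1 / Real.log 2 * G ≤ 3 * G := by
      apply mul_le_mul_of_nonneg_right _ hG0
      rw [div_le_iff₀ hl]
      have := Real.log_two_gt_d9
      linarith
    have h6 : (1 / Real.log 2 - 1 / Real.log (Y : ℝ)) * G =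
        1 / Real.log 2 * G - 1 / Real.log (Y : ℝ) * G := by ring
    linarith

end Pool.Agent.Lib.MI
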