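import Pool.Agent.Lib.MI.SpecF

namespace Pool.Agent.Lib.MI

open Finset Pool.Agent.Lib.EH3 Pool.Agent.Lib.TB Pool.Agent.Results.MP_00e23e_nt

private lemma Fbv_log (A κ x : ℝ) (hA : 0 < A) (hκ1 : κ < 1 / 2) (hx : 16 ≤ x) :
    x ^ (1 / 2 + κ) * (Real.log x) ^ (2 : ℝ) ≤
      (1 / ((1 / 2 - κ) / (A + 2)) ^ (A + 2)) * (x / (Real.log x) ^ A) := by
  have hx0 : 0 < x := by linarith
  have hL1 : 1 ≤ Real.log x := by
    rw [Real.le_log_iff_exp_le hx0]
    have := Real.exp_one_lt_d9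
    linarith
  have hL0 : 0 < Real.log x := by linarith
  have hδ : 0 < 1 / 2 - κ := by linarith
  set e : ℝ := (1 / 2 - κ) / (A + 2) with he
  have he0 : 0 < e := by positivity
  have h1 : Real.log x ≤ x ^ e / e := Real.log_le_rpow_div hx0.le he0
  have h2 : (Real.log x) ^ (A + 2) ≤ (x ^ e / e) ^ (A + 2) :=
    Real.rpow_le_rpow hL0.le h1 (by linarith)
  have h3 : (x ^ e / e) ^ (A + 2) = x ^ (1 / 2 - κ) / e ^ (A + 2) := by
    rw [Real.div_rpow (by positivity) he0.le, ← Real.rpow_mul hx0.le]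
    congr 2
    rw [he]
    field_simp
  rw [h3, Real.rpow_add hL0] at h2
  have hLA : 0 < (Real.log x) ^ A := Real.rpow_pos_of_pos hL0 A
  rw [← mul_div_assoc, le_div_iff₀ hLA]
  have h4 : x ^ (1 / 2 + κ) * x ^ (1 / 2 - κ) = x := by
    rw [← Real.rpow_add hx0, show (1 / 2 + κ) + (1 / 2 - κ) = 1 by ring, Real.rpow_one]
  have h5 : 0 ≤ x ^ (1 / 2 + κ) := by positivity
  calc x ^ (1 / 2 + κ) * (Real.log x) ^ (2 : ℝ) * (Real.log x) ^ A
      = x ^ (1 / 2 + κ) * ((Real.log x) ^ A * (Real.log x) ^ (2 : ℝ)) := by ring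
    _ ≤ x ^ (1 / 2 + κ) * (x ^ (1 / 2 - κ) / e ^ (A + 2)) :=
        mul_le_mul_of_nonneg_left h2 h5
    _ = 1 / e ^ (A + 2) * (x ^ (1 / 2 + κ) * x ^ (1 / 2 - κ)) := by ring
    _ = 1 / e ^ (A + 2) * x := by rw [h4]

/-- Bombieri-Vinogradov for functions y, exponent κ below 1/2 -/
private lemma Fbv_ext (h1 : Pool.Agent.Lib.BV.ExtStmt) (A κ : ℝ) (hA : 0 < A) (hκ0 : 0 < κ)
    (hκ1 : κ < 1 / 2) : ∃ C : ℝ, 0 ≤ C ∧ ∀ (x : ℝ) (y : ℕ → ℝ), 16 ≤ x →
      (∀ d, 2 ≤ y d ∧ y d ≤ x) →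
      ∑ d ∈ Icc 1 ⌊x ^ κ⌋₊, maxErr (y d) d ≤ C * (x / (Real.log x) ^ A) := by
  obtain ⟨C0, hC0⟩ := h1 A hA
  have hδ : 0 < 1 / 2 - κ := by linarith
  set E : ℝ := 1 / ((1 / 2 - κ) / (A + 2)) ^ (A + 2) with hE
  have hE0 : 0 ≤ E := by positivity
  refine ⟨(|C0| + 1) * (1 + 4 * E), by positivity, ?_⟩
  intro x y hx hy
  have hx0 : 0 < x := by linarith
  have hL1 : 1 ≤ Real.log x := by
    rw [Real.le_log_iff_exp_le hx0]
    have := Real.exp_one_lt_d9
    linarith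
  have hL0 : 0 < Real.log x := by linarith
  have hq : 0 ≤ x / (Real.log x) ^ A := by positivity
  set D : ℕ := ⌊x ^ κ⌋₊ with hD
  have hD1 : 1 ≤ D := by
    rw [hD, Nat.one_le_floor_iff]
    exact Real.one_le_rpow (by linarith) hκ0.le
  have hD1' : (1 : ℝ) ≤ D := by exact_mod_cast hD1
  have hDx : (D : ℝ) ≤ x ^ κ := Nat.floor_le (by positivity)
  have h2 := hC0 x D y hx hD1 hy
  have hs0 : 0 ≤ Real.sqrt x := Real.sqrt_nonneg x
  have hsx : Real.sqrt x ≤ x := by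
    rw [Real.sqrt_le_left hx0.le]
    nlinarith
  have hK1 : 16 ≤ Pool.Agent.Lib.BV.Kf x D := by
    unfold Pool.Agent.Lib.BV.Kf
    have : 0 ≤ Real.sqrt x / ((D : ℝ) * Real.log x) := by positivity
    linarith
  have hK2 : Pool.Agent.Lib.BV.Kf x D ≤ x ^ 2 := by
    unfold Pool.Agent.Lib.BV.Kf
    have h3 : Real.sqrt x / ((D : ℝ) * Real.log x) ≤ Real.sqrt x := by
      apply div_le_self hs0
      nlinarith
    nlinarith
  have hlK1 : 1 ≤ Real.log (Pool.Agent.Lib.BV.Kf x D) := by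
    rw [Real.le_log_iff_exp_le (by linarith)]
    have := Real.exp_one_lt_d9
    linarith
  have hlK2 : Real.log (Pool.Agent.Lib.BV.Kf x D) ≤ 2 * Real.log x := by
    have h3 := Real.log_le_log (by linarith) hK2
    rw [Real.log_pow] at h3
    exact_mod_cast h3
  have hll1 : 0 ≤ Real.log (Real.log (Pool.Agent.Lib.BV.Kf x D)) := Real.log_nonneg hlK1
  have hll2 : Real.log (Real.log (Pool.Agent.Lib.BV.Kf x D)) ≤ 2 * Real.log x := by
    have h3 := Real.log_le_sub_one_of_pos (show 0 < Real.log (Pool.Agent.Lib.BV.Kf x D) by linarith)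
    linarith
  have h4 : Real.log (Pool.Agent.Lib.BV.Kf x D) * Real.log (Real.log (Pool.Agent.Lib.BV.Kf x D)) ≤
      4 * (Real.log x) ^ (2 : ℝ) := by
    rw [Real.rpow_two]
    calc Real.log (Pool.Agent.Lib.BV.Kf x D) * Real.log (Real.log (Pool.Agent.Lib.BV.Kf x D)) ≤
          (2 * Real.log x) * (2 * Real.log x) :=
          mul_le_mul hlK2 hll2 hll1 (by linarith)
      _ = 4 * (Real.log x) ^ 2 := by ring
  have h5 : Real.sqrt x * D ≤ x ^ (1 / 2 + κ) := by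
    calc Real.sqrt x * D ≤ x ^ ((1 : ℝ) / 2) * x ^ κ := by
          rw [← Real.sqrt_eq_rpow]
          exact mul_le_mul_of_nonneg_left hDx hs0
      _ = x ^ (1 / 2 + κ) := by rw [← Real.rpow_add hx0]
  have h6 : Real.sqrt x * D * (Real.log (Pool.Agent.Lib.BV.Kf x D) *
      Real.log (Real.log (Pool.Agent.Lib.BV.Kf x D))) ≤ 4 * E * (x / (Real.log x) ^ A) := by
    calc Real.sqrt x * D * (Real.log (Pool.Agent.Lib.BV.Kf x D) *
        Real.log (Real.log (Pool.Agent.Lib.BV.Kf x D))) ≤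
          x ^ (1 / 2 + κ) * (4 * (Real.log x) ^ (2 : ℝ)) :=
          mul_le_mul h5 h4 (mul_nonneg (by linarith) hll1) (by positivity)
      _ = 4 * (x ^ (1 / 2 + κ) * (Real.log x) ^ (2 : ℝ)) := by ring
      _ ≤ 4 * (E * (x / (Real.log x) ^ A)) :=
          mul_le_mul_of_nonneg_left (Fbv_log A κ x hA hκ1 hx) (by norm_num)
      _ = 4 * E * (x / (Real.log x) ^ A) := by ring
  have h7 : 0 ≤ Real.sqrt x * D * (Real.log (Pool.Agent.Lib.BV.Kf x D) *
      Real.log (Real.log (Pool.Agent.Lib.BV.Kf x D))) :=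
    mul_nonneg (by positivity) (mul_nonneg (by linarith) hll1)
  have h8 : C0 * (x / (Real.log x) ^ A + Real.sqrt x * D * (Real.log (Pool.Agent.Lib.BV.Kf x D) *
      Real.log (Real.log (Pool.Agent.Lib.BV.Kf x D)))) ≤
      (|C0| + 1) * (x / (Real.log x) ^ A + 4 * E * (x / (Real.log x) ^ A)) := by
    refine mul_le_mul ?_ (by linarith) (by linarith) (by positivity)
    have := le_abs_self C0
    linarith
  refine h2.trans (h8.trans ?_)
  apply le_of_eq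
  ring

open Classical in
/-- a maximizing choice -/
private lemma Fbv_choice (t : ℕ → ℕ) (y : ℕ → ℝ) (M : Finset ℕ) (x : ℝ) (hx : 2 ≤ x)
    (hy : ∀ d, 2 ≤ y d ∧ y d ≤ x) :
    ∃ ys : ℕ → ℝ, (∀ n, 2 ≤ ys n ∧ ys n ≤ x) ∧
      ∀ d ∈ M, maxErr (y d) (t d) ≤ maxErr (ys (t d)) (t d) := by
  have key : ∀ n, ∃ v : ℝ, (2 ≤ v ∧ v ≤ x) ∧ ∀ d ∈ M, t d = n → maxErr (y d) n ≤ maxErr v n := by
    intro n
    rcases (M.filter (fun d => t d = n)).eq_empty_or_nonempty with h | h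
    · refine ⟨2, ⟨le_refl _, hx⟩, ?_⟩
      intro d hd htd
      exfalso
      have : d ∈ M.filter (fun d => t d = n) := mem_filter.mpr ⟨hd, htd⟩
      rw [h] at this
      exact absurd this (notMem_empty _)
    · obtain ⟨d0, hd0, hmax⟩ := exists_max_image _ (fun d => maxErr (y d) n) h
      refine ⟨y d0, hy d0, ?_⟩
      intro d hd htd
      exact hmax d (mem_filter.mpr ⟨hd, htd⟩)
  choose ys hys1 hys2 using key
  exact ⟨ys, hys1, fun d hd => hys2 (t d) d hd rfl⟩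

theorem tFbv (h1 : Pool.Agent.Lib.BV.ExtStmt) (h2 : Pool.Agent.Lib.KF.RseStmt) (h3 : FtnStmt) :
    FbvStmt := by
  intro U hU
  obtain ⟨C1, hC1, hB⟩ := Fbv_ext h1 (U + 2) (1 / 3) (by linarith) (by norm_num) (by norm_num)
  refine ⟨6 * C1, by positivity, ?_⟩
  intro x s t y M hx hy hM
  have hx0 : 0 < x := by linarith
  have hL1 : 1 ≤ Real.log x := by
    rw [Real.le_log_iff_exp_le hx0]
    have := Real.exp_one_lt_d9
    linarith
  have hL0 : 0 < Real.log x := by linarith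
  obtain ⟨ys, hys1, hys2⟩ := Fbv_choice t y M x (by linarith) hy
  have hstep : ∑ d ∈ M, |resErr (y d) (t d) (s d)| / ((d / t d).totient : ℝ) ≤
      ∑ d ∈ M, maxErr (ys (t d)) (t d) / ((d / t d).totient : ℝ) := by
    apply sum_le_sum
    intro d hd
    obtain ⟨hd1, htd, _, _, hg⟩ := hM d hd
    have ht1 : 1 ≤ t d := Nat.pos_of_dvd_of_pos htd (by omega)
    have hgt : Int.gcd (s d) (t d) = 1 := by
      have hdv : Int.gcd (s d) (t d) ∣ Int.gcd (s d) d :=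
        Int.gcd_dvd_gcd_of_dvd_right (s d) (by exact_mod_cast htd)
      rw [hg] at hdv
      exact Nat.dvd_one.mp hdv
    have ha := (h2 (y d) (t d) (s d) ht1 hgt).trans (hys2 d hd)
    exact div_le_div_of_nonneg_right ha (Nat.cast_nonneg _)
  have hF := h3.2 x (x ^ ((1 : ℝ) / 3)) M t (fun n => maxErr (ys n) n) (by linarith)
    (fun n => Pool.Agent.Lib.EH.maxErr_nonneg _ _)
    (fun d hd => ⟨(hM d hd).1, (hM d hd).2.1, (hM d hd).2.2.1, (hM d hd).2.2.2.1⟩)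
  have hBx := hB x ys hx hys1
  have hsplit : (Real.log x) ^ (U + 2) = (Real.log x) ^ U * (Real.log x) ^ 2 := by
    rw [Real.rpow_add hL0, Real.rpow_two]
  calc ∑ d ∈ M, |resErr (y d) (t d) (s d)| / ((d / t d).totient : ℝ)
      ≤ ∑ d ∈ M, maxErr (ys (t d)) (t d) / ((d / t d).totient : ℝ) := hstep
    _ ≤ 6 * Real.log x ^ 2 * ∑ n ∈ Icc 1 ⌊x ^ ((1 : ℝ) / 3)⌋₊, maxErr (ys n) n := hF
    _ ≤ 6 * Real.log x ^ 2 * (C1 * (x / (Real.log x) ^ (U + 2))) :=
        mul_le_mul_of_nonneg_left hBx (by positivity)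
    _ = 6 * C1 * (x / (Real.log x) ^ U) := by
        rw [hsplit]
        have hLU : (Real.log x) ^ U ≠ 0 := (Real.rpow_pos_of_pos hL0 U).ne'
        field_simp

end Pool.Agent.Lib.MI
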