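import Pool.Agent.Lib.MI.SpecF

namespace Pool.Agent.Lib.MI

open Finset Pool.Agent.Lib.EH3 Pool.Agent.Lib.TB Pool.Agent.Results.MP_00e23e_nt

private lemma Fgr_cnt (A B t : ℕ) (s : ℤ) (ht : 1 ≤ t) (hAB : A ≤ B) :
    (((Ioc A B).filter (fun k : ℕ => (t : ℤ) ∣ (k : ℤ) - s)).card : ℝ) ≤
      ((B : ℝ) - A) / t + 1 := by
  have h1 : ((Ioc A B).filter (fun k : ℕ => (t : ℤ) ∣ (k : ℤ) - s)).card ≤
      ((Ioc (A : ℤ) (B : ℤ)).filter (fun x : ℤ => x ≡ s [ZMOD (t : ℤ)])).card := by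
    refine card_le_card_of_injOn (fun k : ℕ => (k : ℤ)) ?_ ?_
    · intro k hk
      have hk1 := mem_filter.1 hk
      have hk2 := mem_Ioc.1 hk1.1
      refine mem_filter.2 ⟨mem_Ioc.2 ⟨Int.ofNat_lt.2 hk2.1, Int.ofNat_le.2 hk2.2⟩, ?_⟩
      exact (Int.modEq_iff_dvd.2 hk1.2).symm
    · intro k _ k' _ h
      have h2 : (k : ℤ) = (k' : ℤ) := h
      exact_mod_cast h2
  have ht0 : (0 : ℤ) < (t : ℤ) := by exact_mod_cast ht
  have htq : (0 : ℚ) < (t : ℚ) := by exact_mod_cast ht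
  have h2 := Int.Ioc_filter_modEq_card (A : ℤ) (B : ℤ) ht0 s
  have h3 : (⌊(((B : ℤ) : ℚ) - (s : ℚ)) / ((t : ℤ) : ℚ)⌋ : ℚ) ≤ ((B : ℚ) - s) / t := by
    have h := Int.floor_le ((((B : ℤ) : ℚ) - (s : ℚ)) / ((t : ℤ) : ℚ))
    push_cast at h ⊢
    exact h
  have h4 : ((A : ℚ) - s) / t - 1 < (⌊(((A : ℤ) : ℚ) - (s : ℚ)) / ((t : ℤ) : ℚ)⌋ : ℚ) := by
    have h := Int.sub_one_lt_floor ((((A : ℤ) : ℚ) - (s : ℚ)) / ((t : ℤ) : ℚ))
    push_cast at h ⊢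
    exact h
  have hABq : (A : ℚ) ≤ (B : ℚ) := by exact_mod_cast hAB
  have h5 : (((Ioc (A : ℤ) (B : ℤ)).filter (fun x : ℤ => x ≡ s [ZMOD (t : ℤ)])).card : ℚ) ≤
      ((B : ℚ) - A) / t + 1 := by
    have h6 : (((Ioc (A : ℤ) (B : ℤ)).filter (fun x : ℤ => x ≡ s [ZMOD (t : ℤ)])).card : ℚ) =
        ((max (⌊(((B : ℤ) : ℚ) - (s : ℚ)) / ((t : ℤ) : ℚ)⌋ -
          ⌊(((A : ℤ) : ℚ) - (s : ℚ)) / ((t : ℤ) : ℚ)⌋) 0 : ℤ) : ℚ) := by
      exact_mod_cast h2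
    rw [h6, Int.cast_max, Int.cast_sub, Int.cast_zero]
    refine max_le ?_ ?_
    · have h7 : ((B : ℚ) - A) / t = ((B : ℚ) - s) / t - ((A : ℚ) - s) / t := by
        rw [← sub_div]
        congr 1
        ring
      rw [h7]
      linarith
    · have h8 : 0 ≤ ((B : ℚ) - A) / t := div_nonneg (by linarith) htq.le
      linarith
  have h6 : (((Ioc A B).filter (fun k : ℕ => (t : ℤ) ∣ (k : ℤ) - s)).card : ℚ) ≤
      ((B : ℚ) - A) / t + 1 := le_trans (by exact_mod_cast h1) h5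
  have h7 := (Rat.cast_le (K := ℝ)).2 h6
  push_cast at h7
  exact h7

private lemma Fgr_mono (A B d : ℕ) (s : ℤ) (h : A ≤ B) :
    (resCount (A : ℝ) d s : ℝ) ≤ resCount (B : ℝ) d s := by
  unfold resCount
  rw [Nat.floor_natCast, Nat.floor_natCast]
  exact_mod_cast card_le_card (filter_subset_filter _ (Icc_subset_Icc_right h))

private lemma Fgr_diff (A B t : ℕ) (s : ℤ) (ht : 1 ≤ t) (h : A ≤ B) :
    (resCount (B : ℝ) t s : ℝ) - resCount (A : ℝ) t s ≤ ((B : ℝ) - A) / t + 1 := by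
  have h1 : resCount (B : ℝ) t s ≤ resCount (A : ℝ) t s +
      ((Ioc A B).filter (fun k : ℕ => (t : ℤ) ∣ (k : ℤ) - s)).card := by
    unfold resCount
    rw [Nat.floor_natCast, Nat.floor_natCast]
    refine le_trans (card_le_card ?_) (card_union_le _ _)
    intro k hk
    have hk1 := mem_filter.1 hk
    have hk2 := mem_Icc.1 hk1.1
    by_cases hkA : k ≤ A
    · exact mem_union_left _ (mem_filter.2 ⟨mem_Icc.2 ⟨hk2.1, hkA⟩, hk1.2⟩)
    · exact mem_union_right _ (mem_filter.2 ⟨mem_Ioc.2 ⟨not_le.1 hkA, hk2.2⟩, hk1.2.2⟩)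
  have h2 : (resCount (B : ℝ) t s : ℝ) ≤ (resCount (A : ℝ) t s : ℝ) +
      (((Ioc A B).filter (fun k : ℕ => (t : ℤ) ∣ (k : ℤ) - s)).card : ℝ) := by
    exact_mod_cast h1
  have h3 := Fgr_cnt A B t s ht h
  linarith

theorem tFgr : FgrStmt := by
  intro x y G d t s hy hyx hG hd htd
  have ht : 1 ≤ t := Nat.pos_of_dvd_of_pos htd hd
  have hφ : (0 : ℝ) < ((d / t).totient : ℝ) := by
    exact_mod_cast Nat.totient_pos.2 (Nat.div_pos (Nat.le_of_dvd hd htd) ht)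
  have hG0 : (0 : ℝ) < (G : ℝ) := by exact_mod_cast hG
  have ht0 : (0 : ℝ) < (t : ℝ) := by exact_mod_cast ht
  have hx0 : 0 ≤ x := by linarith
  have hn2 : 2 ≤ ⌊y⌋₊ := Nat.le_floor (by exact_mod_cast hy)
  have hex : ∃ j : ℕ, ⌊y⌋₊ ≤ ⌊(j : ℝ) * x / G⌋₊ := by
    refine ⟨G, Nat.floor_mono ?_⟩
    rw [mul_div_assoc, mul_div_cancel₀ _ hG0.ne']
    exact hyx
  classical
  obtain ⟨j, hj, hjmin⟩ : ∃ j : ℕ, ⌊y⌋₊ ≤ ⌊(j : ℝ) * x / G⌋₊ ∧
      ∀ i < j, ¬ ⌊y⌋₊ ≤ ⌊(i : ℝ) * x / G⌋₊ :=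
    ⟨Nat.find hex, Nat.find_spec hex, fun i hi => Nat.find_min hex hi⟩
  have hjG : j ≤ G := by
    by_contra h
    refine hjmin G (not_le.1 h) (Nat.floor_mono ?_)
    rw [mul_div_assoc, mul_div_cancel₀ _ hG0.ne']
    exact hyx
  rcases j with _ | i
  · exfalso
    rw [Nat.cast_zero, zero_mul, zero_div, Nat.floor_zero] at hj
    omega
  have hi := not_le.1 (hjmin i (Nat.lt_succ_self i))
  set A := ⌊(i : ℝ) * x / G⌋₊ with hA
  set B := ⌊((i + 1 : ℕ) : ℝ) * x / G⌋₊ with hB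
  have hAB : A ≤ B := hi.le.trans hj
  have hAl : (i : ℝ) * x / G - 1 < (A : ℝ) := Nat.sub_one_lt_floor _
  have hBu : (B : ℝ) ≤ ((i + 1 : ℕ) : ℝ) * x / G := Nat.floor_le (by positivity)
  have hBA : (B : ℝ) - A ≤ x / G + 1 := by
    have h1 : ((i + 1 : ℕ) : ℝ) * x / G = (i : ℝ) * x / G + x / G := by
      push_cast
      ring
    linarith
  have hyr : ∀ e : ℕ, resCount y e s = resCount ((⌊y⌋₊ : ℕ) : ℝ) e s := by
    intro e
    unfold resCount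
    rw [Nat.floor_natCast]
  have hd1 : (resCount (A : ℝ) d s : ℝ) ≤ resCount y d s := by
    rw [hyr]
    exact Fgr_mono A _ d s hi.le
  have hd2 : (resCount y d s : ℝ) ≤ resCount (B : ℝ) d s := by
    rw [hyr]
    exact Fgr_mono _ B d s hj
  have ht1 : (resCount (A : ℝ) t s : ℝ) ≤ resCount y t s := by
    rw [hyr]
    exact Fgr_mono A _ t s hi.le
  have ht2 : (resCount y t s : ℝ) ≤ resCount (B : ℝ) t s := by
    rw [hyr]
    exact Fgr_mono _ B t s hj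
  have hdiff : (resCount (B : ℝ) t s : ℝ) - resCount (A : ℝ) t s ≤ x / ((G : ℝ) * t) + 2 := by
    have h1 := Fgr_diff A B t s ht hAB
    have h2 : ((B : ℝ) - A) / t ≤ (x / G + 1) / t :=
      div_le_div_of_nonneg_right hBA ht0.le
    have h3 : (x / G + 1) / t = x / ((G : ℝ) * t) + 1 / t := by
      rw [add_div, div_div]
    have h4 : 1 / (t : ℝ) ≤ 1 := by
      rw [div_le_one ht0]
      exact_mod_cast ht
    linarith
  have hq : ((resCount (B : ℝ) t s : ℝ) - resCount (A : ℝ) t s) / ((d / t).totient : ℝ) ≤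
      (x / ((G : ℝ) * t) + 2) / ((d / t).totient : ℝ) :=
    div_le_div_of_nonneg_right hdiff hφ.le
  have hq2 : ((resCount (B : ℝ) t s : ℝ) - resCount (A : ℝ) t s) / ((d / t).totient : ℝ) =
      (resCount (B : ℝ) t s : ℝ) / ((d / t).totient : ℝ) -
        (resCount (A : ℝ) t s : ℝ) / ((d / t).totient : ℝ) := sub_div _ _ _
  have hqA : (resCount (A : ℝ) t s : ℝ) / ((d / t).totient : ℝ) ≤
      (resCount y t s : ℝ) / ((d / t).totient : ℝ) := div_le_div_of_nonneg_right ht1 hφ.le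
  have hqB : (resCount y t s : ℝ) / ((d / t).totient : ℝ) ≤
      (resCount (B : ℝ) t s : ℝ) / ((d / t).totient : ℝ) := div_le_div_of_nonneg_right ht2 hφ.le
  have hsA : |df (A : ℝ) d t s| ≤
      ∑ j ∈ range (G + 1), |df (⌊(j : ℝ) * x / G⌋₊ : ℝ) d t s| :=
    single_le_sum (f := fun j : ℕ => |df (⌊(j : ℝ) * x / G⌋₊ : ℝ) d t s|)
      (fun j _ => abs_nonneg _) (mem_range.2 (by omega : i < G + 1))
  have hsB : |df (B : ℝ) d t s| ≤
      ∑ j ∈ range (G + 1), |df (⌊(j : ℝ) * x / G⌋₊ : ℝ) d t s| :=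
    single_le_sum (f := fun j : ℕ => |df (⌊(j : ℝ) * x / G⌋₊ : ℝ) d t s|)
      (fun j _ => abs_nonneg _) (mem_range.2 (by omega : i + 1 < G + 1))
  have hB1 := le_abs_self (df (B : ℝ) d t s)
  have hA1 := neg_abs_le (df (A : ℝ) d t s)
  rw [abs_le]
  unfold df at *
  constructor
  · linarith
  · linarith

end Pool.Agent.Lib.MI
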