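import Pool.Agent.Lib.MI.SpecF

/-!
MP_00e23e_nt, directory Lib/MI, chapter F: the difference of the prime counting functions.
-/

namespace Pool.Agent.Lib.MI

open Finset Pool.Agent.Lib.EH3 Pool.Agent.Lib.TB Pool.Agent.Results.MP_00e23e_nt

private lemma Fpi_res (Y q : ℕ) (a : ℤ) :
    ((resCount (Y : ℝ) q a : ℕ) : ℂ) = ∑ p ∈ (Icc 1 Y).filter Nat.Prime, dl a q p := by
  unfold resCount dl
  rw [Nat.floor_natCast, ← Finset.filter_filter, Finset.card_filter, Nat.cast_sum]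
  refine Finset.sum_congr rfl fun p _ => ?_
  split_ifs <;> simp

private lemma Fpi_inv (n : ℕ) : ‖(1 / (n : ℂ))‖ ≤ 1 := by
  rw [norm_div, norm_one, Complex.norm_natCast]
  rcases Nat.eq_zero_or_pos n with h | h
  · rw [h]
    simp
  · have h1 : (1 : ℝ) ≤ n := by exact_mod_cast h
    rw [div_le_one (by linarith)]
    exact h1

private lemma Fpi_one (Y q t : ℕ) (a : ℤ) (hq : q ≠ 0) (ht : t ∣ q) :
    |df (Y : ℝ) q t a| ≤ ‖∑ p ∈ (Icc 1 Y).filter Nat.Prime, Ek a t q p‖ + (q.divisors.card : ℝ) := by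
  classical
  have h1 : ((df (Y : ℝ) q t a : ℝ) : ℂ) = ∑ p ∈ (Icc 1 Y).filter Nat.Prime, Ek a t q p -
      ∑ p ∈ ((Icc 1 Y).filter Nat.Prime).filter (fun p => ¬ p.Coprime (q / t)),
        (1 / ((q / t).totient : ℂ)) * dl a t p := by
    have h2 : ((df (Y : ℝ) q t a : ℝ) : ℂ) = ((resCount (Y : ℝ) q a : ℕ) : ℂ) -
        ((resCount (Y : ℝ) t a : ℕ) : ℂ) / ((q / t).totient : ℂ) := by
      unfold df
      push_cast
      rfl
    rw [h2, Fpi_res, Fpi_res, Finset.sum_filter (fun p : ℕ => ¬ p.Coprime (q / t)), Finset.sum_div,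
      ← Finset.sum_sub_distrib, ← Finset.sum_sub_distrib]
    refine Finset.sum_congr rfl fun p _ => ?_
    unfold Ek
    by_cases h : p.Coprime (q / t)
    · rw [if_pos h, if_neg (not_not.2 h)]
      ring
    · rw [if_neg h, if_pos h]
      ring
  have h3 : |df (Y : ℝ) q t a| = ‖((df (Y : ℝ) q t a : ℝ) : ℂ)‖ := by
    rw [Complex.norm_real, Real.norm_eq_abs]
  rw [h3, h1]
  refine (norm_sub_le _ _).trans (add_le_add le_rfl ?_)
  refine (norm_sum_le _ _).trans ?_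
  have h4 : ∑ p ∈ ((Icc 1 Y).filter Nat.Prime).filter (fun p => ¬ p.Coprime (q / t)),
        ‖(1 / ((q / t).totient : ℂ)) * dl a t p‖ ≤
      ∑ p ∈ ((Icc 1 Y).filter Nat.Prime).filter (fun p => ¬ p.Coprime (q / t)), (1 : ℝ) := by
    refine Finset.sum_le_sum fun p _ => ?_
    rw [norm_mul, dl_nonneg_norm]
    have h5 := Fpi_inv (q / t).totient
    split_ifs
    · rw [mul_one]
      exact h5
    · rw [mul_zero]
      norm_num
  refine h4.trans ?_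
  rw [Finset.sum_const, nsmul_eq_mul, mul_one]
  have h6 : ((Icc 1 Y).filter Nat.Prime).filter (fun p => ¬ p.Coprime (q / t)) ⊆ q.divisors := by
    intro p hp
    rw [Finset.mem_filter, Finset.mem_filter] at hp
    have h7 : p ∣ q / t := by
      by_contra h8
      exact hp.2 ((hp.1.2.coprime_iff_not_dvd).2 h8)
    exact Nat.mem_divisors.2 ⟨h7.trans (Nat.div_dvd_of_dvd ht), hq⟩
  exact_mod_cast Finset.card_le_card h6

theorem tFpi (h1 : FthStmt) (h2 : FabStmt) (h3 : AtuStmt) : FpiStmt := by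
  intro α τ κ κ0 hα hτ hτ' hcore hκ0 hκ
  obtain ⟨η1, C1, x1, hη1, hC1, hx1, hF⟩ := h1 α τ κ κ0 hα hτ hτ' hcore hκ0 hκ
  obtain ⟨CT, hCT, hTau⟩ := h3 (1 / 100) 1 (by norm_num) (by norm_num)
  refine ⟨min η1 (1 / 10), 3 * C1 + CT, x1, lt_min hη1 (by norm_num), by linarith, hx1, ?_⟩
  intro x a b c Y F t hx hb hc hcx hY hFq
  have hx0 : (1 : ℝ) ≤ x := by linarith
  have hT := hTau x hx0
  rw [Real.rpow_one] at hT
  have hsq : ∀ q ∈ F, q ≠ 0 ∧ t q ∣ q ∧ (q : ℝ) ≤ x ^ ((3 : ℝ) / 5) := by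
    intro q hq
    obtain ⟨hM, _⟩ := hFq q hq
    exact ⟨hM.1.ne_zero, hM.2.1, hM.2.2.1.trans (Real.rpow_le_rpow_of_exponent_le hx0 hα)⟩
  have hle : x ^ ((3 : ℝ) / 5) ≤ x := by
    calc x ^ ((3 : ℝ) / 5) ≤ x ^ (1 : ℝ) := Real.rpow_le_rpow_of_exponent_le hx0 (by norm_num)
      _ = x := Real.rpow_one x
  -- cardinality
  have hcard : (F.card : ℝ) ≤ x ^ ((3 : ℝ) / 5) := by
    have h4 : F ⊆ Icc 1 ⌊x ^ ((3 : ℝ) / 5)⌋₊ := by
      intro q hq
      obtain ⟨h5, _, h6⟩ := hsq q hq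
      rw [Finset.mem_Icc]
      exact ⟨Nat.one_le_iff_ne_zero.2 h5, Nat.le_floor h6⟩
    have h7 := Finset.card_le_card h4
    rw [Nat.card_Icc, Nat.add_sub_cancel] at h7
    have h8 : (F.card : ℝ) ≤ (⌊x ^ ((3 : ℝ) / 5)⌋₊ : ℝ) := by exact_mod_cast h7
    exact h8.trans (Nat.floor_le (by positivity))
  -- the main part
  have hmain : ∑ q ∈ F, ‖∑ p ∈ (Icc 1 Y).filter Nat.Prime, Ek a (t q) q p‖ ≤ 3 * (C1 * x ^ (1 - η1)) := by
    refine h2 F (fun q p => Ek a (t q) q p) Y (C1 * x ^ (1 - η1)) ?_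
    intro n hn
    have hnx : (n : ℝ) ≤ x := by
      have : (n : ℝ) ≤ Y := by exact_mod_cast hn
      linarith
    exact hF x a b c n F t hx hb hc hcx hnx hFq
  have hsum : ∑ q ∈ F, |df (Y : ℝ) q (t q) a| ≤
      ∑ q ∈ F, (‖∑ p ∈ (Icc 1 Y).filter Nat.Prime, Ek a (t q) q p‖ + CT * x ^ ((1 : ℝ) / 100)) := by
    refine Finset.sum_le_sum fun q hq => ?_
    obtain ⟨h5, h6, h7⟩ := hsq q hq
    refine (Fpi_one Y q (t q) a h5 h6).trans (add_le_add le_rfl ?_)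
    exact hT.2.2 q (Nat.one_le_iff_ne_zero.2 h5) (h7.trans hle)
  rw [Finset.sum_add_distrib, Finset.sum_const, nsmul_eq_mul] at hsum
  have hxp : (0 : ℝ) < x ^ ((1 : ℝ) / 100) := by positivity
  have h8 : (F.card : ℝ) * (CT * x ^ ((1 : ℝ) / 100)) ≤ CT * x ^ (1 - min η1 (1 / 10)) := by
    calc (F.card : ℝ) * (CT * x ^ ((1 : ℝ) / 100)) ≤ x ^ ((3 : ℝ) / 5) * (CT * x ^ ((1 : ℝ) / 100)) :=
          mul_le_mul_of_nonneg_right hcard (by positivity)
      _ = CT * (x ^ ((3 : ℝ) / 5) * x ^ ((1 : ℝ) / 100)) := by ring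
      _ = CT * x ^ ((3 : ℝ) / 5 + 1 / 100) := by rw [← Real.rpow_add (by linarith)]
      _ ≤ CT * x ^ (1 - min η1 (1 / 10)) := by
          refine mul_le_mul_of_nonneg_left ?_ (by linarith)
          refine Real.rpow_le_rpow_of_exponent_le hx0 ?_
          have := min_le_right η1 (1 / 10)
          linarith
  have h9 : 3 * (C1 * x ^ (1 - η1)) ≤ 3 * C1 * x ^ (1 - min η1 (1 / 10)) := by
    rw [← mul_assoc]
    refine mul_le_mul_of_nonneg_left ?_ (by linarith)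
    refine Real.rpow_le_rpow_of_exponent_le hx0 ?_
    have := min_le_left η1 (1 / 10)
    linarith
  calc ∑ q ∈ F, |df (Y : ℝ) q (t q) a| ≤ _ := hsum
    _ ≤ 3 * (C1 * x ^ (1 - η1)) + CT * x ^ (1 - min η1 (1 / 10)) := add_le_add hmain h8
    _ ≤ 3 * C1 * x ^ (1 - min η1 (1 / 10)) + CT * x ^ (1 - min η1 (1 / 10)) := by linarith
    _ = (3 * C1 + CT) * x ^ (1 - min η1 (1 / 10)) := by ring

end Pool.Agent.Lib.MI
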