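import Pool.Agent.Lib.MI.SpecF

/-! MP_00e23e_nt, Lib/MI: module Fth (tFth : FthStmt), from Λ to the primes with weights log p. -/

namespace Pool.Agent.Lib.MI

open Finset Pool.Agent.Lib.EH3 Pool.Agent.Lib.TB Pool.Agent.Results.MP_00e23e_nt

private lemma Fth_Ek (a : ℤ) (t q n : ℕ) :
    ‖Ek a t q n‖ ≤ (if (q : ℤ) ∣ (n : ℤ) - a then (1 : ℝ) else 0) + 1 / ((q / t).totient : ℝ) := by
  have h0 : (0 : ℝ) ≤ 1 / ((q / t).totient : ℝ) := by positivity
  unfold Ek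
  refine (norm_sub_le _ _).trans (add_le_add ?_ ?_)
  · rw [dl_nonneg_norm]
  · split_ifs with h
    · rw [norm_mul, dl_nonneg_norm]
      have h1 : ‖(1 / ((q / t).totient : ℂ))‖ = 1 / ((q / t).totient : ℝ) := by
        rw [norm_div, norm_one, Complex.norm_natCast]
      rw [h1]
      split_ifs
      · rw [mul_one]
      · rw [mul_zero]
        exact h0
    · rw [norm_zero]
      exact h0

private lemma Fth_cnt {X T : ℝ} (hT : Tau X T) (F : Finset ℕ) (a b : ℤ) (c n : ℕ)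
    (hF : ∀ q ∈ F, (q : ℤ) ∣ (c : ℤ) * a - b) (hne : (c : ℤ) * n - b ≠ 0)
    (hX : |((c : ℝ) * n - b)| ≤ X) :
    ((F.filter (fun q : ℕ => (q : ℤ) ∣ (n : ℤ) - a)).card : ℝ) ≤ T := by
  have hsub : F.filter (fun q : ℕ => (q : ℤ) ∣ (n : ℤ) - a) ⊆ (((c : ℤ) * n - b).natAbs).divisors := by
    intro q hq
    rw [mem_filter] at hq
    rw [Nat.mem_divisors]
    refine ⟨?_, by rwa [Int.natAbs_ne_zero]⟩
    have h1 : (q : ℤ) ∣ (c : ℤ) * n - b := by
      have h2 : (c : ℤ) * n - b = (c : ℤ) * ((n : ℤ) - a) + ((c : ℤ) * a - b) := by ring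
      rw [h2]
      exact dvd_add (dvd_mul_of_dvd_right hq.2 _) (hF q hq.1)
    exact Int.natCast_dvd.1 h1
  have h3 : ((F.filter (fun q : ℕ => (q : ℤ) ∣ (n : ℤ) - a)).card : ℝ) ≤
      ((((c : ℤ) * n - b).natAbs).divisors.card : ℝ) := by
    exact_mod_cast card_le_card hsub
  refine h3.trans (hT.2.2 _ ?_ ?_)
  · exact Nat.one_le_iff_ne_zero.2 (by rwa [Int.natAbs_ne_zero])
  · rw [Nat.cast_natAbs]
    push_cast
    exact hX

private lemma Fth_first {X T x : ℝ} (hT : Tau X T) (hx : 3 ≤ x) (hX : X = x ^ (3 : ℕ)) (F N : Finset ℕ)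
    (a b : ℤ) (c : ℕ) (hF : ∀ q ∈ F, (q : ℤ) ∣ (c : ℤ) * a - b) (hc : 1 ≤ c) (hcx : (c : ℝ) ≤ x)
    (hb : |(b : ℝ)| ≤ x) (hN : ∀ n ∈ N, 1 ≤ n ∧ (n : ℝ) ≤ x) :
    ∑ n ∈ N, ArithmeticFunction.vonMangoldt n * ((F.filter (fun q : ℕ => (q : ℤ) ∣ (n : ℤ) - a)).card : ℝ) ≤
      T * ∑ n ∈ N, ArithmeticFunction.vonMangoldt n + T * (F.card : ℝ) := by
  have hT0 : 0 ≤ T := by linarith [hT.1]
  have hlogT : Real.log x ≤ T := by
    have h1 := hT.2.1
    have h2 : Real.log X = 3 * Real.log x := by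
      rw [hX, Real.log_pow]
      norm_num
    have h3 : 0 ≤ Real.log x := Real.log_nonneg (by linarith)
    rw [h2] at h1
    linarith
  have hpt : ∀ n ∈ N, ArithmeticFunction.vonMangoldt n *
      ((F.filter (fun q : ℕ => (q : ℤ) ∣ (n : ℤ) - a)).card : ℝ) ≤
      T * ArithmeticFunction.vonMangoldt n + (if (c : ℤ) * n - b = 0 then T * (F.card : ℝ) else 0) := by
    intro n hn
    have hL0 : 0 ≤ ArithmeticFunction.vonMangoldt n := ArithmeticFunction.vonMangoldt_nonneg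
    have hn1 : (1 : ℝ) ≤ n := by exact_mod_cast (hN n hn).1
    split_ifs with h0
    · have hL : ArithmeticFunction.vonMangoldt n ≤ T := by
        refine ArithmeticFunction.vonMangoldt_le_log.trans (le_trans ?_ hlogT)
        exact Real.log_le_log (by linarith) (hN n hn).2
      have h4 : ((F.filter (fun q : ℕ => (q : ℤ) ∣ (n : ℤ) - a)).card : ℝ) ≤ (F.card : ℝ) := by
        exact_mod_cast card_le_card (filter_subset _ _)
      have h5 := mul_le_mul hL h4 (by positivity) hT0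
      have h6 : 0 ≤ T * ArithmeticFunction.vonMangoldt n := mul_nonneg hT0 hL0
      linarith
    · have h4 := Fth_cnt hT F a b c n hF h0 ?_
      · have h5 := mul_le_mul_of_nonneg_left h4 hL0
        linarith [mul_comm T (ArithmeticFunction.vonMangoldt n)]
      · rw [hX]
        have hc0 : (0 : ℝ) ≤ c := by positivity
        have h6 : (c : ℝ) * n ≤ x * x := mul_le_mul hcx (hN n hn).2 (by linarith) (by linarith)
        have h7 : |(c : ℝ) * n - b| ≤ |(c : ℝ) * n| + |(b : ℝ)| := abs_sub _ _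
        have h8 : |(c : ℝ) * n| = (c : ℝ) * n := abs_of_nonneg (by positivity)
        have h9 : x * x + x ≤ x ^ 3 := by nlinarith [mul_nonneg (by linarith : (0 : ℝ) ≤ x) (by linarith : (0 : ℝ) ≤ x)]
        linarith
  have hone : ∑ n ∈ N, (if (c : ℤ) * n - b = 0 then T * (F.card : ℝ) else 0) ≤ T * (F.card : ℝ) := by
    rw [← sum_filter, sum_const, nsmul_eq_mul]
    have hcard : (N.filter (fun n : ℕ => (c : ℤ) * n - b = 0)).card ≤ 1 := by
      rw [card_le_one]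
      intro n hn m hm
      rw [mem_filter] at hn hm
      have h1 : (c : ℤ) * n = (c : ℤ) * m := by linarith [hn.2, hm.2]
      have hc0 : (c : ℤ) ≠ 0 := by
        have : (1 : ℤ) ≤ c := by exact_mod_cast hc
        omega
      have h2 := mul_left_cancel₀ hc0 h1
      exact_mod_cast h2
    have hcard' : ((N.filter (fun n : ℕ => (c : ℤ) * n - b = 0)).card : ℝ) ≤ 1 := by exact_mod_cast hcard
    have h3 : 0 ≤ T * (F.card : ℝ) := mul_nonneg hT0 (by positivity)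
    nlinarith
  calc _ ≤ ∑ n ∈ N, (T * ArithmeticFunction.vonMangoldt n +
        (if (c : ℤ) * n - b = 0 then T * (F.card : ℝ) else 0)) := sum_le_sum hpt
    _ = T * ∑ n ∈ N, ArithmeticFunction.vonMangoldt n +
        ∑ n ∈ N, (if (c : ℤ) * n - b = 0 then T * (F.card : ℝ) else 0) := by
        rw [sum_add_distrib, mul_sum]
    _ ≤ _ := by linarith

private lemma Fth_pt (F : Finset ℕ) (t : ℕ → ℕ) (a : ℤ) (Y : ℕ) (G L : ℝ)
    (hG : ∑ q ∈ F, ‖∑ n ∈ Icc 1 Y, (ArithmeticFunction.vonMangoldt n : ℂ) * Ek a (t q) q n‖ ≤ G)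
    (hL : ∑ n ∈ (Icc 1 Y).filter (fun n => ¬ n.Prime), ArithmeticFunction.vonMangoldt n ≤ L) :
    ∑ q ∈ F, ‖∑ p ∈ (Icc 1 Y).filter Nat.Prime, ((Real.log p : ℝ) : ℂ) * Ek a (t q) q p‖ ≤
      G + (∑ n ∈ (Icc 1 Y).filter (fun n => ¬ n.Prime), ArithmeticFunction.vonMangoldt n *
        ((F.filter (fun q : ℕ => (q : ℤ) ∣ (n : ℤ) - a)).card : ℝ)) +
        (∑ q ∈ F, 1 / ((q / t q).totient : ℝ)) * L := by
  have hpt : ∀ q ∈ F, ‖∑ p ∈ (Icc 1 Y).filter Nat.Prime, ((Real.log p : ℝ) : ℂ) * Ek a (t q) q p‖ ≤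
      ‖∑ n ∈ Icc 1 Y, (ArithmeticFunction.vonMangoldt n : ℂ) * Ek a (t q) q n‖ +
      (∑ n ∈ (Icc 1 Y).filter (fun n => ¬ n.Prime), ArithmeticFunction.vonMangoldt n *
        (if (q : ℤ) ∣ (n : ℤ) - a then (1 : ℝ) else 0)) + 1 / ((q / t q).totient : ℝ) * L := by
    intro q _
    have e1 : ∑ p ∈ (Icc 1 Y).filter Nat.Prime, ((Real.log p : ℝ) : ℂ) * Ek a (t q) q p =
        (∑ n ∈ Icc 1 Y, (ArithmeticFunction.vonMangoldt n : ℂ) * Ek a (t q) q n) -
        ∑ n ∈ (Icc 1 Y).filter (fun n => ¬ n.Prime), (ArithmeticFunction.vonMangoldt n : ℂ) * Ek a (t q) q n := by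
      rw [eq_sub_iff_add_eq, ← sum_filter_add_sum_filter_not (Icc 1 Y) Nat.Prime
        (fun n => (ArithmeticFunction.vonMangoldt n : ℂ) * Ek a (t q) q n)]
      congr 1
      refine sum_congr rfl fun p hp => ?_
      rw [mem_filter] at hp
      rw [ArithmeticFunction.vonMangoldt_apply_prime hp.2]
    rw [e1]
    refine (norm_sub_le _ _).trans ?_
    rw [add_assoc]
    refine add_le_add le_rfl ?_
    refine (norm_sum_le _ _).trans ?_
    have e2 : ∀ n ∈ (Icc 1 Y).filter (fun n => ¬ n.Prime),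
        ‖(ArithmeticFunction.vonMangoldt n : ℂ) * Ek a (t q) q n‖ ≤
        ArithmeticFunction.vonMangoldt n * (if (q : ℤ) ∣ (n : ℤ) - a then (1 : ℝ) else 0) +
        1 / ((q / t q).totient : ℝ) * ArithmeticFunction.vonMangoldt n := by
      intro n _
      have hL0 : 0 ≤ ArithmeticFunction.vonMangoldt n := ArithmeticFunction.vonMangoldt_nonneg
      rw [norm_mul, Complex.norm_real, Real.norm_of_nonneg hL0]
      have h1 := mul_le_mul_of_nonneg_left (Fth_Ek a (t q) q n) hL0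
      linarith [mul_comm (1 / ((q / t q).totient : ℝ)) (ArithmeticFunction.vonMangoldt n)]
    refine (sum_le_sum e2).trans ?_
    rw [sum_add_distrib, ← mul_sum]
    have h0 : (0 : ℝ) ≤ 1 / ((q / t q).totient : ℝ) := by positivity
    have h2 := mul_le_mul_of_nonneg_left hL h0
    linarith
  refine (sum_le_sum hpt).trans ?_
  rw [sum_add_distrib, sum_add_distrib, ← sum_mul]
  have e3 : ∑ q ∈ F, ∑ n ∈ (Icc 1 Y).filter (fun n => ¬ n.Prime), ArithmeticFunction.vonMangoldt n *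
        (if (q : ℤ) ∣ (n : ℤ) - a then (1 : ℝ) else 0) =
      ∑ n ∈ (Icc 1 Y).filter (fun n => ¬ n.Prime), ArithmeticFunction.vonMangoldt n *
        ((F.filter (fun q : ℕ => (q : ℤ) ∣ (n : ℤ) - a)).card : ℝ) := by
    rw [sum_comm]
    refine sum_congr rfl fun n _ => ?_
    rw [← mul_sum, ← sum_filter, sum_const, nsmul_eq_mul, mul_one]
  rw [e3]
  linarith

theorem tFth (h1 : FtpStmt) (h2 : FtnStmt) (h3 : AtuStmt) : FthStmt := by
  classical
  intro α τ κ κ0 hα hτ0 hτ hCore hκ0 hκ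
  obtain ⟨η1, C1, x1, hη1, hC⟩ := hCore κ0 hκ0 hκ
  obtain ⟨Cp, hCp0, hCp⟩ := h1
  obtain ⟨CT, hCT1, hCT⟩ := h3 (1 / 100) 3 (by norm_num) (by norm_num)
  refine ⟨min η1 (1 / 10), |C1| + 10 ^ 4 * CT * Cp + CT + 6 * 10 ^ 8 * Cp, max x1 3, ?_, ?_, le_max_right _ _, ?_⟩
  · exact lt_min hη1 (by norm_num)
  · positivity
  intro x a b c Y F t hx hb hc hcx hYx hF
  have hx1 : x1 ≤ x := le_trans (le_max_left _ _) hx
  have hx3 : 3 ≤ x := le_trans (le_max_right _ _) hx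
  have hx0 : 0 ≤ x := by linarith
  have hxp : 0 < x := by linarith
  have hx1' : 1 ≤ x := by linarith
  -- powers
  set E : ℝ := x ^ ((1 : ℝ) / 300) with hE
  have hE1 : 1 ≤ E := Real.one_le_rpow hx1' (by norm_num)
  have hE0 : 0 ≤ E := by linarith
  have hpw : ∀ (k : ℕ) (s : ℝ), s = (k : ℝ) / 300 → x ^ s = E ^ k := by
    intro k s hs
    rw [hE, ← Real.rpow_natCast, ← Real.rpow_mul hx0, hs]
    congr 1
    ring
  have p100 : x ^ ((1 : ℝ) / 100) = E ^ 3 := hpw 3 _ (by norm_num)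
  have p12 : Real.sqrt x = E ^ 150 := by
    rw [Real.sqrt_eq_rpow]
    exact hpw 150 _ (by norm_num)
  have p13 : x ^ ((1 : ℝ) / 3) = E ^ 100 := hpw 100 _ (by norm_num)
  have p35 : x ^ ((3 : ℝ) / 5) = E ^ 180 := hpw 180 _ (by norm_num)
  have p910 : x ^ ((9 : ℝ) / 10) = E ^ 270 := hpw 270 _ (by norm_num)
  have hlog0 : 0 ≤ Real.log x := Real.log_nonneg hx1'
  have hlog : Real.log x ≤ 100 * E ^ 3 := by
    have h4 := Real.log_le_rpow_div hx0 (by norm_num : (0 : ℝ) < 1 / 100)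
    rw [p100] at h4
    linarith
  have hlog2 : Real.log x ^ 2 ≤ 10 ^ 4 * E ^ 6 := by
    have h4 := pow_le_pow_left₀ hlog0 hlog 2
    calc Real.log x ^ 2 ≤ (100 * E ^ 3) ^ 2 := h4
      _ = 10 ^ 4 * E ^ 6 := by ring
  -- the sum over the non-primes
  set N := (Icc 1 Y).filter (fun n => ¬ n.Prime) with hN
  set L : ℝ := Cp * (E ^ 150 * (10 ^ 4 * E ^ 6)) with hLdef
  have hL0 : 0 ≤ L := by positivity
  have hLam : ∑ n ∈ N, ArithmeticFunction.vonMangoldt n ≤ L := by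
    refine (hCp Y).trans ?_
    rw [hLdef]
    refine mul_le_mul_of_nonneg_left ?_ hCp0
    have hY0 : (0 : ℝ) ≤ Y := by positivity
    have hs : Real.sqrt Y ≤ E ^ 150 := by
      rw [← p12]
      exact Real.sqrt_le_sqrt hYx
    have hl : Real.log Y ^ 2 ≤ 10 ^ 4 * E ^ 6 := by
      refine le_trans ?_ hlog2
      have h4 : 0 ≤ Real.log Y := Real.log_natCast_nonneg Y
      refine pow_le_pow_left₀ h4 ?_ 2
      rcases Nat.eq_zero_or_pos Y with h0 | h0
      · rw [h0, Nat.cast_zero, Real.log_zero]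
        exact hlog0
      · exact Real.log_le_log (by exact_mod_cast h0) hYx
    exact mul_le_mul hs hl (by positivity) (by positivity)
  -- CoreStmt
  have hG := hC x a b c Y F t hx1 hb hc hcx hYx hF
  have key := Fth_pt F t a Y (C1 * x ^ (1 - η1)) L hG hLam
  -- T
  set T : ℝ := CT * x ^ ((1 : ℝ) / 100) with hTdef
  have hTau : Tau (x ^ (3 : ℝ)) T := hCT x hx1'
  have hT1 : 1 ≤ T := hTau.1
  have hcard : (F.card : ℝ) ≤ E ^ 180 := by
    have hsub : F ⊆ Icc 1 ⌊x ^ ((3 : ℝ) / 5)⌋₊ := by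
      intro q hq
      have h4 := (hF q hq).1
      rw [mem_Icc]
      refine ⟨Nat.one_le_iff_ne_zero.2 h4.1.ne_zero, Nat.le_floor ?_⟩
      exact h4.2.2.1.trans (Real.rpow_le_rpow_of_exponent_le hx1' hα)
    have h5 := card_le_card hsub
    rw [Nat.card_Icc, Nat.add_sub_cancel] at h5
    have h6 : (F.card : ℝ) ≤ (⌊x ^ ((3 : ℝ) / 5)⌋₊ : ℝ) := by exact_mod_cast h5
    rw [← p35]
    exact h6.trans (Nat.floor_le (by positivity))
  have hfirst := Fth_first (X := x ^ (3 : ℝ)) hTau hx3 (by exact_mod_cast (Real.rpow_natCast x 3)) F N a b c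
    (fun q hq => (hF q hq).2.2) hc hcx
    (hb.trans (by
      calc x ^ ((9 : ℝ) / 10) ≤ x ^ (1 : ℝ) := Real.rpow_le_rpow_of_exponent_le hx1' (by norm_num)
        _ = x := Real.rpow_one x))
    (fun n hn => by
      rw [hN, mem_filter, mem_Icc] at hn
      refine ⟨hn.1.1, le_trans ?_ hYx⟩
      exact_mod_cast hn.1.2)
  -- the second part
  have hphi : ∑ q ∈ F, 1 / ((q / t q).totient : ℝ) ≤ 6 * (10 ^ 4 * E ^ 6) * E ^ 100 := by
    have h4 := h2.2 x (x ^ ((1 : ℝ) / 3)) F t (fun _ => 1) hx3 (fun _ => by norm_num) (by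
      intro d hd
      have h5 := (hF d hd).1
      refine ⟨Nat.one_le_iff_ne_zero.2 h5.1.ne_zero, h5.2.1, ?_, ?_⟩
      · calc (d : ℝ) ≤ x ^ α := h5.2.2.1
          _ ≤ x ^ (1 : ℝ) := Real.rpow_le_rpow_of_exponent_le hx1' (by linarith)
          _ = x := Real.rpow_one x
      · exact h5.2.2.2.1.trans (Real.rpow_le_rpow_of_exponent_le hx1' hτ))
    refine h4.trans ?_
    rw [sum_const, Nat.card_Icc, Nat.add_sub_cancel, nsmul_eq_mul, mul_one]
    have h6 : ((⌊x ^ ((1 : ℝ) / 3)⌋₊ : ℕ) : ℝ) ≤ E ^ 100 := by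
      rw [← p13]
      exact Nat.floor_le (by positivity)
    exact mul_le_mul (by linarith) h6 (by positivity) (by positivity)
  -- the powers of x
  have hη : x ^ ((9 : ℝ) / 10) ≤ x ^ (1 - min η1 (1 / 10)) := by
    refine Real.rpow_le_rpow_of_exponent_le hx1' ?_
    have := min_le_right η1 ((1 : ℝ) / 10)
    linarith
  rw [p910] at hη
  have hη' : x ^ (1 - η1) ≤ x ^ (1 - min η1 (1 / 10)) := by
    refine Real.rpow_le_rpow_of_exponent_le hx1' ?_
    have := min_le_left η1 ((1 : ℝ) / 10)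
    linarith
  have hA : C1 * x ^ (1 - η1) ≤ |C1| * x ^ (1 - min η1 (1 / 10)) := by
    have h7 : 0 ≤ x ^ (1 - η1) := by positivity
    calc C1 * x ^ (1 - η1) ≤ |C1| * x ^ (1 - η1) := mul_le_mul_of_nonneg_right (le_abs_self _) h7
      _ ≤ _ := mul_le_mul_of_nonneg_left hη' (abs_nonneg _)
  have hB1 : T * ∑ n ∈ N, ArithmeticFunction.vonMangoldt n ≤ 10 ^ 4 * CT * Cp * E ^ 270 := by
    calc T * ∑ n ∈ N, ArithmeticFunction.vonMangoldt n ≤ T * L := mul_le_mul_of_nonneg_left hLam (by linarith)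
      _ = 10 ^ 4 * CT * Cp * E ^ 159 := by
          rw [hTdef, hLdef, p100]
          ring
      _ ≤ 10 ^ 4 * CT * Cp * E ^ 270 :=
          mul_le_mul_of_nonneg_left (pow_le_pow_right₀ hE1 (by norm_num)) (by positivity)
  have hB2 : T * (F.card : ℝ) ≤ CT * E ^ 270 := by
    calc T * (F.card : ℝ) ≤ T * E ^ 180 := mul_le_mul_of_nonneg_left hcard (by linarith)
      _ = CT * E ^ 183 := by
          rw [hTdef, p100]
          ring
      _ ≤ CT * E ^ 270 := mul_le_mul_of_nonneg_left (pow_le_pow_right₀ hE1 (by norm_num)) (by positivity)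
  have hB3 : (∑ q ∈ F, 1 / ((q / t q).totient : ℝ)) * L ≤ 6 * 10 ^ 8 * Cp * E ^ 270 := by
    calc (∑ q ∈ F, 1 / ((q / t q).totient : ℝ)) * L ≤ 6 * (10 ^ 4 * E ^ 6) * E ^ 100 * L :=
          mul_le_mul_of_nonneg_right hphi hL0
      _ = 6 * 10 ^ 8 * Cp * E ^ 262 := by
          rw [hLdef]
          ring
      _ ≤ 6 * 10 ^ 8 * Cp * E ^ 270 :=
          mul_le_mul_of_nonneg_left (pow_le_pow_right₀ hE1 (by norm_num)) (by positivity)
  have hfin : (10 ^ 4 * CT * Cp + CT + 6 * 10 ^ 8 * Cp) * E ^ 270 ≤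
      (10 ^ 4 * CT * Cp + CT + 6 * 10 ^ 8 * Cp) * x ^ (1 - min η1 (1 / 10)) :=
    mul_le_mul_of_nonneg_left hη (by positivity)
  calc _ ≤ _ := key
    _ ≤ |C1| * x ^ (1 - min η1 (1 / 10)) + (10 ^ 4 * CT * Cp * E ^ 270 + CT * E ^ 270) +
        6 * 10 ^ 8 * Cp * E ^ 270 := by linarith
    _ = |C1| * x ^ (1 - min η1 (1 / 10)) + (10 ^ 4 * CT * Cp + CT + 6 * 10 ^ 8 * Cp) * E ^ 270 := by ring
    _ ≤ |C1| * x ^ (1 - min η1 (1 / 10)) +
        (10 ^ 4 * CT * Cp + CT + 6 * 10 ^ 8 * Cp) * x ^ (1 - min η1 (1 / 10)) := by linarith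
    _ = _ := by ring

end Pool.Agent.Lib.MI
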