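import Pool.Agent.Lib.MI.SpecF

/-!
MP_00e23e_nt, directory Lib/MI, chapter F, module Ftn (sums of 1/φ).
-/

namespace Pool.Agent.Lib.MI

open Finset Pool.Agent.Lib.EH3 Pool.Agent.Lib.TB Pool.Agent.Results.MP_00e23e_nt

private lemma Ftn_one {x : ℝ} (hx : 3 ≤ x) {u : ℕ} (hu : u ∈ Icc 1 ⌊x⌋₊) :
    1 / (u.totient : ℝ) ≤ (1 + 2 * Real.log x) * (1 / (u : ℝ)) := by
  obtain ⟨h1, h2⟩ := mem_Icc.1 hu
  have hu0 : (0 : ℝ) < u := by exact_mod_cast h1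
  have hux : (u : ℝ) ≤ x := (Nat.le_floor_iff (by linarith)).1 h2
  have hphi : (0 : ℝ) < u.totient := by exact_mod_cast Nat.totient_pos.2 h1
  have h3 := Pool.Agent.Lib.EH.le_totient u
  have h4 := Pool.Agent.Lib.EH.card_primeFactors_le h1
  have h5 : Real.log u ≤ Real.log x := Real.log_le_log hu0 hux
  have h6 : (u : ℝ) ≤ (1 + 2 * Real.log x) * u.totient := by
    refine h3.trans (mul_le_mul_of_nonneg_right ?_ hphi.le)
    linarith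
  rw [mul_one_div, div_le_div_iff₀ hphi hu0, one_mul]
  exact h6

private lemma Ftn_sum {x : ℝ} (hx : 3 ≤ x) :
    ∑ u ∈ Icc 1 ⌊x⌋₊, 1 / (u.totient : ℝ) ≤ 6 * Real.log x ^ 2 := by
  have hL : 1 ≤ Real.log x := by
    rw [Real.le_log_iff_exp_le (by linarith)]
    have := Real.exp_one_lt_d9
    linarith
  have h1 : ∑ u ∈ Icc 1 ⌊x⌋₊, 1 / (u.totient : ℝ) ≤
      ∑ u ∈ Icc 1 ⌊x⌋₊, (1 + 2 * Real.log x) * (1 / (u : ℝ)) :=
    sum_le_sum fun u hu => Ftn_one hx hu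
  rw [← mul_sum] at h1
  have h2 : ∑ u ∈ Icc 1 ⌊x⌋₊, (1 / (u : ℝ)) ≤ 1 + Real.log x := by
    have h3 := harmonic_le_one_add_log ⌊x⌋₊
    rw [harmonic_eq_sum_Icc] at h3
    push_cast at h3
    have h4 : Real.log ⌊x⌋₊ ≤ Real.log x := by
      refine Real.log_le_log ?_ (Nat.floor_le (by linarith))
      have : 1 ≤ ⌊x⌋₊ := (Nat.one_le_floor_iff x).2 (by linarith)
      exact_mod_cast this
    have h5 : ∑ u ∈ Icc 1 ⌊x⌋₊, (1 / (u : ℝ)) = ∑ u ∈ Icc 1 ⌊x⌋₊, ((u : ℝ))⁻¹ :=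
      sum_congr rfl fun u _ => one_div _
    rw [h5]
    linarith
  have h3 : (1 + 2 * Real.log x) * ∑ u ∈ Icc 1 ⌊x⌋₊, (1 / (u : ℝ)) ≤
      (1 + 2 * Real.log x) * (1 + Real.log x) := mul_le_mul_of_nonneg_left h2 (by linarith)
  nlinarith

theorem tFtn : FtnStmt := by
  refine ⟨fun x hx => Ftn_sum hx, ?_⟩
  intro x Z F t g hx hg hF
  have hinj : Set.InjOn (fun d => (t d, d / t d)) (F : Set ℕ) := by
    intro a ha b hb hab
    have h1 : t a = t b := congrArg Prod.fst hab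
    have h2 : a / t a = b / t b := congrArg Prod.snd hab
    have h3 := Nat.mul_div_cancel' (hF a ha).2.1
    have h4 := Nat.mul_div_cancel' (hF b hb).2.1
    rw [← h3, ← h4, h2, h1]
  have h1 : ∑ d ∈ F, g (t d) / ((d / t d).totient : ℝ) =
      ∑ p ∈ F.image (fun d => (t d, d / t d)), g p.1 / (p.2.totient : ℝ) := by
    rw [sum_image hinj]
  have h2 : F.image (fun d => (t d, d / t d)) ⊆ Icc 1 ⌊Z⌋₊ ×ˢ Icc 1 ⌊x⌋₊ := by
    intro p hp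
    obtain ⟨d, hd, rfl⟩ := mem_image.1 hp
    obtain ⟨a1, a2, a3, a4⟩ := hF d hd
    have b1 : 1 ≤ t d := Nat.pos_of_dvd_of_pos a2 a1
    have b2 : 1 ≤ d / t d := Nat.div_pos (Nat.le_of_dvd a1 a2) b1
    rw [mem_product, mem_Icc, mem_Icc]
    refine ⟨⟨b1, Nat.le_floor a4⟩, b2, Nat.le_floor ?_⟩
    refine le_trans ?_ a3
    exact_mod_cast Nat.div_le_self d (t d)
  rw [h1]
  refine (sum_le_sum_of_subset_of_nonneg h2 fun p _ _ =>
    div_nonneg (hg _) (Nat.cast_nonneg _)).trans ?_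
  rw [sum_product]
  have h3 : ∀ n ∈ Icc 1 ⌊Z⌋₊, ∑ u ∈ Icc 1 ⌊x⌋₊, g (n, u).1 / (((n, u).2).totient : ℝ) ≤
      6 * Real.log x ^ 2 * g n := by
    intro n _
    have h4 : ∑ u ∈ Icc 1 ⌊x⌋₊, g (n, u).1 / (((n, u).2).totient : ℝ) =
        g n * ∑ u ∈ Icc 1 ⌊x⌋₊, 1 / (u.totient : ℝ) := by
      rw [mul_sum]
      exact sum_congr rfl fun u _ => by rw [mul_one_div]
    rw [h4, mul_comm]
    exact mul_le_mul_of_nonneg_right (Ftn_sum hx) (hg n)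
  refine (sum_le_sum h3).trans ?_
  rw [← mul_sum]

end Pool.Agent.Lib.MI
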