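import Pool.Agent.Lib.MI.SpecF

/-!
MP_00e23e_nt, directory Lib/MI, chapter F, module Ftp: prime powers.
-/

namespace Pool.Agent.Lib.MI

open Finset Pool.Agent.Lib.EH3 Pool.Agent.Lib.TB Pool.Agent.Results.MP_00e23e_nt

theorem tFtp : FtpStmt := by
  refine ⟨3, by norm_num, ?_⟩
  intro Y
  have hI : Icc 1 Y = Ioc 0 Y := by
    ext n
    simp only [mem_Icc, mem_Ioc]
    omega
  rcases Nat.eq_zero_or_pos Y with h0 | hY
  · subst h0
    simp
  · have h1 : (1 : ℝ) ≤ (Y : ℝ) := by exact_mod_cast hY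
    have h2 := Chebyshev.psi_sub_theta_eq_sum_not_prime (Y : ℝ)
    rw [Nat.floor_natCast] at h2
    have h3 := Chebyshev.psi_sub_theta_le h1
    rw [hI, ← h2]
    refine h3.trans ?_
    have h4 : Real.log (Y : ℝ) ≤ 3 / 2 * Real.log (Y : ℝ) ^ 2 := by
      rcases Nat.lt_or_ge Y 2 with h5 | h5
      · have h6 : Y = 1 := by omega
        subst h6
        simp
      · have h6 : Real.log 2 ≤ Real.log (Y : ℝ) :=
          Real.log_le_log (by norm_num) (by exact_mod_cast h5)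
        have h7 : (0.6931471803 : ℝ) < Real.log 2 := Real.log_two_gt_d9
        nlinarith
    have h5 : 0 ≤ Real.sqrt (Y : ℝ) := Real.sqrt_nonneg _
    calc 2 * Real.sqrt (Y : ℝ) * Real.log (Y : ℝ)
        ≤ 2 * Real.sqrt (Y : ℝ) * (3 / 2 * Real.log (Y : ℝ) ^ 2) :=
          mul_le_mul_of_nonneg_left h4 (by positivity)
      _ = 3 * (Real.sqrt (Y : ℝ) * Real.log (Y : ℝ) ^ 2) := by ring

end Pool.Agent.Lib.MI
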