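import Pool.Agent.Lib.MI.Atu
import Pool.Agent.Lib.MI.Ava
import Pool.Agent.Lib.MI.Act
import Pool.Agent.Lib.MI.Aty
import Pool.Agent.Lib.MI.Anm
import Pool.Agent.Lib.MI.Acl
import Pool.Agent.Lib.MI.Atr
import Pool.Agent.Lib.MI.Acb
import Pool.Agent.Lib.MI.Abi
import Pool.Agent.Lib.MI.Afi
import Pool.Agent.Lib.MI.Ftn
import Pool.Agent.Lib.MI.Ftp
import Pool.Agent.Lib.MI.Fth
import Pool.Agent.Lib.MI.Fab
import Pool.Agent.Lib.MI.Fpi
import Pool.Agent.Lib.MI.Fcr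
import Pool.Agent.Lib.MI.Fgr
import Pool.Agent.Lib.MI.Fps
import Pool.Agent.Lib.MI.Fbv
import Pool.Agent.Lib.MI.Fmi
import Pool.Agent.Lib.CO.Vgb
import Pool.Agent.Lib.TB.Tauk
import Pool.Agent.Lib.KF.Rse
import Pool.Agent.Lib.BV.All

/-! MP_00e23e_nt, Lib/MI: chapters A and F, assembled. -/

namespace Pool.Agent.Lib.MI

theorem aAtu : AtuStmt := tAtu Pool.Agent.Lib.TB.tTauk
theorem aAty : AtyStmt := tAty tAct
theorem aAtr : AtrStmt := tAtr tAnm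
theorem aAbi : AbiStmt := tAbi tAcl aAtr tAcb aAtu

/-- Chapter A. -/
theorem aAAll : AAllStmt := tAfi tAva Pool.Agent.Lib.CO.tVgb aAty aAbi aAtu

theorem aFth : FthStmt := tFth tFtp tFtn aAtu
theorem aFpi : FpiStmt := tFpi aFth tFab aAtu
theorem aFps : FpsStmt := tFps aFpi tFcr tFgr tFtn
theorem aFbv : FbvStmt := tFbv Pool.Agent.Lib.BV.aExt Pool.Agent.Lib.KF.tRse tFtn

/-- Chapter F. -/
theorem aFAll : FAllStmt := tFmi aFps aFbv

end Pool.Agent.Lib.MI
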