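import Pool.Agent.Lib.MI.SpecD

namespace Pool.Agent.Lib.MI

open Finset Pool.Agent.Lib.EH3 Pool.Agent.Lib.TB Pool.Agent.Results.MP_00e23e_nt

private theorem Dca_phase (z : ℂ) : ∃ u : ℂ, ‖u‖ ≤ 1 ∧ u * z = ((‖z‖ : ℝ) : ℂ) := by
  by_cases hz : z = 0
  · exact ⟨0, by simp, by simp [hz]⟩
  · have hn : (‖z‖ : ℝ) ≠ 0 := norm_ne_zero_iff.2 hz
    have hc : ((‖z‖ : ℝ) : ℂ) ≠ 0 := by exact_mod_cast hn
    refine ⟨(starRingEnd ℂ) z / ((‖z‖ : ℝ) : ℂ), ?_, ?_⟩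
    · rw [norm_div, RCLike.norm_conj, Complex.norm_real, norm_norm, div_self hn]
    · rw [div_mul_eq_mul_div, mul_comm, Complex.mul_conj, Complex.normSq_eq_norm_sq]
      push_cast
      field_simp

theorem tDca (h1 : DtrStmt) : DcaStmt := by
  classical
  intro a R S M N P α β hM hP hα
  choose u hu1 hu2 using Dca_phase
  let Z : ℕ × ℕ → ℂ := fun w => ∑ m ∈ Ioc M (2 * M), ∑ n ∈ Ioc N (2 * N), α m * β n * Dl a w.1 w.2 (m * n)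
  let c : ℕ × ℕ → ℂ := fun w => if w ∈ P then u (Z w) else 0
  have hc1 : ∀ w, ‖c w‖ ≤ 1 := by
    intro w
    show ‖(if w ∈ P then u (Z w) else 0 : ℂ)‖ ≤ 1
    split_ifs
    · exact hu1 _
    · simp
  have hc2 : ∀ w, w ∉ P → c w = 0 := by
    intro w hw
    show (if w ∈ P then u (Z w) else 0 : ℂ) = 0
    rw [if_neg hw]
  refine ⟨c, hc1, hc2, ?_⟩
  let B : ℕ → ℕ → ℂ := fun r m => ∑ s ∈ Ioc S (2 * S), c (r, s) * ∑ n ∈ Ioc N (2 * N), β n * Dl a r s (m * n)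
  have hsub : P ⊆ Ioc R (2 * R) ×ˢ Ioc S (2 * S) := by
    intro w hw
    obtain ⟨p1, p2, p3, p4⟩ := hP w hw
    exact mem_product.2 ⟨mem_Ioc.2 ⟨p1, p2⟩, mem_Ioc.2 ⟨p3, p4⟩⟩
  have e1 : ((∑ w ∈ P, ‖Z w‖ : ℝ) : ℂ) = ∑ r ∈ Ioc R (2 * R), ∑ m ∈ Ioc M (2 * M), α m * B r m := by
    have e2 : ((∑ w ∈ P, ‖Z w‖ : ℝ) : ℂ) = ∑ w ∈ P, c w * Z w := by
      push_cast
      refine sum_congr rfl fun w hw => ?_
      show _ = (if w ∈ P then u (Z w) else 0 : ℂ) * Z w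
      rw [if_pos hw, hu2]
    have e3 : ∑ w ∈ P, c w * Z w = ∑ w ∈ Ioc R (2 * R) ×ˢ Ioc S (2 * S), c w * Z w :=
      sum_subset hsub fun w _ hw => by rw [hc2 w hw, zero_mul]
    rw [e2, e3, sum_product]
    refine sum_congr rfl fun r _ => ?_
    show ∑ s ∈ Ioc S (2 * S), c (r, s) *
      (∑ m ∈ Ioc M (2 * M), ∑ n ∈ Ioc N (2 * N), α m * β n * Dl a r s (m * n)) =
      ∑ m ∈ Ioc M (2 * M), α m * ∑ s ∈ Ioc S (2 * S), c (r, s) * ∑ n ∈ Ioc N (2 * N), β n * Dl a r s (m * n)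
    simp_rw [mul_sum]
    rw [sum_comm]
    refine sum_congr rfl fun m _ => sum_congr rfl fun s _ => sum_congr rfl fun n _ => ?_
    ring
  have e4 : ∑ w ∈ P, ‖Z w‖ ≤ ∑ x ∈ Ioc R (2 * R) ×ˢ Ioc M (2 * M), ‖B x.1 x.2‖ := by
    have h0 : 0 ≤ ∑ w ∈ P, ‖Z w‖ := sum_nonneg fun _ _ => norm_nonneg _
    have h2 : ∑ w ∈ P, ‖Z w‖ = ‖((∑ w ∈ P, ‖Z w‖ : ℝ) : ℂ)‖ := by
      rw [Complex.norm_real, Real.norm_of_nonneg h0]
    rw [h2, e1, sum_product]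
    refine (norm_sum_le _ _).trans (sum_le_sum fun r _ => (norm_sum_le _ _).trans
      (sum_le_sum fun m _ => ?_))
    rw [norm_mul]
    calc ‖α m‖ * ‖B r m‖ ≤ 1 * ‖B r m‖ := mul_le_mul_of_nonneg_right (hα m) (norm_nonneg _)
      _ = ‖B r m‖ := one_mul _
  have e5 : (∑ w ∈ P, ‖Z w‖) ^ 2 ≤ (R : ℝ) * M * ∑ x ∈ Ioc R (2 * R) ×ˢ Ioc M (2 * M), ‖B x.1 x.2‖ ^ 2 := by
    have h0 : 0 ≤ ∑ w ∈ P, ‖Z w‖ := sum_nonneg fun _ _ => norm_nonneg _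
    refine (pow_le_pow_left₀ h0 e4 2).trans ?_
    have h3 := sq_sum_le_card_mul_sum_sq (s := Ioc R (2 * R) ×ˢ Ioc M (2 * M)) (f := fun x => ‖B x.1 x.2‖)
    have h4 : ((#(Ioc R (2 * R) ×ˢ Ioc M (2 * M)) : ℕ) : ℝ) = (R : ℝ) * M := by
      rw [card_product, Nat.card_Ioc, Nat.card_Ioc, show 2 * R - R = R by omega, show 2 * M - M = M by omega]
      push_cast
      ring
    rw [h4] at h3
    exact h3
  refine e5.trans (mul_le_mul_of_nonneg_left ?_ (by positivity))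
  rw [sum_product]
  refine sum_le_sum fun r _ => ?_
  exact (h1 M (fun m => ‖B r m‖ ^ 2) hM fun m => by positivity).1

end Pool.Agent.Lib.MI
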