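import Pool.Agent.Lib.MI.SpecD

/-!
MP_00e23e_nt, directory Lib/MI, module Dea: the bad terms, both full.
-/

namespace Pool.Agent.Lib.MI

open Finset Pool.Agent.Lib.EH3 Pool.Agent.Lib.TB Pool.Agent.Results.MP_00e23e_nt

private lemma Dea_cnt (q N n1 : ℕ) (hq : 1 ≤ q) :
    (((Ioc N (2 * N)).filter (fun n2 : ℕ => (q : ℤ) ∣ (n2 : ℤ) - n1)).card : ℝ) ≤ (N : ℝ) / q + 1 := by
  have h1 : (Ioc N (2 * N)).filter (fun n2 : ℕ => (q : ℤ) ∣ (n2 : ℤ) - n1) =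
      (Ioc N (2 * N)).filter (fun n2 : ℕ => n2 ≡ n1 [MOD q]) := by
    refine Finset.filter_congr fun x _ => ?_
    rw [Nat.modEq_iff_dvd, ← dvd_neg]
    rw [neg_sub]
  have hr0 : 0 < q := by omega
  have h2 := Nat.Ioc_filter_modEq_card N (2 * N) hr0 n1
  rw [h1]
  have h3 : ((((Ioc N (2 * N)).filter (fun n2 : ℕ => n2 ≡ n1 [MOD q])).card : ℤ) : ℚ) ≤
      (N : ℚ) / q + 1 := by
    rw [h2]
    have h4 : (0 : ℚ) ≤ (N : ℚ) / q + 1 := by positivity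
    have h5 := Int.floor_le ((((2 * N : ℕ) : ℚ) - n1) / (q : ℚ))
    have h6 := Int.lt_floor_add_one (((N : ℚ) - n1) / (q : ℚ))
    have h7 : (((2 * N : ℕ) : ℚ) - n1) / (q : ℚ) - ((N : ℚ) - n1) / (q : ℚ) = (N : ℚ) / q := by
      push_cast
      ring
    rw [Int.cast_max]
    refine max_le ?_ (by simpa using h4)
    push_cast at h5 h6 h7 ⊢
    linarith
  have h9 : ((((Ioc N (2 * N)).filter (fun n2 : ℕ => n2 ≡ n1 [MOD q])).card : ℚ) : ℝ) ≤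
      (((N : ℚ) / q + 1 : ℚ) : ℝ) := by
    exact_mod_cast h3
  push_cast at h9
  exact h9

/-- the arithmetic of a nonzero term -/
private lemma Dea_ar {a b : ℤ} {c R S : ℕ} {z : ℝ} {P : Finset (ℕ × ℕ)} (hP : Pr a b c R S z P)
    {r s1 s2 n1 n2 m : ℕ} (hB : Bd a P r s1 s2 n1 n2) (h1 : ((r * s1 : ℕ) : ℤ) ∣ ((m * n1 : ℕ) : ℤ) - a)
    (h2 : ((r * s2 : ℕ) : ℤ) ∣ ((m * n2 : ℕ) : ℤ) - a) :
    ∃ p ∈ s1.primeFactors, z < (p : ℝ) ∧ ((r * p : ℕ) : ℤ) ∣ (n2 : ℤ) - n1 := by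
  obtain ⟨hB1, hB2, hB3⟩ := hB
  obtain ⟨_, _, hs1, _, sq1, fr1, pr1⟩ := hP _ hB1
  obtain ⟨_, _, _, _, sq2, fr2, _⟩ := hP _ hB2
  simp only at sq1 sq2 fr1 fr2 pr1 hs1
  have key : ∀ (q t : ℕ), Int.gcd a (q : ℤ) = 1 → (q : ℤ) ∣ (t : ℤ) - a → t.Coprime q := by
    intro q t hq ht
    have h3 : (Nat.gcd t q : ℤ) ∣ a := by
      have h4 : (Nat.gcd t q : ℤ) ∣ (t : ℤ) := Int.natCast_dvd_natCast.2 (Nat.gcd_dvd_left _ _)
      have h5 : (Nat.gcd t q : ℤ) ∣ (t : ℤ) - a :=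
        (Int.natCast_dvd_natCast.2 (Nat.gcd_dvd_right _ _)).trans ht
      have h6 := dvd_sub h4 h5
      rwa [sub_sub_cancel] at h6
    have h7 : Nat.gcd t q ∣ Int.gcd a (q : ℤ) :=
      Int.dvd_gcd h3 (Int.natCast_dvd_natCast.2 (Nat.gcd_dvd_right _ _))
    rw [hq] at h7
    exact Nat.dvd_one.1 h7
  have g1 : Int.gcd a ((r * s1 : ℕ) : ℤ) = 1 := fr1.1
  have g2 : Int.gcd a ((r * s2 : ℕ) : ℤ) = 1 := fr2.1
  have c1 := key _ _ g1 h1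
  have c2 := key _ _ g2 h2
  have cm : m.Coprime (r * s1) := Nat.Coprime.coprime_dvd_left (dvd_mul_right _ _) c1
  have cn1 : n1.Coprime (r * s1) := Nat.Coprime.coprime_dvd_left (dvd_mul_left _ _) c1
  have cn2 : n2.Coprime (r * s2) := Nat.Coprime.coprime_dvd_left (dvd_mul_left _ _) c2
  -- divisibility of the difference by a common divisor of the two moduli
  have hdv : ∀ q : ℕ, q ∣ r * s1 → q ∣ r * s2 → (q : ℤ) ∣ (n2 : ℤ) - n1 := by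
    intro q hq1 hq2
    have e1 : (q : ℤ) ∣ ((m * n1 : ℕ) : ℤ) - a := (Int.natCast_dvd_natCast.2 hq1).trans h1
    have e2 : (q : ℤ) ∣ ((m * n2 : ℕ) : ℤ) - a := (Int.natCast_dvd_natCast.2 hq2).trans h2
    have h3 := dvd_sub e2 e1
    have h4 : ((m * n2 : ℕ) : ℤ) - a - (((m * n1 : ℕ) : ℤ) - a) = (m : ℤ) * ((n2 : ℤ) - n1) := by
      push_cast
      ring
    rw [h4] at h3
    have h5 : IsCoprime (q : ℤ) (m : ℤ) :=
      (Nat.isCoprime_iff_coprime.2 (Nat.Coprime.coprime_dvd_right hq1 cm)).symm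
    exact h5.dvd_of_dvd_mul_left h3
  have hnc : ¬ s1.Coprime s2 := fun hc =>
    hB3 ⟨⟨sq1, sq2, hc, cn1, cn2, g1, g2⟩, hdv r (dvd_mul_right _ _) (dvd_mul_right _ _)⟩
  obtain ⟨p, hp, hp1, hp2⟩ := Nat.Prime.not_coprime_iff_dvd.1 hnc
  refine ⟨p, ?_, pr1 p hp hp1, hdv (r * p) (Nat.mul_dvd_mul_left _ hp1) (Nat.mul_dvd_mul_left _ hp2)⟩
  rw [Nat.mem_primeFactors]
  exact ⟨hp, hp1, by omega⟩

open Classical in
theorem tDea (h1 : DndStmt) : DeaStmt := by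
  intro X T z a b c R S M N P hSz hP
  obtain ⟨hT, hz, hc, hR, hS, hN, hM, hRN, hX, hb⟩ := hSz
  have hT1 : 1 ≤ T := hT.1
  have hR' : (1 : ℝ) ≤ R := by exact_mod_cast hR
  have hS' : (1 : ℝ) ≤ S := by exact_mod_cast hS
  have hN' : (1 : ℝ) ≤ N := by exact_mod_cast hN
  have hM' : (8 : ℝ) ≤ M := by exact_mod_cast hM
  have hc' : (1 : ℝ) ≤ c := by exact_mod_cast hc
  have hz0 : 0 < z := by linarith
  have hR0 : (0 : ℝ) < R := by linarith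
  have hX2 : 2 * (S : ℝ) ≤ X := by
    refine le_trans ?_ hX
    have e1 : (S : ℝ) ≤ (S : ℝ) ^ 4 := le_self_pow₀ hS' (by norm_num)
    have e2 : (1 : ℝ) ≤ (N : ℝ) ^ 2 := one_le_pow₀ hN'
    have e3 : (1 : ℝ) ≤ (M : ℝ) ^ 2 := one_le_pow₀ (by linarith)
    have e4 : (1 : ℝ) ≤ (R : ℝ) ^ 2 := one_le_pow₀ hR'
    calc 2 * (S : ℝ) ≤ 100 * 1 * 1 * 1 * 1 * S := by linarith
      _ ≤ 100 * (c : ℝ) * (M : ℝ) ^ 2 * (N : ℝ) ^ 2 * (R : ℝ) ^ 2 * (S : ℝ) ^ 4 := by gcongr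
  set W : ℝ := (N : ℝ) / ((R : ℝ) * z) + 1 with hW
  have hW0 : 0 ≤ W := by positivity
  set K : ℝ := T * W * T ^ 2 with hK
  have hK0 : 0 ≤ K := by positivity
  -- termwise
  have hterm : ∀ m r s1 s2 n1 n2 : ℕ,
      (if Bd a P r s1 s2 n1 n2 then D1 a r s1 (m * n1) * D1 a r s2 (m * n2) else 0) ≤
      if ((r, s1) ∈ P ∧ ((r * s1 : ℕ) : ℤ) ∣ ((m * n1 : ℕ) : ℤ) - a) then
        (if (∃ p ∈ s1.primeFactors, z < (p : ℝ) ∧ ((r * p : ℕ) : ℤ) ∣ (n2 : ℤ) - n1) then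
          (if ((r, s2) ∈ P ∧ ((r * s2 : ℕ) : ℤ) ∣ ((m * n2 : ℕ) : ℤ) - a) then (1 : ℝ) else 0)
          else 0) else 0 := by
    intro m r s1 s2 n1 n2
    have hnn : (0 : ℝ) ≤ if ((r, s1) ∈ P ∧ ((r * s1 : ℕ) : ℤ) ∣ ((m * n1 : ℕ) : ℤ) - a) then
        (if (∃ p ∈ s1.primeFactors, z < (p : ℝ) ∧ ((r * p : ℕ) : ℤ) ∣ (n2 : ℤ) - n1) then
          (if ((r, s2) ∈ P ∧ ((r * s2 : ℕ) : ℤ) ∣ ((m * n2 : ℕ) : ℤ) - a) then (1 : ℝ) else 0)
          else 0) else 0 := by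
      split_ifs <;> positivity
    by_cases hB : Bd a P r s1 s2 n1 n2
    · rw [if_pos hB]
      unfold D1
      by_cases ha : ((r * s1 : ℕ) : ℤ) ∣ ((m * n1 : ℕ) : ℤ) - a
      · by_cases hb' : ((r * s2 : ℕ) : ℤ) ∣ ((m * n2 : ℕ) : ℤ) - a
        · have k1 := Dea_ar hP hB ha hb'
          rw [if_pos ha, if_pos hb', if_pos ⟨hB.1, ha⟩, if_pos k1, if_pos ⟨hB.2.1, hb'⟩]
          simp
        · rw [if_neg hb']
          simpa using hnn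
      · rw [if_neg ha]
        simpa using hnn
    · rw [if_neg hB]
      exact hnn
  -- the number of (r, s) for given m, n
  have hPc : ∀ m n : ℕ, m ∈ Icc (M / 2) (3 * M) → n ∈ Ioc N (2 * N) →
      ((P.filter (fun w => ((w.1 * w.2 : ℕ) : ℤ) ∣ ((m * n : ℕ) : ℤ) - a)).card : ℝ) ≤ T ^ 2 := by
    intro m n hm hn
    rw [mem_Icc] at hm
    rw [mem_Ioc] at hn
    exact (h1 X T z a b c R S M N m n P ⟨hT, hz, hc, hR, hS, hN, hM, hRN, hX, hb⟩ hP hm.1 hm.2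
      hn.1 hn.2).1
  -- sum over s2
  have hs2 : ∀ m r n2 : ℕ, m ∈ Icc (M / 2) (3 * M) → n2 ∈ Ioc N (2 * N) →
      ∑ s2 ∈ Ioc S (2 * S),
        (if ((r, s2) ∈ P ∧ ((r * s2 : ℕ) : ℤ) ∣ ((m * n2 : ℕ) : ℤ) - a) then (1 : ℝ) else 0) ≤ T ^ 2 := by
    intro m r n2 hm hn2
    rw [← Finset.sum_filter, Finset.sum_const, nsmul_eq_mul, mul_one]
    refine le_trans ?_ (hPc m n2 hm hn2)
    norm_cast
    refine Finset.card_le_card_of_injOn (fun s2 => (r, s2)) ?_ ?_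
    · intro s2 hs
      rw [Finset.mem_coe, mem_filter] at hs
      rw [Finset.mem_coe, mem_filter]
      exact hs.2
    · intro x _ y _ hxy
      exact (Prod.mk.inj hxy).2
  -- the number of n2
  have hn2c : ∀ r s1 n1 : ℕ, R < r → s1 ∈ Ioc S (2 * S) →
      (((Ioc N (2 * N)).filter (fun n2 : ℕ =>
        ∃ p ∈ s1.primeFactors, z < (p : ℝ) ∧ ((r * p : ℕ) : ℤ) ∣ (n2 : ℤ) - n1)).card : ℝ) ≤ T * W := by
    intro r s1 n1 hr hs1
    rw [mem_Ioc] at hs1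
    have e1 : (Ioc N (2 * N)).filter (fun n2 : ℕ =>
        ∃ p ∈ s1.primeFactors, z < (p : ℝ) ∧ ((r * p : ℕ) : ℤ) ∣ (n2 : ℤ) - n1) ⊆
        (s1.primeFactors.filter (fun p : ℕ => z < (p : ℝ))).biUnion (fun p =>
          (Ioc N (2 * N)).filter (fun n2 : ℕ => ((r * p : ℕ) : ℤ) ∣ (n2 : ℤ) - n1)) := by
      intro n2 hn2
      rw [mem_filter] at hn2
      obtain ⟨hn, p, hp, hzp, hd⟩ := hn2
      rw [mem_biUnion]
      exact ⟨p, mem_filter.2 ⟨hp, hzp⟩, mem_filter.2 ⟨hn, hd⟩⟩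
    have e2 : (((Ioc N (2 * N)).filter (fun n2 : ℕ =>
        ∃ p ∈ s1.primeFactors, z < (p : ℝ) ∧ ((r * p : ℕ) : ℤ) ∣ (n2 : ℤ) - n1)).card : ℝ) ≤
        ∑ p ∈ s1.primeFactors.filter (fun p : ℕ => z < (p : ℝ)),
          (((Ioc N (2 * N)).filter (fun n2 : ℕ => ((r * p : ℕ) : ℤ) ∣ (n2 : ℤ) - n1)).card : ℝ) := by
      have := (Finset.card_le_card e1).trans Finset.card_biUnion_le
      exact_mod_cast this
    refine e2.trans ?_
    have e3 : ∀ p ∈ s1.primeFactors.filter (fun p : ℕ => z < (p : ℝ)),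
        (((Ioc N (2 * N)).filter (fun n2 : ℕ => ((r * p : ℕ) : ℤ) ∣ (n2 : ℤ) - n1)).card : ℝ) ≤ W := by
      intro p hp
      rw [mem_filter, Nat.mem_primeFactors] at hp
      obtain ⟨⟨hpp, _, _⟩, hzp⟩ := hp
      have f1 : 1 ≤ r * p := Nat.one_le_iff_ne_zero.2 (Nat.mul_ne_zero (by omega) hpp.ne_zero)
      refine (Dea_cnt (r * p) N n1 f1).trans ?_
      rw [hW]
      have f2 : (R : ℝ) * z ≤ ((r * p : ℕ) : ℝ) := by
        push_cast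
        have f3 : (R : ℝ) ≤ r := by exact_mod_cast hr.le
        exact mul_le_mul f3 hzp.le hz0.le (Nat.cast_nonneg _)
      have f4 : (N : ℝ) / ((r * p : ℕ) : ℝ) ≤ (N : ℝ) / ((R : ℝ) * z) :=
        div_le_div_of_nonneg_left (Nat.cast_nonneg _) (by positivity) f2
      linarith
    refine (Finset.sum_le_sum e3).trans ?_
    rw [Finset.sum_const, nsmul_eq_mul]
    refine mul_le_mul_of_nonneg_right ?_ hW0
    have e4 : (s1.divisors.card : ℝ) ≤ T := by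
      refine hT.2.2 s1 (by omega) ?_
      refine le_trans ?_ hX2
      exact_mod_cast hs1.2
    refine le_trans ?_ e4
    norm_cast
    refine Finset.card_le_card fun p hp => ?_
    rw [mem_filter, Nat.mem_primeFactors] at hp
    rw [Nat.mem_divisors]
    exact ⟨hp.1.2.1, hp.1.2.2⟩
  -- sum over s2, n2 for fixed m, r, s1, n1
  have hin : ∀ m r s1 n1 : ℕ, m ∈ Icc (M / 2) (3 * M) → R < r → s1 ∈ Ioc S (2 * S) →
      ∑ n2 ∈ Ioc N (2 * N), ∑ s2 ∈ Ioc S (2 * S),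
        (if ((r, s1) ∈ P ∧ ((r * s1 : ℕ) : ℤ) ∣ ((m * n1 : ℕ) : ℤ) - a) then
        (if (∃ p ∈ s1.primeFactors, z < (p : ℝ) ∧ ((r * p : ℕ) : ℤ) ∣ (n2 : ℤ) - n1) then
          (if ((r, s2) ∈ P ∧ ((r * s2 : ℕ) : ℤ) ∣ ((m * n2 : ℕ) : ℤ) - a) then (1 : ℝ) else 0)
          else 0) else 0) ≤
      if ((r, s1) ∈ P ∧ ((r * s1 : ℕ) : ℤ) ∣ ((m * n1 : ℕ) : ℤ) - a) then K else 0 := by
    intro m r s1 n1 hm hr hs1
    by_cases hA : ((r, s1) ∈ P ∧ ((r * s1 : ℕ) : ℤ) ∣ ((m * n1 : ℕ) : ℤ) - a)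
    · simp only [if_pos hA]
      calc ∑ n2 ∈ Ioc N (2 * N), ∑ s2 ∈ Ioc S (2 * S),
            (if (∃ p ∈ s1.primeFactors, z < (p : ℝ) ∧ ((r * p : ℕ) : ℤ) ∣ (n2 : ℤ) - n1) then
          (if ((r, s2) ∈ P ∧ ((r * s2 : ℕ) : ℤ) ∣ ((m * n2 : ℕ) : ℤ) - a) then (1 : ℝ) else 0)
          else 0)
          ≤ ∑ n2 ∈ Ioc N (2 * N),
            (if (∃ p ∈ s1.primeFactors, z < (p : ℝ) ∧ ((r * p : ℕ) : ℤ) ∣ (n2 : ℤ) - n1) then
              T ^ 2 else 0) := by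
            refine Finset.sum_le_sum fun n2 hn2 => ?_
            by_cases hd : ∃ p ∈ s1.primeFactors, z < (p : ℝ) ∧ ((r * p : ℕ) : ℤ) ∣ (n2 : ℤ) - n1
            · simp only [if_pos hd]
              exact hs2 m r n2 hm hn2
            · simp only [if_neg hd, Finset.sum_const_zero, le_refl]
        _ = (((Ioc N (2 * N)).filter (fun n2 : ℕ =>
              ∃ p ∈ s1.primeFactors, z < (p : ℝ) ∧ ((r * p : ℕ) : ℤ) ∣ (n2 : ℤ) - n1)).card : ℝ) *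
              T ^ 2 := by
            rw [← Finset.sum_filter, Finset.sum_const, nsmul_eq_mul]
        _ ≤ K := by
            rw [hK]
            exact mul_le_mul_of_nonneg_right (hn2c r s1 n1 hr hs1) (by positivity)
    · simp only [if_neg hA, Finset.sum_const_zero, le_refl]
  -- sum over r, s1 for fixed m, n1
  have hcnt : ∀ m n1 : ℕ, m ∈ Icc (M / 2) (3 * M) → n1 ∈ Ioc N (2 * N) →
      ∑ r ∈ Ioc R (2 * R), ∑ s1 ∈ Ioc S (2 * S),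
        (if ((r, s1) ∈ P ∧ ((r * s1 : ℕ) : ℤ) ∣ ((m * n1 : ℕ) : ℤ) - a) then K else 0) ≤ T ^ 2 * K := by
    intro m n1 hm hn1
    rw [← Finset.sum_product' (Ioc R (2 * R)) (Ioc S (2 * S))
      (fun r s1 => if ((r, s1) ∈ P ∧ ((r * s1 : ℕ) : ℤ) ∣ ((m * n1 : ℕ) : ℤ) - a) then K else 0),
      ← Finset.sum_filter, Finset.sum_const, nsmul_eq_mul]
    refine mul_le_mul_of_nonneg_right ?_ hK0
    refine le_trans ?_ (hPc m n1 hm hn1)
    norm_cast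
    refine Finset.card_le_card fun w hw => ?_
    rw [mem_filter] at hw ⊢
    exact hw.2
  -- together
  calc ∑ m ∈ Icc (M / 2) (3 * M), ∑ r ∈ Ioc R (2 * R), ∑ s1 ∈ Ioc S (2 * S), ∑ s2 ∈ Ioc S (2 * S),
      ∑ n1 ∈ Ioc N (2 * N), ∑ n2 ∈ Ioc N (2 * N),
      (if Bd a P r s1 s2 n1 n2 then D1 a r s1 (m * n1) * D1 a r s2 (m * n2) else 0)
      ≤ ∑ m ∈ Icc (M / 2) (3 * M), ∑ n1 ∈ Ioc N (2 * N), ∑ r ∈ Ioc R (2 * R), ∑ s1 ∈ Ioc S (2 * S),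
        (if ((r, s1) ∈ P ∧ ((r * s1 : ℕ) : ℤ) ∣ ((m * n1 : ℕ) : ℤ) - a) then K else 0) := by
        refine Finset.sum_le_sum fun m hm => ?_
        calc ∑ r ∈ Ioc R (2 * R), ∑ s1 ∈ Ioc S (2 * S), ∑ s2 ∈ Ioc S (2 * S),
            ∑ n1 ∈ Ioc N (2 * N), ∑ n2 ∈ Ioc N (2 * N),
            (if Bd a P r s1 s2 n1 n2 then D1 a r s1 (m * n1) * D1 a r s2 (m * n2) else 0)
            ≤ ∑ r ∈ Ioc R (2 * R), ∑ s1 ∈ Ioc S (2 * S), ∑ n1 ∈ Ioc N (2 * N),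
              (if ((r, s1) ∈ P ∧ ((r * s1 : ℕ) : ℤ) ∣ ((m * n1 : ℕ) : ℤ) - a) then K else 0) := by
              refine Finset.sum_le_sum fun r hr => Finset.sum_le_sum fun s1 hs1 => ?_
              rw [mem_Ioc] at hr
              rw [Finset.sum_comm]
              refine Finset.sum_le_sum fun n1 _ => ?_
              rw [Finset.sum_comm]
              refine le_trans ?_ (hin m r s1 n1 hm hr.1 hs1)
              exact Finset.sum_le_sum fun n2 _ => Finset.sum_le_sum fun s2 _ =>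
                hterm m r s1 s2 n1 n2
          _ = ∑ r ∈ Ioc R (2 * R), ∑ n1 ∈ Ioc N (2 * N), ∑ s1 ∈ Ioc S (2 * S),
              (if ((r, s1) ∈ P ∧ ((r * s1 : ℕ) : ℤ) ∣ ((m * n1 : ℕ) : ℤ) - a) then K else 0) :=
              Finset.sum_congr rfl fun r _ => Finset.sum_comm
          _ = _ := Finset.sum_comm
    _ ≤ ∑ m ∈ Icc (M / 2) (3 * M), ∑ n1 ∈ Ioc N (2 * N), T ^ 2 * K :=
        Finset.sum_le_sum fun m hm => Finset.sum_le_sum fun n1 hn1 => hcnt m n1 hm hn1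
    _ ≤ 4 * (M : ℝ) * (N * (T ^ 2 * K)) := by
        rw [Finset.sum_const, Finset.sum_const, nsmul_eq_mul, nsmul_eq_mul]
        have e1 : (Ioc N (2 * N)).card = N := by rw [Nat.card_Ioc]; omega
        have e2 : ((Icc (M / 2) (3 * M)).card : ℝ) ≤ 4 * M := by
          rw [Nat.card_Icc]
          have : 3 * M + 1 - M / 2 ≤ 4 * M := by omega
          exact_mod_cast this
        rw [e1]
        exact mul_le_mul_of_nonneg_right e2 (by positivity)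
    _ = 4 * T ^ 5 * ((M : ℝ) * N * (1 + N / ((R : ℝ) * z))) := by
        rw [hK, hW]
        ring

end Pool.Agent.Lib.MI
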