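import Pool.Agent.Lib.MI.SpecD

/-!
MP_00e23e_nt, directory Lib/MI, module Dfi: the final statement DspStmt of chapter D from DcaStmt, DexStmt, DbaStmt,
DgoStmt.
-/

namespace Pool.Agent.Lib.MI

open Finset Pool.Agent.Lib.EH3 Pool.Agent.Lib.TB Pool.Agent.Results.MP_00e23e_nt

private lemma Dfi_num (R M N S H T z B : ℝ) (hR : 0 < R) (hM : 0 < M) (hN : 0 < N) (hS : 0 < S) (hH : 0 < H)
    (hT : 1 ≤ T) (hz : 1 ≤ z) (hB : 0 ≤ B) :
    R * M * ((4 * N / R * B + 32 * (R * S ^ 4 * N ^ 2) / (M * H)) +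
      200 * T ^ 5 * (M * N * (1 + N / (R * z)))) ≤
    200 * T ^ 5 * (R * M ^ 2 * N + M ^ 2 * N ^ 2 / z + R ^ 2 * S ^ 4 * N ^ 2 / H + M * N * B) := by
  have hz0 : 0 < z := by linarith
  have hT5 : (1 : ℝ) ≤ T ^ 5 := one_le_pow₀ hT
  have e : R * M * ((4 * N / R * B + 32 * (R * S ^ 4 * N ^ 2) / (M * H)) +
      200 * T ^ 5 * (M * N * (1 + N / (R * z)))) =
      4 * (M * N * B) + 32 * (R ^ 2 * S ^ 4 * N ^ 2 / H) + 200 * T ^ 5 * (R * M ^ 2 * N + M ^ 2 * N ^ 2 / z) := by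
    field_simp
  rw [e]
  have h1 : 0 ≤ M * N * B := by positivity
  have h2 : 0 ≤ R ^ 2 * S ^ 4 * N ^ 2 / H := by positivity
  nlinarith [mul_le_mul_of_nonneg_right hT5 h1, mul_le_mul_of_nonneg_right hT5 h2]

theorem tDfi (hDca : DcaStmt) (hDex : DexStmt) (hDba : DbaStmt) (hDgo : DgoStmt) : DfiStmt := by
  refine ⟨200, by norm_num, 5, ?_⟩
  intro X T z B a b c R S M N H P α β hTau hz hB hc hS hN hM hH hRN hHR hX hb hP hα hβ hTT
  have hR : 1 ≤ R := by omega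
  have hPr : ∀ w ∈ P, R < w.1 ∧ w.1 ≤ 2 * R ∧ S < w.2 ∧ w.2 ≤ 2 * S := fun w hw =>
    ⟨(hP w hw).1, (hP w hw).2.1, (hP w hw).2.2.1, (hP w hw).2.2.2.1⟩
  obtain ⟨c', hc1, hc0, hca⟩ := hDca a R S M N P α β hM hPr hα
  have hex := hDex a R S M N P β c' hM hβ hc1 hc0
  have hba := hDba X T z a b c R S M N P ⟨hTau, hz, hc, hR, hS, hN, hM, hRN, hX, hb⟩ hP
  have hgo := hDgo B a R S M N H P β c' hB hR hS hN hM hH hRN hHR hPr hβ hc1 hc0 hTT
  have hRM : (0 : ℝ) ≤ (R : ℝ) * M := by positivity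
  have hnum := Dfi_num (R : ℝ) M N S H T z B (by exact_mod_cast hR) (by exact_mod_cast (by omega : 0 < M))
    (by exact_mod_cast hN) (by exact_mod_cast hS) (by exact_mod_cast hH) hTau.1 hz hB
  refine le_trans hca (le_trans (mul_le_mul_of_nonneg_left (le_trans hex (add_le_add hgo hba)) hRM) hnum)

end Pool.Agent.Lib.MI
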