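import Pool.Agent.Lib.MI.SpecD

/-!
MP_00e23e_nt, directory Lib/MI, module Dgg: the tent transform.
-/

namespace Pool.Agent.Lib.MI

open Finset Pool.Agent.Lib.EH3 Pool.Agent.Lib.TB Pool.Agent.Results.MP_00e23e_nt

private lemma Dgg_eq (M K : ℕ) (h : ℤ) : Ten M (fun m => en (h * m) K) =
    (4 / (M : ℂ)) * (en (h * ((M / 2 : ℕ) : ℤ)) K * (GG M ((h : ℝ) / K)) ^ 2) := by
  unfold Ten
  congr 1
  have h1 : ∀ i j : ℕ, en (h * ((i + j + M / 2 : ℕ) : ℤ)) K =
      en (h * ((M / 2 : ℕ) : ℤ)) K * (ee (i * ((h : ℝ) / K)) * ee (j * ((h : ℝ) / K))) := by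
    intro i j
    have h2 : h * ((i + j + M / 2 : ℕ) : ℤ) = h * ((M / 2 : ℕ) : ℤ) + (h * i + h * j) := by
      push_cast
      ring
    rw [h2, en_add, en_add]
    unfold en
    congr 2
    · congr 1
      push_cast
      ring
    · congr 1
      push_cast
      ring
  rw [sum_congr rfl fun i _ => sum_congr rfl fun j _ => h1 i j]
  unfold GG
  rw [pow_two, sum_mul_sum, mul_sum]
  refine sum_congr rfl fun i _ => ?_
  rw [mul_sum]

private lemma Dgg_norm (M K : ℕ) (h : ℤ) : ‖Ten M (fun m => en (h * m) K)‖ =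
    (4 / (M : ℝ)) * ‖GG M ((h : ℝ) / K)‖ ^ 2 := by
  rw [Dgg_eq, norm_mul, norm_mul, norm_en, one_mul, norm_pow]
  congr 1
  rw [norm_div]
  simp

private lemma Dgg_round (t : ℝ) (ht : |t| ≤ 1 / 2) : |t| ≤ |t - round t| := by
  by_cases hr : round t = 0
  · rw [hr]
    simp
  · have h1 : (1 : ℝ) ≤ |((round t : ℤ) : ℝ)| := by
      have : (1 : ℤ) ≤ |round t| := Int.one_le_abs hr
      exact_mod_cast this
    have h2 : |((round t : ℤ) : ℝ)| ≤ |t - round t| + |t| := by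
      have h3 : ((round t : ℤ) : ℝ) = -(t - round t) + t := by ring
      calc |((round t : ℤ) : ℝ)| = |-(t - round t) + t| := by rw [← h3]
        _ ≤ |-(t - round t)| + |t| := abs_add_le _ _
        _ = |t - round t| + |t| := by rw [abs_neg]
    linarith

theorem tDgg : DggStmt := by
  intro M K h hM hK
  have hM' : (0 : ℝ) < M := by exact_mod_cast hM
  have hK' : (0 : ℝ) < K := by exact_mod_cast hK
  rw [Dgg_norm]
  constructor
  · have h1 := norm_GG_le M ((h : ℝ) / K)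
    have h2 : ‖GG M ((h : ℝ) / K)‖ ^ 2 ≤ (M : ℝ) ^ 2 :=
      pow_le_pow_left₀ (norm_nonneg _) h1 2
    calc (4 / (M : ℝ)) * ‖GG M ((h : ℝ) / K)‖ ^ 2 ≤ (4 / (M : ℝ)) * (M : ℝ) ^ 2 := by gcongr
      _ = 4 * (M : ℝ) := by field_simp
  · intro h0 h2K
    have hh : (0 : ℝ) < |(h : ℝ)| := by
      have : (h : ℝ) ≠ 0 := by exact_mod_cast h0
      exact abs_pos.2 this
    have habs : |(h : ℝ) / K| = |(h : ℝ)| / K := by
      rw [abs_div, abs_of_pos hK']
    have h2K' : 2 * |(h : ℝ)| ≤ K := by exact_mod_cast h2K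
    have ht : |(h : ℝ) / K| ≤ 1 / 2 := by
      rw [habs, div_le_div_iff₀ hK' two_pos]
      linarith
    have h3 := norm_GG_mul_le M ((h : ℝ) / K)
    have h4 := Dgg_round _ ht
    have h5 : ‖GG M ((h : ℝ) / K)‖ * (2 * (|(h : ℝ)| / K)) ≤ 1 := by
      rw [← habs]
      refine le_trans ?_ h3
      gcongr
    have h6 : ‖GG M ((h : ℝ) / K)‖ ≤ K / (2 * |(h : ℝ)|) := by
      rw [le_div_iff₀ (by positivity)]
      have : ‖GG M ((h : ℝ) / K)‖ * (2 * (|(h : ℝ)| / K)) =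
          (‖GG M ((h : ℝ) / K)‖ * (2 * |(h : ℝ)|)) / K := by ring
      rw [this, div_le_one hK'] at h5
      exact h5
    calc (4 / (M : ℝ)) * ‖GG M ((h : ℝ) / K)‖ ^ 2 ≤
          (4 / (M : ℝ)) * (K / (2 * |(h : ℝ)|)) ^ 2 := by
          gcongr
      _ = (K : ℝ) ^ 2 / ((M : ℝ) * (h : ℝ) ^ 2) := by
          rw [div_pow, mul_pow, sq_abs]
          have : (h : ℝ) ≠ 0 := by exact_mod_cast h0
          field_simp
          norm_num

end Pool.Agent.Lib.MI
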