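import Pool.Agent.Lib.MI.SpecD

/-!
MP_00e23e_nt, Lib/MI, module Dgm (helper66): the main part of the dispersion.
-/

namespace Pool.Agent.Lib.MI

open Finset Pool.Agent.Lib.EH3 Pool.Agent.Lib.TB Pool.Agent.Results.MP_00e23e_nt

/-- the weights of the first part (n2 = n1 + k r) -/
private noncomputable def Dgm_w1 (β : ℕ → ℂ) (N k r n : ℕ) : ℂ :=
  if n + k * r ≤ 2 * N then β n * (starRingEnd ℂ) (β (n + k * r)) else 0

/-- the weights of the second part (n1 = n2 + k r) -/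
private noncomputable def Dgm_w2 (β : ℕ → ℂ) (N k r n : ℕ) : ℂ :=
  if n + k * r ≤ 2 * N then β (n + k * r) * (starRingEnd ℂ) (β n) else 0

private theorem Dgm_mul (u v : ℂ) (hu : ‖u‖ ≤ 1) (hv : ‖v‖ ≤ 1) :
    ‖u * (starRingEnd ℂ) v‖ ≤ 1 := by
  rw [norm_mul, RCLike.norm_conj]
  exact mul_le_one₀ hu (norm_nonneg _) hv

private theorem Dgm_n1 (β : ℕ → ℂ) (hβ : ∀ n, ‖β n‖ ≤ 1) (N k r n : ℕ) :
    ‖Dgm_w1 β N k r n‖ ≤ 1 := by
  unfold Dgm_w1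
  split_ifs
  · exact Dgm_mul _ _ (hβ _) (hβ _)
  · simp

private theorem Dgm_n2 (β : ℕ → ℂ) (hβ : ∀ n, ‖β n‖ ≤ 1) (N k r n : ℕ) :
    ‖Dgm_w2 β N k r n‖ ≤ 1 := by
  unfold Dgm_w2
  split_ifs
  · exact Dgm_mul _ _ (hβ _) (hβ _)
  · simp

/-- exchange of the two halves of a tuple -/
private theorem Dgm_sy (h3 : DsyStmt) (a h : ℤ) (r s1 s2 n k : ℕ)
    (hg : Gd a r s1 s2 (n + k * r) n) :
    Gd a r s2 s1 n (n + k * r) ∧
      fz a h r s1 s2 (n + k * r) n = fz a h r s2 s1 n (n + k * r) := by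
  have hd : (r : ℤ) ∣ (n : ℤ) - ((n + k * r : ℕ) : ℤ) := by
    refine ⟨-(k : ℤ), ?_⟩
    push_cast
    ring
  have h := h3 a h r s1 s2 (n + k * r) n ⟨hg, hd⟩
  exact ⟨h.1.1, h.2⟩

private theorem Dgm_sy' (h3 : DsyStmt) (a : ℤ) (r s1 s2 n k : ℕ)
    (hg : Gd a r s2 s1 n (n + k * r)) : Gd a r s1 s2 (n + k * r) n := by
  have hd : (r : ℤ) ∣ ((n + k * r : ℕ) : ℤ) - (n : ℤ) := by
    refine ⟨(k : ℤ), ?_⟩
    push_cast
    ring
  exact (h3 a 0 r s2 s1 n (n + k * r) ⟨hg, hd⟩).1.1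

open Classical in
/-- fixed h, r, s1, s2 -/
private theorem Dgm_in (h2 : DspnStmt) (h3 : DsyStmt) (a h : ℤ) (R N r s1 s2 : ℕ) (β : ℕ → ℂ)
    (G : ℂ) (hR : 1 ≤ R) (hr : R < r) :
    ∑ n1 ∈ Ioc N (2 * N), ∑ n2 ∈ Ioc N (2 * N), (if GdC a r s1 s2 n1 n2 then
      G * (β n1 * (starRingEnd ℂ) (β n2)) * fz a h r s1 s2 n1 n2 else 0) =
    ∑ k ∈ range (N / R + 1), G * ∑ n ∈ Ioc N (2 * N), (if Gd a r s1 s2 n (n + k * r) then
      Dgm_w1 β N k r n * fz a h r s1 s2 n (n + k * r) else 0) +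
    ∑ k ∈ Icc 1 (N / R), G * ∑ n ∈ Ioc N (2 * N), (if Gd a r s2 s1 n (n + k * r) then
      Dgm_w2 β N k r n * fz a h r s2 s1 n (n + k * r) else 0) := by
  have key := h2 R r N (fun n1 n2 => if Gd a r s1 s2 n1 n2 then
    G * (β n1 * (starRingEnd ℂ) (β n2)) * fz a h r s1 s2 n1 n2 else 0) hR hr
  have e0 : ∑ n1 ∈ Ioc N (2 * N), ∑ n2 ∈ Ioc N (2 * N), (if GdC a r s1 s2 n1 n2 then
      G * (β n1 * (starRingEnd ℂ) (β n2)) * fz a h r s1 s2 n1 n2 else 0) =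
      ∑ n1 ∈ Ioc N (2 * N), ∑ n2 ∈ Ioc N (2 * N), (if (r : ℤ) ∣ (n2 : ℤ) - n1 then
        (if Gd a r s1 s2 n1 n2 then
          G * (β n1 * (starRingEnd ℂ) (β n2)) * fz a h r s1 s2 n1 n2 else 0) else 0) := by
    refine sum_congr rfl fun n1 _ => sum_congr rfl fun n2 _ => ?_
    by_cases c1 : (r : ℤ) ∣ (n2 : ℤ) - n1
    · by_cases c2 : Gd a r s1 s2 n1 n2
      · rw [if_pos (show GdC a r s1 s2 n1 n2 from ⟨c2, c1⟩), if_pos c1, if_pos c2]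
      · rw [if_neg (fun hh : GdC a r s1 s2 n1 n2 => c2 hh.1), if_pos c1, if_neg c2]
    · rw [if_neg (fun hh : GdC a r s1 s2 n1 n2 => c1 hh.2), if_neg c1]
  rw [e0, key]
  congr 1
  · refine sum_congr rfl fun k _ => ?_
    rw [mul_sum]
    refine sum_congr rfl fun n _ => ?_
    unfold Dgm_w1
    by_cases c1 : n + k * r ≤ 2 * N
    · rw [if_pos c1, if_pos c1]
      by_cases c2 : Gd a r s1 s2 n (n + k * r)
      · rw [if_pos c2, if_pos c2]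
        ring
      · rw [if_neg c2, if_neg c2, mul_zero]
    · rw [if_neg c1, if_neg c1, zero_mul, ite_self, mul_zero]
  · refine sum_congr rfl fun k _ => ?_
    rw [mul_sum]
    refine sum_congr rfl fun n _ => ?_
    unfold Dgm_w2
    by_cases c1 : n + k * r ≤ 2 * N
    · rw [if_pos c1, if_pos c1]
      by_cases c2 : Gd a r s1 s2 (n + k * r) n
      · obtain ⟨c3, c4⟩ := Dgm_sy h3 a h r s1 s2 n k c2
        rw [if_pos c2, if_pos c3, c4]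
        ring
      · have c3 : ¬ Gd a r s2 s1 n (n + k * r) := fun hh => c2 (Dgm_sy' h3 a r s1 s2 n k hh)
        rw [if_neg c2, if_neg c3, mul_zero]
    · rw [if_neg c1, if_neg c1, zero_mul, ite_self, mul_zero]

open Classical in
/-- fixed h -/
private theorem Dgm_h (h2 : DspnStmt) (h3 : DsyStmt) (a h : ℤ) (R S N : ℕ) (β : ℕ → ℂ)
    (g : ℕ → ℕ → ℕ → ℂ) (hR : 1 ≤ R) :
    ∑ r ∈ Ioc R (2 * R), ∑ s1 ∈ Ioc S (2 * S), ∑ s2 ∈ Ioc S (2 * S),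
    ∑ n1 ∈ Ioc N (2 * N), ∑ n2 ∈ Ioc N (2 * N), (if GdC a r s1 s2 n1 n2 then
      g r s1 s2 * (β n1 * (starRingEnd ℂ) (β n2)) * fz a h r s1 s2 n1 n2 else 0) =
    ∑ k ∈ range (N / R + 1), TT a h k R S N g (Dgm_w1 β N k) +
    ∑ k ∈ Icc 1 (N / R), TT a h k R S N (fun r s1 s2 => g r s2 s1) (Dgm_w2 β N k) := by
  have e1 : ∑ k ∈ range (N / R + 1), TT a h k R S N g (Dgm_w1 β N k) =
      ∑ r ∈ Ioc R (2 * R), ∑ s1 ∈ Ioc S (2 * S), ∑ s2 ∈ Ioc S (2 * S),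
        ∑ k ∈ range (N / R + 1), g r s1 s2 * ∑ n ∈ Ioc N (2 * N),
          (if Gd a r s1 s2 n (n + k * r) then
            Dgm_w1 β N k r n * fz a h r s1 s2 n (n + k * r) else 0) := by
    unfold TT
    rw [sum_comm]
    refine sum_congr rfl fun r _ => ?_
    rw [sum_comm]
    refine sum_congr rfl fun s1 _ => ?_
    rw [sum_comm]
  have e2 : ∑ k ∈ Icc 1 (N / R), TT a h k R S N (fun r s1 s2 => g r s2 s1) (Dgm_w2 β N k) =
      ∑ r ∈ Ioc R (2 * R), ∑ s1 ∈ Ioc S (2 * S), ∑ s2 ∈ Ioc S (2 * S),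
        ∑ k ∈ Icc 1 (N / R), g r s1 s2 * ∑ n ∈ Ioc N (2 * N),
          (if Gd a r s2 s1 n (n + k * r) then
            Dgm_w2 β N k r n * fz a h r s2 s1 n (n + k * r) else 0) := by
    unfold TT
    rw [sum_comm]
    refine sum_congr rfl fun r _ => ?_
    rw [sum_comm]
    have e3 : ∀ s1 ∈ Ioc S (2 * S), ∑ k ∈ Icc 1 (N / R), ∑ s2 ∈ Ioc S (2 * S),
        g r s2 s1 * ∑ n ∈ Ioc N (2 * N), (if Gd a r s1 s2 n (n + k * r) then
            Dgm_w2 β N k r n * fz a h r s1 s2 n (n + k * r) else 0) =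
        ∑ s2 ∈ Ioc S (2 * S), ∑ k ∈ Icc 1 (N / R),
        g r s2 s1 * ∑ n ∈ Ioc N (2 * N), (if Gd a r s1 s2 n (n + k * r) then
            Dgm_w2 β N k r n * fz a h r s1 s2 n (n + k * r) else 0) :=
      fun s1 _ => sum_comm
    rw [sum_congr rfl e3, sum_comm]
  rw [e1, e2, ← sum_add_distrib]
  refine sum_congr rfl fun r hr => ?_
  rw [← sum_add_distrib]
  refine sum_congr rfl fun s1 _ => ?_
  rw [← sum_add_distrib]
  refine sum_congr rfl fun s2 _ => ?_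
  exact Dgm_in h2 h3 a h R N r s1 s2 β (g r s1 s2) hR (mem_Ioc.1 hr).1

theorem tDgm (h1 : DcoStmt) (h2 : DspnStmt) (h3 : DsyStmt) : DgmStmt := by
  intro B a R S M N H P β c hB hR hS hN hM hRN hH hP hβ hc hc0 hT
  obtain ⟨hg1, hg2⟩ := h1 R S M H P c hR hS (by omega) hH hP hc hc0
  have e0 := sum_congr (rfl : Icc (-(H : ℤ)) H = Icc (-(H : ℤ)) H)
    (fun h _ => Dgm_h h2 h3 a h R S N β (ga c M H h) hR)
  rw [e0, sum_add_distrib, sum_comm]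
  have b1 : ‖∑ k ∈ range (N / R + 1), ∑ h ∈ Icc (-(H : ℤ)) H,
      TT a h k R S N (ga c M H h) (Dgm_w1 β N k)‖ ≤ ((N / R + 1 : ℕ) : ℝ) * B := by
    refine (norm_sum_le_of_le _ fun k _ => hT k (ga c M H) (Dgm_w1 β N k) hg1
      (fun r n => Dgm_n1 β hβ N k r n)).trans ?_
    rw [sum_const, card_range, nsmul_eq_mul]
  have b2 : ‖∑ h ∈ Icc (-(H : ℤ)) H, ∑ k ∈ Icc 1 (N / R),
      TT a h k R S N (fun r s1 s2 => ga c M H h r s2 s1) (Dgm_w2 β N k)‖ ≤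
      ((N / R : ℕ) : ℝ) * B := by
    rw [sum_comm]
    refine (norm_sum_le_of_le _ fun k _ => hT k (fun h r s1 s2 => ga c M H h r s2 s1)
      (Dgm_w2 β N k) hg2 (fun r n => Dgm_n2 β hβ N k r n)).trans ?_
    rw [sum_const, Nat.card_Icc, nsmul_eq_mul, Nat.add_sub_cancel]
  have hR0 : (0 : ℝ) < (R : ℝ) := by exact_mod_cast hR
  have q1 : ((N / R : ℕ) : ℝ) ≤ (N : ℝ) / R := Nat.cast_div_le
  have q2 : (1 : ℝ) ≤ (N : ℝ) / R := by
    rw [le_div_iff₀ hR0, one_mul]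
    exact_mod_cast hRN
  refine (norm_add_le _ _).trans ((add_le_add b1 b2).trans ?_)
  have e4 : 4 * (N : ℝ) / R * B = (4 * ((N : ℝ) / R)) * B := by ring
  rw [← add_mul, e4]
  refine mul_le_mul_of_nonneg_right ?_ hB
  push_cast at q1 ⊢
  linarith

end Pool.Agent.Lib.MI
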