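import Pool.Agent.Lib.MI.SpecD

/-! MP_00e23e_nt, Lib/MI, module Dnd: the divisor bound. -/

namespace Pool.Agent.Lib.MI

open Finset Pool.Agent.Lib.EH3 Pool.Agent.Lib.TB Pool.Agent.Results.MP_00e23e_nt

private theorem Dnd_pos {b : ℤ} {c M N m n : ℕ} (hc : 1 ≤ c) (hM : 8 ≤ M)
    (hb : 4 * |b| < (M : ℤ) * N) (hm : M / 2 ≤ m) (hn : N < n) :
    1 ≤ (c : ℤ) * m * n - b := by
  have h1 : 7 * M ≤ 16 * m := by omega
  have h2 : (7 : ℤ) * M ≤ 16 * m := by exact_mod_cast h1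
  have h3 : (N : ℤ) ≤ n := by exact_mod_cast hn.le
  have hM0 : (0 : ℤ) ≤ M := Nat.cast_nonneg _
  have hm0 : (0 : ℤ) ≤ m := Nat.cast_nonneg _
  have hn0 : (0 : ℤ) ≤ n := Nat.cast_nonneg _
  have hc1 : (1 : ℤ) ≤ c := by exact_mod_cast hc
  have h4 : 7 * ((M : ℤ) * N) ≤ 16 * ((m : ℤ) * n) := by
    calc 7 * ((M : ℤ) * N) ≤ 7 * ((M : ℤ) * n) := by gcongr
      _ = (7 * M) * n := by ring
      _ ≤ (16 * m) * n := mul_le_mul_of_nonneg_right h2 hn0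
      _ = 16 * ((m : ℤ) * n) := by ring
  have h5 : (m : ℤ) * n ≤ (c : ℤ) * m * n := by
    have : 0 ≤ (m : ℤ) * n := mul_nonneg hm0 hn0
    nlinarith
  have h6 := le_abs_self b
  have h7 := abs_nonneg b
  linarith

private theorem Dnd_le {X : ℝ} {b : ℤ} {c R S M N m n : ℕ} (hc : 1 ≤ c) (hR : 1 ≤ R) (hS : 1 ≤ S)
    (hN : 1 ≤ N) (hM : 8 ≤ M) (hX : 100 * (c : ℝ) * (M : ℝ) ^ 2 * (N : ℝ) ^ 2 * (R : ℝ) ^ 2 *
      (S : ℝ) ^ 4 ≤ X)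
    (hb : 4 * |b| < (M : ℤ) * N) (hm : m ≤ 3 * M) (hn : n ≤ 2 * N) :
    (((c : ℤ) * m * n - b : ℤ) : ℝ) ≤ X := by
  have hb' : 4 * |(b : ℝ)| < (M : ℝ) * N := by exact_mod_cast hb
  have hm' : (m : ℝ) ≤ 3 * M := by exact_mod_cast hm
  have hn' : (n : ℝ) ≤ 2 * N := by exact_mod_cast hn
  have hc1 : (1 : ℝ) ≤ c := by exact_mod_cast hc
  have hR1 : (1 : ℝ) ≤ R := by exact_mod_cast hR
  have hS1 : (1 : ℝ) ≤ S := by exact_mod_cast hS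
  have hN1 : (1 : ℝ) ≤ N := by exact_mod_cast hN
  have hM1 : (1 : ℝ) ≤ M := by
    have : 1 ≤ M := by omega
    exact_mod_cast this
  have hm0 : (0 : ℝ) ≤ m := Nat.cast_nonneg _
  have hn0 : (0 : ℝ) ≤ n := Nat.cast_nonneg _
  have h1 : (c : ℝ) * m * n ≤ 6 * ((c : ℝ) * (M * N)) := by
    calc (c : ℝ) * m * n ≤ (c : ℝ) * (3 * M) * (2 * N) := by gcongr
      _ = 6 * ((c : ℝ) * (M * N)) := by ring
  have hMN : 0 ≤ (M : ℝ) * N := by positivity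
  have h2 : (M : ℝ) * N ≤ (c : ℝ) * (M * N) := by nlinarith
  have h3 : -(b : ℝ) ≤ |(b : ℝ)| := neg_le_abs _
  have h4 : (c : ℝ) * (M * N) ≤ (c : ℝ) * (M : ℝ) ^ 2 * (N : ℝ) ^ 2 * (R : ℝ) ^ 2 * (S : ℝ) ^ 4 := by
    have a1 : (M : ℝ) ≤ M ^ 2 := by nlinarith
    have a2 : (N : ℝ) ≤ N ^ 2 := by nlinarith
    have a3 : (1 : ℝ) ≤ R ^ 2 := one_le_pow₀ hR1
    have a4 : (1 : ℝ) ≤ S ^ 4 := one_le_pow₀ hS1
    calc (c : ℝ) * (M * N) = (c : ℝ) * M * N * 1 * 1 := by ring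
      _ ≤ (c : ℝ) * (M : ℝ) ^ 2 * (N : ℝ) ^ 2 * (R : ℝ) ^ 2 * (S : ℝ) ^ 4 := by gcongr
  have h5 : 0 ≤ (c : ℝ) * (M * N) := by positivity
  have h6 := abs_nonneg (b : ℝ)
  push_cast
  linarith

open Classical in
/-- both parts, the second one for natural numbers r -/
theorem Dnd_nat (X T z : ℝ) (a b : ℤ) (c R S M N m n : ℕ) (P : Finset (ℕ × ℕ))
    (hSz : Sz X T z b c R S M N) (hPr : Pr a b c R S z P) (hm1 : M / 2 ≤ m) (hm2 : m ≤ 3 * M)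
    (hn1 : N < n) (hn2 : n ≤ 2 * N) :
    ((P.filter (fun w => ((w.1 * w.2 : ℕ) : ℤ) ∣ ((m * n : ℕ) : ℤ) - a)).card : ℝ) ≤ T ^ 2 ∧
    (((P.image Prod.fst).filter (fun r : ℕ => (r : ℤ) ∣ ((m * n : ℕ) : ℤ) - a)).card : ℝ) ≤ T := by
  classical
  obtain ⟨⟨hT1, hT2, hT3⟩, hz, hc, hR, hS, hN, hM, hRN, hX, hb⟩ := hSz
  have hZ1 := Dnd_pos hc hM hb hm1 hn1
  have hZX := Dnd_le hc hR hS hN hM hX hb hm2 hn2
  set Z : ℤ := (c : ℤ) * m * n - b with hZ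
  have hZn : 1 ≤ Z.natAbs := by omega
  have hZc : ((Z.natAbs : ℕ) : ℝ) ≤ X := by
    have h1 : ((Z.natAbs : ℕ) : ℤ) = Z := Int.natAbs_of_nonneg (by omega)
    have h2 : (((Z.natAbs : ℕ) : ℤ) : ℝ) = ((Z : ℤ) : ℝ) := by rw [h1]
    rw [Int.cast_natCast] at h2
    rw [h2]
    exact hZX
  have hdiv := hT3 Z.natAbs hZn hZc
  have hkey : ∀ q : ℕ, (q : ℤ) ∣ ((m * n : ℕ) : ℤ) - a → (q : ℤ) ∣ (c : ℤ) * a - b →
      q ∈ Z.natAbs.divisors := by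
    intro q h1 h2
    rw [Nat.mem_divisors]
    refine ⟨?_, by omega⟩
    have h3 : (q : ℤ) ∣ Z := by
      have h4 : Z = (c : ℤ) * (((m * n : ℕ) : ℤ) - a) + ((c : ℤ) * a - b) := by
        rw [hZ]
        push_cast
        ring
      rw [h4]
      exact dvd_add (Dvd.dvd.mul_left h1 _) h2
    exact Int.natCast_dvd.1 h3
  refine ⟨?_, ?_⟩
  · have hsub : P.filter (fun w => ((w.1 * w.2 : ℕ) : ℤ) ∣ ((m * n : ℕ) : ℤ) - a) ⊆
        Z.natAbs.divisors ×ˢ Z.natAbs.divisors := by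
      intro w hw
      rw [Finset.mem_filter] at hw
      have h1 := (hPr w hw.1).2.2.2.2.2.1.2
      have h2 := hkey (w.1 * w.2) hw.2 h1
      rw [Nat.mem_divisors] at h2
      rw [Finset.mem_product, Nat.mem_divisors, Nat.mem_divisors]
      exact ⟨⟨(Dvd.intro _ rfl).trans h2.1, h2.2⟩, ⟨(Dvd.intro_left _ rfl).trans h2.1, h2.2⟩⟩
    have h1 := Finset.card_le_card hsub
    rw [Finset.card_product] at h1
    have h2 : ((P.filter (fun w => ((w.1 * w.2 : ℕ) : ℤ) ∣ ((m * n : ℕ) : ℤ) - a)).card : ℝ) ≤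
        (Z.natAbs.divisors.card : ℝ) * (Z.natAbs.divisors.card : ℝ) := by exact_mod_cast h1
    refine h2.trans ?_
    rw [sq]
    exact mul_le_mul hdiv hdiv (Nat.cast_nonneg _) (by linarith)
  · have hsub : (P.image Prod.fst).filter (fun r : ℕ => (r : ℤ) ∣ ((m * n : ℕ) : ℤ) - a) ⊆
        Z.natAbs.divisors := by
      intro r hr
      rw [Finset.mem_filter, Finset.mem_image] at hr
      obtain ⟨⟨w, hw, rfl⟩, h2⟩ := hr
      refine hkey w.1 h2 ?_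
      have h1 := (hPr w hw).2.2.2.2.2.1.2
      refine Dvd.dvd.trans ?_ h1
      push_cast
      exact Dvd.intro _ rfl
    have h1 := Finset.card_le_card hsub
    exact le_trans (by exact_mod_cast h1) hdiv

theorem tDnd : DndStmt := by
  intro X T z a b c R S M N m n P hSz hPr hm1 hm2 hn1 hn2
  exact Dnd_nat X T z a b c R S M N m n P hSz hPr hm1 hm2 hn1 hn2

end Pool.Agent.Lib.MI
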