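import Pool.Agent.Lib.MI.SpecD

/-!
MP_00e23e_nt, directory Lib/MI, module Dph (helper68): the class ν and the phase.
-/

namespace Pool.Agent.Lib.MI

open Finset Pool.Agent.Lib.EH3 Pool.Agent.Lib.TB Pool.Agent.Results.MP_00e23e_nt

theorem tDph : DphStmt := by
  intro a r s1 s2 n1 n2 hG
  obtain ⟨⟨hsq1, hsq2, hs12, hn1, hn2, _, _⟩, hrn⟩ := hG
  have hrs2 : r.Coprime s2 := (Nat.squarefree_mul_iff.1 hsq2).1
  have hq1pos : 1 ≤ r * s1 := Nat.one_le_iff_ne_zero.2 hsq1.ne_zero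
  have hs2pos : 1 ≤ s2 := by
    rcases Nat.eq_zero_or_pos s2 with h | h
    · exact absurd (by rw [h, mul_zero]) hsq2.ne_zero
    · exact h
  have hcop : (r * s1).Coprime s2 := Nat.Coprime.mul_left hrs2 hs12
  have hn2s : n2.Coprime s2 := hn2.coprime_dvd_right (dvd_mul_left s2 r)
  obtain ⟨q, hq⟩ : ∃ q, q = r * s1 := ⟨_, rfl⟩
  have hrq : (r : ℤ) ∣ (q : ℤ) := by
    rw [hq]
    exact Int.natCast_dvd_natCast.2 (dvd_mul_right r s1)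
  unfold fz
  rw [← hq] at hq1pos hcop hn1 ⊢
  obtain ⟨u1, hu1⟩ : ∃ u : ℤ, u = (iv n1 q : ℤ) := ⟨_, rfl⟩
  obtain ⟨v1, hv1⟩ : ∃ u : ℤ, u = (iv s2 q : ℤ) := ⟨_, rfl⟩
  obtain ⟨u2, hu2⟩ : ∃ u : ℤ, u = (iv n2 s2 : ℤ) := ⟨_, rfl⟩
  obtain ⟨v2, hv2⟩ : ∃ u : ℤ, u = (iv q s2 : ℤ) := ⟨_, rfl⟩
  have F1 : (q : ℤ) ∣ u1 * n1 - 1 := by rw [hu1]; exact iv_dvd hn1 hq1pos
  have E1 : (q : ℤ) ∣ v1 * s2 - 1 := by rw [hv1]; exact iv_dvd hcop.symm hq1pos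
  have F2 : (s2 : ℤ) ∣ u2 * n2 - 1 := by rw [hu2]; exact iv_dvd hn2s hs2pos
  have E2 : (s2 : ℤ) ∣ v2 * q - 1 := by rw [hv2]; exact iv_dvd hcop hs2pos
  have M1 : (q : ℤ) ∣ (iv (n1 * s2) q : ℤ) - u1 * v1 := by
    rw [hu1, hv1]
    exact iv_mul_mul hn1 hcop.symm hq1pos
  have M2 : (s2 : ℤ) ∣ (iv (n2 * q) s2 : ℤ) - u2 * v2 := by
    rw [hu2, hv2]
    exact iv_mul_mul hn2s hcop hs2pos
  obtain ⟨ν, hν⟩ : ∃ ν : ℤ, ν = a * u1 * (v1 * s2) + a * u2 * (v2 * q) := ⟨_, rfl⟩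
  have G1 : (q : ℤ) ∣ ν - a * u1 := by
    have e : ν - a * u1 = (a * u1) * (v1 * s2 - 1) + (q : ℤ) * (a * u2 * v2) := by
      rw [hν]
      ring
    rw [e]
    exact dvd_add (dvd_mul_of_dvd_right E1 _) (dvd_mul_right _ _)
  have G2 : (s2 : ℤ) ∣ ν - a * u2 := by
    have e : ν - a * u2 = (a * u2) * (v2 * q - 1) + (s2 : ℤ) * (a * u1 * v1) := by
      rw [hν]
      ring
    rw [e]
    exact dvd_add (dvd_mul_of_dvd_right E2 _) (dvd_mul_right _ _)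
  have H1 : (q : ℤ) ∣ ν * n1 - a := by
    have e : ν * n1 - a = (ν - a * u1) * n1 + a * (u1 * n1 - 1) := by ring
    rw [e]
    exact dvd_add (dvd_mul_of_dvd_left G1 _) (dvd_mul_of_dvd_right F1 _)
  have H2 : (s2 : ℤ) ∣ ν * n2 - a := by
    have e : ν * n2 - a = (ν - a * u2) * n2 + a * (u2 * n2 - 1) := by ring
    rw [e]
    exact dvd_add (dvd_mul_of_dvd_left G2 _) (dvd_mul_of_dvd_right F2 _)
  have H3 : (r : ℤ) ∣ ν * n2 - a := by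
    have e : ν * n2 - a = (ν * n1 - a) + ν * ((n2 : ℤ) - n1) := by ring
    rw [e]
    exact dvd_add (hrq.trans H1) (dvd_mul_of_dvd_right hrn _)
  refine ⟨ν, H1, ?_, ?_⟩
  · have c : IsCoprime (r : ℤ) (s2 : ℤ) := Nat.isCoprime_iff_coprime.2 hrs2
    push_cast
    exact c.mul_dvd H3 H2
  · intro h
    rw [en_crt hcop hq1pos hs2pos, ← hv1, ← hv2]
    have P1 : en (-(h * ν) * v1) q = en (-(h * a * (iv (n1 * s2) q : ℤ))) q := by
      apply en_congr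
      have e : -(h * ν) * v1 - -(h * a * (iv (n1 * s2) q : ℤ)) =
          (-(h * v1)) * (ν - a * u1) + (h * a) * ((iv (n1 * s2) q : ℤ) - u1 * v1) := by ring
      rw [e]
      exact dvd_add (dvd_mul_of_dvd_right G1 _) (dvd_mul_of_dvd_right M1 _)
    have P2 : en (-(h * ν) * v2) s2 = en (-(h * a * (iv (n2 * q) s2 : ℤ))) s2 := by
      apply en_congr
      have e : -(h * ν) * v2 - -(h * a * (iv (n2 * q) s2 : ℤ)) =
          (-(h * v2)) * (ν - a * u2) + (h * a) * ((iv (n2 * q) s2 : ℤ) - u2 * v2) := by ring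
      rw [e]
      exact dvd_add (dvd_mul_of_dvd_right G2 _) (dvd_mul_of_dvd_right M2 _)
    rw [P1, P2]

end Pool.Agent.Lib.MI
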