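import Pool.Agent.Lib.MI.SpecD

/-!
MP_00e23e_nt, directory Lib/MI, chapter D: the harmonic sum over the s not coprime to Z.
-/

namespace Pool.Agent.Lib.MI

open Finset Pool.Agent.Lib.EH3 Pool.Agent.Lib.TB Pool.Agent.Results.MP_00e23e_nt

private lemma Dpr_count (S p : ℕ) (hS : 1 ≤ S) (hp : 0 < p) :
    ∑ s ∈ (Ioc S (2 * S)).filter (fun s => p ∣ s), 1 / (s : ℝ) ≤ 2 / (p : ℝ) := by
  have hS' : (0 : ℝ) < S := by exact_mod_cast hS
  have hp' : (0 : ℝ) < p := by exact_mod_cast hp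
  have h1 : ∑ s ∈ (Ioc S (2 * S)).filter (fun s => p ∣ s), 1 / (s : ℝ) ≤
      ∑ s ∈ (Ioc S (2 * S)).filter (fun s => p ∣ s), 1 / (S : ℝ) := by
    refine Finset.sum_le_sum fun s hs => ?_
    rw [Finset.mem_filter, Finset.mem_Ioc] at hs
    have h2 : (S : ℝ) ≤ s := by exact_mod_cast hs.1.1.le
    exact one_div_le_one_div_of_le hS' h2
  rw [Finset.sum_const, nsmul_eq_mul] at h1
  have h3 : ((Ioc S (2 * S)).filter (fun s => p ∣ s)).card ≤ 2 * S / p := by
    have h4 : (Ioc S (2 * S)).filter (fun s => p ∣ s) ⊆ (Ioc 0 (2 * S)).filter (fun s => p ∣ s) := by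
      refine Finset.filter_subset_filter _ ?_
      intro s hs
      rw [Finset.mem_Ioc] at hs ⊢
      omega
    refine (Finset.card_le_card h4).trans (le_of_eq ?_)
    exact Nat.Ioc_filter_dvd_card_eq_div (2 * S) p
  have h5 : (((Ioc S (2 * S)).filter (fun s => p ∣ s)).card : ℝ) ≤ 2 * S / p := by
    have h6 : (((Ioc S (2 * S)).filter (fun s => p ∣ s)).card : ℝ) ≤ ((2 * S / p : ℕ) : ℝ) := by
      exact_mod_cast h3
    refine h6.trans (Nat.cast_div_le.trans (le_of_eq ?_))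
    push_cast
    rfl
  calc _ ≤ (((Ioc S (2 * S)).filter (fun s => p ∣ s)).card : ℝ) * (1 / (S : ℝ)) := h1
    _ ≤ (2 * S / p) * (1 / (S : ℝ)) := mul_le_mul_of_nonneg_right h5 (by positivity)
    _ = 2 / (p : ℝ) := by field_simp

private lemma Dpr_biUnion {ι : Type*} [DecidableEq ι] (t : Finset ι) (g : ι → Finset ℕ) (f : ℕ → ℝ)
    (hf : ∀ s, 0 ≤ f s) : ∑ s ∈ t.biUnion g, f s ≤ ∑ i ∈ t, ∑ s ∈ g i, f s := by
  induction t using Finset.induction_on with
  | empty => simp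
  | insert a t ha ih =>
    rw [Finset.biUnion_insert, Finset.sum_insert ha]
    have h1 := Finset.sum_union_inter (s₁ := g a) (s₂ := t.biUnion g) (f := f)
    have h0 : 0 ≤ ∑ x ∈ g a ∩ t.biUnion g, f x := Finset.sum_nonneg fun x _ => hf x
    linarith

theorem tDpr : DprStmt := by
  classical
  intro X T z S Z hT hz hS hZ hZX
  have hz0 : 0 < z := by linarith
  have h1 : (Ioc S (2 * S)).filter (fun s => (∀ p : ℕ, p.Prime → p ∣ s → z < p) ∧ ¬ s.Coprime Z) ⊆
      (Z.primeFactors.filter (fun p : ℕ => z < p)).biUnion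
        (fun p => (Ioc S (2 * S)).filter (fun s => p ∣ s)) := by
    intro s hs
    rw [Finset.mem_filter] at hs
    obtain ⟨hs1, hs2, hs3⟩ := hs
    obtain ⟨p, hp, hps, hpZ⟩ := Nat.Prime.not_coprime_iff_dvd.1 hs3
    rw [Finset.mem_biUnion]
    refine ⟨p, ?_, ?_⟩
    · rw [Finset.mem_filter, Nat.mem_primeFactors]
      exact ⟨⟨hp, hpZ, by omega⟩, hs2 p hp hps⟩
    · rw [Finset.mem_filter]
      exact ⟨hs1, hps⟩
  have h2 : ∑ s ∈ (Ioc S (2 * S)).filter (fun s => (∀ p : ℕ, p.Prime → p ∣ s → z < p) ∧ ¬ s.Coprime Z),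
      1 / (s : ℝ) ≤ ∑ p ∈ Z.primeFactors.filter (fun p : ℕ => z < p),
        ∑ s ∈ (Ioc S (2 * S)).filter (fun s => p ∣ s), 1 / (s : ℝ) := by
    refine (Finset.sum_le_sum_of_subset_of_nonneg h1 fun s _ _ => by positivity).trans ?_
    exact Dpr_biUnion _ _ _ fun s => by positivity
  have h3 : ∑ p ∈ Z.primeFactors.filter (fun p : ℕ => z < p),
        ∑ s ∈ (Ioc S (2 * S)).filter (fun s => p ∣ s), 1 / (s : ℝ) ≤
      ∑ p ∈ Z.primeFactors.filter (fun p : ℕ => z < p), 2 / z := by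
    refine Finset.sum_le_sum fun p hp => ?_
    rw [Finset.mem_filter, Nat.mem_primeFactors] at hp
    refine (Dpr_count S p hS hp.1.1.pos).trans ?_
    exact div_le_div_of_nonneg_left (by norm_num) hz0 hp.2.le
  have h4 : ((Z.primeFactors.filter (fun p : ℕ => z < p)).card : ℝ) ≤ T := by
    refine le_trans ?_ (hT.2.2 Z hZ hZX)
    have h5 : Z.primeFactors.filter (fun p : ℕ => z < p) ⊆ Z.divisors := by
      intro p hp
      rw [Finset.mem_filter, Nat.mem_primeFactors] at hp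
      exact Nat.mem_divisors.2 ⟨hp.1.2.1, hp.1.2.2⟩
    exact_mod_cast Finset.card_le_card h5
  rw [Finset.sum_const, nsmul_eq_mul] at h3
  have h6 : ((Z.primeFactors.filter (fun p : ℕ => z < p)).card : ℝ) * (2 / z) ≤ T * (2 / z) :=
    mul_le_mul_of_nonneg_right h4 (by positivity)
  have h7 : ∑ s ∈ (Ioc S (2 * S)).filter (fun s => (∀ p : ℕ, p.Prime → p ∣ s → z < p) ∧ ¬ s.Coprime Z),
      1 / (s : ℝ) ≤ 2 * T / z := by
    refine h2.trans (h3.trans (h6.trans (le_of_eq ?_)))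
    ring
  refine le_trans (le_of_eq ?_) h7
  refine Finset.sum_congr ?_ fun _ _ => rfl
  ext s
  simp only [Finset.mem_filter]

end Pool.Agent.Lib.MI
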