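import Pool.Agent.Lib.MI.SpecD

/-! MP_00e23e_nt, Lib/MI: module Dspn (tDspn : DspnStmt). -/

namespace Pool.Agent.Lib.MI

open Finset Pool.Agent.Lib.EH3 Pool.Agent.Lib.TB Pool.Agent.Results.MP_00e23e_nt

open Classical in
private lemma Dspn_up (R r N n : ℕ) (G : ℕ → ℂ) (hR : 1 ≤ R) (hr : R < r) (hn : n ∈ Ioc N (2 * N)) :
    ∑ m ∈ Ioc N (2 * N), (if (r : ℤ) ∣ (m : ℤ) - n ∧ n ≤ m then G m else 0) =
      ∑ k ∈ range (N / R + 1), (if n + k * r ≤ 2 * N then G (n + k * r) else 0) := by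
  rw [mem_Ioc] at hn
  rw [← sum_filter, ← sum_filter]
  symm
  refine sum_nbij (fun k => n + k * r) ?_ ?_ ?_ ?_
  · intro k hk
    rw [mem_filter, mem_range] at hk
    rw [mem_filter, mem_Ioc]
    refine ⟨⟨by omega, hk.2⟩, ?_, by omega⟩
    refine ⟨(k : ℤ), ?_⟩
    push_cast
    ring
  · intro x _ y _ hxy
    have h1 : x * r = y * r := by
      have h2 : n + x * r = n + y * r := hxy
      omega
    exact Nat.eq_of_mul_eq_mul_right (by omega) h1
  · intro m hm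
    rw [mem_coe, mem_filter, mem_Ioc] at hm
    obtain ⟨⟨h1, h2⟩, ⟨z, hz⟩, h3⟩ := hm
    have hr0 : (0 : ℤ) < r := by exact_mod_cast (by omega : 0 < r)
    have hz0 : 0 ≤ z := by
      by_contra hcon
      have h4 : (r : ℤ) * z < 0 := mul_neg_of_pos_of_neg hr0 (by omega)
      omega
    obtain ⟨k, rfl⟩ := Int.eq_ofNat_of_zero_le hz0
    have h5 : m = n + k * r := by
      have h6 : (m : ℤ) = (n : ℤ) + (k : ℤ) * (r : ℤ) := by linarith [mul_comm (r : ℤ) (k : ℤ)]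
      exact_mod_cast h6
    refine ⟨k, ?_, h5.symm⟩
    rw [mem_coe, mem_filter, mem_range]
    refine ⟨?_, by omega⟩
    have h7 : k * R ≤ k * r := Nat.mul_le_mul_left k (le_of_lt hr)
    have h8 : k ≤ N / R := (Nat.le_div_iff_mul_le (by omega)).2 (by omega)
    omega
  · intro k _
    rfl

open Classical in
private lemma Dspn_dn (R r N n : ℕ) (G : ℕ → ℂ) (hR : 1 ≤ R) (hr : R < r) (hn : n ∈ Ioc N (2 * N)) :
    ∑ m ∈ Ioc N (2 * N), (if (r : ℤ) ∣ (n : ℤ) - m ∧ n < m then G m else 0) =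
      ∑ k ∈ Icc 1 (N / R), (if n + k * r ≤ 2 * N then G (n + k * r) else 0) := by
  rw [mem_Ioc] at hn
  rw [← sum_filter, ← sum_filter]
  symm
  refine sum_nbij (fun k => n + k * r) ?_ ?_ ?_ ?_
  · intro k hk
    rw [mem_filter, mem_Icc] at hk
    rw [mem_filter, mem_Ioc]
    have h0 : 1 * 1 ≤ k * r := Nat.mul_le_mul hk.1.1 (by omega)
    refine ⟨⟨by omega, hk.2⟩, ?_, by omega⟩
    refine ⟨-(k : ℤ), ?_⟩
    push_cast
    ring
  · intro x _ y _ hxy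
    have h1 : x * r = y * r := by
      have h2 : n + x * r = n + y * r := hxy
      omega
    exact Nat.eq_of_mul_eq_mul_right (by omega) h1
  · intro m hm
    rw [mem_coe, mem_filter, mem_Ioc] at hm
    obtain ⟨⟨h1, h2⟩, ⟨z, hz⟩, h3⟩ := hm
    have hr0 : (0 : ℤ) < r := by exact_mod_cast (by omega : 0 < r)
    have hz0 : 0 ≤ -z := by
      by_contra hcon
      have h4 : (0 : ℤ) < (r : ℤ) * z := mul_pos hr0 (by omega)
      omega
    obtain ⟨k, hk⟩ := Int.eq_ofNat_of_zero_le hz0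
    have hzk : z = -(k : ℤ) := by omega
    have h5 : m = n + k * r := by
      have h6 : (m : ℤ) = (n : ℤ) + (k : ℤ) * (r : ℤ) := by
        rw [hzk] at hz
        linarith [mul_comm (r : ℤ) (k : ℤ), mul_neg (r : ℤ) (k : ℤ)]
      exact_mod_cast h6
    have hk1 : 1 ≤ k := by
      rcases Nat.eq_zero_or_pos k with h | h
      · exfalso
        rw [h] at h5
        omega
      · exact h
    refine ⟨k, ?_, h5.symm⟩
    rw [mem_coe, mem_filter, mem_Icc]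
    have h7 : k * R ≤ k * r := Nat.mul_le_mul_left k (le_of_lt hr)
    have h8 : k ≤ N / R := (Nat.le_div_iff_mul_le (by omega)).2 (by omega)
    exact ⟨⟨hk1, h8⟩, by omega⟩
  · intro k _
    rfl

theorem tDspn : DspnStmt := by
  classical
  intro R r N F hR hr
  have e1 : ∑ n1 ∈ Ioc N (2 * N), ∑ n2 ∈ Ioc N (2 * N), (if (r : ℤ) ∣ (n2 : ℤ) - n1 then F n1 n2 else 0) =
      (∑ n1 ∈ Ioc N (2 * N), ∑ n2 ∈ Ioc N (2 * N),
        (if (r : ℤ) ∣ (n2 : ℤ) - n1 ∧ n1 ≤ n2 then F n1 n2 else 0)) +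
      ∑ n2 ∈ Ioc N (2 * N), ∑ n1 ∈ Ioc N (2 * N),
        (if (r : ℤ) ∣ (n2 : ℤ) - n1 ∧ n2 < n1 then F n1 n2 else 0) := by
    rw [sum_comm (s := Ioc N (2 * N)) (t := Ioc N (2 * N))
      (f := fun n2 n1 => if (r : ℤ) ∣ (n2 : ℤ) - n1 ∧ n2 < n1 then F n1 n2 else 0), ← sum_add_distrib]
    refine sum_congr rfl fun n1 _ => ?_
    rw [← sum_add_distrib]
    refine sum_congr rfl fun n2 _ => ?_
    by_cases hd : (r : ℤ) ∣ (n2 : ℤ) - n1
    · by_cases hle : n1 ≤ n2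
      · rw [if_pos hd, if_pos ⟨hd, hle⟩, if_neg (fun h => absurd h.2 (by omega)), add_zero]
      · rw [if_pos hd, if_neg (fun h => hle h.2), if_pos ⟨hd, by omega⟩, zero_add]
    · rw [if_neg hd, if_neg (fun h => hd h.1), if_neg (fun h => hd h.1), add_zero]
  have e2 : (∑ n1 ∈ Ioc N (2 * N), ∑ n2 ∈ Ioc N (2 * N),
        (if (r : ℤ) ∣ (n2 : ℤ) - n1 ∧ n1 ≤ n2 then F n1 n2 else 0)) =
      ∑ k ∈ range (N / R + 1), ∑ n ∈ Ioc N (2 * N), (if n + k * r ≤ 2 * N then F n (n + k * r) else 0) := by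
    rw [sum_comm (s := range (N / R + 1))]
    exact sum_congr rfl fun n hn => Dspn_up R r N n (F n) hR hr hn
  have e3 : ∑ n2 ∈ Ioc N (2 * N), ∑ n1 ∈ Ioc N (2 * N),
        (if (r : ℤ) ∣ (n2 : ℤ) - n1 ∧ n2 < n1 then F n1 n2 else 0) =
      ∑ k ∈ Icc 1 (N / R), ∑ n ∈ Ioc N (2 * N), (if n + k * r ≤ 2 * N then F (n + k * r) n else 0) := by
    rw [sum_comm (s := Icc 1 (N / R))]
    exact sum_congr rfl fun n hn => Dspn_dn R r N n (fun m => F m n) hR hr hn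
  rw [e1, e2, e3]

end Pool.Agent.Lib.MI
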