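import Pool.Agent.Lib.MI.SpecD

/-!
MP_00e23e_nt, THEOREM MI, module Dsy: symmetry of the phase in the two moduli.
-/

namespace Pool.Agent.Lib.MI

open Finset Pool.Agent.Lib.EH3 Pool.Agent.Lib.TB Pool.Agent.Results.MP_00e23e_nt

private lemma Dsy_gd {a : ℤ} {r s1 s2 n1 n2 : ℕ} (h : GdC a r s1 s2 n1 n2) : GdC a r s2 s1 n2 n1 := by
  obtain ⟨⟨h1, h2, h3, h4, h5, h6, h7⟩, h8⟩ := h
  refine ⟨⟨h2, h1, h3.symm, h5, h4, h7, h6⟩, ?_⟩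
  have := (dvd_neg (a := (r : ℤ))).mpr h8
  simpa [neg_sub] using this

private lemma Dsy_canc {q n : ℕ} {x y a : ℤ} (hc : n.Coprime q) (hx : (q : ℤ) ∣ x * n - a)
    (hy : (q : ℤ) ∣ y * n - a) : (q : ℤ) ∣ x - y := by
  have h1 : (q : ℤ) ∣ (x - y) * n := by
    have := dvd_sub hx hy
    have e : x * (n : ℤ) - a - (y * n - a) = (x - y) * n := by ring
    rwa [e] at this
  have h2 : IsCoprime (q : ℤ) (n : ℤ) := Nat.isCoprime_iff_coprime.mpr hc.symm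
  exact h2.dvd_of_dvd_mul_right h1

/-- Module Dsy. -/
theorem tDsy (h1 : DphStmt) : DsyStmt := by
  intro a h r s1 s2 n1 n2 hG
  have hG' := Dsy_gd hG
  refine ⟨hG', ?_⟩
  obtain ⟨ν, hν1, hν2, hν3⟩ := h1 a r s1 s2 n1 n2 hG
  obtain ⟨μ, hμ1, hμ2, hμ3⟩ := h1 a r s2 s1 n2 n1 hG'
  rw [← hν3 h, ← hμ3 h]
  obtain ⟨⟨g1, g2, g3, g4, g5, g6, g7⟩, g8⟩ := hG
  have d1 : ((r * s1 : ℕ) : ℤ) ∣ ν - μ := Dsy_canc g4 hν1 hμ2
  have d2 : ((r * s2 : ℕ) : ℤ) ∣ ν - μ := Dsy_canc g5 hν2 hμ1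
  have d3 : (s2 : ℤ) ∣ ν - μ := by
    refine dvd_trans ?_ d2
    push_cast
    exact Dvd.intro_left _ rfl
  have hrs : r.Coprime s2 := by
    exact Nat.coprime_of_squarefree_mul g2
  have hco : (r * s1).Coprime s2 := Nat.Coprime.mul_left hrs g3
  have hd : ((r * s1 * s2 : ℕ) : ℤ) ∣ ν - μ := by
    have := IsCoprime.mul_dvd (Nat.isCoprime_iff_coprime.mpr hco) d1 d3
    simpa using this
  have e : r * s2 * s1 = r * s1 * s2 := by ring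
  rw [e]
  apply en_congr
  have e2 : -(h * ν) - -(h * μ) = -h * (ν - μ) := by ring
  rw [e2]
  exact Dvd.dvd.mul_left hd _

end Pool.Agent.Lib.MI
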