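import Pool.Agent.Lib.MI.SpecD

namespace Pool.Agent.Lib.MI

open Finset Pool.Agent.Lib.EH3 Pool.Agent.Lib.TB Pool.Agent.Results.MP_00e23e_nt

private lemma Dtr_count (M m : ℕ) (hM : 8 ≤ M) (h1 : M < m) (h2 : m ≤ 2 * M) :
    M ≤ 4 * ((range M ×ˢ range M).filter (fun p : ℕ × ℕ => p.1 + p.2 + M / 2 = m)).card := by
  have hsub : ((Icc (m - M / 2 - (M - 1)) (min (m - M / 2) (M - 1))).image
      (fun i : ℕ => ((i, m - M / 2 - i) : ℕ × ℕ))) ⊆
      (range M ×ˢ range M).filter (fun p : ℕ × ℕ => p.1 + p.2 + M / 2 = m) := by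
    intro p hp
    rw [mem_image] at hp
    obtain ⟨i, hi, rfl⟩ := hp
    rw [mem_Icc] at hi
    obtain ⟨ha, hb⟩ := hi
    have hb1 := le_trans hb (min_le_left _ _)
    have hb2 := le_trans hb (min_le_right _ _)
    rw [mem_filter, mem_product, mem_range, mem_range]
    dsimp only
    omega
  have hcard := card_le_card hsub
  rw [card_image_of_injective _ (fun x y h => (Prod.mk.inj h).1), Nat.card_Icc] at hcard
  have hmin : min (m - M / 2) (M - 1) = m - M / 2 ∨ min (m - M / 2) (M - 1) = M - 1 := by
    rcases le_total (m - M / 2) (M - 1) with h | h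
    · left; exact min_eq_left h
    · right; exact min_eq_right h
  have hmin' : min (m - M / 2) (M - 1) ≤ m - M / 2 := min_le_left _ _
  have hmin'' : min (m - M / 2) (M - 1) ≤ M - 1 := min_le_right _ _
  rcases hmin with h | h <;> rw [h] at hcard hmin' hmin'' <;> omega

private lemma Dtr_prod (M : ℕ) (F : ℕ → ℝ) :
    ∑ i ∈ range M, ∑ j ∈ range M, F (i + j + M / 2) =
      ∑ p ∈ range M ×ˢ range M, F (p.1 + p.2 + M / 2) := by
  rw [sum_product]

theorem tDtr : DtrStmt := by
  intro M F hM hF
  have hM0 : (0 : ℝ) < M := by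
    have : 0 < M := by omega
    exact_mod_cast this
  constructor
  · have h1 : ∑ m ∈ Ioc M (2 * M), (M : ℝ) / 4 * F m ≤
        ∑ i ∈ range M, ∑ j ∈ range M, F (i + j + M / 2) := by
      rw [Dtr_prod]
      calc ∑ m ∈ Ioc M (2 * M), (M : ℝ) / 4 * F m
          ≤ ∑ m ∈ Ioc M (2 * M), ∑ p ∈ (range M ×ˢ range M).filter
              (fun p : ℕ × ℕ => p.1 + p.2 + M / 2 = m), F (p.1 + p.2 + M / 2) := by
            apply sum_le_sum
            intro m hm
            rw [mem_Ioc] at hm
            have hc := Dtr_count M m hM hm.1 hm.2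
            have he : ∑ p ∈ (range M ×ˢ range M).filter
                (fun p : ℕ × ℕ => p.1 + p.2 + M / 2 = m), F (p.1 + p.2 + M / 2) =
                (((range M ×ˢ range M).filter
                  (fun p : ℕ × ℕ => p.1 + p.2 + M / 2 = m)).card : ℝ) * F m := by
              rw [sum_congr rfl (g := fun _ => F m)
                (fun p hp => by rw [(mem_filter.mp hp).2]), sum_const, nsmul_eq_mul]
            rw [he]
            apply mul_le_mul_of_nonneg_right _ (hF m)
            have hc' : (M : ℝ) ≤ 4 * (((range M ×ˢ range M).filter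
                  (fun p : ℕ × ℕ => p.1 + p.2 + M / 2 = m)).card : ℝ) := by exact_mod_cast hc
            linarith
        _ ≤ ∑ p ∈ range M ×ˢ range M, F (p.1 + p.2 + M / 2) := by
            have hfib := sum_fiberwise_le_sum_of_sum_fiber_nonneg
              (s := range M ×ˢ range M) (t := Ioc M (2 * M))
              (g := fun p : ℕ × ℕ => p.1 + p.2 + M / 2)
              (f := fun p : ℕ × ℕ => F (p.1 + p.2 + M / 2))
              (fun y _ => sum_nonneg (fun p _ => hF _))
            exact hfib
    rw [← mul_sum] at h1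
    unfold TR
    calc ∑ m ∈ Ioc M (2 * M), F m = (4 / (M : ℝ)) * ((M : ℝ) / 4 * ∑ m ∈ Ioc M (2 * M), F m) := by
          field_simp
      _ ≤ _ := mul_le_mul_of_nonneg_left h1 (by positivity)
  · unfold TR
    have h2 : ∀ i ∈ range M, ∑ j ∈ range M, F (i + j + M / 2) ≤
        ∑ m ∈ Icc (M / 2) (3 * M), F m := by
      intro i hi
      rw [mem_range] at hi
      have he : ∑ j ∈ range M, F (i + j + M / 2) =
          ∑ m ∈ (range M).image (fun j => i + j + M / 2), F m := by
        rw [sum_image (fun x _ y _ h => by omega)]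
      rw [he]
      apply sum_le_sum_of_subset_of_nonneg
      · intro m hm
        rw [mem_image] at hm
        obtain ⟨j, hj, rfl⟩ := hm
        rw [mem_range] at hj
        rw [mem_Icc]
        omega
      · intro m _ _
        exact hF m
    have h3 := sum_le_sum h2
    rw [sum_const, card_range, nsmul_eq_mul] at h3
    calc (4 / (M : ℝ)) * ∑ i ∈ range M, ∑ j ∈ range M, F (i + j + M / 2)
        ≤ (4 / (M : ℝ)) * ((M : ℝ) * ∑ m ∈ Icc (M / 2) (3 * M), F m) :=
          mul_le_mul_of_nonneg_left h3 (by positivity)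
      _ = 4 * ∑ m ∈ Icc (M / 2) (3 * M), F m := by
          field_simp

end Pool.Agent.Lib.MI
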