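import Pool.Agent.Lib.MI.Dfo
import Pool.Agent.Lib.MI.Dph
import Pool.Agent.Lib.MI.Did
import Pool.Agent.Lib.MI.Dgg
import Pool.Agent.Lib.MI.Dta
import Pool.Agent.Lib.MI.Dsy
import Pool.Agent.Lib.MI.Dtr
import Pool.Agent.Lib.MI.Dca
import Pool.Agent.Lib.MI.Dex
import Pool.Agent.Lib.MI.Dnd
import Pool.Agent.Lib.MI.Dpr
import Pool.Agent.Lib.MI.Dea
import Pool.Agent.Lib.MI.Deb
import Pool.Agent.Lib.MI.Dec
import Pool.Agent.Lib.MI.Dba
import Pool.Agent.Lib.MI.Dco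
import Pool.Agent.Lib.MI.Dspn
import Pool.Agent.Lib.MI.Dgm
import Pool.Agent.Lib.MI.Dgo
import Pool.Agent.Lib.MI.Dfi

/-! MP_00e23e_nt, directory Lib/MI: chapter D without hypotheses. -/

namespace Pool.Agent.Lib.MI

/-- Chapter D, unconditional. -/
theorem tDAll : DspStmt :=
  tDfi (tDca tDtr) tDex (tDba tDtr (tDea tDnd) (tDeb tDnd tDpr) (tDec tDnd tDpr))
    (tDgo (tDta (tDid tDfo tDph) tDgg) (tDgm (tDco tDgg) tDspn (tDsy tDph)))

end Pool.Agent.Lib.MI
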