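import Pool.Agent.Lib.MI.T2d
import Pool.Agent.Lib.TN.AllW
import Pool.Agent.Lib.TV.Vsq
import Pool.Agent.Lib.TV.Vsr
import Pool.Agent.Lib.TV.Vrm

/-! MP_00e23e_nt, directory Lib/MI: chapter T2 without hypotheses. -/

namespace Pool.Agent.Lib.MI

open Pool.Agent.Lib.TB Pool.Agent.Lib.TN Pool.Agent.Lib.TV

/-- Chapter T2, unconditional. -/
theorem tT2All : T2Stmt := tT2 (tVsq (tVsr (tKsq tWeil) tVrm))

end Pool.Agent.Lib.MI
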