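import Pool.Agent.Lib.MI.SpecB

namespace Pool.Agent.Lib.MI

open Finset Pool.Agent.Lib.EH3 Pool.Agent.Lib.TB Pool.Agent.Results.MP_00e23e_nt

private lemma Bds_lt {x s A B : ℝ} (hx : 0 < x) (h : x ^ A < s * x ^ B) : x ^ (A - B) < s := by
  rw [Real.rpow_sub hx, div_lt_iff₀ (Real.rpow_pos_of_pos hx B)]
  exact h

private lemma Bds_log {r : ℕ} (hr : 2 ≤ r) :
    2 ^ Nat.log 2 (r - 1) < r ∧ r ≤ 2 * 2 ^ Nat.log 2 (r - 1) := by
  have h1 := Nat.pow_log_le_self 2 (show r - 1 ≠ 0 by omega)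
  have h2 := Nat.lt_pow_succ_log_self (show 1 < 2 by norm_num) (r - 1)
  rw [pow_succ] at h2
  constructor <;> omega

private lemma Bds_J {x : ℝ} {r : ℕ} (hx : (r : ℝ) ≤ x) :
    Nat.log 2 (r - 1) ∈ range (Nat.log 2 ⌊x⌋₊ + 1) := by
  have h1 : r ≤ ⌊x⌋₊ := Nat.le_floor hx
  exact mem_range.2 (Nat.lt_succ_of_le (Nat.log_mono_right (by omega)))

private lemma Bds_Jle {x : ℝ} (hx : 3 ≤ x) :
    ((Nat.log 2 ⌊x⌋₊ + 1 : ℕ) : ℝ) ≤ 3 * Real.log x := by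
  have h0 : ⌊x⌋₊ ≠ 0 := by
    have : 3 ≤ ⌊x⌋₊ := Nat.le_floor (by exact_mod_cast hx)
    omega
  have h1 := Nat.pow_log_le_self 2 h0
  have h2 : ((2 : ℝ) ^ Nat.log 2 ⌊x⌋₊) ≤ x :=
    le_trans (by exact_mod_cast h1) (Nat.floor_le (by linarith))
  have h3 := Real.log_le_log (by positivity) h2
  rw [Real.log_pow] at h3
  have h4 := Real.log_two_gt_d9
  have h5 : 1 ≤ Real.log x := by
    rw [Real.le_log_iff_exp_le (by linarith)]
    exact le_trans Real.exp_one_lt_d9.le (by linarith)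
  have h6 : (0 : ℝ) ≤ (Nat.log 2 ⌊x⌋₊ : ℝ) := Nat.cast_nonneg _
  have h7 : (Nat.log 2 ⌊x⌋₊ : ℝ) * 0.5 ≤ (Nat.log 2 ⌊x⌋₊ : ℝ) * Real.log 2 :=
    mul_le_mul_of_nonneg_left (by linarith) h6
  push_cast
  linarith

private lemma Bds_fib (F : Finset ℕ) (w : ℕ → ℝ) (φ : ℕ → ℕ × ℕ × ℕ) (J : ℕ) (B : ℝ)
    (h1 : ∀ q ∈ F, φ q ∈ range J ×ˢ (range J ×ˢ range J))
    (h2 : ∀ k, ∑ q ∈ F.filter (fun q => φ q = k), w q ≤ B) :
    ∑ q ∈ F, w q ≤ (J : ℝ) ^ 3 * B := by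
  rw [← sum_fiberwise_of_maps_to h1 w]
  refine (sum_le_card_nsmul _ _ B fun k _ => h2 k).trans ?_
  rw [card_product, card_product, card_range, nsmul_eq_mul]
  push_cast
  apply le_of_eq
  ring

/-- the facts for one modulus -/
private lemma Bds_q (hB : BgrStmt) {δ τ κ ε κ0 x : ℝ} (hP : Par δ τ κ ε) (hx : 3 ≤ x) {M N : ℕ}
    (hNM : N ≤ M) (hN : x ^ ((1 : ℝ) / 3 - ε) ≤ N) (hMN : (M : ℝ) * N ≤ x) {q t : ℕ}
    (hMd : Md (1 / 2 + δ) τ κ κ0 x t q) (hq : x ^ (1 / 2 - ε / 2) < (q : ℝ)) :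
    ∃ r : ℕ, t ∣ r ∧ r ∣ q ∧ (r : ℝ) ≤ N * x ^ (-ε) ∧ N * x ^ (-ε) < (r : ℝ) * x ^ κ ∧
      x ^ ((1 : ℝ) / 3 - 2 * ε - κ) < r ∧ x ^ (ε / 2) < ((q / r : ℕ) : ℝ) ∧
      x ^ (1 / 2 - ε / 2) < ((q / r : ℕ) : ℝ) * (N * x ^ (-ε)) := by
  obtain ⟨hδ, hτ, hκ, hε, hε1, hp1, hp2⟩ := hP
  obtain ⟨hsq, htq, hqx, htx, hpr⟩ := hMd
  have hx0 : 0 < x := by linarith
  have hx1 : 1 < x := by linarith
  have hN0 : (0 : ℝ) ≤ N := Nat.cast_nonneg _
  have hNx : (N : ℝ) ≤ x ^ ((1 : ℝ) / 2) := by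
    rw [← Real.sqrt_eq_rpow]
    apply Real.le_sqrt_of_sq_le
    have h1 : (N : ℝ) ≤ M := by exact_mod_cast hNM
    nlinarith
  have hxe : 0 < x ^ (-ε) := Real.rpow_pos_of_pos hx0 _
  have hZ1 : x ^ ((1 : ℝ) / 3 - 2 * ε) ≤ N * x ^ (-ε) := by
    have h1 : x ^ ((1 : ℝ) / 3 - 2 * ε) = x ^ ((1 : ℝ) / 3 - ε) * x ^ (-ε) := by
      rw [← Real.rpow_add hx0]
      congr 1
      ring
    rw [h1]
    exact mul_le_mul_of_nonneg_right hN hxe.le
  have hZ2 : N * x ^ (-ε) ≤ x ^ (1 / 2 - ε) := by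
    have h1 : x ^ (1 / 2 - ε) = x ^ ((1 : ℝ) / 2) * x ^ (-ε) := by
      rw [← Real.rpow_add hx0]
      congr 1
    rw [h1]
    exact mul_le_mul_of_nonneg_right hNx hxe.le
  have hZ3 : N * x ^ (-ε) < q :=
    lt_of_le_of_lt (hZ2.trans (Real.rpow_le_rpow_of_exponent_le hx1.le (by linarith))) hq
  have hq1 : 1 ≤ q := by
    rcases Nat.eq_zero_or_pos q with h | h
    · rw [h] at hsq
      exact absurd hsq not_squarefree_zero
    · exact h
  have htZ : (t : ℝ) ≤ N * x ^ (-ε) :=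
    htx.trans ((Real.rpow_le_rpow_of_exponent_le hx1.le (by linarith)).trans hZ1)
  obtain ⟨r, htr, hrq, hrZ, hZr⟩ := hB q t (N * x ^ (-ε)) (x ^ κ) hq1 htq htZ hZ3
    (fun p hp hpq => (hpr p hp hpq).2)
  have hr1 : 1 ≤ r := Nat.pos_of_dvd_of_pos hrq hq1
  have hsr : ((q / r : ℕ) : ℝ) * r = q := by
    exact_mod_cast Nat.div_mul_cancel hrq
  have hs0 : (0 : ℝ) ≤ ((q / r : ℕ) : ℝ) := Nat.cast_nonneg _
  have h5 : x ^ (1 / 2 - ε / 2) < ((q / r : ℕ) : ℝ) * (N * x ^ (-ε)) := by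
    refine lt_of_lt_of_le hq ?_
    rw [← hsr]
    exact mul_le_mul_of_nonneg_left hrZ hs0
  have h6 : x ^ (1 / 2 - ε / 2) < ((q / r : ℕ) : ℝ) * x ^ (1 / 2 - ε) :=
    lt_of_lt_of_le h5 (mul_le_mul_of_nonneg_left hZ2 hs0)
  have h7 := Bds_lt hx0 h6
  have h8 := Bds_lt hx0 (lt_of_le_of_lt hZ1 hZr)
  refine ⟨r, htr, hrq, hrZ, hZr, h8, ?_, h5⟩
  have h9 : ε / 2 = 1 / 2 - ε / 2 - (1 / 2 - ε) := by ring
  rw [h9]
  exact h7

/-- the blocks -/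
private lemma Bds_blk {δ κ ε x : ℝ} (hx : 3 ≤ x) {M N q r R S : ℕ} (hNM : N ≤ M)
    (hN : x ^ ((1 : ℝ) / 3 - ε) ≤ N) (hMN1 : x ^ (1 - ε) ≤ (M : ℝ) * N) (hMN : (M : ℝ) * N ≤ x)
    (hrq : r ∣ q) (hrZ : (r : ℝ) ≤ N * x ^ (-ε)) (hZr : N * x ^ (-ε) < (r : ℝ) * x ^ κ)
    (hq : x ^ (1 / 2 - ε / 2) < (q : ℝ)) (hq2 : (q : ℝ) ≤ x ^ (1 / 2 + δ))
    (hR1 : R < r) (hR2 : r ≤ 2 * R) (hS0 : 1 ≤ S) (hS1 : S < q / r) (hS2 : q / r ≤ 2 * S) :
    Blk δ κ ε x M N R S := by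
  have hx0 : 0 < x := by linarith
  have hR1' : (R : ℝ) ≤ r := by exact_mod_cast hR1.le
  have hR2' : (r : ℝ) ≤ 2 * R := by exact_mod_cast hR2
  have hS1' : (S : ℝ) ≤ ((q / r : ℕ) : ℝ) := by exact_mod_cast hS1.le
  have hS2' : ((q / r : ℕ) : ℝ) ≤ 2 * S := by exact_mod_cast hS2
  have hrs : (r : ℝ) * ((q / r : ℕ) : ℝ) = q := by
    exact_mod_cast Nat.mul_div_cancel' hrq
  have hR0 : (0 : ℝ) ≤ R := Nat.cast_nonneg _
  have hr0 : (0 : ℝ) ≤ r := Nat.cast_nonneg _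
  have hS0' : (0 : ℝ) ≤ S := Nat.cast_nonneg _
  have hs0 : (0 : ℝ) ≤ ((q / r : ℕ) : ℝ) := Nat.cast_nonneg _
  refine ⟨hNM, hN, hMN1, hMN, hS0, hR1'.trans hrZ, ?_, ?_, ?_⟩
  · have h1 : x ^ (-ε - κ) = x ^ (-ε) / x ^ κ := Real.rpow_sub hx0 _ _
    have hk : 0 < x ^ κ := Real.rpow_pos_of_pos hx0 _
    rw [h1, ← mul_div_assoc, div_le_iff₀ hk]
    exact hZr.le.trans (mul_le_mul_of_nonneg_right hR2' hk.le)
  · refine le_trans ?_ hq2
    rw [← hrs]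
    exact mul_le_mul hR1' hS1' hS0' hr0
  · refine hq.le.trans ?_
    rw [← hrs]
    calc (r : ℝ) * ((q / r : ℕ) : ℝ) ≤ (2 * R) * (2 * S) := mul_le_mul hR2' hS2' hs0 (by positivity)
      _ = 4 * ((R : ℝ) * S) := by ring

/-- the greedy divisors of Type I -/
private lemma Bds_gr (hB : BgrStmt) {x κ Z : ℝ} (hx : 3 ≤ x) (hκ : 0 < κ) {s : ℕ}
    (hZ : 0 < Z) (hs : x ^ (Z + κ) < s) (hp : ∀ p : ℕ, p.Prime → p ∣ s → (p : ℝ) ≤ x ^ κ) :
    ∃ v : ℕ, v ∣ s ∧ x ^ Z < v ∧ (v : ℝ) ≤ x ^ (Z + κ) := by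
  have hx0 : 0 < x := by linarith
  have hx1 : 1 < x := by linarith
  have h1 : (1 : ℝ) ≤ x ^ (Z + κ) := Real.one_le_rpow hx1.le (by linarith)
  have hs1 : 1 ≤ s := by
    have : (1 : ℝ) < s := lt_of_le_of_lt h1 hs
    exact_mod_cast this.le
  obtain ⟨v, _, hvs, hvZ, hZv⟩ := hB s 1 (x ^ (Z + κ)) (x ^ κ) hs1 (one_dvd _)
    (by rw [Nat.cast_one]; exact h1) hs (fun p hpp hps => hp p hpp (by rwa [Nat.div_one] at hps))
  refine ⟨v, hvs, ?_, hvZ⟩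
  have h2 := Bds_lt hx0 hZv
  rwa [add_sub_cancel_right] at h2

/-- the sum over a set of moduli as a sum over pairs -/
private lemma Bds_img (F : Finset ℕ) (r : ℕ → ℕ) (G : ℕ × ℕ → ℝ) (h : ∀ q ∈ F, r q ∣ q) :
    ∑ q ∈ F, G (r q, q / r q) = ∑ w ∈ F.image (fun q => (r q, q / r q)), G w := by
  rw [sum_image]
  intro q hq q' hq' he
  have h1 := congrArg Prod.fst he
  have h2 := congrArg Prod.snd he
  have h3 := Nat.mul_div_cancel' (h q hq)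
  have h4 := Nat.mul_div_cancel' (h q' hq')
  simp only at h1 h2
  calc q = r q * (q / r q) := h3.symm
    _ = r q' * (q' / r q') := by rw [h2, h1]
    _ = q' := h4

private lemma Bds_pr {a b : ℤ} {c R S : ℕ} {z : ℝ} (F : Finset ℕ) (r : ℕ → ℕ)
    (h : ∀ q ∈ F, r q ∣ q ∧ R < r q ∧ r q ≤ 2 * R ∧ S < q / r q ∧ q / r q ≤ 2 * S ∧ Squarefree q ∧
      Fr a b c q ∧ ∀ p : ℕ, p.Prime → p ∣ q / r q → z < p) :
    Pr a b c R S z (F.image fun q => (r q, q / r q)) := by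
  intro w hw
  obtain ⟨q, hq, rfl⟩ := mem_image.1 hw
  obtain ⟨h1, h2, h3, h4, h5, h6, h7, h8⟩ := h q hq
  have h9 : r q * (q / r q) = q := Nat.mul_div_cancel' h1
  refine ⟨h2, h3, h4, h5, ?_, ?_, h8⟩
  · change Squarefree (r q * (q / r q))
    rw [h9]
    exact h6
  · change Fr a b c (r q * (q / r q))
    rw [h9]
    exact h7

theorem tBds (hbo : BboStmt) (hbt : BbtStmt) (hgr : BgrStmt) : BdsStmt := by
  intro δ τ κ ε κ0 hP hκ0 hκ
  obtain ⟨η1, C1, x1, hη1, hT1⟩ := hbo δ τ κ ε κ0 hP hκ0 hκ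
  obtain ⟨η2, C2, x2, hη2, hT2⟩ := hbt δ τ κ ε κ0 hP hκ0 hκ
  have hη : 0 < min η1 η2 := lt_min hη1 hη2
  refine ⟨min η1 η2 / 2, (18 / min η1 η2) ^ 3 * (|C1| + |C2|), max 3 (max x1 x2), by linarith, ?_⟩
  intro x a b c M N f g F t hx hb hc hcx hNM hN hMN1 hMN2 hf hg hF
  have hx3 : 3 ≤ x := (le_max_left _ _).trans hx
  have hxx1 : x1 ≤ x := ((le_max_left _ _).trans (le_max_right _ _)).trans hx
  have hxx2 : x2 ≤ x := ((le_max_right _ _).trans (le_max_right _ _)).trans hx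
  have hx0 : 0 < x := by linarith
  have hx1 : 1 < x := by linarith
  obtain ⟨hδ, hτ, hκ1, hε, hε1, hp1, hp2⟩ := id hP
  have hr : ∀ q, ∃ r : ℕ, q ∈ F → (t q ∣ r ∧ r ∣ q ∧ (r : ℝ) ≤ N * x ^ (-ε) ∧
      N * x ^ (-ε) < (r : ℝ) * x ^ κ ∧ x ^ ((1 : ℝ) / 3 - 2 * ε - κ) < r ∧
      x ^ (ε / 2) < ((q / r : ℕ) : ℝ) ∧
      x ^ (1 / 2 - ε / 2) < ((q / r : ℕ) : ℝ) * (N * x ^ (-ε))) := by
    intro q
    by_cases hq : q ∈ F
    · obtain ⟨r, h⟩ := Bds_q hgr hP hx3 hNM hN hMN2 (hF q hq).1 (hF q hq).2.2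
      exact ⟨r, fun _ => h⟩
    · exact ⟨0, fun h => absurd h hq⟩
  choose r hr using hr
  have hq1 : ∀ q ∈ F, 1 ≤ q := by
    intro q hq
    have h1 := (hF q hq).1.1
    rcases Nat.eq_zero_or_pos q with h | h
    · rw [h] at h1
      exact absurd h1 not_squarefree_zero
    · exact h
  have hqx : ∀ q ∈ F, (q : ℝ) ≤ x := by
    intro q hq
    refine (hF q hq).1.2.2.1.trans ?_
    calc x ^ (1 / 2 + δ) ≤ x ^ (1 : ℝ) := Real.rpow_le_rpow_of_exponent_le hx1.le (by linarith)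
      _ = x := Real.rpow_one x
  have hr2 : ∀ q ∈ F, 2 ≤ r q := by
    intro q hq
    have h1 := (hr q hq).2.2.2.2.1
    have h2 : (1 : ℝ) < r q := lt_of_le_of_lt (Real.one_le_rpow hx1.le (by linarith)) h1
    exact_mod_cast h2
  have hs2 : ∀ q ∈ F, 2 ≤ q / r q := by
    intro q hq
    have h1 := (hr q hq).2.2.2.2.2.1
    have h2 : (1 : ℝ) < ((q / r q : ℕ) : ℝ) :=
      lt_of_le_of_lt (Real.one_le_rpow hx1.le (by linarith)) h1
    exact_mod_cast h2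
  have hrx : ∀ q ∈ F, (r q : ℝ) ≤ x := by
    intro q hq
    refine le_trans ?_ (hqx q hq)
    exact_mod_cast Nat.le_of_dvd (hq1 q hq) (hr q hq).2.1
  have hsx : ∀ q ∈ F, ((q / r q : ℕ) : ℝ) ≤ x := by
    intro q hq
    refine le_trans ?_ (hqx q hq)
    exact_mod_cast Nat.div_le_self _ _
  have ht1 : ∀ q ∈ F, 1 ≤ t q := fun q hq =>
    Nat.pos_of_dvd_of_pos (hF q hq).1.2.1 (hq1 q hq)
  have hsdvd : ∀ q ∈ F, q / r q ∣ q / t q := by
    intro q hq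
    obtain ⟨htr, hrq, _⟩ := hr q hq
    obtain ⟨u, hu⟩ := htr
    obtain ⟨s, hs⟩ := hrq
    have h1 : 0 < r q := by have := hr2 q hq; omega
    have h2 : q / r q = s := Nat.div_eq_of_eq_mul_right h1 hs
    have h3 : q / t q = u * s :=
      Nat.div_eq_of_eq_mul_right (ht1 q hq) (hs.trans (by rw [← mul_assoc, ← hu]))
    rw [h2, h3]
    exact dvd_mul_left _ _
  have hudvd : ∀ q ∈ F, r q / t q ∣ q / t q := by
    intro q hq
    obtain ⟨htr, hrq, _⟩ := hr q hq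
    exact Nat.div_dvd_div htr hrq
  refine ⟨fun q => r q / t q, fun q => q / r q, ?_, ?_⟩
  · intro q hq
    obtain ⟨htr, hrq, hrZ, _⟩ := hr q hq
    have h1 : t q * (r q / t q) = r q := Nat.mul_div_cancel' htr
    refine ⟨?_, ?_⟩
    · change q = t q * (r q / t q) * (q / r q)
      rw [h1, Nat.mul_div_cancel' hrq]
    · change ((t q * (r q / t q) : ℕ) : ℝ) ≤ _
      rw [h1]
      exact hrZ
  set G : ℕ × ℕ → ℝ := fun w =>
    ‖∑ m ∈ Ioc M (2 * M), ∑ n ∈ Ioc N (2 * N), f m * g n * Dl a w.1 w.2 (m * n)‖ with hG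
  have hsum : ∑ q ∈ F, ‖∑ m ∈ Ioc M (2 * M), ∑ n ∈ Ioc N (2 * N),
      f m * g n * Dl a (t q * (r q / t q)) (q / r q) (m * n)‖ = ∑ q ∈ F, G (r q, q / r q) := by
    refine sum_congr rfl fun q hq => ?_
    rw [Nat.mul_div_cancel' (hr q hq).1]
  have hx1' : 0 < x ^ (1 - min η1 η2) := Real.rpow_pos_of_pos hx0 _
  have hCx : ∀ η' C' : ℝ, min η1 η2 ≤ η' → C' ≤ |C1| + |C2| →
      C' * x ^ (1 - η') ≤ (|C1| + |C2|) * x ^ (1 - min η1 η2) := by
    intro η' C' h1 h2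
    have h3 : 0 ≤ |C1| + |C2| := by positivity
    calc C' * x ^ (1 - η') ≤ (|C1| + |C2|) * x ^ (1 - η') :=
          mul_le_mul_of_nonneg_right h2 (Real.rpow_nonneg hx0.le _)
      _ ≤ (|C1| + |C2|) * x ^ (1 - min η1 η2) :=
          mul_le_mul_of_nonneg_left
            (Real.rpow_le_rpow_of_exponent_le hx1.le (by linarith)) h3
  have hB0 : 0 ≤ (|C1| + |C2|) * x ^ (1 - min η1 η2) := by positivity
  have hmain : ∑ q ∈ F, G (r q, q / r q) ≤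
      ((Nat.log 2 ⌊x⌋₊ + 1 : ℕ) : ℝ) ^ 3 * ((|C1| + |C2|) * x ^ (1 - min η1 η2)) := by
    have hpr : ∀ (F' : Finset ℕ) (R S : ℕ), F' ⊆ F → (∀ q ∈ F', R = 2 ^ Nat.log 2 (r q - 1) ∧
        S = 2 ^ Nat.log 2 (q / r q - 1)) →
        Pr a b c R S (x ^ κ0) (F'.image fun q => (r q, q / r q)) := by
      intro F' R S hF' hRS
      refine Bds_pr F' r fun q hq => ?_
      have hqF := hF' hq
      obtain ⟨hR, hS⟩ := hRS q hq
      have h1 := Bds_log (hr2 q hqF)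
      have h2 := Bds_log (hs2 q hqF)
      rw [← hR] at h1
      rw [← hS] at h2
      refine ⟨(hr q hqF).2.1, h1.1, h1.2, h2.1, h2.2, (hF q hqF).1.1, (hF q hqF).2.1, ?_⟩
      intro p hp hps
      exact ((hF q hqF).1.2.2.2.2 p hp (hps.trans (hsdvd q hqF))).1
    have hblk : ∀ (R S q : ℕ), q ∈ F → R = 2 ^ Nat.log 2 (r q - 1) →
        S = 2 ^ Nat.log 2 (q / r q - 1) → Blk δ κ ε x M N R S := by
      intro R S q hq hR hS
      have h1 := Bds_log (hr2 q hq)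
      have h2 := Bds_log (hs2 q hq)
      rw [← hR] at h1
      rw [← hS] at h2
      have h3 : 1 ≤ S := by
        rw [hS]
        exact Nat.one_le_two_pow
      exact Bds_blk hx3 hNM hN hMN1 hMN2 (hr q hq).2.1 (hr q hq).2.2.1 (hr q hq).2.2.2.1
        (hF q hq).2.2 (hF q hq).1.2.2.1 h1.1 h1.2 h3 h2.1 h2.2
    rcases le_total (x ^ (1 / 2 - sg δ κ ε)) (N : ℝ) with hcase | hcase
    · -- Type II
      refine Bds_fib F _ (fun q => (Nat.log 2 (r q - 1), Nat.log 2 (q / r q - 1), 0)) _ _ ?_ ?_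
      · intro q hq
        refine mem_product.2 ⟨Bds_J (hrx q hq), mem_product.2 ⟨Bds_J (hsx q hq), ?_⟩⟩
        exact mem_range.2 (Nat.succ_pos _)
      · intro k
        rcases (F.filter fun q => (Nat.log 2 (r q - 1), Nat.log 2 (q / r q - 1), 0) =
          k).eq_empty_or_nonempty with h0 | ⟨q0, hq0⟩
        · rw [h0, sum_empty]
          exact hB0
        · have hk : ∀ q ∈ F.filter (fun q => (Nat.log 2 (r q - 1), Nat.log 2 (q / r q - 1), 0) =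
              k), q ∈ F ∧ 2 ^ k.1 = 2 ^ Nat.log 2 (r q - 1) ∧
                2 ^ k.2.1 = 2 ^ Nat.log 2 (q / r q - 1) := by
            intro q hq
            obtain ⟨h1, h2⟩ := mem_filter.1 hq
            rw [← h2]
            exact ⟨h1, rfl, rfl⟩
          rw [Bds_img _ r G fun q hq => (hr q (hk q hq).1).2.1]
          refine (hT2 x a b c M N (2 ^ k.1) (2 ^ k.2.1) _ f g hxx2 hb hc hcx
            (hblk _ _ q0 (hk q0 hq0).1 (hk q0 hq0).2.1 (hk q0 hq0).2.2) hcase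
            (hpr _ _ _ (fun q hq => (hk q hq).1) fun q hq => (hk q hq).2) hf hg).trans ?_
          exact hCx η2 C2 (min_le_right _ _)
            ((le_abs_self C2).trans (by linarith [abs_nonneg C1]))
    · -- Type I
      have hyy : yy δ κ ε = 2 * δ + κ + 3 * ε := rfl
      have hsg : sg δ κ ε = 3 * δ + 2 * κ + 10 * ε := rfl
      have hv : ∀ q, ∃ v : ℕ, q ∈ F → (v ∣ q / r q ∧ x ^ (yy δ κ ε + 4 * ε) < v ∧
          (v : ℝ) ≤ x ^ (yy δ κ ε + κ + 4 * ε)) := by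
        intro q
        by_cases hq : q ∈ F
        · have h1 := (hr q hq).2.2.2.2.2.2
          have h2 : x ^ (1 / 2 - ε / 2) < ((q / r q : ℕ) : ℝ) * x ^ (1 / 2 - sg δ κ ε - ε) := by
            refine lt_of_lt_of_le h1 (mul_le_mul_of_nonneg_left ?_ (Nat.cast_nonneg _))
            have h3 : x ^ (1 / 2 - sg δ κ ε - ε) = x ^ (1 / 2 - sg δ κ ε) * x ^ (-ε) := by
              rw [← Real.rpow_add hx0]
              congr 1
            rw [h3]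
            exact mul_le_mul_of_nonneg_right hcase (Real.rpow_nonneg hx0.le _)
          have h3 := Bds_lt hx0 h2
          have h4 : x ^ (yy δ κ ε + 4 * ε + κ) < ((q / r q : ℕ) : ℝ) := by
            refine lt_of_le_of_lt (Real.rpow_le_rpow_of_exponent_le hx1.le ?_) h3
            rw [hyy, hsg]
            linarith
          obtain ⟨v, hv1, hv2, hv3⟩ := Bds_gr hgr hx3 hκ1 (by rw [hyy]; linarith) h4
            (fun p hp hps => ((hF q hq).1.2.2.2.2 p hp (hps.trans (hsdvd q hq))).2)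
          refine ⟨v, fun _ => ⟨hv1, hv2, ?_⟩⟩
          have h5 : yy δ κ ε + κ + 4 * ε = yy δ κ ε + 4 * ε + κ := by ring
          rw [h5]
          exact hv3
        · exact ⟨0, fun h => absurd h hq⟩
      choose v hv using hv
      have hr0 : ∀ q ∈ F, ∃ r0 : ℕ, r0 ∣ r q ∧ x ^ (4 * yy δ κ ε + 8 * ε) < r0 ∧
          (r0 : ℝ) ≤ x ^ (4 * yy δ κ ε + 8 * ε + κ) := by
        intro q hq
        have h1 := (hr q hq).2.2.2.2.1
        have hut : ((r q / t q : ℕ) : ℝ) * t q = r q := by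
          exact_mod_cast Nat.div_mul_cancel (hr q hq).1
        have h2 : x ^ ((1 : ℝ) / 3 - 2 * ε - κ) < ((r q / t q : ℕ) : ℝ) * x ^ τ := by
          refine lt_of_lt_of_le h1 ?_
          rw [← hut]
          exact mul_le_mul_of_nonneg_left (hF q hq).1.2.2.2.1 (Nat.cast_nonneg _)
        have h3 := Bds_lt hx0 h2
        have h4 : x ^ (4 * yy δ κ ε + 8 * ε + κ) < ((r q / t q : ℕ) : ℝ) := by
          refine lt_of_le_of_lt (Real.rpow_le_rpow_of_exponent_le hx1.le ?_) h3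
          rw [hyy]
          linarith
        obtain ⟨r0, hr1, hr2', hr3⟩ := Bds_gr hgr hx3 hκ1 (by rw [hyy]; linarith) h4
          (fun p hp hps => ((hF q hq).1.2.2.2.2 p hp (hps.trans (hudvd q hq))).2)
        exact ⟨r0, hr1.trans (Nat.div_dvd_of_dvd (hr q hq).1), hr2', hr3⟩
      have hv2 : ∀ q ∈ F, 2 ≤ v q := by
        intro q hq
        have h2 : (1 : ℝ) < v q :=
          lt_of_le_of_lt (Real.one_le_rpow hx1.le (by rw [hyy]; linarith)) (hv q hq).2.1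
        exact_mod_cast h2
      have hvx : ∀ q ∈ F, (v q : ℝ) ≤ x := by
        intro q hq
        refine le_trans ?_ (hsx q hq)
        have := hs2 q hq
        exact_mod_cast Nat.le_of_dvd (by omega) (hv q hq).1
      refine Bds_fib F _ (fun q => (Nat.log 2 (r q - 1), Nat.log 2 (q / r q - 1),
        Nat.log 2 (v q - 1))) _ _ ?_ ?_
      · intro q hq
        exact mem_product.2 ⟨Bds_J (hrx q hq), mem_product.2 ⟨Bds_J (hsx q hq),
          Bds_J (hvx q hq)⟩⟩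
      · intro k
        rcases (F.filter fun q => (Nat.log 2 (r q - 1), Nat.log 2 (q / r q - 1),
          Nat.log 2 (v q - 1)) = k).eq_empty_or_nonempty with h0 | ⟨q0, hq0⟩
        · rw [h0, sum_empty]
          exact hB0
        · have hk : ∀ q ∈ F.filter (fun q => (Nat.log 2 (r q - 1), Nat.log 2 (q / r q - 1),
              Nat.log 2 (v q - 1)) = k), q ∈ F ∧ (2 ^ k.1 = 2 ^ Nat.log 2 (r q - 1) ∧
                2 ^ k.2.1 = 2 ^ Nat.log 2 (q / r q - 1)) ∧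
                2 ^ k.2.2 = 2 ^ Nat.log 2 (v q - 1) := by
            intro q hq
            obtain ⟨h1, h2⟩ := mem_filter.1 hq
            rw [← h2]
            exact ⟨h1, ⟨rfl, rfl⟩, rfl⟩
          have hkv : ∀ q ∈ F.filter (fun q => (Nat.log 2 (r q - 1), Nat.log 2 (q / r q - 1),
              Nat.log 2 (v q - 1)) = k), 2 ^ k.2.2 < v q ∧ v q ≤ 2 * 2 ^ k.2.2 := by
            intro q hq
            rw [(hk q hq).2.2]
            exact Bds_log (hv2 q (hk q hq).1)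
          rw [Bds_img _ r G fun q hq => (hr q (hk q hq).1).2.1]
          refine (hT1 x a b c M N (2 ^ k.1) (2 ^ k.2.1) (2 ^ k.2.2) _ f g hxx1 hb hc hcx
            (hblk _ _ q0 (hk q0 hq0).1 (hk q0 hq0).2.1.1 (hk q0 hq0).2.1.2) hcase ?_ ?_
            (hpr _ _ _ (fun q hq => (hk q hq).1) fun q hq => (hk q hq).2.1) ?_ hf hg).trans ?_
          · refine (hv q0 (hk q0 hq0).1).2.1.le.trans ?_
            exact_mod_cast (hkv q0 hq0).2
          · refine le_trans ?_ (hv q0 (hk q0 hq0).1).2.2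
            exact_mod_cast (hkv q0 hq0).1.le
          · intro w hw
            obtain ⟨q, hq, rfl⟩ := mem_image.1 hw
            exact ⟨⟨v q, (hv q (hk q hq).1).1, (hkv q hq).1, (hkv q hq).2⟩,
              hr0 q (hk q hq).1⟩
          · exact hCx η1 C1 (min_le_left _ _)
              ((le_abs_self C1).trans (by linarith [abs_nonneg C2]))
  change ∑ q ∈ F, ‖∑ m ∈ Ioc M (2 * M), ∑ n ∈ Ioc N (2 * N),
      f m * g n * Dl a (t q * (r q / t q)) (q / r q) (m * n)‖ ≤ _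
  rw [hsum]
  refine hmain.trans ?_
  have hJ := Bds_Jle hx3
  have hlog : Real.log x ≤ x ^ (min η1 η2 / 6) / (min η1 η2 / 6) :=
    Real.log_le_rpow_div hx0.le (by linarith)
  have hJ2 : ((Nat.log 2 ⌊x⌋₊ + 1 : ℕ) : ℝ) ≤ 18 / min η1 η2 * x ^ (min η1 η2 / 6) := by
    refine hJ.trans ?_
    have h1 : 3 * (x ^ (min η1 η2 / 6) / (min η1 η2 / 6)) =
        18 / min η1 η2 * x ^ (min η1 η2 / 6) := by
      field_simp
      ring
    linarith
  have hJ3 : ((Nat.log 2 ⌊x⌋₊ + 1 : ℕ) : ℝ) ^ 3 ≤ (18 / min η1 η2) ^ 3 * x ^ (min η1 η2 / 2) := by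
    refine (pow_le_pow_left₀ (Nat.cast_nonneg _) hJ2 3).trans (le_of_eq ?_)
    rw [mul_pow]
    congr 1
    rw [← Real.rpow_natCast, ← Real.rpow_mul hx0.le]
    congr 1
    push_cast
    ring
  calc ((Nat.log 2 ⌊x⌋₊ + 1 : ℕ) : ℝ) ^ 3 * ((|C1| + |C2|) * x ^ (1 - min η1 η2))
      ≤ (18 / min η1 η2) ^ 3 * x ^ (min η1 η2 / 2) * ((|C1| + |C2|) * x ^ (1 - min η1 η2)) :=
        mul_le_mul_of_nonneg_right hJ3 hB0
    _ = (18 / min η1 η2) ^ 3 * (|C1| + |C2|) * (x ^ (min η1 η2 / 2) * x ^ (1 - min η1 η2)) := by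
        ring
    _ = (18 / min η1 η2) ^ 3 * (|C1| + |C2|) * x ^ (1 - min η1 η2 / 2) := by
        rw [← Real.rpow_add hx0]
        congr 2
        ring

end Pool.Agent.Lib.MI
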