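import Pool.Agent.Lib.MI.SpecB

/-!
MP_00e23e_nt, directory Lib/MI, module Bgr: greedy divisor.
-/

namespace Pool.Agent.Lib.MI

open Finset Pool.Agent.Lib.EH3 Pool.Agent.Lib.TB Pool.Agent.Results.MP_00e23e_nt

theorem tBgr : BgrStmt := by
  classical
  intro q t Z y hq ht htZ hZq hp
  have hne : ((q.divisors).filter fun r => t ∣ r ∧ (r : ℝ) ≤ Z).Nonempty :=
    ⟨t, mem_filter.2 ⟨Nat.mem_divisors.2 ⟨ht, by omega⟩, dvd_rfl, htZ⟩⟩
  obtain ⟨r, hr, hmax⟩ := exists_max_image _ (fun r : ℕ => r) hne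
  obtain ⟨hrq, htr, hrZ⟩ := mem_filter.1 hr
  have hrq' : r ∣ q := (Nat.mem_divisors.1 hrq).1
  have hr1 : 1 ≤ r := Nat.pos_of_dvd_of_pos hrq' hq
  refine ⟨r, htr, hrq', hrZ, ?_⟩
  have hne1 : q / r ≠ 1 := by
    intro h
    have h1 : q = r := by
      have := Nat.div_mul_cancel hrq'
      rw [h, one_mul] at this
      exact this.symm
    rw [h1] at hZq
    linarith
  obtain ⟨p, hpp, hpd⟩ := Nat.exists_prime_and_dvd hne1
  have h2 : r * p ∣ q := by
    have h3 : r * p ∣ r * (q / r) := Nat.mul_dvd_mul_left r hpd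
    rwa [Nat.mul_div_cancel' hrq'] at h3
  have h4 : q / r ∣ q / t := by
    obtain ⟨c, rfl⟩ := htr
    obtain ⟨d, rfl⟩ := hrq'
    have ht0 : 0 < t := Nat.pos_of_ne_zero fun h => by simp [h] at hr1
    have hc0 : 0 < t * c := hr1
    rw [Nat.mul_div_cancel_left d hc0, mul_assoc, Nat.mul_div_cancel_left _ ht0]
    exact Dvd.intro_left c rfl
  have hpy : (p : ℝ) ≤ y := hp p hpp (hpd.trans h4)
  by_contra hcon
  rw [not_lt] at hcon
  have h5 : ((r * p : ℕ) : ℝ) ≤ Z := by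
    push_cast
    exact (mul_le_mul_of_nonneg_left hpy (Nat.cast_nonneg r)).trans hcon
  have h6 := hmax (r * p) (mem_filter.2 ⟨Nat.mem_divisors.2 ⟨h2, by omega⟩,
    htr.trans (dvd_mul_right r p), h5⟩)
  have h7 : r * 2 ≤ r * p := Nat.mul_le_mul_left r hpp.two_le
  omega

end Pool.Agent.Lib.MI
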