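import Pool.Agent.Lib.MI.SpecB

namespace Pool.Agent.Lib.MI

open Finset Pool.Agent.Lib.EH3 Pool.Agent.Lib.TB Pool.Agent.Results.MP_00e23e_nt

theorem tBid : BidStmt := by
  classical
  intro a t u s n ht hu hs hsq
  have hus : Nat.Coprime u s := by
    have h1 : Squarefree (t * (u * s)) := by rwa [← mul_assoc]
    exact Nat.coprime_of_squarefree_mul (h1.of_mul_right)
  have e1 : t * u * s / t = u * s := by
    rw [mul_assoc, Nat.mul_div_cancel_left _ ht]
  have e2 : t * u / t = u := Nat.mul_div_cancel_left _ ht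
  have hid : Ek a t (t * u * s) n - Dl a (t * u) s n - (1 / (s : ℂ)) * Ek a t (t * u) n =
      dl a t n * (((((if n.Coprime u then 1 / (s : ℝ) * (1 / (u.totient : ℝ)) else 0) -
        (if n.Coprime (u * s) then 1 / ((u * s).totient : ℝ) else 0) : ℝ)) : ℂ)) := by
    unfold Ek Dl
    rw [e1, e2]
    split_ifs <;> push_cast <;> ring
  rw [hid, norm_mul, dl_nonneg_norm, mul_assoc, Complex.norm_real, Real.norm_eq_abs]
  have hφu : (0 : ℝ) < (u.totient : ℝ) := by exact_mod_cast Nat.totient_pos.2 hu
  have hφs : (0 : ℝ) < (s.totient : ℝ) := by exact_mod_cast Nat.totient_pos.2 hs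
  have hs0 : (0 : ℝ) < (s : ℝ) := by positivity
  have hφs2 : (s.totient : ℝ) ≤ (s : ℝ) := by exact_mod_cast Nat.totient_le s
  have hle : 1 / (s : ℝ) ≤ 1 / (s.totient : ℝ) := one_div_le_one_div_of_le hφs hφs2
  have hmul : ((u * s).totient : ℝ) = (u.totient : ℝ) * (s.totient : ℝ) := by
    rw [Nat.totient_mul hus]
    push_cast
    rfl
  refine mul_le_mul_of_nonneg_left ?_ (by split_ifs <;> norm_num)
  by_cases h1 : n.Coprime u
  · by_cases h2 : n.Coprime s
    · have h3 : n.Coprime (u * s) := Nat.Coprime.mul_right h1 h2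
      rw [if_pos h1, if_pos h3, if_pos h2, hmul, add_zero]
      have : 1 / (s : ℝ) * (1 / (u.totient : ℝ)) - 1 / ((u.totient : ℝ) * (s.totient : ℝ)) =
          -((1 / (u.totient : ℝ)) * (1 / (s.totient : ℝ) - 1 / (s : ℝ))) := by
        rw [one_div_mul_one_div_rev]
        field_simp
        ring
      rw [this, abs_neg, abs_of_nonneg]
      exact mul_nonneg (by positivity) (by linarith)
    · have h3 : ¬ n.Coprime (u * s) := fun h => h2 (Nat.Coprime.coprime_mul_left_right h)
      rw [if_pos h1, if_neg h3, if_neg h2, sub_zero, abs_of_nonneg (by positivity), mul_comm]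
      refine mul_le_mul_of_nonneg_left ?_ (by positivity)
      linarith
  · have h3 : ¬ n.Coprime (u * s) := fun h => h1 (Nat.Coprime.coprime_mul_right_right h)
    rw [if_neg h1, if_neg h3, sub_zero, abs_zero]
    refine mul_nonneg (by positivity) (add_nonneg (by linarith) ?_)
    split_ifs <;> positivity

end Pool.Agent.Lib.MI
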