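import Pool.Agent.Lib.MI.SpecB

/-! MP_00e23e_nt, Lib/MI, module Bph: 1/φ(s) - 1/s for s without small prime factors. -/

namespace Pool.Agent.Lib.MI

open Finset Pool.Agent.Lib.EH3 Pool.Agent.Lib.TB Pool.Agent.Results.MP_00e23e_nt

/-- s ≤ τ(s) φ(s) -/
private lemma Bph_tau (s : ℕ) (hs : 1 ≤ s) : (s : ℝ) ≤ (s.divisors.card : ℝ) * s.totient := by
  have h1 : ∑ d ∈ s.divisors, d.totient = s := Nat.sum_totient s
  have h2 : ∑ d ∈ s.divisors, d.totient ≤ ∑ _d ∈ s.divisors, s.totient := by
    refine Finset.sum_le_sum fun d hd => ?_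
    exact Nat.le_of_dvd (Nat.totient_pos.2 hs) (Nat.totient_dvd_of_dvd (Nat.mem_divisors.1 hd).1)
  rw [h1, Finset.sum_const, smul_eq_mul] at h2
  exact_mod_cast h2

/-- s - φ(s) ≤ the sum of s/p over the primes p of s -/
private lemma Bph_sieve (s : ℕ) (hs : 1 ≤ s) : s ≤ s.totient + ∑ p ∈ s.primeFactors, s / p := by
  have h1 : (Ioc 0 s).card = s := by simp
  have h2 : ((Ioc 0 s).filter (fun n => s.Coprime n)).card = s.totient := by
    rw [Nat.totient_eq_card_coprime]
    have hc := Nat.filter_coprime_Ico_eq_totient s 1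
    have e1 : Ioc 0 s = Ico 1 (1 + s) := by
      ext n
      rw [mem_Ioc, mem_Ico]
      omega
    rw [e1, hc, Nat.totient_eq_card_coprime]
  have h3 : (Ioc 0 s).filter (fun n => ¬ s.Coprime n) ⊆
      s.primeFactors.biUnion (fun p => (Ioc 0 s).filter (fun n => p ∣ n)) := by
    intro n hn
    rw [mem_filter] at hn
    obtain ⟨p, hp, hps, hpn⟩ := Nat.Prime.not_coprime_iff_dvd.1 hn.2
    rw [mem_biUnion]
    exact ⟨p, Nat.mem_primeFactors.2 ⟨hp, hps, by omega⟩, mem_filter.2 ⟨hn.1, hpn⟩⟩
  have h4 : ((Ioc 0 s).filter (fun n => ¬ s.Coprime n)).card ≤ ∑ p ∈ s.primeFactors, s / p := by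
    refine (card_le_card h3).trans (card_biUnion_le.trans ?_)
    refine Finset.sum_le_sum fun p _ => ?_
    rw [Nat.Ioc_filter_dvd_card_eq_div]
  have h5 := Finset.card_filter_add_card_filter_not (s := Ioc 0 s) (fun n => s.Coprime n)
  rw [h1, h2] at h5
  omega

theorem tBph : BphStmt := by
  intro X T z s hT hz hs hsX hp
  have hs0 : (0 : ℝ) < s := by exact_mod_cast hs
  have hφ0 : (0 : ℝ) < s.totient := by exact_mod_cast Nat.totient_pos.2 hs
  have hT1 : 1 ≤ T := hT.1
  have hτ : (s.divisors.card : ℝ) ≤ T := hT.2.2 s hs hsX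
  have hz0 : 0 < z := by linarith
  by_cases hzT : z < 2 * T
  · have h1 : (s : ℝ) ≤ T * s.totient :=
      (Bph_tau s hs).trans (mul_le_mul_of_nonneg_right hτ hφ0.le)
    have h2 : 1 / (s.totient : ℝ) ≤ T / s := by
      rw [div_le_div_iff₀ hφ0 hs0]
      linarith
    have h3 : T / s ≤ 2 * T ^ 2 / (z * s) := by
      rw [div_le_div_iff₀ hs0 (by positivity)]
      have h4 : T * (z * s) = (T * s) * z := by ring
      have h5 : 2 * T ^ 2 * s = (T * s) * (2 * T) := by ring
      rw [h4, h5]
      exact mul_le_mul_of_nonneg_left hzT.le (by positivity)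
    have h6 : 0 < 1 / (s : ℝ) := by positivity
    linarith
  · push Not at hzT
    have h1 : ((∑ p ∈ s.primeFactors, s / p : ℕ) : ℝ) ≤ T * (s / z) := by
      push_cast
      calc ∑ p ∈ s.primeFactors, ((s / p : ℕ) : ℝ) ≤ ∑ _p ∈ s.primeFactors, (s : ℝ) / z := by
            refine Finset.sum_le_sum fun p hpp => ?_
            have hpp' := Nat.mem_primeFactors.1 hpp
            have hzp := hp p hpp'.1 hpp'.2.1
            refine Nat.cast_div_le.trans ?_
            exact div_le_div_of_nonneg_left hs0.le hz0 hzp.le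
        _ = (s.primeFactors.card : ℝ) * (s / z) := by rw [Finset.sum_const, nsmul_eq_mul]
        _ ≤ T * (s / z) := by
            refine mul_le_mul_of_nonneg_right (le_trans ?_ hτ) (by positivity)
            rw [Nat.cast_le]
            refine card_le_card fun p hpp => ?_
            have hpp' := Nat.mem_primeFactors.1 hpp
            exact Nat.mem_divisors.2 ⟨hpp'.2.1, hpp'.2.2⟩
    have h2 : (s : ℝ) ≤ s.totient + T * (s / z) := by
      have h3 := Bph_sieve s hs
      have h4 : (s : ℝ) ≤ ((s.totient + ∑ p ∈ s.primeFactors, s / p : ℕ) : ℝ) := by exact_mod_cast h3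
      rw [Nat.cast_add] at h4
      linarith
    have h3 : (s : ℝ) / 2 ≤ s.totient := by
      have h4 : T * (s / z) ≤ s / 2 := by
        rw [← mul_div_assoc, div_le_div_iff₀ hz0 two_pos]
        nlinarith
      linarith
    have h5 : 1 / (s.totient : ℝ) - 1 / s = (s - s.totient) / (s.totient * s) := by
      field_simp
    rw [h5]
    calc ((s : ℝ) - s.totient) / (s.totient * s) ≤ (T * (s / z)) / ((s / 2) * s) := by
          refine div_le_div₀ (by positivity) (by linarith) (by positivity) ?_
          exact mul_le_mul_of_nonneg_right h3 hs0.le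
      _ = 2 * T / (z * s) := by
          field_simp
      _ ≤ 2 * T ^ 2 / (z * s) := by
          refine div_le_div_of_nonneg_right ?_ (by positivity)
          nlinarith

end Pool.Agent.Lib.MI
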