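import Pool.Agent.Lib.MI.SpecB
import Pool.Agent.Lib.BV.Tot

/-! MP_00e23e_nt, Lib/MI, module Brm: the sum of the remainders. -/

namespace Pool.Agent.Lib.MI

open Finset Pool.Agent.Lib.EH3 Pool.Agent.Lib.TB Pool.Agent.Results.MP_00e23e_nt

/-- the harmonic sum -/
private lemma Brm_harm {X T : ℝ} (hT : Tau X T) (D : ℕ) (hD : (D : ℝ) ≤ X) :
    ∑ s ∈ Icc 1 D, 1 / (s : ℝ) ≤ T := by
  rcases Nat.eq_zero_or_pos D with h0 | h0
  · subst h0
    have h1 : Icc 1 0 = (∅ : Finset ℕ) := by decide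
    rw [h1, Finset.sum_empty]
    linarith [hT.1]
  · have h2 := harmonic_le_one_add_log D
    rw [harmonic_eq_sum_Icc] at h2
    push_cast at h2
    have hD0 : (0 : ℝ) < D := by exact_mod_cast h0
    have h3 : Real.log D ≤ Real.log X := Real.log_le_log hD0 hD
    have h4 : ∑ s ∈ Icc 1 D, 1 / (s : ℝ) = ∑ s ∈ Icc 1 D, (s : ℝ)⁻¹ :=
      Finset.sum_congr rfl fun s _ => one_div _
    rw [h4]
    linarith [hT.2.1]

/-- the sum over the multiples of p -/
private lemma Brm_mul {X T z : ℝ} (hT : Tau X T) (hz : 1 ≤ z) (D : ℕ) (hD : (D : ℝ) ≤ X) (p : ℕ)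
    (hp : z < p) : ∑ s ∈ (Icc 1 D).filter (fun s => p ∣ s), 1 / (s : ℝ) ≤ T / z := by
  have hp0 : 0 < p := by
    have : (0 : ℝ) < p := by linarith
    exact_mod_cast this
  have hpR : (0 : ℝ) < p := by exact_mod_cast hp0
  have h1 : ∑ s ∈ (Icc 1 D).filter (fun s => p ∣ s), 1 / (s : ℝ) =
      ∑ s ∈ Icc 1 (D / p), (1 / (p : ℝ)) * (1 / (s : ℝ)) := by
    refine Finset.sum_nbij' (fun s => s / p) (fun s => p * s) ?_ ?_ ?_ ?_ ?_
    · intro s hs
      rw [mem_filter, mem_Icc] at hs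
      obtain ⟨⟨h1, h2⟩, k, rfl⟩ := hs
      rw [Nat.mul_div_cancel_left k hp0, mem_Icc]
      refine ⟨?_, ?_⟩
      · rcases Nat.eq_zero_or_pos k with hk | hk
        · subst hk
          omega
        · exact hk
      · rw [Nat.le_div_iff_mul_le hp0, mul_comm]
        exact h2
    · intro s hs
      rw [mem_Icc, Nat.le_div_iff_mul_le hp0] at hs
      rw [mem_filter, mem_Icc]
      refine ⟨⟨Nat.mul_pos hp0 hs.1, ?_⟩, dvd_mul_right p s⟩
      rw [mul_comm]
      exact hs.2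
    · intro s hs
      rw [mem_filter] at hs
      exact Nat.mul_div_cancel' hs.2
    · intro s _
      exact Nat.mul_div_cancel_left s hp0
    · intro s hs
      rw [mem_filter] at hs
      obtain ⟨-, k, rfl⟩ := hs
      rw [Nat.mul_div_cancel_left k hp0]
      push_cast
      rw [one_div_mul_one_div]
  rw [h1, ← Finset.mul_sum]
  have h2 := Brm_harm hT (D / p) (le_trans (by exact_mod_cast Nat.div_le_self D p) hD)
  have h3 : 1 / (p : ℝ) ≤ 1 / z := one_div_le_one_div_of_le (by linarith) hp.le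
  have h4 : 0 ≤ ∑ s ∈ Icc 1 (D / p), 1 / (s : ℝ) := Finset.sum_nonneg fun s _ => by positivity
  calc (1 / (p : ℝ)) * ∑ s ∈ Icc 1 (D / p), 1 / (s : ℝ)
      ≤ (1 / z) * T := mul_le_mul h3 h2 h4 (by positivity)
    _ = T / z := by ring

/-- the primes above z of k -/
private noncomputable def Brm_Q (z : ℝ) (k : ℕ) : Finset ℕ :=
  open Classical in k.primeFactors.filter (fun p => z < p)

/-- the bound for the terms -/
private noncomputable def Brm_g (T z : ℝ) (k s : ℕ) : ℝ :=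
  2 * T ^ 2 / z * (1 / (s : ℝ)) + ∑ p ∈ Brm_Q z k, if p ∣ s then 1 / (s : ℝ) else 0

private lemma Brm_g_nonneg {T z : ℝ} (hz : 1 ≤ z) (k s : ℕ) : 0 ≤ Brm_g T z k s := by
  unfold Brm_g
  have h1 : 0 ≤ ∑ p ∈ Brm_Q z k, if p ∣ s then 1 / (s : ℝ) else 0 := by
    refine Finset.sum_nonneg fun p _ => ?_
    split_ifs
    · positivity
    · exact le_rfl
  have h2 : 0 ≤ 2 * T ^ 2 / z * (1 / (s : ℝ)) := by positivity
  linarith

private lemma Brm_g_sum {X T z : ℝ} (hT : Tau X T) (hz : 1 ≤ z) (D : ℕ) (hD : (D : ℝ) ≤ X) (k : ℕ)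
    (hk1 : 1 ≤ k) (hk : (k : ℝ) ≤ X) :
    ∑ s ∈ Icc 1 D, Brm_g T z k s ≤ 3 * T ^ 3 / z := by
  unfold Brm_g
  rw [Finset.sum_add_distrib, ← Finset.mul_sum, Finset.sum_comm]
  have hT1 := hT.1
  have hz0 : 0 < z := by linarith
  have h1 : 2 * T ^ 2 / z * ∑ s ∈ Icc 1 D, 1 / (s : ℝ) ≤ 2 * T ^ 2 / z * T :=
    mul_le_mul_of_nonneg_left (Brm_harm hT D hD) (by positivity)
  have h2 : ∑ p ∈ Brm_Q z k, ∑ s ∈ Icc 1 D, (if p ∣ s then 1 / (s : ℝ) else 0) ≤
      ∑ _p ∈ Brm_Q z k, T / z := by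
    refine Finset.sum_le_sum fun p hp => ?_
    rw [← Finset.sum_filter]
    unfold Brm_Q at hp
    rw [mem_filter] at hp
    exact Brm_mul hT hz D hD p hp.2
  have h3 : ((Brm_Q z k).card : ℝ) ≤ T := by
    have h4 : (Brm_Q z k).card ≤ k.divisors.card := by
      refine card_le_card fun p hp => ?_
      unfold Brm_Q at hp
      rw [mem_filter] at hp
      exact Nat.mem_divisors.2 ⟨Nat.dvd_of_mem_primeFactors hp.1, by omega⟩
    exact le_trans (by exact_mod_cast h4) (hT.2.2 k hk1 hk)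
  rw [Finset.sum_const, nsmul_eq_mul] at h2
  have h5 : ((Brm_Q z k).card : ℝ) * (T / z) ≤ T * (T / z) :=
    mul_le_mul_of_nonneg_right h3 (by positivity)
  have h6 : T * (T / z) ≤ T ^ 3 / z := by
    rw [mul_div_assoc', div_le_div_iff_of_pos_right hz0]
    nlinarith
  have h7 : 2 * T ^ 2 / z * T + T ^ 3 / z = 3 * T ^ 3 / z := by ring
  linarith

private lemma Brm_phi {X T : ℝ} (hT : Tau X T) (D : ℕ) (hD : (D : ℝ) ≤ X) :
    ∑ u ∈ Icc 1 D, 1 / (u.totient : ℝ) ≤ T ^ 2 := by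
  have hT1 := hT.1
  rcases Nat.eq_zero_or_pos D with h0 | h0
  · subst h0
    have h1 : Icc 1 0 = (∅ : Finset ℕ) := by decide
    rw [h1, Finset.sum_empty]
    positivity
  · have hD1 : (1 : ℝ) ≤ D := by exact_mod_cast h0
    have h3 : Real.log D ≤ Real.log X := Real.log_le_log (by linarith) hD
    have h4 : 0 ≤ Real.log D := Real.log_nonneg hD1
    have h5 := BV.tTot.1 D h0
    have h6 : (1 + Real.log D) ^ 2 ≤ T ^ 2 :=
      pow_le_pow_left₀ (by linarith) (by linarith [hT.2.1]) 2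
    exact h5.trans h6

theorem tBrm (h1 : BphStmt) : BrmStmt := by
  classical
  intro X T z a b c D M N G hT hz hc hM hN hD hX hb hG
  have hT1 := hT.1
  have hz0 : 0 < z := by linarith
  have hMR : (1 : ℝ) ≤ M := by exact_mod_cast hM
  have hNR : (1 : ℝ) ≤ N := by exact_mod_cast hN
  have hcR : (1 : ℝ) ≤ c := by exact_mod_cast hc
  have hbR : 4 * |(b : ℝ)| < (M : ℝ) * N := by exact_mod_cast hb
  have hMN : (0 : ℝ) < (M : ℝ) * N := by positivity
  have hcMN : (M : ℝ) * N ≤ (c : ℝ) * M * N := by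
    have := mul_le_mul_of_nonneg_right hcR hMN.le
    linarith
  -- the bound for fixed m, n
  have key : ∀ m ∈ Ioc M (2 * M), ∀ n ∈ Ioc N (2 * N), ∑ w ∈ G,
      ((if (w.1 : ℤ) ∣ ((m * n : ℕ) : ℤ) - a then (1 : ℝ) else 0) * (1 / (w.2.1.totient : ℝ)) *
        ((1 / (w.2.2.totient : ℝ) - 1 / (w.2.2 : ℝ)) +
          (if (m * n).Coprime w.2.2 then 0 else 1 / (w.2.2 : ℝ)))) ≤ 3 * T ^ 6 / z := by
    intro m hm n hn
    rw [mem_Ioc] at hm hn
    have hmM : (M : ℝ) ≤ m := by exact_mod_cast hm.1.le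
    have hm2 : (m : ℝ) ≤ 2 * M := by exact_mod_cast hm.2
    have hnN : (N : ℝ) ≤ n := by exact_mod_cast hn.1.le
    have hn2 : (n : ℝ) ≤ 2 * N := by exact_mod_cast hn.2
    have hmn1 : (M : ℝ) * N ≤ (m : ℝ) * n := mul_le_mul hmM hnN (by positivity) (by positivity)
    have hmn2 : (m : ℝ) * n ≤ 4 * ((M : ℝ) * N) := by
      have := mul_le_mul hm2 hn2 (by positivity) (by positivity)
      linarith
    have hk1 : 1 ≤ m * n := Nat.mul_pos (by omega) (by omega)
    have hkX : ((m * n : ℕ) : ℝ) ≤ X := by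
      push_cast
      linarith
    set Z : ℤ := (c : ℤ) * ((m * n : ℕ) : ℤ) - b with hZ
    have hZR : (Z : ℝ) = (c : ℝ) * ((m : ℝ) * n) - b := by
      rw [hZ]
      push_cast
      ring
    have hcmn1 : (m : ℝ) * n ≤ (c : ℝ) * ((m : ℝ) * n) := by
      have := mul_le_mul_of_nonneg_right hcR (show (0 : ℝ) ≤ (m : ℝ) * n by positivity)
      linarith
    have hcmn2 : (c : ℝ) * ((m : ℝ) * n) ≤ (c : ℝ) * (4 * ((M : ℝ) * N)) :=
      mul_le_mul_of_nonneg_left hmn2 (by linarith)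
    have hZpos : (0 : ℝ) < Z := by
      rw [hZR]
      have := le_abs_self (b : ℝ)
      have := abs_nonneg (b : ℝ)
      linarith
    have hZX : (Z : ℝ) ≤ X := by
      rw [hZR]
      have := neg_abs_le (b : ℝ)
      have h5 : (c : ℝ) * (4 * ((M : ℝ) * N)) = 4 * ((c : ℝ) * M * N) := by ring
      have h6 : 5 * (c : ℝ) * M * N = 5 * ((c : ℝ) * M * N) := by ring
      rw [h6] at hX
      linarith
    have hZpos' : 0 < Z := by exact_mod_cast hZpos
    have hZn : ((Z.natAbs : ℕ) : ℤ) = Z := Int.natAbs_of_nonneg hZpos'.le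
    have hZn1 : 1 ≤ Z.natAbs := by omega
    have hZnX : ((Z.natAbs : ℕ) : ℝ) ≤ X := by
      have h7 : ((Z.natAbs : ℕ) : ℝ) = (Z : ℝ) := by
        rw [← Int.cast_natCast, hZn]
      rw [h7]
      exact hZX
    set P : Finset (ℕ × ℕ × ℕ) := Z.natAbs.divisors ×ˢ (Icc 1 D ×ˢ Icc 1 D) with hP
    set F : ℕ × ℕ × ℕ → ℝ := fun w => (1 / (w.2.1.totient : ℝ)) * Brm_g T z (m * n) w.2.2 with hF
    have hF0 : ∀ w, 0 ≤ F w := fun w => mul_nonneg (by positivity) (Brm_g_nonneg hz _ _)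
    have hterm : ∀ w ∈ G, ((if (w.1 : ℤ) ∣ ((m * n : ℕ) : ℤ) - a then (1 : ℝ) else 0) *
        (1 / (w.2.1.totient : ℝ)) * ((1 / (w.2.2.totient : ℝ) - 1 / (w.2.2 : ℝ)) +
          (if (m * n).Coprime w.2.2 then 0 else 1 / (w.2.2 : ℝ)))) ≤
        if (w.1 : ℤ) ∣ ((m * n : ℕ) : ℤ) - a then F w else 0 := by
      intro w hw
      obtain ⟨-, -, hs1, -, -, hsD, -, hsp⟩ := hG w hw
      split_ifs with hd hco
      · rw [one_mul, add_zero, hF]
        simp only
        refine mul_le_mul_of_nonneg_left ?_ (by positivity)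
        have h8 := h1 X T z w.2.2 hT hz hs1 (le_trans (by exact_mod_cast hsD) hD) hsp
        have h9 : 2 * T ^ 2 / (z * (w.2.2 : ℝ)) = 2 * T ^ 2 / z * (1 / (w.2.2 : ℝ)) := by
          rw [div_mul_div_comm, mul_one]
        unfold Brm_g
        have h10 : 0 ≤ ∑ p ∈ Brm_Q z (m * n), if p ∣ w.2.2 then 1 / (w.2.2 : ℝ) else 0 := by
          refine Finset.sum_nonneg fun p _ => ?_
          split_ifs
          · positivity
          · exact le_rfl
        linarith
      · rw [one_mul, hF]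
        simp only
        refine mul_le_mul_of_nonneg_left ?_ (by positivity)
        have h8 := h1 X T z w.2.2 hT hz hs1 (le_trans (by exact_mod_cast hsD) hD) hsp
        have h9 : 2 * T ^ 2 / (z * (w.2.2 : ℝ)) = 2 * T ^ 2 / z * (1 / (w.2.2 : ℝ)) := by
          rw [div_mul_div_comm, mul_one]
        obtain ⟨p, hp, hp1, hp2⟩ := Nat.Prime.not_coprime_iff_dvd.1 hco
        have hpQ : p ∈ Brm_Q z (m * n) := by
          unfold Brm_Q
          rw [mem_filter]
          exact ⟨Nat.mem_primeFactors.2 ⟨hp, hp1, by omega⟩, hsp p hp hp2⟩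
        unfold Brm_g
        have h10 : 1 / (w.2.2 : ℝ) ≤
            ∑ p ∈ Brm_Q z (m * n), if p ∣ w.2.2 then 1 / (w.2.2 : ℝ) else 0 := by
          refine le_trans (le_of_eq ?_) (Finset.single_le_sum
            (f := fun p => if p ∣ w.2.2 then 1 / (w.2.2 : ℝ) else 0) ?_ hpQ)
          · rw [if_pos hp2]
          · intro p _
            split_ifs
            · positivity
            · exact le_rfl
        linarith
      · rw [zero_mul, zero_mul]
      · rw [zero_mul, zero_mul]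
    refine (Finset.sum_le_sum hterm).trans ?_
    rw [← Finset.sum_filter]
    have hsub : G.filter (fun w => (w.1 : ℤ) ∣ ((m * n : ℕ) : ℤ) - a) ⊆ P := by
      intro w hw
      rw [mem_filter] at hw
      obtain ⟨ht1, hu1, hs1, htD, huD, hsD, hdv, hsp⟩ := hG w hw.1
      rw [hP, mem_product, mem_product, mem_Icc, mem_Icc, Nat.mem_divisors]
      refine ⟨⟨?_, by omega⟩, ⟨hu1, huD⟩, hs1, hsD⟩
      have h11 : (w.1 : ℤ) ∣ Z := by
        have h12 : Z = (c : ℤ) * (((m * n : ℕ) : ℤ) - a) + ((c : ℤ) * a - b) := by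
          rw [hZ]
          ring
        rw [h12]
        exact dvd_add (dvd_mul_of_dvd_right hw.2 _) hdv
      rw [← hZn] at h11
      exact_mod_cast h11
    refine (Finset.sum_le_sum_of_subset_of_nonneg hsub fun w _ _ => hF0 w).trans ?_
    have hsum : ∑ w ∈ P, F w = (Z.natAbs.divisors.card : ℝ) *
        ((∑ u ∈ Icc 1 D, 1 / (u.totient : ℝ)) * ∑ s ∈ Icc 1 D, Brm_g T z (m * n) s) := by
      rw [hP, Finset.sum_product, Finset.sum_mul_sum]
      have h13 : ∀ t ∈ Z.natAbs.divisors, ∑ x ∈ Icc 1 D ×ˢ Icc 1 D, F (t, x) =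
          ∑ u ∈ Icc 1 D, ∑ s ∈ Icc 1 D, 1 / (u.totient : ℝ) * Brm_g T z (m * n) s := by
        intro t _
        rw [Finset.sum_product]
      rw [Finset.sum_congr rfl h13, Finset.sum_const, nsmul_eq_mul]
    rw [hsum]
    have h14 := hT.2.2 Z.natAbs hZn1 hZnX
    have h15 := Brm_phi hT D hD
    have h16 := Brm_g_sum hT hz D hD (m * n) hk1 hkX
    have h17 : 0 ≤ ∑ s ∈ Icc 1 D, Brm_g T z (m * n) s :=
      Finset.sum_nonneg fun s _ => Brm_g_nonneg hz _ _
    have h18 : 0 ≤ ∑ u ∈ Icc 1 D, 1 / (u.totient : ℝ) :=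
      Finset.sum_nonneg fun u _ => by positivity
    calc (Z.natAbs.divisors.card : ℝ) *
          ((∑ u ∈ Icc 1 D, 1 / (u.totient : ℝ)) * ∑ s ∈ Icc 1 D, Brm_g T z (m * n) s)
        ≤ T * (T ^ 2 * (3 * T ^ 3 / z)) :=
          mul_le_mul h14 (mul_le_mul h15 h16 h17 (by positivity)) (mul_nonneg h18 h17)
            (by linarith)
      _ = 3 * T ^ 6 / z := by ring
  rw [Finset.sum_comm]
  have hrow : ∀ m ∈ Ioc M (2 * M), ∑ w ∈ G, ∑ n ∈ Ioc N (2 * N),
      ((if (w.1 : ℤ) ∣ ((m * n : ℕ) : ℤ) - a then (1 : ℝ) else 0) * (1 / (w.2.1.totient : ℝ)) *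
        ((1 / (w.2.2.totient : ℝ) - 1 / (w.2.2 : ℝ)) +
          (if (m * n).Coprime w.2.2 then 0 else 1 / (w.2.2 : ℝ)))) ≤
      (N : ℝ) * (3 * T ^ 6 / z) := by
    intro m hm
    rw [Finset.sum_comm]
    refine (Finset.sum_le_sum fun n hn => key m hm n hn).trans ?_
    rw [Finset.sum_const, Nat.card_Ioc, nsmul_eq_mul]
    have h19 : 2 * N - N = N := by omega
    rw [h19]
  refine (Finset.sum_le_sum hrow).trans ?_
  rw [Finset.sum_const, Nat.card_Ioc, nsmul_eq_mul]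
  have h20 : 2 * M - M = M := by omega
  rw [h20]
  exact le_of_eq (by ring)

end Pool.Agent.Lib.MI
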