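import Pool.Agent.Lib.MI.LLr
import Pool.Agent.Lib.BV.Far
import Pool.Agent.Lib.BV.Gau
import Pool.Agent.Lib.BV.Ort
import Pool.Agent.Lib.BV.Lsm
import Pool.Agent.Lib.BV.Blk
import Pool.Agent.Lib.BV.Bil
import Pool.Agent.Lib.BV.Tot

/-!
MP_00e23e_nt, directory Lib/MI, chapter L: the unconditional form.
-/

namespace Pool.Agent.Lib.MI

open Pool.Agent.Lib.BV

/-- Chapter L, unconditional. -/
theorem tLrgAll : LrgStmt :=
  tLrg tInj (tBil (tBlk (tLsm tFar tGau tOrt))) tTot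

end Pool.Agent.Lib.MI
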