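import Pool.Agent.Lib.MI.Bfi
import Pool.Agent.Lib.MI.Bds
import Pool.Agent.Lib.MI.Bbo
import Pool.Agent.Lib.MI.Bbt
import Pool.Agent.Lib.MI.Bgr
import Pool.Agent.Lib.MI.Bid
import Pool.Agent.Lib.MI.Bph
import Pool.Agent.Lib.MI.Brm
import Pool.Agent.Lib.MI.Blg
import Pool.Agent.Lib.MI.Bdh
import Pool.Agent.Lib.MI.Bt1
import Pool.Agent.Lib.MI.Bt2
import Pool.Agent.Lib.MI.Atu
import Pool.Agent.Lib.TB.Tauk
import Pool.Agent.Lib.MI.AllD
import Pool.Agent.Lib.MI.AllT1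
import Pool.Agent.Lib.MI.AllT2
import Pool.Agent.Lib.MI.LAll

/-! MP_00e23e_nt, directory Lib/MI: chapter B without hypotheses. -/

namespace Pool.Agent.Lib.MI

open Pool.Agent.Lib.TB

private theorem AllB_bta : BtaStmt := tAtu tTauk

/-- Chapter B, unconditional. -/
theorem tBAll : BAllStmt :=
  tBfi (tBds (tBbo tDAll (tBt1 tT1All tBdh) AllB_bta) (tBbt tDAll (tBt2 tT2All tBdh) AllB_bta) tBgr) tBid
    (tBrm tBph) (tBlg tLrgAll) tLrgAll AllB_bta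

end Pool.Agent.Lib.MI
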