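import Pool.Agent.Lib.MI.SpecF

/-!
MP_00e23e_nt, directory Lib/MI, module Fcr: one residue for all moduli.
-/

namespace Pool.Agent.Lib.MI

open Finset Pool.Agent.Lib.EH3 Pool.Agent.Lib.TB Pool.Agent.Results.MP_00e23e_nt

theorem tFcr : FcrStmt := by
  intro F s b c h
  have hcop : c.Coprime (∏ q ∈ F, q) := Nat.Coprime.prod_right fun q hq => (h q hq).2.1
  have hcop' : IsCoprime (c : ℤ) ((∏ q ∈ F, q : ℕ) : ℤ) := Nat.isCoprime_iff_coprime.2 hcop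
  obtain ⟨u, v, huv⟩ := hcop'
  refine ⟨b * u, fun q hq => ?_⟩
  obtain ⟨hq1, hcq, hg, hd⟩ := h q hq
  have hqW : (q : ℤ) ∣ ((∏ q ∈ F, q : ℕ) : ℤ) := by
    exact_mod_cast Finset.dvd_prod_of_mem (fun q : ℕ => q) hq
  have h1 : (q : ℤ) ∣ (c : ℤ) * (b * u) - b := by
    have h2 : (c : ℤ) * (b * u) - b = -(b * v) * ((∏ q ∈ F, q : ℕ) : ℤ) := by
      have : (c : ℤ) * u = 1 - v * ((∏ q ∈ F, q : ℕ) : ℤ) := by linarith
      calc (c : ℤ) * (b * u) - b = b * ((c : ℤ) * u) - b := by ring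
        _ = -(b * v) * ((∏ q ∈ F, q : ℕ) : ℤ) := by rw [this]; ring
    rw [h2]
    exact Dvd.dvd.mul_left hqW _
  have h3 : (q : ℤ) ∣ (c : ℤ) * (b * u - s q) := by
    have h4 : (c : ℤ) * (b * u - s q) = ((c : ℤ) * (b * u) - b) - ((c : ℤ) * s q - b) := by ring
    rw [h4]
    exact dvd_sub h1 hd
  have hcq' : IsCoprime (q : ℤ) (c : ℤ) := (Nat.isCoprime_iff_coprime.2 hcq).symm
  have h5 : (q : ℤ) ∣ b * u - s q := hcq'.dvd_of_dvd_mul_left h3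
  refine ⟨⟨?_, h1⟩, h5⟩
  obtain ⟨k, hk⟩ := h5
  have h6 : IsCoprime (s q) (q : ℤ) := Int.isCoprime_iff_gcd_eq_one.2 hg
  have h7 : b * u = s q + (q : ℤ) * k := by linarith
  rw [h7]
  exact Int.isCoprime_iff_gcd_eq_one.1 (h6.add_mul_left_left k)

end Pool.Agent.Lib.MI
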