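import Pool.Agent.Lib.MI.Fmi
import Pool.Agent.Lib.MI.Fps
import Pool.Agent.Lib.MI.Fpi
import Pool.Agent.Lib.MI.Fth
import Pool.Agent.Lib.MI.Ftp
import Pool.Agent.Lib.MI.Ftn
import Pool.Agent.Lib.MI.Atu
import Pool.Agent.Lib.MI.Fab
import Pool.Agent.Lib.MI.Fcr
import Pool.Agent.Lib.MI.Fgr
import Pool.Agent.Lib.MI.Fbv
import Pool.Agent.Lib.TB.Tauk
import Pool.Agent.Lib.KF.Rse
import Pool.Agent.Lib.BV.All

/-! MP_00e23e_nt, directory Lib/MI: chapter F without hypotheses. -/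

namespace Pool.Agent.Lib.MI

open Pool.Agent.Lib.TB

/-- Chapter F, unconditional. -/
theorem tFAll : FAllStmt :=
  tFmi (tFps (tFpi (tFth tFtp tFtn (tAtu tTauk)) tFab (tAtu tTauk)) tFcr tFgr tFtn)
    (tFbv Pool.Agent.Lib.BV.aExt Pool.Agent.Lib.KF.tRse tFtn)

end Pool.Agent.Lib.MI
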