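import Pool.Agent.Lib.MI.AllA
import Pool.Agent.Lib.MI.AllF
import Pool.Agent.Lib.MI.AllB

/-! MP_00e23e_nt, directory Lib/MI: THEOREM MI, without hypotheses. -/

namespace Pool.Agent.Lib.MI

/-- THEOREM MI. -/
theorem tMI : MIStmt := by
  intro δ τ κ hδ hτ hκ h1 h2
  obtain ⟨ε, hε0, hε1, hB⟩ := tBAll δ τ κ hδ hτ hκ h1 h2
  have hA : CoreStmt (1 / 2 + δ) τ κ :=
    tAAll (1 / 2 + δ) τ κ ε hε0 hε1 (by linarith) hτ (by linarith) hκ (by linarith) hB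
  exact tFAll (1 / 2 + δ) τ κ (by linarith) hτ (by linarith) hκ (by linarith) hA

end Pool.Agent.Lib.MI
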