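import Pool.Agent.Lib.MI.SpecT1

/-! MP_00e23e_nt, Lib/MI, chapter T1, module T1Avi: average of the inner sums. -/

namespace Pool.Agent.Lib.MI

open Finset Pool.Agent.Lib.EH3 Pool.Agent.Lib.TB Pool.Agent.Results.MP_00e23e_nt

private lemma T1Avi_add (a : ℤ) (R S V L L' : ℕ) (Hs : Finset ℤ) (r0 : ℕ → ℕ)
    (f g : ℤ → ℤ → ℕ → ℕ → ℕ → ℕ → ℕ → ℝ) :
    t1Sum a R S V L L' Hs r0 (fun h h' w w' r u s2 => f h h' w w' r u s2 + g h h' w w' r u s2) =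
      t1Sum a R S V L L' Hs r0 f + t1Sum a R S V L L' Hs r0 g := by
  unfold t1Sum
  simp only [← sum_add_distrib]
  refine sum_congr rfl fun h _ => sum_congr rfl fun h' _ => sum_congr rfl fun w _ =>
    sum_congr rfl fun w' _ => sum_congr rfl fun r _ => sum_congr rfl fun u _ =>
      sum_congr rfl fun s2 _ => ?_
  split_ifs
  · rfl
  · rw [add_zero]

private lemma T1Avi_mul (a : ℤ) (R S V L L' : ℕ) (Hs : Finset ℤ) (r0 : ℕ → ℕ) (c : ℝ)
    (f : ℤ → ℤ → ℕ → ℕ → ℕ → ℕ → ℕ → ℝ) :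
    t1Sum a R S V L L' Hs r0 (fun h h' w w' r u s2 => c * f h h' w w' r u s2) =
      c * t1Sum a R S V L L' Hs r0 f := by
  unfold t1Sum
  simp only [mul_sum]
  refine sum_congr rfl fun h _ => sum_congr rfl fun h' _ => sum_congr rfl fun w _ =>
    sum_congr rfl fun w' _ => sum_congr rfl fun r _ => sum_congr rfl fun u _ =>
      sum_congr rfl fun s2 _ => ?_
  split_ifs
  · rfl
  · rw [mul_zero]

private lemma T1Avi_sum (a : ℤ) (R S V L L' : ℕ) (Hs : Finset ℤ) (r0 : ℕ → ℕ) (D : Finset ℕ)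
    (f : ℕ → ℤ → ℤ → ℕ → ℕ → ℕ → ℕ → ℕ → ℝ) :
    t1Sum a R S V L L' Hs r0 (fun h h' w w' r u s2 => ∑ d ∈ D, f d h h' w w' r u s2) =
      ∑ d ∈ D, t1Sum a R S V L L' Hs r0 (f d) := by
  classical
  induction D using Finset.induction_on with
  | empty =>
    simp only [sum_empty]
    have h1 := T1Avi_mul a R S V L L' Hs r0 0 (fun _ _ _ _ _ _ _ => (0 : ℝ))
    rw [zero_mul] at h1
    simpa using h1
  | insert d D hd ih =>
    rw [sum_insert hd, ← ih, ← T1Avi_add]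
    congr 1
    funext h h' w w' r u s2
    rw [sum_insert hd]

/-- the square of one inner sum -/
private lemma T1Avi_pt (hVdc : T1VdcStmt) (hFac : T1FacStmt) (hPhs : T1PhsStmt)
    (a h h' : ℤ) (k S r r0 u w w' s2 N L : ℕ) (hr0 : r0 ∣ r) (hLr : L < r0) (hL : 1 ≤ L)
    (hrN : r ≤ N) (hG : T1Gq a S r u w w' s2) :
    ‖t1In a h h' k r u w w' s2 N‖ ^ 2 ≤ 2 * (N : ℝ) / L *
      ((N : ℝ) + 2 * ∑ d ∈ Ico 1 L, ‖t1C a h h' k r r0 u w w' s2 N d‖) := by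
  obtain ⟨-, ⟨h1, -, h2⟩, -⟩ := hFac a S r r0 u w w' s2 hr0 hG
  have hLN : L * (r / r0) ≤ N := by
    calc L * (r / r0) ≤ r0 * (r / r0) := Nat.mul_le_mul_right _ hLr.le
      _ = r := h2
      _ ≤ N := hrN
  have h3 := hVdc N L (r / r0)
    (t1g (-(a * t1e h h' w w') * (iv (t1q r0 u w w') (r / r0) : ℤ) * (iv s2 (r / r0) : ℤ)) (r / r0))
    (t1G a h h' k r r0 u w w' s2) hL hLN (fun n => t1_g_add _ _ n) (fun n => t1_norm_g _ _ n)
    (fun n => t1_norm_G _ _ _ _ _ _ _ _ _ _ n)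
  have h4 : t1In a h h' k r u w w' s2 N = ∑ n ∈ Ioc N (2 * N),
      t1g (-(a * t1e h h' w w') * (iv (t1q r0 u w w') (r / r0) : ℤ) * (iv s2 (r / r0) : ℤ)) (r / r0) n *
        t1G a h h' k r r0 u w w' s2 n := by
    unfold t1In
    exact sum_congr rfl fun n _ => hPhs a h h' k S r r0 u w w' s2 n hr0 hG
  rw [h4]
  exact h3

private lemma T1Avi_num {K N L T Y Z2 A Z : ℝ} (hK : 0 ≤ K) (hN : 0 < N) (hL : 0 < L) (hT : 1 ≤ T)
    (hY : 0 ≤ Y) (hZ2 : Z2 = 1 / L + Y / N) (hZ : 0 < Z) (hZZ : Z ^ 2 = Z2)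
    (hA : A = 6 * T ^ 6 * N * Z) :
    8 * K * (A / 2 + N ^ 2 / (A * L)) + 2 * N / (A * L) * (64 * T ^ 11 * (L * K) * Y) ≤
      46 * T ^ 6 * (K * N) * Z := by
  have hT0 : 0 < T := by linarith
  have hA0 : 0 < A := by rw [hA]; positivity
  have e1 : 8 * K * (A / 2 + N ^ 2 / (A * L)) + 2 * N / (A * L) * (64 * T ^ 11 * (L * K) * Y) =
      4 * K * A + K * N ^ 2 / A * (8 / L + 128 * T ^ 11 * (Y / N)) := by
    field_simp
    ring
  have h1 : 8 / L ≤ 128 * T ^ 12 * (1 / L) := by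
    have h2 : (1 : ℝ) ≤ T ^ 12 := one_le_pow₀ hT
    have h3 : 0 ≤ 1 / L := by positivity
    calc 8 / L = 8 * (1 / L) := by ring
      _ ≤ 128 * T ^ 12 * (1 / L) := mul_le_mul_of_nonneg_right (by linarith) h3
  have h2 : 128 * T ^ 11 * (Y / N) ≤ 128 * T ^ 12 * (Y / N) := by
    have h3 : T ^ 11 ≤ T ^ 12 := pow_le_pow_right₀ hT (by norm_num)
    have h4 : 0 ≤ Y / N := by positivity
    exact mul_le_mul_of_nonneg_right (by linarith) h4
  have h3 : 8 / L + 128 * T ^ 11 * (Y / N) ≤ 128 * T ^ 12 * Z ^ 2 := by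
    rw [hZZ, hZ2]
    linarith [h1, h2]
  have h4 : K * N ^ 2 / A * (8 / L + 128 * T ^ 11 * (Y / N)) ≤ K * N ^ 2 / A * (128 * T ^ 12 * Z ^ 2) :=
    mul_le_mul_of_nonneg_left h3 (by positivity)
  have e2 : K * N ^ 2 / A * (128 * T ^ 12 * Z ^ 2) = 128 / 6 * (T ^ 6 * (K * N) * Z) := by
    rw [hA]
    field_simp
  have e3 : 4 * K * A = 24 * (T ^ 6 * (K * N) * Z) := by
    rw [hA]
    ring
  have h5 : 0 ≤ T ^ 6 * (K * N) * Z := by positivity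
  rw [e1]
  calc 4 * K * A + K * N ^ 2 / A * (8 / L + 128 * T ^ 11 * (Y / N))
      ≤ 24 * (T ^ 6 * (K * N) * Z) + 128 / 6 * (T ^ 6 * (K * N) * Z) := by
        rw [e3, ← e2]
        linarith
    _ ≤ 46 * (T ^ 6 * (K * N) * Z) := by linarith
    _ = _ := by ring

theorem tT1Avi (hVdc : T1VdcStmt) (hFac : T1FacStmt) (hPhs : T1PhsStmt) (hNum : T1NumStmt)
    (hAvc : T1AvcStmt) : T1AviStmt := by
  intro X T a k R S N H V L L' Hs r0 hT hR hS hL hV hRN hHs hX1 hX2 hX3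
  have hT1 : 1 ≤ T := hT.1
  have hT0 : 0 < T := by linarith
  have hNp : (0 : ℝ) < N := by
    have : 1 ≤ N := by omega
    exact_mod_cast this
  have hLp : (0 : ℝ) < L := by exact_mod_cast hL
  set Y : ℝ := (N : ℝ) / (Real.sqrt ((L : ℝ) * V) * S) + Real.sqrt ((L' : ℝ) * V) * S with hY
  have hY0 : 0 ≤ Y := by positivity
  set Z2 : ℝ := 1 / (L : ℝ) + 1 / (Real.sqrt ((L : ℝ) * V) * S) + Real.sqrt ((L' : ℝ) * V) * S / N with hZ2
  have hZ2p : 0 < Z2 := by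
    have h1 : 0 < 1 / (L : ℝ) := by positivity
    have h2 : 0 ≤ 1 / (Real.sqrt ((L : ℝ) * V) * S) := by positivity
    have h3 : 0 ≤ Real.sqrt ((L' : ℝ) * V) * S / N := by positivity
    linarith
  have hZ2Y : Z2 = 1 / (L : ℝ) + Y / N := by
    have h1 : (N : ℝ) / (Real.sqrt ((L : ℝ) * V) * S) / N = 1 / (Real.sqrt ((L : ℝ) * V) * S) := by
      rw [div_right_comm, div_self hNp.ne']
    rw [hZ2, hY, add_div, h1]
    ring
  have hZp : 0 < Real.sqrt Z2 := Real.sqrt_pos.2 hZ2p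
  have hZZ : Real.sqrt Z2 ^ 2 = Z2 := Real.sq_sqrt hZ2p.le
  set A : ℝ := 6 * T ^ 6 * N * Real.sqrt Z2 with hA
  have hA0 : 0 < A := by positivity
  have h1 : t1Sum a R S V L L' Hs r0 (fun h h' w w' r u s2 => ‖t1In a h h' k r u w w' s2 N‖) ≤
      t1Sum a R S V L L' Hs r0 (fun h h' w w' r u s2 => (A / 2 + (N : ℝ) ^ 2 / (A * L)) +
        2 * (N : ℝ) / (A * L) * ∑ d ∈ Ico 1 L, ‖t1C a h h' k r (r0 r) u w w' s2 N d‖) := by
    refine t1_Sum_mono ?_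
    intro h hh h' hh' w hw w' hw' r hr u hu s2 hs2 he hr0 hG
    rw [mem_Ioc] at hr
    have h2 := T1Avi_pt hVdc hFac hPhs a h h' k S r (r0 r) u w w' s2 N L hr0.1 hr0.2.1 hL
      (hr.2.trans hRN) hG
    set x : ℝ := ‖t1In a h h' k r u w w' s2 N‖
    set D : ℝ := ∑ d ∈ Ico 1 L, ‖t1C a h h' k r (r0 r) u w w' s2 N d‖
    have h3 : x ≤ A / 2 + x ^ 2 / (2 * A) := by
      have h4 : A / 2 + x ^ 2 / (2 * A) - x = (A - x) ^ 2 / (2 * A) := by
        field_simp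
        ring
      have h5 : 0 ≤ (A - x) ^ 2 / (2 * A) := by positivity
      linarith
    have h6 : x ^ 2 / (2 * A) ≤ 2 * (N : ℝ) / L * ((N : ℝ) + 2 * D) / (2 * A) :=
      div_le_div_of_nonneg_right h2 (by positivity)
    have h7 : 2 * (N : ℝ) / L * ((N : ℝ) + 2 * D) / (2 * A) =
        (N : ℝ) ^ 2 / (A * L) + 2 * (N : ℝ) / (A * L) * D := by
      field_simp
    linarith
  refine h1.trans ?_
  rw [T1Avi_add, T1Avi_mul, T1Avi_sum]
  have h8 := hNum a R S H V L L' Hs r0 (A / 2 + (N : ℝ) ^ 2 / (A * L)) hV (by positivity) hHs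
  have h9 := hAvc X T a k R S N H V L L' Hs r0 hT hR hS hL hV hHs hX1 hX2 hX3
  have h10 := mul_le_mul_of_nonneg_left h9 (show 0 ≤ 2 * (N : ℝ) / (A * L) by positivity)
  refine (add_le_add h8 h10).trans ?_
  have h11 := T1Avi_num (K := (H : ℝ) ^ 2 * V * R * (S : ℝ) ^ 2) (by positivity) hNp hLp hT1 hY0 hZ2Y
    hZp hZZ hA
  refine le_trans (le_of_eq ?_) (h11.trans (le_of_eq ?_))
  · ring
  · ring

end Pool.Agent.Lib.MI
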