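import Pool.Agent.Lib.MI.SpecT1

/-! MP_00e23e_nt, Lib/MI, module T1Bnd: the correlation of a good tuple. -/

namespace Pool.Agent.Lib.MI

open Finset Pool.Agent.Lib.EH3 Pool.Agent.Lib.TB Pool.Agent.Results.MP_00e23e_nt

private lemma T1Bnd_sym (f : ℤ → ℝ) (hf : ∀ j, 0 ≤ f j) (he : ∀ j, f (-j) = f j) (J : ℕ) :
    ∑ j ∈ (Icc (-(J : ℤ)) (J : ℤ)).erase 0, f j ≤ 2 * ∑ j ∈ Icc 1 J, f (j : ℤ) := by
  classical
  have hsub : (Icc (-(J : ℤ)) (J : ℤ)).erase 0 ⊆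
      ((Icc 1 J).image (fun j : ℕ => (j : ℤ))) ∪ ((Icc 1 J).image (fun j : ℕ => -(j : ℤ))) := by
    intro j hj
    obtain ⟨h0, h1⟩ := mem_erase.1 hj
    rw [mem_Icc] at h1
    rw [mem_union, mem_image, mem_image]
    rcases lt_or_gt_of_ne h0 with h | h
    · right
      refine ⟨(-j).toNat, ?_, by omega⟩
      rw [mem_Icc]
      omega
    · left
      refine ⟨j.toNat, ?_, by omega⟩
      rw [mem_Icc]
      omega
  refine (sum_le_sum_of_subset_of_nonneg hsub fun j _ _ => hf j).trans ?_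
  have h1 := sum_union_inter (s₁ := (Icc 1 J).image (fun j : ℕ => (j : ℤ)))
    (s₂ := (Icc 1 J).image (fun j : ℕ => -(j : ℤ))) (f := f)
  have h2 : 0 ≤ ∑ j ∈ ((Icc 1 J).image (fun j : ℕ => (j : ℤ))) ∩
      ((Icc 1 J).image (fun j : ℕ => -(j : ℤ))), f j := sum_nonneg fun j _ => hf j
  have h3 : ∑ j ∈ (Icc 1 J).image (fun j : ℕ => (j : ℤ)), f j = ∑ j ∈ Icc 1 J, f (j : ℤ) :=
    sum_image fun a _ b _ hab => by exact_mod_cast hab
  have h4 : ∑ j ∈ (Icc 1 J).image (fun j : ℕ => -(j : ℤ)), f j = ∑ j ∈ Icc 1 J, f (j : ℤ) := by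
    rw [sum_image fun a _ b _ hab => by
      have : (a : ℤ) = b := neg_injective hab
      exact_mod_cast this]
    exact sum_congr rfl fun j _ => he _
  linarith

/-- the product of the two gcd's -/
private noncomputable def T1Bnd_G (Z : ℤ) (q s : ℕ) (j : ℤ) : ℝ :=
  (Int.gcd ((Int.gcd Z j : ℕ) : ℤ) q : ℝ) * (Int.gcd ((Int.gcd Z j : ℕ) : ℤ) s : ℝ)

private lemma T1Bnd_Gle {Z : ℤ} {q s : ℕ} (hqs : q.Coprime s) (hZ : Z ≠ 0) (j : ℤ) :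
    T1Bnd_G Z q s j ≤ (Int.gcd Z j : ℝ) := by
  unfold T1Bnd_G
  have h0 : 0 < Int.gcd Z j := Int.gcd_pos_of_ne_zero_left _ hZ
  have h1 : Int.gcd ((Int.gcd Z j : ℕ) : ℤ) q = Nat.gcd (Int.gcd Z j) q := Int.gcd_natCast_natCast _ _
  have h2 : Int.gcd ((Int.gcd Z j : ℕ) : ℤ) s = Nat.gcd (Int.gcd Z j) s := Int.gcd_natCast_natCast _ _
  rw [h1, h2]
  have h3 : (Nat.gcd (Int.gcd Z j) q).Coprime (Nat.gcd (Int.gcd Z j) s) :=
    Nat.Coprime.coprime_dvd_left (Nat.gcd_dvd_right _ _)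
      (Nat.Coprime.coprime_dvd_right (Nat.gcd_dvd_right _ _) hqs)
  have h4 : Nat.gcd (Int.gcd Z j) q * Nat.gcd (Int.gcd Z j) s ∣ Int.gcd Z j :=
    h3.mul_dvd_of_dvd_of_dvd (Nat.gcd_dvd_left _ _) (Nat.gcd_dvd_left _ _)
  exact_mod_cast Nat.le_of_dvd h0 h4

private lemma T1Bnd_G0 (Z : ℤ) (q s : ℕ) :
    T1Bnd_G Z q s 0 = (Int.gcd Z q : ℝ) * (Int.gcd Z s : ℝ) := by
  unfold T1Bnd_G
  have h : ∀ m : ℕ, Int.gcd ((Int.gcd Z 0 : ℕ) : ℤ) m = Int.gcd Z m := by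
    intro m
    rw [Int.gcd_zero_right, Int.gcd_natCast_natCast, Int.gcd_def, Int.natAbs_natCast]
  rw [h, h]

/-- the sum over j -/
private lemma T1Bnd_sum (W B T P : ℝ) (Z : ℤ) (q s J : ℕ) (hqs : q.Coprime s) (hZ : Z ≠ 0)
    (hT : 0 ≤ T) (hB : 0 ≤ B) (hqB : Real.sqrt ((q : ℝ) * s) ≤ B)
    (hP : ∑ j ∈ Icc 1 J, (Int.gcd Z (j : ℤ) : ℝ) / (j : ℝ) ≤ P) :
    ∑ j ∈ Icc (-(J : ℤ)) (J : ℤ), t1w W j * (T * Real.sqrt ((q : ℝ) * s * T1Bnd_G Z q s j)) ≤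
      T * B * P + W * (T * Real.sqrt ((q : ℝ) * s * T1Bnd_G Z q s 0)) := by
  have h0 : (0 : ℤ) ∈ Icc (-(J : ℤ)) (J : ℤ) := by
    rw [mem_Icc]
    omega
  rw [← add_sum_erase _ _ h0]
  have e0 : t1w W 0 = W := if_pos rfl
  rw [e0, add_comm]
  refine add_le_add_left ?_ _
  have h1 : ∀ j ∈ (Icc (-(J : ℤ)) (J : ℤ)).erase 0,
      t1w W j * (T * Real.sqrt ((q : ℝ) * s * T1Bnd_G Z q s j)) ≤
        T * B * (1 / (2 * |(j : ℝ)|) * (Int.gcd Z j : ℝ)) := by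
    intro j hj
    have hj0 : j ≠ 0 := (mem_erase.1 hj).1
    have hjr : (j : ℝ) ≠ 0 := by exact_mod_cast hj0
    have hjp : 0 < |(j : ℝ)| := abs_pos.2 hjr
    have e1 : t1w W j = 1 / (2 * |(j : ℝ)|) := if_neg hj0
    have g1 : (1 : ℝ) ≤ (Int.gcd Z j : ℝ) := by
      exact_mod_cast Int.gcd_pos_of_ne_zero_left _ hZ
    have g2 : Real.sqrt ((q : ℝ) * s * T1Bnd_G Z q s j) ≤ B * (Int.gcd Z j : ℝ) := by
      rw [Real.sqrt_mul (by positivity)]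
      refine mul_le_mul hqB ?_ (Real.sqrt_nonneg _) hB
      refine (Real.sqrt_le_sqrt (T1Bnd_Gle hqs hZ j)).trans ?_
      rw [Real.sqrt_le_left (by linarith)]
      nlinarith
    rw [e1]
    calc 1 / (2 * |(j : ℝ)|) * (T * Real.sqrt ((q : ℝ) * s * T1Bnd_G Z q s j))
        ≤ 1 / (2 * |(j : ℝ)|) * (T * (B * (Int.gcd Z j : ℝ))) := by gcongr
      _ = T * B * (1 / (2 * |(j : ℝ)|) * (Int.gcd Z j : ℝ)) := by ring
  refine (sum_le_sum h1).trans ?_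
  rw [← mul_sum]
  refine mul_le_mul_of_nonneg_left ?_ (mul_nonneg hT hB)
  refine (T1Bnd_sym (fun j => 1 / (2 * |(j : ℝ)|) * (Int.gcd Z j : ℝ)) (fun j => by positivity)
    (fun j => ?_) J).trans ?_
  · show 1 / (2 * |((-j : ℤ) : ℝ)|) * (Int.gcd Z (-j) : ℝ) = 1 / (2 * |(j : ℝ)|) * (Int.gcd Z j : ℝ)
    rw [Int.cast_neg, abs_neg, Int.gcd_neg]
  · refine le_trans (le_of_eq ?_) hP
    rw [mul_sum]
    refine sum_congr rfl fun j _ => ?_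
    show 2 * (1 / (2 * |((j : ℤ) : ℝ)|) * (Int.gcd Z (j : ℤ) : ℝ)) = _
    rw [Int.cast_natCast, Nat.abs_cast]
    ring

theorem tT1Bnd (hSsb : SsbStmt) (hCmp : T1CmpStmt) (hFac : T1FacStmt) (hFht : T1FhtStmt)
    (hGcd : T1GcdStmt) (hGsj : T1GsjStmt) : T1BndStmt := by
  intro X T a h h' k S r r0 u w w' s2 N d H V L L' hTau hr0 hLr0 hr0L hS hL hV hw1 hw2 hw3 hw4
    hh hh' hd1 hdL hD hG hX1 hX2
  obtain ⟨⟨p1, p2, p3, p4, p5, p6⟩, ⟨p7, p8, p9⟩, e3, sqf, c1, c2, c3, c4, g1, g2, sq1, sq2, lo, up⟩ :=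
    hFac a S r r0 u w w' s2 hr0 hG
  have hs2S : s2 ≤ 2 * S := by
    obtain ⟨-, -, -, -, -, -, -, -, -, -, -, -, -, z⟩ := hG
    exact z
  have hSs2 : S < s2 := by
    obtain ⟨-, -, -, -, -, -, -, -, -, -, -, -, z, -⟩ := hG
    exact z
  have hT1 : 1 ≤ T := hTau.1
  have hT0 : 0 ≤ T := by linarith
  set D : ℤ := t1e h h' w w' with hDdef
  set q : ℕ := t1q r0 u w w' with hq
  set r1 : ℕ := r / r0 with hr1
  have hZ : D * (d : ℤ) ≠ 0 := mul_ne_zero hD (by omega)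
  have hS0 : (0 : ℝ) < S := by exact_mod_cast hS
  have hV0 : (0 : ℝ) < V := by exact_mod_cast hV
  have hL0 : (0 : ℝ) < L := by exact_mod_cast hL
  have hrhs : 0 ≤ 3 * T ^ 6 * (Real.sqrt ((L' : ℝ) * V) * S) +
    T ^ 4 * ((N : ℝ) / (Real.sqrt ((L : ℝ) * V) * S)) * Real.sqrt ((Nat.gcd w w' : ℝ) *
      (Int.gcd (D * d) ((r * u * Nat.lcm w w' : ℕ) : ℤ) : ℝ) *
        (Int.gcd (D * d) s2 : ℝ)) := by positivity
  rcases Nat.lt_or_ge (2 * N - d * r1) N with hlt | hge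
  · have h0 : t1C a h h' k r r0 u w w' s2 N d = 0 := by
      have hn : ¬ N < 2 * N - d * (r / r0) := by
        rw [← hr1]
        omega
      unfold t1C
      rw [Ioc_eq_empty hn, sum_empty]
    rw [h0, norm_zero]
    exact hrhs
  -- J
  set J : ℕ := 8 * r0 * S ^ 2 * V with hJ
  have hqJ : q * s2 ≤ J := by
    have a1 : q * s2 ≤ (2 * r0 * S * w') * (2 * S) := Nat.mul_le_mul up hs2S
    have a2 : (2 * r0 * S * w') * (2 * S) ≤ (2 * r0 * S * (2 * V)) * (2 * S) :=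
      Nat.mul_le_mul_right _ (Nat.mul_le_mul_left _ hw4)
    have a3 : (2 * r0 * S * (2 * V)) * (2 * S) = J := by
      rw [hJ]
      ring
    omega
  have hr0r : r0 ≤ r := Nat.le_of_dvd (by omega) hr0
  have hJX : (J : ℝ) ≤ X := by
    refine le_trans ?_ hX1
    rw [hJ]
    push_cast
    have : (r0 : ℝ) ≤ r := by exact_mod_cast hr0r
    gcongr
  have hqs1 : 1 ≤ q * s2 := Nat.mul_pos p8 p6
  have hJ1 : 1 ≤ J := hqs1.trans hqJ
  have hqX : (q : ℝ) ≤ X := by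
    have : (q : ℝ) ≤ J := by
      have : q ≤ J := (Nat.le_mul_of_pos_right q p6).trans hqJ
      exact_mod_cast this
    linarith
  have hs2X : (s2 : ℝ) ≤ X := by
    have : (s2 : ℝ) ≤ J := by
      have : s2 ≤ J := (Nat.le_mul_of_pos_left s2 p8).trans hqJ
      exact_mod_cast this
    linarith
  have hqs0 : (0 : ℝ) < (q : ℝ) * s2 := by exact_mod_cast hqs1
  -- completion
  have hper : ∀ n, t1G a h h' k r r0 u w w' s2 (n + q * s2) *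
        (starRingEnd ℂ) (t1G a h h' k r r0 u w w' s2 (n + q * s2 + d * r1)) =
      t1G a h h' k r r0 u w w' s2 n *
        (starRingEnd ℂ) (t1G a h h' k r r0 u w w' s2 (n + d * r1)) := by
    have hp : ∀ n, t1G a h h' k r r0 u w w' s2 (n + q * s2) = t1G a h h' k r r0 u w w' s2 n := by
      intro n
      unfold t1G
      rw [← hq, show n + q * s2 = n + s2 * q by ring, t1_g_add_mul,
        show n + s2 * q + k * r = n + k * r + q * s2 by ring, t1_g_add_mul]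
    intro n
    rw [hp, show n + q * s2 + d * r1 = n + d * r1 + q * s2 by ring, hp]
  have hlen : (((2 * N - d * r1 : ℕ) : ℝ) - N) / ((q * s2 : ℕ) : ℝ) ≤ (N : ℝ) / ((q : ℝ) * s2) := by
    push_cast
    refine div_le_div_of_nonneg_right ?_ hqs0.le
    have : ((2 * N - d * r1 : ℕ) : ℝ) ≤ 2 * N := by
      exact_mod_cast (Nat.sub_le _ _ : 2 * N - d * r1 ≤ 2 * N)
    linarith
  have hC := hCmp (fun n => t1G a h h' k r r0 u w w' s2 n *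
        (starRingEnd ℂ) (t1G a h h' k r r0 u w w' s2 (n + d * r1))) (q * s2) J N (2 * N - d * r1)
    ((N : ℝ) / ((q : ℝ) * s2)) hqs1 hqJ hge (by positivity) hlen hper
  refine hC.trans ?_
  -- the complete sums
  have hcomp : ∀ j : ℤ, ‖∑ n ∈ range (q * s2), t1G a h h' k r r0 u w w' s2 n *
        (starRingEnd ℂ) (t1G a h h' k r r0 u w w' s2 (n + d * r1)) * en (j * n) (q * s2)‖ ≤
      T ^ 4 * Real.sqrt ((q : ℝ) * s2 * T1Bnd_G (D * d) q s2 j) := by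
    intro j
    have f1 := hFht (t1cA a h h' r r0 u w w' * (iv s2 q : ℤ)) (t1cB a h h' r r0 w w' s2 * (iv q s2 : ℤ))
      j q s2 (k * r) (d * r1) p8 p6 c2
    have f2 : ∑ n ∈ range (q * s2), t1G a h h' k r r0 u w w' s2 n *
        (starRingEnd ℂ) (t1G a h h' k r r0 u w w' s2 (n + d * r1)) * en (j * n) (q * s2) =
        ∑ n ∈ range (q * s2), t1g (t1cA a h h' r r0 u w w' * (iv s2 q : ℤ)) q n *
          t1g (t1cB a h h' r r0 w w' s2 * (iv q s2 : ℤ)) s2 (n + k * r) *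
          (starRingEnd ℂ) (t1g (t1cA a h h' r r0 u w w' * (iv s2 q : ℤ)) q (n + d * r1) *
            t1g (t1cB a h h' r r0 w w' s2 * (iv q s2 : ℤ)) s2 (n + d * r1 + k * r)) *
          en (j * n) (q * s2) := rfl
    rw [f2, f1]
    have s1 := hSsb q (d * r1) (t1cA a h h' r r0 u w w' * (iv s2 q : ℤ)) (j * (iv s2 q : ℤ)) p8 sq1
    have s2' := hSsb s2 (d * r1) (t1cB a h h' r r0 w w' s2 * (iv q s2 : ℤ)) (j * (iv q s2 : ℤ)) p6 sq2
    have k1 := hGcd a D j q r1 d s2 p8 c1 c2.symm g1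
    have k2 := hGcd a D j s2 r1 d q p6 c3 c2 g2
    have t1 : (q.divisors.card : ℝ) ≤ T := hTau.2.2 q p8 hqX
    have t2 : (s2.divisors.card : ℝ) ≤ T := hTau.2.2 s2 p6 hs2X
    unfold t1cA at s1
    unfold t1cB at s2'
    rw [← hDdef, ← hq, ← hr1, k1] at s1
    rw [← hDdef, ← hr1, k2] at s2'
    unfold t1cA t1cB
    rw [← hDdef, ← hq, ← hr1]
    refine (mul_le_mul s1 s2' (norm_nonneg _) (by positivity)).trans ?_
    have t3 : (q.divisors.card : ℝ) ^ 2 ≤ T ^ 2 := pow_le_pow_left₀ (by positivity) t1 2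
    have t4 : (s2.divisors.card : ℝ) ^ 2 ≤ T ^ 2 := pow_le_pow_left₀ (by positivity) t2 2
    have t5 : Real.sqrt ((q : ℝ) * s2 * T1Bnd_G (D * d) q s2 j) =
        Real.sqrt ((q : ℝ) * (Int.gcd ((Int.gcd (D * (d : ℤ)) j : ℕ) : ℤ) q : ℝ)) *
          Real.sqrt ((s2 : ℝ) * (Int.gcd ((Int.gcd (D * (d : ℤ)) j : ℕ) : ℤ) s2 : ℝ)) := by
      rw [← Real.sqrt_mul (by positivity)]
      congr 1
      unfold T1Bnd_G
      ring
    rw [t5]
    calc (q.divisors.card : ℝ) ^ 2 *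
          Real.sqrt ((q : ℝ) * (Int.gcd ((Int.gcd (D * (d : ℤ)) j : ℕ) : ℤ) q : ℝ)) *
        ((s2.divisors.card : ℝ) ^ 2 *
          Real.sqrt ((s2 : ℝ) * (Int.gcd ((Int.gcd (D * (d : ℤ)) j : ℕ) : ℤ) s2 : ℝ)))
        ≤ T ^ 2 * Real.sqrt ((q : ℝ) * (Int.gcd ((Int.gcd (D * (d : ℤ)) j : ℕ) : ℤ) q : ℝ)) *
        (T ^ 2 * Real.sqrt ((s2 : ℝ) * (Int.gcd ((Int.gcd (D * (d : ℤ)) j : ℕ) : ℤ) s2 : ℝ))) := by
          gcongr
      _ = _ := by ring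
  have hW0 : (0 : ℝ) ≤ (N : ℝ) / ((q : ℝ) * s2) := by positivity
  have hsum1 : ∑ j ∈ Icc (-(J : ℤ)) (J : ℤ), t1w ((N : ℝ) / ((q : ℝ) * s2)) j *
      ‖∑ n ∈ range (q * s2), t1G a h h' k r r0 u w w' s2 n *
        (starRingEnd ℂ) (t1G a h h' k r r0 u w w' s2 (n + d * r1)) * en (j * n) (q * s2)‖ ≤
      ∑ j ∈ Icc (-(J : ℤ)) (J : ℤ), t1w ((N : ℝ) / ((q : ℝ) * s2)) j *
        (T ^ 4 * Real.sqrt ((q : ℝ) * s2 * T1Bnd_G (D * d) q s2 j)) := by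
    refine sum_le_sum fun j _ => mul_le_mul_of_nonneg_left (hcomp j) ?_
    unfold t1w
    split_ifs
    · exact hW0
    · positivity
  refine hsum1.trans ?_
  -- the divisor sums
  have hZle : ((D * (d : ℤ)).natAbs : ℝ) ≤ X := by
    have b1 : |D| ≤ 4 * (H : ℤ) * V := t1_e_le hh hh' hw2 hw4
    have b2 : ((D * (d : ℤ)).natAbs : ℤ) ≤ 4 * (H : ℤ) * V * L := by
      rw [Int.natCast_natAbs, abs_mul, Nat.abs_cast]
      exact mul_le_mul b1 (by exact_mod_cast hdL) (by positivity) (by positivity)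
    have b3 : ((D * (d : ℤ)).natAbs : ℝ) ≤ 4 * (H : ℝ) * V * L := by exact_mod_cast b2
    linarith
  have hZ1 : 1 ≤ (D * (d : ℤ)).natAbs := Nat.one_le_iff_ne_zero.2 (Int.natAbs_ne_zero.2 hZ)
  have hP : ∑ j ∈ Icc 1 J, (Int.gcd (D * (d : ℤ)) (j : ℤ) : ℝ) / (j : ℝ) ≤ T ^ 2 := by
    refine (hGsj (D * d) J hZ).trans ?_
    have c1 : ((D * (d : ℤ)).natAbs.divisors.card : ℝ) ≤ T := hTau.2.2 _ hZ1 hZle
    have c2 : 1 + Real.log J ≤ T := by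
      have := Real.log_le_log (by exact_mod_cast hJ1 : (0 : ℝ) < J) hJX
      linarith [hTau.2.1]
    have c3 : 0 ≤ 1 + Real.log J := by
      have := Real.log_nonneg (by exact_mod_cast hJ1 : (1 : ℝ) ≤ J)
      linarith
    rw [sq]
    exact mul_le_mul c1 c2 c3 hT0
  have hsqB : Real.sqrt ((q : ℝ) * s2) ≤ 3 * (Real.sqrt ((L' : ℝ) * V) * S) := by
    have b0 : (0 : ℝ) ≤ 3 * (Real.sqrt ((L' : ℝ) * V) * S) := by positivity
    rw [Real.sqrt_le_left b0]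
    have b1 : (q : ℝ) * s2 ≤ J := by exact_mod_cast hqJ
    have b2 : (J : ℝ) ≤ 8 * ((L' : ℝ) * V) * (S : ℝ) ^ 2 := by
      rw [hJ]
      push_cast
      have : (r0 : ℝ) ≤ L' := by exact_mod_cast hr0L
      calc 8 * (r0 : ℝ) * (S : ℝ) ^ 2 * V ≤ 8 * (L' : ℝ) * (S : ℝ) ^ 2 * V := by gcongr
        _ = _ := by ring
    have b3 : (3 * (Real.sqrt ((L' : ℝ) * V) * S)) ^ 2 = 9 * ((L' : ℝ) * V) * (S : ℝ) ^ 2 := by
      rw [mul_pow, mul_pow, Real.sq_sqrt (by positivity)]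
      ring
    rw [b3]
    have b4 : 0 ≤ ((L' : ℝ) * V) * (S : ℝ) ^ 2 := by positivity
    linarith
  refine (T1Bnd_sum ((N : ℝ) / ((q : ℝ) * s2)) (3 * (Real.sqrt ((L' : ℝ) * V) * S)) (T ^ 4) (T ^ 2)
    (D * d) q s2 J c2 hZ (by positivity) (by positivity) hsqB hP).trans ?_
  refine add_le_add (le_of_eq (by ring)) ?_
  -- the term j = 0
  rw [T1Bnd_G0]
  set g0 : ℝ := (Nat.gcd w w' : ℝ) with hg0
  set G1 : ℝ := (Int.gcd (D * (d : ℤ)) q : ℝ) with hG1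
  set G2 : ℝ := (Int.gcd (D * (d : ℤ)) s2 : ℝ) with hG2
  set G3 : ℝ := (Int.gcd (D * (d : ℤ)) ((r * u * Nat.lcm w w' : ℕ) : ℤ) : ℝ) with hG3
  have hG13 : G1 ≤ G3 := by
    have b1 : (q : ℤ) ∣ ((r * u * Nat.lcm w w' : ℕ) : ℤ) := by
      rw [← e3]
      push_cast
      exact dvd_mul_left _ _
    have b2 : Int.gcd (D * (d : ℤ)) q ∣ Int.gcd (D * (d : ℤ)) ((r * u * Nat.lcm w w' : ℕ) : ℤ) :=
      Int.gcd_dvd_gcd_of_dvd_right _ b1
    have b3 : 0 < Int.gcd (D * (d : ℤ)) ((r * u * Nat.lcm w w' : ℕ) : ℤ) :=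
      Int.gcd_pos_of_ne_zero_left _ hZ
    rw [hG1, hG3]
    exact_mod_cast Nat.le_of_dvd b3 b2
  have hG10 : 0 ≤ G1 := by positivity
  have hG20 : 0 ≤ G2 := by positivity
  have hg00 : 0 ≤ g0 := by positivity
  have hkey : (L : ℝ) * V * (S : ℝ) ^ 2 ≤ (q : ℝ) * s2 * g0 := by
    have b1 : L * S * V * S ≤ (q * Nat.gcd w w') * s2 := by
      calc L * S * V * S ≤ r0 * S * w' * s2 := by gcongr
        _ ≤ (q * Nat.gcd w w') * s2 := Nat.mul_le_mul_right _ lo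
    have b2 : (L : ℝ) * S * V * S ≤ ((q : ℝ) * g0) * s2 := by
      rw [hg0]
      exact_mod_cast b1
    nlinarith
  have hs : Real.sqrt ((L : ℝ) * V) * S ≤ Real.sqrt ((q : ℝ) * s2) * Real.sqrt g0 := by
    rw [← Real.sqrt_mul hqs0.le]
    refine Real.le_sqrt_of_sq_le ?_
    rw [mul_pow, Real.sq_sqrt (by positivity)]
    exact hkey
  have hsq0 : 0 < Real.sqrt ((q : ℝ) * s2) := Real.sqrt_pos.2 hqs0
  have hLS0 : 0 < Real.sqrt ((L : ℝ) * V) * S := mul_pos (Real.sqrt_pos.2 (mul_pos hL0 hV0)) hS0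
  have e1 : (N : ℝ) / ((q : ℝ) * s2) * (T ^ 4 * Real.sqrt ((q : ℝ) * s2 * (G1 * G2))) =
      T ^ 4 * N * (1 / Real.sqrt ((q : ℝ) * s2)) * Real.sqrt (G1 * G2) := by
    rw [Real.sqrt_mul hqs0.le]
    have : (q : ℝ) * s2 = Real.sqrt ((q : ℝ) * s2) * Real.sqrt ((q : ℝ) * s2) :=
      (Real.mul_self_sqrt hqs0.le).symm
    conv_lhs => rw [this]
    rw [Real.sqrt_mul_self (Real.sqrt_nonneg _)]
    field_simp
  have e2 : 1 / Real.sqrt ((q : ℝ) * s2) ≤ Real.sqrt g0 / (Real.sqrt ((L : ℝ) * V) * S) := by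
    rw [div_le_div_iff₀ hsq0 hLS0, one_mul, mul_comm (Real.sqrt g0)]
    exact hs
  rw [e1]
  calc T ^ 4 * N * (1 / Real.sqrt ((q : ℝ) * s2)) * Real.sqrt (G1 * G2)
      ≤ T ^ 4 * N * (Real.sqrt g0 / (Real.sqrt ((L : ℝ) * V) * S)) * Real.sqrt (G3 * G2) := by
        gcongr
    _ = T ^ 4 * ((N : ℝ) / (Real.sqrt ((L : ℝ) * V) * S)) * Real.sqrt (g0 * G3 * G2) := by
        rw [mul_assoc g0, Real.sqrt_mul hg00]
        ring

end Pool.Agent.Lib.MI
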