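import Pool.Agent.Lib.MI.SpecT1

/-! MP_00e23e_nt, Lib/MI, module T1Dia: the diagonal. -/

namespace Pool.Agent.Lib.MI

open Finset Pool.Agent.Lib.EH3 Pool.Agent.Lib.TB Pool.Agent.Results.MP_00e23e_nt

private lemma T1Dia_h (hGsa : T1GsaStmt) (H : ℕ) (Hs : Finset ℤ) (T : ℝ) (w : ℕ) (hw : 1 ≤ w)
    (hHs : ∀ h ∈ Hs, h ≠ 0 ∧ |h| ≤ (H : ℤ)) (hT : (w.divisors.card : ℝ) ≤ T) :
    ∑ h ∈ Hs, (Int.gcd h w : ℝ) ≤ 2 * (H : ℝ) * T := by
  classical
  have hmaps : ∀ h ∈ Hs, h.natAbs ∈ Icc 1 H := by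
    intro h hh
    obtain ⟨a1, a2⟩ := hHs h hh
    rw [Finset.mem_Icc]
    have : ((h.natAbs : ℕ) : ℤ) = |h| := Int.natCast_natAbs h
    constructor
    · exact Int.natAbs_pos.2 a1
    · have : ((h.natAbs : ℕ) : ℤ) ≤ H := by rw [this]; exact a2
      exact_mod_cast this
  rw [← Finset.sum_fiberwise_of_maps_to hmaps]
  have hgsa := (hGsa (w : ℤ) (by exact_mod_cast (by omega : w ≠ 0))).2 H
  have h1 : ∀ n ∈ Icc 1 H, ∑ h ∈ Hs with h.natAbs = n, (Int.gcd h w : ℝ) ≤ 2 * (Int.gcd (w : ℤ) n : ℝ) := by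
    intro n hn
    have b1 : ∀ h ∈ Hs.filter (fun h => h.natAbs = n), (Int.gcd h w : ℝ) = (Int.gcd (w : ℤ) n : ℝ) := by
      intro h hh
      rw [Finset.mem_filter] at hh
      have : Int.gcd h w = Int.gcd (w : ℤ) n := by
        rw [Int.gcd_comm, Int.gcd_def, Int.gcd_def, Int.natAbs_natCast, Int.natAbs_natCast, hh.2]
      rw [this]
    rw [Finset.sum_congr rfl b1, Finset.sum_const, nsmul_eq_mul]
    have b4 : Hs.filter (fun h => h.natAbs = n) ⊆ {(n : ℤ), -(n : ℤ)} := by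
      intro h hh
      rw [Finset.mem_filter] at hh
      rw [Finset.mem_insert, Finset.mem_singleton]
      omega
    have b5 : (Hs.filter (fun h => h.natAbs = n)).card ≤ 2 :=
      (Finset.card_le_card b4).trans Finset.card_le_two
    have b6 : ((Hs.filter (fun h => h.natAbs = n)).card : ℝ) ≤ 2 := by exact_mod_cast b5
    exact mul_le_mul_of_nonneg_right b6 (Nat.cast_nonneg _)
  calc _ ≤ ∑ n ∈ Icc 1 H, 2 * (Int.gcd (w : ℤ) n : ℝ) := Finset.sum_le_sum h1
    _ = 2 * ∑ n ∈ Icc 1 H, (Int.gcd (w : ℤ) n : ℝ) := by rw [Finset.mul_sum]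
    _ ≤ 2 * ((H : ℝ) * (((w : ℤ).natAbs.divisors.card : ℕ) : ℝ)) := by linarith
    _ ≤ 2 * (H : ℝ) * T := by
        rw [Int.natAbs_natCast, mul_assoc]
        have : (0 : ℝ) ≤ H := Nat.cast_nonneg _
        have := mul_le_mul_of_nonneg_left hT this
        linarith

private lemma T1Dia_in (V w : ℕ) (h : ℤ) (Hs : Finset ℤ) (hw1 : V < w) (hw2 : w ≤ 2 * V) :
    ∑ h' ∈ Hs, ∑ w' ∈ Ioc V (2 * V), (if t1e h h' w w' = 0 then (1 : ℝ) else 0) ≤ 2 * (Int.gcd h w : ℝ) := by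
  classical
  have hw : 1 ≤ w := by omega
  have hg0 : 0 < Int.gcd h w := Int.gcd_pos_of_ne_zero_right _ (by exact_mod_cast (by omega : w ≠ 0))
  set g := Int.gcd h w with hg
  have hgw : g ∣ w := by
    have := Int.gcd_dvd_right h (w : ℤ)
    exact_mod_cast this
  obtain ⟨m, hm⟩ := hgw
  have hm0 : 0 < m := by
    rcases Nat.eq_zero_or_pos m with h0 | h0
    · rw [h0] at hm; omega
    · exact h0
  rw [Finset.sum_comm]
  have h1 : ∀ w' ∈ Ioc V (2 * V), ∑ h' ∈ Hs, (if t1e h h' w w' = 0 then (1 : ℝ) else 0) ≤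
      if m ∣ w' then 1 else 0 := by
    intro w' hw'
    by_cases hex : ∃ h' ∈ Hs, t1e h h' w w' = 0
    · obtain ⟨h0, hh0, h0e⟩ := hex
      rw [t1_e_zero hw] at h0e
      have hd : m ∣ w' := by
        have hd1 : (w : ℤ) ∣ h * (w' : ℤ) := ⟨h0, by rw [h0e]; ring⟩
        obtain ⟨k, hk⟩ : (g : ℤ) ∣ h := Int.gcd_dvd_left h (w : ℤ)
        have hgz : (g : ℤ) ≠ 0 := by exact_mod_cast hg0.ne'
        have hcop : IsCoprime (m : ℤ) k := by
          have e1 : Int.gcd h w = Int.gcd ((g : ℤ) * k) ((g : ℤ) * m) := by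
            rw [← hk]
            congr 1
            rw [hm]; push_cast; ring
          rw [Int.gcd_mul_left, Int.natAbs_natCast, ← hg] at e1
          have e2 : Int.gcd k m = 1 := by
            have : g * 1 = g * Int.gcd k m := by rw [mul_one]; exact e1
            exact (Nat.eq_of_mul_eq_mul_left hg0 this).symm
          exact (Int.isCoprime_iff_gcd_eq_one.2 e2).symm
        have hd2 : (m : ℤ) ∣ k * (w' : ℤ) := by
          have : (g : ℤ) * m ∣ (g : ℤ) * (k * w') := by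
            have e3 : (w : ℤ) = (g : ℤ) * m := by rw [hm]; push_cast; ring
            rw [← e3, ← mul_assoc, ← hk]
            exact hd1
          exact (mul_dvd_mul_iff_left hgz).1 this
        have hd3 : (m : ℤ) ∣ (w' : ℤ) := hcop.dvd_of_dvd_mul_left hd2
        exact_mod_cast hd3
      rw [if_pos hd, ← Finset.sum_filter, Finset.sum_const, nsmul_eq_mul, mul_one]
      have hc : (Hs.filter (fun h' => t1e h h' w w' = 0)).card ≤ 1 := by
        rw [Finset.card_le_one]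
        intro a ha b hb
        rw [Finset.mem_filter, t1_e_zero hw] at ha hb
        have : a * (w : ℤ) = b * w := by rw [← ha.2, ← hb.2]
        exact mul_right_cancel₀ (by exact_mod_cast (by omega : w ≠ 0)) this
      exact_mod_cast hc
    · push Not at hex
      rw [Finset.sum_congr rfl fun h' hh' => if_neg (hex h' hh'), Finset.sum_const_zero]
      split_ifs <;> norm_num
  refine (Finset.sum_le_sum h1).trans ?_
  have h2 : ∑ w' ∈ Ioc V (2 * V), (if m ∣ w' then (1 : ℝ) else 0) ≤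
      ∑ w' ∈ Ioc 0 (2 * V), (if m ∣ w' then (1 : ℝ) else 0) := by
    refine Finset.sum_le_sum_of_subset_of_nonneg ?_ ?_
    · intro i hi
      rw [Finset.mem_Ioc] at hi ⊢
      omega
    · intro i _ _
      split_ifs <;> norm_num
  refine h2.trans ?_
  rw [← Finset.sum_filter, Finset.sum_const, nsmul_eq_mul, mul_one, Nat.Ioc_filter_dvd_card_eq_div]
  have h3 : 2 * V / m ≤ 2 * g := by
    apply Nat.le_of_lt_succ
    rw [Nat.div_lt_iff_lt_mul hm0]
    have : 2 * V < 2 * (g * m) := by omega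
    nlinarith
  exact_mod_cast h3

theorem tT1Dia (hGsa : T1GsaStmt) : T1DiaStmt := by
  intro X T H V Hs hTau hV hHs hVX
  have e : ∑ h ∈ Hs, ∑ h' ∈ Hs, ∑ w ∈ Ioc V (2 * V), ∑ w' ∈ Ioc V (2 * V),
      (if t1e h h' w w' = 0 then (1 : ℝ) else 0) =
      ∑ w ∈ Ioc V (2 * V), ∑ h ∈ Hs, ∑ h' ∈ Hs, ∑ w' ∈ Ioc V (2 * V),
        (if t1e h h' w w' = 0 then (1 : ℝ) else 0) := by
    rw [Finset.sum_congr rfl fun h _ => Finset.sum_comm, Finset.sum_comm]
  rw [e]
  have h1 : ∀ w ∈ Ioc V (2 * V), ∑ h ∈ Hs, ∑ h' ∈ Hs, ∑ w' ∈ Ioc V (2 * V),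
      (if t1e h h' w w' = 0 then (1 : ℝ) else 0) ≤ 4 * (H : ℝ) * T := by
    intro w hw
    rw [Finset.mem_Ioc] at hw
    have hwd : (w.divisors.card : ℝ) ≤ T := by
      refine hTau.2.2 w (by omega) (le_trans ?_ hVX)
      exact_mod_cast hw.2
    calc _ ≤ ∑ h ∈ Hs, 2 * (Int.gcd h w : ℝ) := Finset.sum_le_sum fun h _ => T1Dia_in V w h Hs hw.1 hw.2
      _ = 2 * ∑ h ∈ Hs, (Int.gcd h w : ℝ) := by rw [Finset.mul_sum]
      _ ≤ 2 * (2 * (H : ℝ) * T) := by
          have := T1Dia_h hGsa H Hs T w (by omega) hHs hwd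
          linarith
      _ = 4 * (H : ℝ) * T := by ring
  refine (Finset.sum_le_sum h1).trans ?_
  rw [Finset.sum_const, nsmul_eq_mul, Nat.card_Ioc]
  have : ((2 * V - V : ℕ) : ℝ) = V := by
    rw [show 2 * V - V = V by omega]
  rw [this]
  apply le_of_eq
  ring

end Pool.Agent.Lib.MI
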