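import Pool.Agent.Lib.MI.SpecT1

/-! MP_00e23e_nt, THEOREM MI, chapter T1: arithmetic facts about the good tuples -/

namespace Pool.Agent.Lib.MI

open Finset Pool.Agent.Lib.EH3 Pool.Agent.Lib.TB Pool.Agent.Results.MP_00e23e_nt

private lemma T1Fac_sq {A B : ℕ} (hA : Squarefree A) (hB : Squarefree B) : Squarefree (Nat.lcm A B) := by
  have hg : Nat.gcd A B ∣ B := Nat.gcd_dvd_right A B
  have e1 : Nat.lcm A B = A * (B / Nat.gcd A B) := by
    rw [Nat.lcm, Nat.mul_div_assoc _ hg]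
  have e2 : Nat.gcd A B * (B / Nat.gcd A B) = B := Nat.mul_div_cancel' hg
  have h1 : Squarefree (Nat.gcd A B * (B / Nat.gcd A B)) := by
    rw [e2]
    exact hB
  have h2 := Nat.squarefree_mul_iff.1 h1
  rw [e1, Nat.squarefree_mul_iff]
  refine ⟨?_, hA, h2.2.2⟩
  have h3 : Nat.gcd A (B / Nat.gcd A B) ∣ Nat.gcd A B :=
    Nat.dvd_gcd (Nat.gcd_dvd_left _ _) ((Nat.gcd_dvd_right _ _).trans (Nat.div_dvd_of_dvd hg))
  have h4 : Nat.gcd A (B / Nat.gcd A B) ∣ Nat.gcd (Nat.gcd A B) (B / Nat.gcd A B) :=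
    Nat.dvd_gcd h3 (Nat.gcd_dvd_right _ _)
  rw [h2.1.gcd_eq_one] at h4
  exact Nat.dvd_one.1 h4

theorem tT1Fac : T1FacStmt := by
  intro a S r r0 u w w' s2 hr0 hG
  obtain ⟨g1, g2, g3, g4, g5, g6, g7, g8, g9, g10, g11, g12, g13, g14⟩ := hG
  have p1 : 0 < r * (u * w) := Nat.pos_of_ne_zero g1.ne_zero
  have p2 : 0 < r * (u * w') := Nat.pos_of_ne_zero g2.ne_zero
  have p3 : 0 < r * s2 := Nat.pos_of_ne_zero g3.ne_zero
  have hr : 0 < r := Nat.pos_of_mul_pos_right p1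
  have huw : 0 < u * w := Nat.pos_of_mul_pos_left p1
  have huw' : 0 < u * w' := Nat.pos_of_mul_pos_left p2
  have hs2 : 0 < s2 := Nat.pos_of_mul_pos_left p3
  have hu : 0 < u := Nat.pos_of_mul_pos_right huw
  have hw : 0 < w := Nat.pos_of_mul_pos_left huw
  have hw' : 0 < w' := Nat.pos_of_mul_pos_left huw'
  have hr0p : 0 < r0 := Nat.pos_of_dvd_of_pos hr0 hr
  have hr1 : r0 * (r / r0) = r := Nat.mul_div_cancel' hr0
  have hr1p : 0 < r / r0 := Nat.div_pos (Nat.le_of_dvd hr hr0) hr0p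
  have hl : 0 < Nat.lcm w w' := Nat.lcm_pos hw hw'
  have hq : 0 < t1q r0 u w w' := Nat.mul_pos (Nat.mul_pos hr0p hu) hl
  have hprod : (r / r0) * t1q r0 u w w' = r * u * Nat.lcm w w' := by
    unfold t1q
    calc (r / r0) * (r0 * u * Nat.lcm w w') = (r0 * (r / r0)) * u * Nat.lcm w w' := by ring
      _ = _ := by rw [hr1]
  have hsq : Squarefree ((r / r0) * t1q r0 u w w') := by
    rw [hprod, ← Nat.lcm_mul_left]
    refine T1Fac_sq ?_ ?_
    · rw [mul_assoc]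
      exact g1
    · rw [mul_assoc]
      exact g2
  obtain ⟨hc1, -, hsqq⟩ := Nat.squarefree_mul_iff.1 hsq
  obtain ⟨hc2, -, hsqs⟩ := Nat.squarefree_mul_iff.1 g3
  have hr1d : r / r0 ∣ r := Nat.div_dvd_of_dvd hr0
  have hld : Nat.lcm w w' ∣ w * w' := Nat.lcm_dvd (dvd_mul_right _ _) (dvd_mul_left _ _)
  have hqd : t1q r0 u w w' ∣ r * (u * w) * (u * w') := by
    have h1 : t1q r0 u w w' ∣ r * u * (w * w') := mul_dvd_mul (mul_dvd_mul_right hr0 u) hld
    refine h1.trans ⟨u, by ring⟩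
  have hqs : (t1q r0 u w w').Coprime s2 :=
    Nat.Coprime.of_dvd_left hqd ((hc2.mul_left g4).mul_left g5)
  have ha1 : Nat.Coprime a.natAbs (r * (u * w)) := g6
  have ha2 : Nat.Coprime a.natAbs (r * (u * w')) := g7
  have ha3 : Nat.Coprime a.natAbs (r * s2) := g8
  have haq : Nat.Coprime a.natAbs (t1q r0 u w w') := by
    refine Nat.Coprime.of_dvd_right hqd (ha1.mul_right ?_)
    exact Nat.Coprime.of_dvd_right (dvd_mul_left _ _) ha2
  have has : Nat.Coprime a.natAbs s2 := Nat.Coprime.of_dvd_right (dvd_mul_left _ _) ha3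
  have hgl : t1q r0 u w w' * Nat.gcd w w' = r0 * (u * w) * w' := by
    unfold t1q
    calc r0 * u * Nat.lcm w w' * Nat.gcd w w' = r0 * u * (Nat.gcd w w' * Nat.lcm w w') := by ring
      _ = r0 * (u * w) * w' := by
        rw [Nat.gcd_mul_lcm]
        ring
  refine ⟨⟨hr, hr0p, hu, hw, hw', hs2⟩, ⟨hr1p, hq, hr1⟩, hprod, hsq, hc1, hqs,
    Nat.Coprime.of_dvd_left hr1d hc2, hc2, haq, has, hsqq, hsqs, ?_, ?_⟩
  · rw [hgl]
    exact Nat.mul_le_mul_right _ (Nat.mul_le_mul_left _ g9.le)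
  · have h1 : Nat.lcm w w' ≤ w * w' := Nat.le_of_dvd (Nat.mul_pos hw hw') hld
    calc t1q r0 u w w' ≤ r0 * u * (w * w') := Nat.mul_le_mul_left _ h1
      _ = r0 * (u * w) * w' := by ring
      _ ≤ r0 * (2 * S) * w' := Nat.mul_le_mul_right _ (Nat.mul_le_mul_left _ g10)
      _ = 2 * r0 * S * w' := by ring

end Pool.Agent.Lib.MI
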