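import Pool.Agent.Lib.MI.SpecT1

/-!
MP_00e23e_nt, Lib/MI, module T1Fht: the complete sums factor (Chinese remainder).
-/

namespace Pool.Agent.Lib.MI

open Finset Pool.Agent.Lib.EH3 Pool.Agent.Lib.TB Pool.Agent.Results.MP_00e23e_nt

/-- the sum of a product of periodic functions -/
private lemma T1Fht_crt (q s : ℕ) (hq : 1 ≤ q) (hs : 1 ≤ s) (h : q.Coprime s) (A B : ℕ → ℂ)
    (hA : ∀ m n, m ≡ n [MOD q] → A m = A n) (hB : ∀ m n, m ≡ n [MOD s] → B m = B n) :
    ∑ n ∈ range (q * s), A n * B n = (∑ n ∈ range q, A n) * ∑ n ∈ range s, B n := by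
  rw [sum_mul_sum, ← sum_product']
  refine sum_nbij' (fun n => (n % q, n % s)) (fun p => (Nat.chineseRemainder h p.1 p.2 : ℕ))
    ?_ ?_ ?_ ?_ ?_
  · intro n _
    exact mem_product.2 ⟨mem_range.2 (Nat.mod_lt _ hq), mem_range.2 (Nat.mod_lt _ hs)⟩
  · intro p _
    exact mem_range.2 (Nat.chineseRemainder_lt_mul h _ _ (by omega) (by omega))
  · intro n hn
    have h1 := (Nat.chineseRemainder h (n % q) (n % s)).2
    have h2 : ((Nat.chineseRemainder h (n % q) (n % s) : ℕ)) ≡ n [MOD q * s] :=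
      (Nat.modEq_and_modEq_iff_modEq_mul h).1
        ⟨h1.1.trans (Nat.mod_modEq n q), h1.2.trans (Nat.mod_modEq n s)⟩
    exact h2.eq_of_lt_of_lt (Nat.chineseRemainder_lt_mul h _ _ (by omega) (by omega))
      (mem_range.1 hn)
  · intro p hp
    have h1 := (Nat.chineseRemainder h p.1 p.2).2
    have h2 := mem_product.1 hp
    refine Prod.ext ?_ ?_
    · show (Nat.chineseRemainder h p.1 p.2 : ℕ) % q = p.1
      rw [h1.1]
      exact Nat.mod_eq_of_lt (mem_range.1 h2.1)
    · show (Nat.chineseRemainder h p.1 p.2 : ℕ) % s = p.2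
      rw [h1.2]
      exact Nat.mod_eq_of_lt (mem_range.1 h2.2)
  · intro n _
    show A n * B n = A (n % q) * B (n % s)
    rw [hA _ _ (Nat.mod_modEq n q), hB _ _ (Nat.mod_modEq n s)]

/-- a shift of the variable -/
private lemma T1Fht_shift (s e : ℕ) (F : ℕ → ℂ) (hF : ∀ m n, m ≡ n [MOD s] → F m = F n) :
    ∑ n ∈ range s, F (n + e) = ∑ n ∈ range s, F n := by
  induction e with
  | zero => simp
  | succ e ih =>
    rw [← ih]
    have h1 := sum_range_succ' (fun n => F (n + e)) s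
    have h2 := sum_range_succ (fun n => F (n + e)) s
    have h3 : F (s + e) = F (0 + e) := hF _ _ (by simp [Nat.ModEq])
    have h4 : ∑ n ∈ range s, F (n + (e + 1)) = ∑ n ∈ range s, F (n + 1 + e) :=
      sum_congr rfl fun n _ => by rw [show n + (e + 1) = n + 1 + e by ring]
    rw [h4]
    rw [h2, h3] at h1
    exact (add_right_cancel h1).symm

private lemma T1Fht_g (c : ℤ) (q m n : ℕ) (h : m ≡ n [MOD q]) : t1g c q m = t1g c q n := by
  unfold t1g
  have h1 : m.Coprime q ↔ n.Coprime q := by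
    unfold Nat.Coprime
    rw [h.gcd_eq]
  have h2 : iv m q = iv n q := iv_congr h
  simp only [h1, h2]

private lemma T1Fht_en (b : ℤ) (q m n : ℕ) (h : m ≡ n [MOD q]) : en (b * m) q = en (b * n) q := by
  apply en_congr
  rw [← mul_sub]
  exact dvd_mul_of_dvd_right ((Nat.modEq_iff_dvd.1 h.symm)) _

/-- the complete sum -/
private lemma T1Fht_SS (c b : ℤ) (q t : ℕ) : ∑ n ∈ range q, t1g c q n *
    (starRingEnd ℂ) (t1g c q (n + t)) * en (b * n) q = SS c b q t := by
  unfold SS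
  rw [sum_filter]
  refine sum_congr rfl fun n _ => ?_
  rw [t1_g_mul_conj]
  split_ifs
  · rw [en_add]
  · rw [zero_mul]

theorem tT1Fht : T1FhtStmt := by
  intro c c' j q s e t hq hs h
  have hF : ∀ (c b : ℤ) (q m n : ℕ), m ≡ n [MOD q] →
      t1g c q m * (starRingEnd ℂ) (t1g c q (m + t)) * en (b * m) q =
        t1g c q n * (starRingEnd ℂ) (t1g c q (n + t)) * en (b * n) q := by
    intro c b q m n hmn
    rw [T1Fht_g c q m n hmn, T1Fht_g c q (m + t) (n + t) (hmn.add_right t), T1Fht_en b q m n hmn]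
  have h1 : ∀ n ∈ range (q * s), t1g c q n * t1g c' s (n + e) *
      (starRingEnd ℂ) (t1g c q (n + t) * t1g c' s (n + t + e)) * en (j * n) (q * s) =
      (t1g c q n * (starRingEnd ℂ) (t1g c q (n + t)) * en (j * (iv s q : ℤ) * n) q) *
        (en (-(j * (iv q s : ℤ) * e)) s * (t1g c' s (n + e) * (starRingEnd ℂ) (t1g c' s (n + e + t)) *
          en (j * (iv q s : ℤ) * ((n + e : ℕ) : ℤ)) s)) := by
    intro n _
    have e1 : n + t + e = n + e + t := by ring
    have e2 : en (j * (iv q s : ℤ) * ((n + e : ℕ) : ℤ)) s =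
        en (j * (n : ℤ) * (iv q s : ℤ)) s * en (j * (iv q s : ℤ) * e) s := by
      rw [← en_add]
      congr 1
      push_cast
      ring
    have e3 : en (-(j * (iv q s : ℤ) * e)) s * en (j * (iv q s : ℤ) * e) s = 1 := by
      rw [mul_comm]
      exact en_mul_self _ _
    have e4 : j * (iv s q : ℤ) * n = j * (n : ℤ) * (iv s q : ℤ) := by ring
    rw [en_crt h hq hs, e1, map_mul, e2, e4]
    linear_combination (-(t1g c q n * t1g c' s (n + e) * (starRingEnd ℂ) (t1g c q (n + t)) *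
      (starRingEnd ℂ) (t1g c' s (n + e + t)) * en (j * (n : ℤ) * (iv s q : ℤ)) q *
      en (j * (n : ℤ) * (iv q s : ℤ)) s)) * e3
  rw [sum_congr rfl h1, T1Fht_crt q s hq hs h
    (fun n => t1g c q n * (starRingEnd ℂ) (t1g c q (n + t)) * en (j * (iv s q : ℤ) * n) q)
    (fun n => en (-(j * (iv q s : ℤ) * e)) s * (t1g c' s (n + e) *
      (starRingEnd ℂ) (t1g c' s (n + e + t)) * en (j * (iv q s : ℤ) * ((n + e : ℕ) : ℤ)) s))
    (fun m n hmn => hF c _ q m n hmn)
    (fun m n hmn => by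
      show _ * _ = _ * _
      rw [hF c' (j * (iv q s : ℤ)) s (m + e) (n + e) (hmn.add_right e)]),
    T1Fht_SS, ← mul_sum, T1Fht_shift s e (fun n => t1g c' s n *
      (starRingEnd ℂ) (t1g c' s (n + t)) * en (j * (iv q s : ℤ) * (n : ℤ)) s)
      (fun m n hmn => hF c' _ s m n hmn), T1Fht_SS, norm_mul, norm_mul, norm_en, one_mul]

end Pool.Agent.Lib.MI
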