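import Pool.Agent.Lib.MI.SpecT1

/-! MP_00e23e_nt, Lib/MI, module T1Gav: the average of the gcds. -/

namespace Pool.Agent.Lib.MI

open Finset Pool.Agent.Lib.EH3 Pool.Agent.Lib.TB Pool.Agent.Results.MP_00e23e_nt

/-- gcd of a product -/
private lemma T1Gav_nat (δ d r u m : ℕ) (hδ : 1 ≤ δ) (hd : 1 ≤ d) :
    Nat.gcd (δ * d) (r * u * m) ≤
      Nat.gcd (δ * d) r * Nat.gcd (δ * d) u * (Nat.gcd δ m * Nat.gcd m d) := by
  have hz : 0 < δ * d := Nat.mul_pos (by omega) (by omega)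
  have h1 : Nat.gcd (δ * d) (r * u * m) ≤ Nat.gcd (δ * d) (r * u) * Nat.gcd (δ * d) m :=
    Nat.le_of_dvd (Nat.mul_pos (Nat.gcd_pos_of_pos_left _ hz) (Nat.gcd_pos_of_pos_left _ hz))
      (Nat.gcd_mul_right_dvd_mul_gcd _ _ _)
  have h2 : Nat.gcd (δ * d) (r * u) ≤ Nat.gcd (δ * d) r * Nat.gcd (δ * d) u :=
    Nat.le_of_dvd (Nat.mul_pos (Nat.gcd_pos_of_pos_left _ hz) (Nat.gcd_pos_of_pos_left _ hz))
      (Nat.gcd_mul_right_dvd_mul_gcd _ _ _)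
  have h3 : Nat.gcd (δ * d) m ≤ Nat.gcd δ m * Nat.gcd m d := by
    rw [Nat.gcd_comm (δ * d) m, Nat.gcd_comm δ m]
    exact Nat.le_of_dvd (Nat.mul_pos (Nat.gcd_pos_of_pos_right _ (by omega))
      (Nat.gcd_pos_of_pos_right _ (by omega))) (Nat.gcd_mul_right_dvd_mul_gcd _ _ _)
  exact h1.trans (Nat.mul_le_mul h2 h3)

/-- the bound of the summand -/
private lemma T1Gav_pt (hGsb : T1GsbStmt) (h h' : ℤ) (w w' r u s2 d : ℕ) (hw : 1 ≤ w)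
    (hw' : 1 ≤ w') (hh : h ≠ 0) (hh' : h' ≠ 0) (hd : 1 ≤ d) (hD : t1e h h' w w' ≠ 0) :
    Real.sqrt ((Nat.gcd w w' : ℝ) *
        (Int.gcd (t1e h h' w w' * d) ((r * u * Nat.lcm w w' : ℕ) : ℤ) : ℝ) *
        (Int.gcd (t1e h h' w w' * d) s2 : ℝ)) ≤
      ((Int.gcd (t1e h h' w w' * d) r : ℝ) * (Int.gcd (t1e h h' w w' * d) u : ℝ) *
        (Int.gcd (t1e h h' w w' * d) s2 : ℝ)) *
      ((Nat.gcd w w' : ℝ) * (Int.gcd h w : ℝ) * (Int.gcd h' w' : ℝ) *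
        (Int.gcd ((Nat.lcm w w' : ℕ) : ℤ) d : ℝ)) := by
  have hδ : 1 ≤ (t1e h h' w w').natAbs := Nat.pos_of_ne_zero (Int.natAbs_ne_zero.2 hD)
  have hdZ : (d : ℤ) ≠ 0 := by exact_mod_cast (by omega : d ≠ 0)
  have hZ : t1e h h' w w' * (d : ℤ) ≠ 0 := mul_ne_zero hD hdZ
  have hzn : (t1e h h' w w' * (d : ℤ)).natAbs = (t1e h h' w w').natAbs * d := by
    rw [Int.natAbs_mul, Int.natAbs_natCast]
  have hpos : ∀ n : ℕ, 1 ≤ Int.gcd (t1e h h' w w' * (d : ℤ)) n := fun n =>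
    Nat.pos_of_ne_zero fun h0 => hZ (Int.gcd_eq_zero_iff.1 h0).1
  have hN : Int.gcd (t1e h h' w w' * d) ((r * u * Nat.lcm w w' : ℕ) : ℤ) ≤
      Int.gcd (t1e h h' w w' * d) r * Int.gcd (t1e h h' w w' * d) u *
        (Nat.gcd w w' * Int.gcd h w * Int.gcd h' w' * Int.gcd ((Nat.lcm w w' : ℕ) : ℤ) d) := by
    have a1 := T1Gav_nat (t1e h h' w w').natAbs d r u (Nat.lcm w w') hδ hd
    have a2 := hGsb h h' w w' hw hw'
    have a3 : Nat.gcd (t1e h h' w w').natAbs (Nat.lcm w w') ≤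
        Nat.gcd w w' * Int.gcd h w * Int.gcd h' w' := a2
    have a4 : Int.gcd (t1e h h' w w' * d) ((r * u * Nat.lcm w w' : ℕ) : ℤ) =
        Nat.gcd ((t1e h h' w w').natAbs * d) (r * u * Nat.lcm w w') := by
      rw [← hzn]
      rfl
    have a5 : ∀ n : ℕ, Int.gcd (t1e h h' w w' * d) (n : ℤ) =
        Nat.gcd ((t1e h h' w w').natAbs * d) n := by
      intro n
      rw [← hzn]
      rfl
    have a6 : Int.gcd ((Nat.lcm w w' : ℕ) : ℤ) d = Nat.gcd (Nat.lcm w w') d := rfl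
    rw [a4, a5 r, a5 u, a6]
    exact a1.trans (Nat.mul_le_mul_left _ (Nat.mul_le_mul_right _ a3))
  have hNR : (Int.gcd (t1e h h' w w' * d) ((r * u * Nat.lcm w w' : ℕ) : ℤ) : ℝ) ≤
      (Int.gcd (t1e h h' w w' * d) r : ℝ) * (Int.gcd (t1e h h' w w' * d) u : ℝ) *
        ((Nat.gcd w w' : ℝ) * (Int.gcd h w : ℝ) * (Int.gcd h' w' : ℝ) *
          (Int.gcd ((Nat.lcm w w' : ℕ) : ℤ) d : ℝ)) := by exact_mod_cast hN
  have hA : (1 : ℝ) ≤ (Int.gcd (t1e h h' w w' * d) r : ℝ) := by exact_mod_cast hpos r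
  have hB : (1 : ℝ) ≤ (Int.gcd (t1e h h' w w' * d) u : ℝ) := by exact_mod_cast hpos u
  have hC : (1 : ℝ) ≤ (Int.gcd (t1e h h' w w' * d) s2 : ℝ) := by exact_mod_cast hpos s2
  have hp : (1 : ℝ) ≤ (Int.gcd h w : ℝ) := by
    have : 1 ≤ Int.gcd h w := Nat.pos_of_ne_zero fun h0 => hh (Int.gcd_eq_zero_iff.1 h0).1
    exact_mod_cast this
  have hq : (1 : ℝ) ≤ (Int.gcd h' w' : ℝ) := by
    have : 1 ≤ Int.gcd h' w' := Nat.pos_of_ne_zero fun h0 => hh' (Int.gcd_eq_zero_iff.1 h0).1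
    exact_mod_cast this
  have he : (1 : ℝ) ≤ (Int.gcd ((Nat.lcm w w' : ℕ) : ℤ) d : ℝ) := by
    have : 1 ≤ Int.gcd ((Nat.lcm w w' : ℕ) : ℤ) d :=
      Nat.pos_of_ne_zero fun h0 => hdZ (Int.gcd_eq_zero_iff.1 h0).2
    exact_mod_cast this
  have hg : (0 : ℝ) ≤ (Nat.gcd w w' : ℝ) := Nat.cast_nonneg _
  generalize (Int.gcd (t1e h h' w w' * d) ((r * u * Nat.lcm w w' : ℕ) : ℤ) : ℝ) = N at *
  generalize (Int.gcd (t1e h h' w w' * d) r : ℝ) = A at *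
  generalize (Int.gcd (t1e h h' w w' * d) u : ℝ) = B at *
  generalize (Int.gcd (t1e h h' w w' * d) s2 : ℝ) = C at *
  generalize (Int.gcd h w : ℝ) = p at *
  generalize (Int.gcd h' w' : ℝ) = q at *
  generalize (Int.gcd ((Nat.lcm w w' : ℕ) : ℤ) d : ℝ) = e at *
  generalize (Nat.gcd w w' : ℝ) = g at *
  have hP : 1 ≤ A * B * C * p * q * e := by
    have b1 : 1 ≤ A * B := one_le_mul_of_one_le_of_one_le hA hB
    have b2 : 1 ≤ A * B * C := one_le_mul_of_one_le_of_one_le b1 hC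
    have b3 : 1 ≤ A * B * C * p := one_le_mul_of_one_le_of_one_le b2 hp
    have b4 : 1 ≤ A * B * C * p * q := one_le_mul_of_one_le_of_one_le b3 hq
    exact one_le_mul_of_one_le_of_one_le b4 he
  refine Real.sqrt_le_iff.2 ⟨by positivity, ?_⟩
  calc g * N * C ≤ g * (A * B * (g * p * q * e)) * C := by gcongr
    _ = g ^ 2 * (A * B * C * p * q * e) := by ring
    _ ≤ g ^ 2 * ((A * B * C * p * q * e) * (A * B * C * p * q * e)) := by
        refine mul_le_mul_of_nonneg_left ?_ (by positivity)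
        exact le_mul_of_one_le_right (by linarith) hP
    _ = (A * B * C * (g * p * q * e)) ^ 2 := by ring

private lemma T1Gav_prod3 (A B C : Finset ℕ) (f g h : ℕ → ℝ) (K : ℝ) :
    ∑ x ∈ A, ∑ y ∈ B, ∑ z ∈ C, (f x * g y * h z) * K =
      ((∑ x ∈ A, f x) * (∑ y ∈ B, g y) * (∑ z ∈ C, h z)) * K := by
  simp only [← Finset.sum_mul, ← Finset.mul_sum]

private lemma T1Gav_swap {α β γ : Type} (A : Finset α) (B : Finset β) (C : Finset γ)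
    (F : α → β → γ → ℝ) :
    ∑ x ∈ A, ∑ y ∈ B, ∑ z ∈ C, F x y z = ∑ y ∈ B, ∑ z ∈ C, ∑ x ∈ A, F x y z := by
  rw [Finset.sum_comm]
  exact Finset.sum_congr rfl fun y _ => Finset.sum_comm

/-- the sum over the h -/
private lemma T1Gav_h (hGsa : T1GsaStmt) (H : ℕ) (Hs : Finset ℤ) (T : ℝ) (w : ℕ) (hw : 1 ≤ w)
    (hHs : ∀ h ∈ Hs, h ≠ 0 ∧ |h| ≤ (H : ℤ)) (hT : (w.divisors.card : ℝ) ≤ T) :
    ∑ h ∈ Hs, (Int.gcd h w : ℝ) ≤ 2 * (H : ℝ) * T := by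
  classical
  have hmaps : ∀ h ∈ Hs, h.natAbs ∈ Icc 1 H := by
    intro h hh
    obtain ⟨a1, a2⟩ := hHs h hh
    rw [Finset.mem_Icc]
    constructor
    · exact Nat.pos_of_ne_zero (Int.natAbs_ne_zero.2 a1)
    · have : (h.natAbs : ℤ) ≤ (H : ℤ) := by
        rw [Int.natCast_natAbs]
        exact a2
      exact_mod_cast this
  rw [← Finset.sum_fiberwise_of_maps_to hmaps]
  have h1 : ∀ n ∈ Icc 1 H, ∑ h ∈ Hs with h.natAbs = n, (Int.gcd h w : ℝ) ≤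
      2 * (Int.gcd (w : ℤ) (n : ℤ) : ℝ) := by
    intro n _
    have b1 : ∀ h ∈ Hs.filter (fun h => h.natAbs = n), (Int.gcd h w : ℝ) =
        (Int.gcd (w : ℤ) (n : ℤ) : ℝ) := by
      intro h hh
      have b2 := (Finset.mem_filter.1 hh).2
      have b3 : Int.gcd h w = Int.gcd (w : ℤ) (n : ℤ) := by
        rw [Int.gcd_comm (w : ℤ) (n : ℤ)]
        change Nat.gcd h.natAbs w = Nat.gcd n w
        rw [b2]
      rw [b3]
    rw [Finset.sum_congr rfl b1, Finset.sum_const, nsmul_eq_mul]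
    refine mul_le_mul_of_nonneg_right ?_ (Nat.cast_nonneg _)
    have b4 : Hs.filter (fun h => h.natAbs = n) ⊆ {(n : ℤ), -(n : ℤ)} := by
      intro h hh
      have b2 := (Finset.mem_filter.1 hh).2
      rw [Finset.mem_insert, Finset.mem_singleton]
      omega
    have b5 := (Finset.card_le_card b4).trans Finset.card_le_two
    exact_mod_cast b5
  refine (Finset.sum_le_sum h1).trans ?_
  rw [← Finset.mul_sum]
  have h2 := (hGsa (w : ℤ) (by exact_mod_cast (by omega : w ≠ 0))).2 H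
  rw [Int.natAbs_natCast] at h2
  have h3 : (H : ℝ) * (w.divisors.card : ℝ) ≤ (H : ℝ) * T :=
    mul_le_mul_of_nonneg_left hT (Nat.cast_nonneg _)
  linarith

theorem tT1Gav (hGsa : T1GsaStmt) (hGsb : T1GsbStmt) : T1GavStmt := by
  classical
  intro X T a R S H V L L' Hs r0 hTau hR hS hV hHs hX1 hX2
  obtain ⟨hT1, -, hTd⟩ := hTau
  have hT0 : 0 ≤ T := by linarith
  have hV0 : (0 : ℝ) < V := by exact_mod_cast hV
  have hV1 : (1 : ℝ) ≤ V := by exact_mod_cast hV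
  -- the sum over r, u, s2
  have hin : ∀ d ∈ Ico 1 L, ∀ h ∈ Hs, ∀ h' ∈ Hs, ∀ w ∈ Ioc V (2 * V), ∀ w' ∈ Ioc V (2 * V),
      ∑ r ∈ Ioc R (2 * R), ∑ u ∈ Icc 1 (2 * S / V), ∑ s2 ∈ Ioc S (2 * S),
        (if t1e h h' w w' ≠ 0 ∧ (r0 r ∣ r ∧ L < r0 r ∧ r0 r ≤ L') ∧ T1Gq a S r u w w' s2 then
          Real.sqrt ((Nat.gcd w w' : ℝ) *
            (Int.gcd (t1e h h' w w' * d) ((r * u * Nat.lcm w w' : ℕ) : ℤ) : ℝ) *
            (Int.gcd (t1e h h' w w' * d) s2 : ℝ)) else 0) ≤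
      (8 * T ^ 3 * (R * (S : ℝ) ^ 2 / V)) * ((Nat.gcd w w' : ℝ) * (Int.gcd h w : ℝ) *
        (Int.gcd h' w' : ℝ) * (Int.gcd ((Nat.lcm w w' : ℕ) : ℤ) d : ℝ)) := by
    intro d hd h hh h' hh' w hw w' hw'
    rw [Finset.mem_Ico] at hd
    rw [Finset.mem_Ioc] at hw hw'
    set K : ℝ := (Nat.gcd w w' : ℝ) * (Int.gcd h w : ℝ) *
        (Int.gcd h' w' : ℝ) * (Int.gcd ((Nat.lcm w w' : ℕ) : ℤ) d : ℝ) with hK
    have hK0 : 0 ≤ K := by positivity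
    by_cases hD : t1e h h' w w' = 0
    · refine le_trans (le_of_eq ?_) (by positivity : 0 ≤ (8 * T ^ 3 * (R * (S : ℝ) ^ 2 / V)) * K)
      refine Finset.sum_eq_zero fun r _ => Finset.sum_eq_zero fun u _ =>
        Finset.sum_eq_zero fun s2 _ => ?_
      rw [if_neg]
      exact fun h0 => h0.1 hD
    · have hdZ : (d : ℤ) ≠ 0 := by exact_mod_cast (by omega : d ≠ 0)
      set Z : ℤ := t1e h h' w w' * (d : ℤ) with hZdef
      have hZ : Z ≠ 0 := mul_ne_zero hD hdZ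
      have hτ : (Z.natAbs.divisors.card : ℝ) ≤ T := by
        refine hTd Z.natAbs (Nat.pos_of_ne_zero (Int.natAbs_ne_zero.2 hZ)) ?_
        have c1 : |t1e h h' w w'| ≤ 4 * (H : ℤ) * V :=
          t1_e_le (hHs h hh).2 (hHs h' hh').2 hw.2 hw'.2
        have c2 : (d : ℤ) ≤ (L : ℤ) := by exact_mod_cast hd.2.le
        have c3 : |Z| ≤ 4 * (H : ℤ) * V * L := by
          rw [hZdef, abs_mul, Nat.abs_cast]
          exact mul_le_mul c1 c2 (by positivity) (by positivity)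
        have c4 : ((Z.natAbs : ℤ) : ℝ) ≤ ((4 * (H : ℤ) * V * L : ℤ) : ℝ) := by
          rw [Int.natCast_natAbs]
          exact_mod_cast c3
        push_cast at c4
        have c5 : ((Z.natAbs : ℕ) : ℝ) = |(Z : ℝ)| := by
          rw [Nat.cast_natAbs, Int.cast_abs]
        rw [c5]
        exact c4.trans hX1
      have hsum : ∑ r ∈ Ioc R (2 * R), ∑ u ∈ Icc 1 (2 * S / V), ∑ s2 ∈ Ioc S (2 * S),
          (if t1e h h' w w' ≠ 0 ∧ (r0 r ∣ r ∧ L < r0 r ∧ r0 r ≤ L') ∧ T1Gq a S r u w w' s2 then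
            Real.sqrt ((Nat.gcd w w' : ℝ) * (Int.gcd Z ((r * u * Nat.lcm w w' : ℕ) : ℤ) : ℝ) *
              (Int.gcd Z s2 : ℝ)) else 0) ≤
          ∑ r ∈ Ioc R (2 * R), ∑ u ∈ Icc 1 (2 * S / V), ∑ s2 ∈ Ioc S (2 * S),
            ((Int.gcd Z r : ℝ) * (Int.gcd Z u : ℝ) * (Int.gcd Z s2 : ℝ)) * K := by
        refine Finset.sum_le_sum fun r _ => Finset.sum_le_sum fun u _ =>
          Finset.sum_le_sum fun s2 _ => ?_
        split_ifs
        · exact T1Gav_pt hGsb h h' w w' r u s2 d (by omega) (by omega) (hHs h hh).1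
            (hHs h' hh').1 (by omega) hD
        · positivity
      refine hsum.trans ?_
      rw [T1Gav_prod3 (Ioc R (2 * R)) (Icc 1 (2 * S / V)) (Ioc S (2 * S))
        (fun r => (Int.gcd Z r : ℝ)) (fun u => (Int.gcd Z u : ℝ)) (fun s2 => (Int.gcd Z s2 : ℝ)) K]
      refine mul_le_mul_of_nonneg_right ?_ hK0
      have e1 := (hGsa Z hZ).1 R
      have e2 := (hGsa Z hZ).2 (2 * S / V)
      have e3 := (hGsa Z hZ).1 S
      have e4 : ((2 * S / V : ℕ) : ℝ) ≤ 2 * S / V := by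
        have := @Nat.cast_div_le ℝ _ _ _ (2 * S) V
        push_cast at this
        exact this
      have f1 : ∑ r ∈ Ioc R (2 * R), (Int.gcd Z r : ℝ) ≤ 2 * R * T := by
        refine e1.trans ?_
        exact mul_le_mul_of_nonneg_left hτ (by positivity)
      have f2 : ∑ u ∈ Icc 1 (2 * S / V), (Int.gcd Z u : ℝ) ≤ 2 * S / V * T := by
        refine e2.trans ?_
        exact mul_le_mul e4 hτ (by positivity) (by positivity)
      have f3 : ∑ s2 ∈ Ioc S (2 * S), (Int.gcd Z s2 : ℝ) ≤ 2 * S * T := by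
        refine e3.trans ?_
        exact mul_le_mul_of_nonneg_left hτ (by positivity)
      calc (∑ r ∈ Ioc R (2 * R), (Int.gcd Z r : ℝ)) * (∑ u ∈ Icc 1 (2 * S / V), (Int.gcd Z u : ℝ)) *
            (∑ s2 ∈ Ioc S (2 * S), (Int.gcd Z s2 : ℝ))
          ≤ (2 * R * T) * (2 * S / V * T) * (2 * S * T) := by
            refine mul_le_mul (mul_le_mul f1 f2 ?_ ?_) f3 ?_ ?_
            · exact Finset.sum_nonneg fun _ _ => Nat.cast_nonneg _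
            · positivity
            · exact Finset.sum_nonneg fun _ _ => Nat.cast_nonneg _
            · positivity
        _ = 8 * T ^ 3 * (R * (S : ℝ) ^ 2 / V) := by
            field_simp
            ring
  -- all sums
  have hall : ∑ d ∈ Ico 1 L, t1Sum a R S V L L' Hs r0 (fun h h' w w' r u s2 =>
      Real.sqrt ((Nat.gcd w w' : ℝ) *
        (Int.gcd (t1e h h' w w' * d) ((r * u * Nat.lcm w w' : ℕ) : ℤ) : ℝ) *
        (Int.gcd (t1e h h' w w' * d) s2 : ℝ))) ≤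
      ∑ d ∈ Ico 1 L, ∑ h ∈ Hs, ∑ h' ∈ Hs, ∑ w ∈ Ioc V (2 * V), ∑ w' ∈ Ioc V (2 * V),
        (8 * T ^ 3 * (R * (S : ℝ) ^ 2 / V)) * ((Nat.gcd w w' : ℝ) * (Int.gcd h w : ℝ) *
        (Int.gcd h' w' : ℝ) * (Int.gcd ((Nat.lcm w w' : ℕ) : ℤ) d : ℝ)) := by
    refine Finset.sum_le_sum fun d hd => ?_
    unfold t1Sum
    exact Finset.sum_le_sum fun h hh => Finset.sum_le_sum fun h' hh' =>
      Finset.sum_le_sum fun w hw => Finset.sum_le_sum fun w' hw' => hin d hd h hh h' hh' w hw w' hw'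
  refine hall.trans ?_
  -- exchange the sums
  have hex : ∑ d ∈ Ico 1 L, ∑ h ∈ Hs, ∑ h' ∈ Hs, ∑ w ∈ Ioc V (2 * V), ∑ w' ∈ Ioc V (2 * V),
        (8 * T ^ 3 * (R * (S : ℝ) ^ 2 / V)) * ((Nat.gcd w w' : ℝ) * (Int.gcd h w : ℝ) *
        (Int.gcd h' w' : ℝ) * (Int.gcd ((Nat.lcm w w' : ℕ) : ℤ) d : ℝ)) =
      ∑ w ∈ Ioc V (2 * V), ∑ w' ∈ Ioc V (2 * V),
        (8 * T ^ 3 * (R * (S : ℝ) ^ 2 / V)) * ((Nat.gcd w w' : ℝ) *
          (∑ h ∈ Hs, (Int.gcd h w : ℝ)) * (∑ h' ∈ Hs, (Int.gcd h' w' : ℝ)) *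
          (∑ d ∈ Ico 1 L, (Int.gcd ((Nat.lcm w w' : ℕ) : ℤ) d : ℝ))) := by
    have g1 : ∀ d ∈ Ico 1 L, ∑ h ∈ Hs, ∑ h' ∈ Hs, ∑ w ∈ Ioc V (2 * V), ∑ w' ∈ Ioc V (2 * V),
        (8 * T ^ 3 * (R * (S : ℝ) ^ 2 / V)) * ((Nat.gcd w w' : ℝ) * (Int.gcd h w : ℝ) *
        (Int.gcd h' w' : ℝ) * (Int.gcd ((Nat.lcm w w' : ℕ) : ℤ) d : ℝ)) =
        ∑ w ∈ Ioc V (2 * V), ∑ w' ∈ Ioc V (2 * V), ∑ h ∈ Hs, ∑ h' ∈ Hs,
        (8 * T ^ 3 * (R * (S : ℝ) ^ 2 / V)) * ((Nat.gcd w w' : ℝ) * (Int.gcd h w : ℝ) *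
        (Int.gcd h' w' : ℝ) * (Int.gcd ((Nat.lcm w w' : ℕ) : ℤ) d : ℝ)) := by
      intro d _
      rw [Finset.sum_congr rfl fun h _ => T1Gav_swap Hs (Ioc V (2 * V)) (Ioc V (2 * V)) _]
      exact T1Gav_swap Hs (Ioc V (2 * V)) (Ioc V (2 * V)) _
    rw [Finset.sum_congr rfl g1, T1Gav_swap]
    refine Finset.sum_congr rfl fun w _ => Finset.sum_congr rfl fun w' _ => ?_
    simp only [← Finset.sum_mul, ← Finset.mul_sum]
  rw [hex]
  -- the bounds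
  have hwd : ∀ w ∈ Ioc V (2 * V), (w.divisors.card : ℝ) ≤ T := by
    intro w hw
    rw [Finset.mem_Ioc] at hw
    refine hTd w (by omega) ?_
    have c1 : (w : ℝ) ≤ 2 * V := by exact_mod_cast hw.2
    nlinarith
  have hb : ∀ w ∈ Ioc V (2 * V), ∀ w' ∈ Ioc V (2 * V),
      (8 * T ^ 3 * (R * (S : ℝ) ^ 2 / V)) * ((Nat.gcd w w' : ℝ) *
          (∑ h ∈ Hs, (Int.gcd h w : ℝ)) * (∑ h' ∈ Hs, (Int.gcd h' w' : ℝ)) *
          (∑ d ∈ Ico 1 L, (Int.gcd ((Nat.lcm w w' : ℕ) : ℤ) d : ℝ))) ≤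
      (8 * T ^ 3 * (R * (S : ℝ) ^ 2 / V)) * ((Nat.gcd w w' : ℝ) * (2 * H * T) * (2 * H * T) *
        (L * T)) := by
    intro w hw w' hw'
    have i1 := T1Gav_h hGsa H Hs T w (by rw [Finset.mem_Ioc] at hw; omega) hHs (hwd w hw)
    have i2 := T1Gav_h hGsa H Hs T w' (by rw [Finset.mem_Ioc] at hw'; omega) hHs (hwd w' hw')
    rw [Finset.mem_Ioc] at hw hw'
    have hm0 : 1 ≤ Nat.lcm w w' := Nat.lcm_pos (by omega) (by omega)
    have i3 : ∑ d ∈ Ico 1 L, (Int.gcd ((Nat.lcm w w' : ℕ) : ℤ) d : ℝ) ≤ L * T := by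
      have j1 := (hGsa ((Nat.lcm w w' : ℕ) : ℤ) (by exact_mod_cast (by omega : Nat.lcm w w' ≠ 0))).2 L
      rw [Int.natAbs_natCast] at j1
      have j2 : ((Nat.lcm w w').divisors.card : ℝ) ≤ T := by
        refine hTd _ hm0 ?_
        have k1 : Nat.lcm w w' ≤ w * w' :=
          Nat.le_of_dvd (Nat.mul_pos (by omega) (by omega)) (Nat.lcm_dvd_mul w w')
        have k2 : w * w' ≤ (2 * V) * (2 * V) := Nat.mul_le_mul hw.2 hw'.2
        have k3 : ((Nat.lcm w w' : ℕ) : ℝ) ≤ (2 * V) * (2 * V) := by exact_mod_cast k1.trans k2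
        calc ((Nat.lcm w w' : ℕ) : ℝ) ≤ (2 * V) * (2 * V) := k3
          _ = 4 * (V : ℝ) ^ 2 := by ring
          _ ≤ X := hX2
      have j3 : ∑ d ∈ Ico 1 L, (Int.gcd ((Nat.lcm w w' : ℕ) : ℤ) d : ℝ) ≤
          ∑ d ∈ Icc 1 L, (Int.gcd ((Nat.lcm w w' : ℕ) : ℤ) d : ℝ) := by
        refine Finset.sum_le_sum_of_subset_of_nonneg ?_ fun _ _ _ => Nat.cast_nonneg _
        intro d hd
        rw [Finset.mem_Ico] at hd
        rw [Finset.mem_Icc]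
        omega
      exact (j3.trans j1).trans (mul_le_mul_of_nonneg_left j2 (Nat.cast_nonneg _))
    have n1 : (0 : ℝ) ≤ ∑ h ∈ Hs, (Int.gcd h w : ℝ) := Finset.sum_nonneg fun _ _ => Nat.cast_nonneg _
    have n2 : (0 : ℝ) ≤ ∑ h ∈ Hs, (Int.gcd h w' : ℝ) := Finset.sum_nonneg fun _ _ => Nat.cast_nonneg _
    have n3 : (0 : ℝ) ≤ ∑ d ∈ Ico 1 L, (Int.gcd ((Nat.lcm w w' : ℕ) : ℤ) d : ℝ) :=
      Finset.sum_nonneg fun _ _ => Nat.cast_nonneg _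
    gcongr
  refine (Finset.sum_le_sum fun w hw => Finset.sum_le_sum fun w' hw' => hb w hw w' hw').trans ?_
  have hg : ∑ w ∈ Ioc V (2 * V), ∑ w' ∈ Ioc V (2 * V), (Nat.gcd w w' : ℝ) ≤ 2 * (V : ℝ) ^ 2 * T := by
    have l1 : ∀ w ∈ Ioc V (2 * V), ∑ w' ∈ Ioc V (2 * V), (Nat.gcd w w' : ℝ) ≤ 2 * (V : ℝ) * T := by
      intro w hw
      have l2 := hwd w hw
      rw [Finset.mem_Ioc] at hw
      have l3 := (hGsa (w : ℤ) (by exact_mod_cast (by omega : w ≠ 0))).1 V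
      rw [Int.natAbs_natCast] at l3
      have l4 : ∑ w' ∈ Ioc V (2 * V), (Nat.gcd w w' : ℝ) =
          ∑ w' ∈ Ioc V (2 * V), (Int.gcd (w : ℤ) (w' : ℤ) : ℝ) := rfl
      rw [l4]
      exact l3.trans (mul_le_mul_of_nonneg_left l2 (by positivity))
    refine (Finset.sum_le_sum l1).trans ?_
    rw [Finset.sum_const, Nat.card_Ioc, nsmul_eq_mul]
    have l5 : ((2 * V - V : ℕ) : ℝ) = V := by
      rw [show 2 * V - V = V by omega]
    rw [l5]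
    apply le_of_eq
    ring
  have hfin : ∑ w ∈ Ioc V (2 * V), ∑ w' ∈ Ioc V (2 * V),
      (8 * T ^ 3 * (R * (S : ℝ) ^ 2 / V)) * ((Nat.gcd w w' : ℝ) * (2 * H * T) * (2 * H * T) *
        (L * T)) =
      (8 * T ^ 3 * (R * (S : ℝ) ^ 2 / V)) * ((∑ w ∈ Ioc V (2 * V), ∑ w' ∈ Ioc V (2 * V),
        (Nat.gcd w w' : ℝ)) * (2 * H * T) * (2 * H * T) * (L * T)) := by
    simp only [← Finset.sum_mul, ← Finset.mul_sum]
  rw [hfin]
  calc (8 * T ^ 3 * (R * (S : ℝ) ^ 2 / V)) * ((∑ w ∈ Ioc V (2 * V), ∑ w' ∈ Ioc V (2 * V),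
        (Nat.gcd w w' : ℝ)) * (2 * H * T) * (2 * H * T) * (L * T))
      ≤ (8 * T ^ 3 * (R * (S : ℝ) ^ 2 / V)) * ((2 * (V : ℝ) ^ 2 * T) * (2 * H * T) * (2 * H * T) *
        (L * T)) := by gcongr
    _ = 64 * T ^ 7 * ((L : ℝ) * (H : ℝ) ^ 2 * V * R * (S : ℝ) ^ 2) := by
      field_simp
      ring

end Pool.Agent.Lib.MI
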