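import Pool.Agent.Lib.MI.SpecT1

/-!
# MI, chapter T1: module T1Gcd
-/

namespace Pool.Agent.Lib.MI

open Finset Pool.Agent.Lib.EH3 Pool.Agent.Lib.TB Pool.Agent.Results.MP_00e23e_nt

private theorem T1Gcd_iff (g : ℕ) (A B q : ℤ) :
    g ∣ Int.gcd ((Int.gcd A B : ℕ) : ℤ) q ↔ (g : ℤ) ∣ A ∧ (g : ℤ) ∣ B ∧ (g : ℤ) ∣ q := by
  rw [← Int.natCast_dvd_natCast, Int.dvd_coe_gcd_iff, Int.dvd_coe_gcd_iff, and_assoc]

private theorem T1Gcd_ext {A B A' B' q : ℤ}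
    (h : ∀ g : ℕ, (g : ℤ) ∣ q → (((g : ℤ) ∣ A ↔ (g : ℤ) ∣ A') ∧ ((g : ℤ) ∣ B ↔ (g : ℤ) ∣ B'))) :
    Int.gcd ((Int.gcd A B : ℕ) : ℤ) q = Int.gcd ((Int.gcd A' B' : ℕ) : ℤ) q := by
  apply Nat.dvd_antisymm
  · rw [T1Gcd_iff]
    obtain ⟨h1, h2, h3⟩ := (T1Gcd_iff _ A B q).1 (dvd_refl _)
    exact ⟨(h _ h3).1.1 h1, (h _ h3).2.1 h2, h3⟩
  · rw [T1Gcd_iff]
    obtain ⟨h1, h2, h3⟩ := (T1Gcd_iff _ A' B' q).1 (dvd_refl _)
    exact ⟨(h _ h3).1.2 h1, (h _ h3).2.2 h2, h3⟩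

private theorem T1Gcd_unit {e q g x y : ℤ} (he : IsCoprime e q) (hg : g ∣ q) (hx : q ∣ x - e * y) :
    g ∣ x ↔ g ∣ y := by
  have h1 : g ∣ x - e * y := hg.trans hx
  have h2 : IsCoprime g e := (he.of_isCoprime_of_dvd_right hg).symm
  constructor
  · intro h
    have h3 : g ∣ e * y := by
      have h4 := dvd_sub h h1
      rwa [sub_sub_cancel] at h4
    exact h2.dvd_of_dvd_mul_left h3
  · intro h
    have h3 := dvd_add h1 (Dvd.dvd.mul_left h e)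
    rwa [sub_add_cancel] at h3

theorem tT1Gcd : T1GcdStmt := by
  intro a D j q r1 d z hq hr hz ha
  obtain ⟨k1, hk1⟩ := iv_dvd hr hq
  obtain ⟨k2, hk2⟩ := iv_dvd hz hq
  have hc1 : IsCoprime a (q : ℤ) := Int.isCoprime_iff_gcd_eq_one.2 ha
  have hc2 : IsCoprime (iv z q : ℤ) (q : ℤ) := by
    refine ⟨(z : ℤ), -k2, ?_⟩
    linear_combination hk2
  have hc3 : IsCoprime (-a * (iv z q : ℤ)) (q : ℤ) := IsCoprime.mul_left hc1.neg_left hc2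
  apply T1Gcd_ext
  intro g hg
  constructor
  · apply T1Gcd_unit hc3 hg
    refine ⟨-a * (iv z q : ℤ) * D * d * k1, ?_⟩
    push_cast
    linear_combination (-a * (iv z q : ℤ) * D * d) * hk1
  · apply T1Gcd_unit hc2 hg
    refine ⟨0, ?_⟩
    ring

end Pool.Agent.Lib.MI
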