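import Pool.Agent.Lib.MI.SpecT1

/-! MP_00e23e_nt, Lib/MI, module T1Gsa: sums of gcd(Z, r). -/

namespace Pool.Agent.Lib.MI

open Finset Pool.Agent.Lib.EH3 Pool.Agent.Lib.TB Pool.Agent.Results.MP_00e23e_nt

private theorem T1Gsa_nat (Z : ℤ) (hZ : Z ≠ 0) (U : ℕ) :
    ∑ u ∈ Icc 1 U, Int.gcd Z (u : ℤ) ≤ U * Z.natAbs.divisors.card := by
  have hZ' : Z.natAbs ≠ 0 := Int.natAbs_ne_zero.mpr hZ
  have h1 : ∀ u ∈ Icc 1 U, Int.gcd Z (u : ℤ) ≤ ∑ e ∈ Z.natAbs.divisors, if e ∣ u then e else 0 := by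
    intro u _
    have hg : Int.gcd Z (u : ℤ) = Nat.gcd Z.natAbs u := by
      rw [Int.gcd_def, Int.natAbs_natCast]
    rw [hg]
    have hmem : Nat.gcd Z.natAbs u ∈ Z.natAbs.divisors :=
      Nat.mem_divisors.mpr ⟨Nat.gcd_dvd_left _ _, hZ'⟩
    have h2 := Finset.single_le_sum (f := fun e => if e ∣ u then e else 0)
      (fun e _ => Nat.zero_le _) hmem
    have h3 : (if Nat.gcd Z.natAbs u ∣ u then Nat.gcd Z.natAbs u else 0) = Nat.gcd Z.natAbs u :=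
      if_pos (Nat.gcd_dvd_right _ _)
    simpa [h3] using h2
  have h4 : ∀ e ∈ Z.natAbs.divisors, (∑ u ∈ Icc 1 U, if e ∣ u then e else 0) ≤ U := by
    intro e _
    rw [← Finset.sum_filter, Finset.sum_const, smul_eq_mul]
    have h5 : (Icc 1 U).filter (fun u => e ∣ u) = (Ioc 0 U).filter (fun u => e ∣ u) := by
      ext u
      simp only [Finset.mem_filter, Finset.mem_Icc, Finset.mem_Ioc]
      constructor <;> intro h <;> refine ⟨⟨by omega, by omega⟩, h.2⟩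
    rw [h5, Nat.Ioc_filter_dvd_card_eq_div]
    exact Nat.div_mul_le_self U e
  calc ∑ u ∈ Icc 1 U, Int.gcd Z (u : ℤ)
      ≤ ∑ u ∈ Icc 1 U, ∑ e ∈ Z.natAbs.divisors, (if e ∣ u then e else 0) := Finset.sum_le_sum h1
    _ = ∑ e ∈ Z.natAbs.divisors, ∑ u ∈ Icc 1 U, (if e ∣ u then e else 0) := Finset.sum_comm
    _ ≤ ∑ _e ∈ Z.natAbs.divisors, U := Finset.sum_le_sum h4
    _ = U * Z.natAbs.divisors.card := by rw [Finset.sum_const, smul_eq_mul, mul_comm]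

private theorem T1Gsa_real (Z : ℤ) (hZ : Z ≠ 0) (U : ℕ) :
    ∑ u ∈ Icc 1 U, (Int.gcd Z (u : ℤ) : ℝ) ≤ (U : ℝ) * (Z.natAbs.divisors.card : ℝ) := by
  have h := T1Gsa_nat Z hZ U
  have h' : ((∑ u ∈ Icc 1 U, Int.gcd Z (u : ℤ) : ℕ) : ℝ) ≤ ((U * Z.natAbs.divisors.card : ℕ) : ℝ) :=
    Nat.cast_le.mpr h
  rw [Nat.cast_sum, Nat.cast_mul] at h'
  exact h'

theorem tT1Gsa : T1GsaStmt := by
  intro Z hZ
  refine ⟨?_, T1Gsa_real Z hZ⟩
  intro R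
  have h := T1Gsa_real Z hZ (2 * R)
  rw [Nat.cast_mul, Nat.cast_ofNat] at h
  refine le_trans ?_ h
  refine Finset.sum_le_sum_of_subset_of_nonneg ?_ (fun i _ _ => Nat.cast_nonneg _)
  intro r hr
  rw [Finset.mem_Ioc] at hr
  rw [Finset.mem_Icc]
  omega

end Pool.Agent.Lib.MI
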