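import Pool.Agent.Lib.MI.SpecT1

namespace Pool.Agent.Lib.MI

open Finset Pool.Agent.Lib.EH3 Pool.Agent.Lib.TB Pool.Agent.Results.MP_00e23e_nt

private theorem T1Gsb_dvd {D h : ℤ} {x y w : ℕ} (hxy : x.Coprime y) (hw : x ∣ w)
    (h1 : ∀ c : ℤ, c ∣ D → c ∣ (x : ℤ) → c ∣ h * y) : Nat.gcd D.natAbs x ∣ Int.gcd h w := by
  have e1 : Nat.gcd D.natAbs x ∣ x := Nat.gcd_dvd_right _ _
  have e2 : ((Nat.gcd D.natAbs x : ℕ) : ℤ) ∣ D := Int.natCast_dvd.2 (Nat.gcd_dvd_left _ _)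
  have e3 := h1 _ e2 (Int.natCast_dvd_natCast.2 e1)
  have e4 : Nat.gcd D.natAbs x ∣ (h * y).natAbs := Int.natCast_dvd.1 e3
  rw [Int.natAbs_mul, Int.natAbs_natCast] at e4
  have e5 : (Nat.gcd D.natAbs x).Coprime y := hxy.coprime_dvd_left e1
  have e6 : Nat.gcd D.natAbs x ∣ h.natAbs := e5.dvd_of_dvd_mul_right e4
  rw [Int.gcd_def, Int.natAbs_natCast]
  exact Nat.dvd_gcd e6 (e1.trans hw)

theorem tT1Gsb : T1GsbStmt := by
  intro h h' w w' hw hw'
  set g0 := Nat.gcd w w' with hg0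
  have hg : 0 < g0 := Nat.gcd_pos_of_pos_left _ hw
  obtain ⟨x, hx⟩ := Nat.gcd_dvd_left w w'
  obtain ⟨y, hy⟩ := Nat.gcd_dvd_right w w'
  rw [← hg0] at hx hy
  have hx' : w / g0 = x := by
    conv_lhs => rw [hx]
    exact Nat.mul_div_cancel_left x hg
  have hy' : w' / g0 = y := by
    conv_lhs => rw [hy]
    exact Nat.mul_div_cancel_left y hg
  have hxy : x.Coprime y := by
    have := Nat.coprime_div_gcd_div_gcd (m := w) (n := w') hg
    rw [← hg0, hx', hy'] at this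
    exact this
  have hlcm : Nat.lcm w w' = g0 * (x * y) := by
    have h1 : g0 * Nat.lcm w w' = w * w' := Nat.gcd_mul_lcm w w'
    have h2 : g0 * Nat.lcm w w' = g0 * (g0 * (x * y)) := by
      rw [h1]
      calc w * w' = (g0 * x) * (g0 * y) := by rw [← hx, ← hy]
        _ = g0 * (g0 * (x * y)) := by ring
    exact Nat.eq_of_mul_eq_mul_left hg h2
  have hD : t1e h h' w w' = h * y - h' * x := by
    simp only [t1e, ← hg0, hx', hy']
  have hxw : x ∣ w := ⟨g0, by rw [mul_comm]; exact hx⟩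
  have hyw : y ∣ w' := ⟨g0, by rw [mul_comm]; exact hy⟩
  have k1 : Nat.gcd (h * y - h' * x : ℤ).natAbs x ∣ Int.gcd h w :=
    T1Gsb_dvd hxy hxw fun c hc1 hc2 => by
      have := dvd_add hc1 (dvd_mul_of_dvd_right hc2 h')
      rw [sub_add_cancel] at this
      exact this
  have k2 : Nat.gcd (h * y - h' * x : ℤ).natAbs y ∣ Int.gcd h' w' :=
    T1Gsb_dvd hxy.symm hyw fun c hc1 hc2 => by
      have := dvd_sub (dvd_mul_of_dvd_right hc2 h) hc1
      rw [sub_sub_cancel] at this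
      exact this
  have k3 : Nat.gcd (h * y - h' * x : ℤ).natAbs g0 ∣ g0 := Nat.gcd_dvd_right _ _
  rw [hD, hlcm, Int.gcd_def, Int.natAbs_natCast]
  have k4 : Nat.gcd (h * y - h' * x : ℤ).natAbs (g0 * (x * y)) ∣
      g0 * (Int.gcd h w * Int.gcd h' w') :=
    (Nat.gcd_mul_right_dvd_mul_gcd _ _ _).trans (mul_dvd_mul k3
      ((Nat.gcd_mul_right_dvd_mul_gcd _ _ _).trans (mul_dvd_mul k1 k2)))
  have p1 : 0 < Int.gcd h w := Int.gcd_pos_of_ne_zero_right _ (by omega)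
  have p2 : 0 < Int.gcd h' w' := Int.gcd_pos_of_ne_zero_right _ (by omega)
  rw [mul_assoc]
  exact Nat.le_of_dvd (Nat.mul_pos hg (Nat.mul_pos p1 p2)) k4

end Pool.Agent.Lib.MI
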