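import Pool.Agent.Lib.MI.SpecT1

/-! Module T1Gsj (theorem tT1Gsj): the sum of gcd(Z, j)/j. -/

namespace Pool.Agent.Lib.MI

open Finset Pool.Agent.Lib.EH3 Pool.Agent.Lib.TB Pool.Agent.Results.MP_00e23e_nt

private lemma T1Gsj_inner (e J : ℕ) (he : 1 ≤ e) :
    ∑ j ∈ (Icc 1 J).filter (fun j => e ∣ j), (e : ℝ) / (j : ℝ) ≤ 1 + Real.log J := by
  have hinj : Set.InjOn (fun j : ℕ => j / e) ((Icc 1 J).filter (fun j => e ∣ j) : Finset ℕ) := by
    intro x hx y hy hxy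
    rw [mem_coe, mem_filter, mem_Icc] at hx hy
    obtain ⟨_, a, rfl⟩ := hx
    obtain ⟨_, b, rfl⟩ := hy
    have hxy' : e * a / e = e * b / e := hxy
    rw [Nat.mul_div_cancel_left _ (by omega), Nat.mul_div_cancel_left _ (by omega)] at hxy'
    rw [hxy']
  have h1 : ∑ j ∈ (Icc 1 J).filter (fun j => e ∣ j), (e : ℝ) / (j : ℝ) =
      ∑ i ∈ ((Icc 1 J).filter (fun j => e ∣ j)).image (fun j : ℕ => j / e), ((i : ℝ))⁻¹ := by
    rw [sum_image hinj]
    refine sum_congr rfl fun j hj => ?_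
    simp only [mem_filter, mem_Icc] at hj
    obtain ⟨⟨h1, _⟩, a, rfl⟩ := hj
    rw [Nat.mul_div_cancel_left _ (by omega)]
    have he0 : (e : ℝ) ≠ 0 := by
      have : (0 : ℝ) < e := by exact_mod_cast (by omega : 0 < e)
      exact this.ne'
    push_cast
    rw [div_mul_eq_div_div, div_self he0, one_div]
  have h2 : ∑ i ∈ ((Icc 1 J).filter (fun j => e ∣ j)).image (fun j : ℕ => j / e), ((i : ℝ))⁻¹ ≤
      ∑ i ∈ Icc 1 J, ((i : ℝ))⁻¹ := by
    refine sum_le_sum_of_subset_of_nonneg ?_ fun i _ _ => by positivity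
    intro i hi
    simp only [mem_image, mem_filter, mem_Icc] at hi
    obtain ⟨j, ⟨⟨h1, h2⟩, a, rfl⟩, rfl⟩ := hi
    rw [Nat.mul_div_cancel_left _ (by omega), mem_Icc]
    constructor
    · rcases Nat.eq_zero_or_pos a with h | h
      · subst h; simp at h1
      · exact h
    · calc a ≤ e * a := Nat.le_mul_of_pos_left a (by omega)
        _ ≤ J := h2
  have h3 : ∑ i ∈ Icc 1 J, ((i : ℝ))⁻¹ ≤ 1 + Real.log J := by
    have h := harmonic_le_one_add_log J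
    rw [harmonic_eq_sum_Icc] at h
    push_cast at h
    exact h
  rw [h1]
  exact h2.trans h3

theorem tT1Gsj : T1GsjStmt := by
  intro Z J hZ
  have hterm : ∀ j ∈ Icc 1 J, (Int.gcd Z (j : ℤ) : ℝ) / (j : ℝ) ≤
      ∑ e ∈ Z.natAbs.divisors, if e ∣ j then (e : ℝ) / (j : ℝ) else 0 := by
    intro j hj
    have hmem : Int.gcd Z (j : ℤ) ∈ Z.natAbs.divisors := by
      rw [Nat.mem_divisors]
      exact ⟨Int.gcd_dvd_natAbs_left Z j, Int.natAbs_ne_zero.2 hZ⟩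
    have hd : Int.gcd Z (j : ℤ) ∣ j := by
      have := Int.gcd_dvd_natAbs_right Z (j : ℤ)
      simpa using this
    have h := single_le_sum (f := fun e : ℕ => if e ∣ j then (e : ℝ) / (j : ℝ) else 0)
      (fun e _ => by split_ifs <;> positivity) hmem
    have h' : (if Int.gcd Z (j : ℤ) ∣ j then ((Int.gcd Z (j : ℤ) : ℕ) : ℝ) / (j : ℝ) else 0) =
        (Int.gcd Z (j : ℤ) : ℝ) / (j : ℝ) := if_pos hd
    rw [← h']
    exact h
  calc ∑ j ∈ Icc 1 J, (Int.gcd Z (j : ℤ) : ℝ) / (j : ℝ)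
      ≤ ∑ j ∈ Icc 1 J, ∑ e ∈ Z.natAbs.divisors, (if e ∣ j then (e : ℝ) / (j : ℝ) else 0) :=
        sum_le_sum hterm
    _ = ∑ e ∈ Z.natAbs.divisors, ∑ j ∈ Icc 1 J, (if e ∣ j then (e : ℝ) / (j : ℝ) else 0) :=
        sum_comm
    _ ≤ ∑ _e ∈ Z.natAbs.divisors, (1 + Real.log J) := by
        refine sum_le_sum fun e he => ?_
        rw [← sum_filter]
        exact T1Gsj_inner e J (Nat.pos_of_mem_divisors he)
    _ = (Z.natAbs.divisors.card : ℝ) * (1 + Real.log J) := by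
        rw [sum_const, nsmul_eq_mul]

end Pool.Agent.Lib.MI
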