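import Pool.Agent.Lib.MI.SpecT1

/-!
MP_00e23e_nt, Lib/MI, module T1Vdc: van der Corput inequality with a periodic factor (helper28).
-/

namespace Pool.Agent.Lib.MI

open Finset Pool.Agent.Lib.EH3 Pool.Agent.Lib.TB Pool.Agent.Results.MP_00e23e_nt

private noncomputable def T1Vdc_G (N : ℕ) (g : ℕ → ℂ) (n : ℕ) : ℂ :=
  if n ∈ Ioc N (2 * N) then g n else 0

private noncomputable def T1Vdc_D (N q : ℕ) (g : ℕ → ℂ) (d : ℕ) : ℂ :=
  ∑ n ∈ Ioc N (2 * N - d * q), g n * (starRingEnd ℂ) (g (n + d * q))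

private theorem T1Vdc_per {q : ℕ} {φ : ℕ → ℂ} (h : ∀ n, φ (n + q) = φ n) (n l : ℕ) :
    φ (n + l * q) = φ n := by
  induction l with
  | zero => rw [zero_mul, add_zero]
  | succ l ih => rw [add_mul, one_mul, ← add_assoc, h, ih]

private theorem T1Vdc_shift (N L q : ℕ) (φ g : ℕ → ℂ) (hq : L * q ≤ N)
    (hφ : ∀ n, φ (n + q) = φ n) (l : ℕ) (hl : l < L) :
    ∑ m ∈ Ioc (N - (L - 1) * q) (2 * N), φ m * T1Vdc_G N g (m + l * q) =
      ∑ n ∈ Ioc N (2 * N), φ n * g n := by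
  have hlq : l * q ≤ (L - 1) * q := Nat.mul_le_mul_right q (by omega)
  have hlq' : (L - 1) * q ≤ L * q := Nat.mul_le_mul_right q (by omega)
  have e : ∀ m, φ m * T1Vdc_G N g (m + l * q) =
      if m + l * q ∈ Ioc N (2 * N) then φ (m + l * q) * g (m + l * q) else 0 := by
    intro m
    rw [T1Vdc_G, T1Vdc_per hφ]
    split_ifs
    · rfl
    · rw [mul_zero]
  rw [Finset.sum_congr rfl fun m _ => e m, ← Finset.sum_filter]
  refine Finset.sum_bij (fun m _ => m + l * q) ?_ ?_ ?_ ?_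
  · intro m hm
    exact (Finset.mem_filter.1 hm).2
  · intro a _ b _ hab
    exact Nat.add_right_cancel hab
  · intro n hn
    have hn' := Finset.mem_Ioc.1 hn
    refine ⟨n - l * q, ?_, ?_⟩
    · rw [Finset.mem_filter, Finset.mem_Ioc]
      have e2 : n - l * q + l * q = n := by omega
      rw [e2]
      exact ⟨⟨by omega, by omega⟩, hn⟩
    · show n - l * q + l * q = n
      omega
  · intro m _
    rfl

private theorem T1Vdc_corr (N L q : ℕ) (g : ℕ → ℂ) (hq : L * q ≤ N) (l d : ℕ)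
    (hl : l + d < L) :
    ∑ m ∈ range (2 * N + 1), T1Vdc_G N g (m + l * q) *
      (starRingEnd ℂ) (T1Vdc_G N g (m + (l + d) * q)) = T1Vdc_D N q g d := by
  have hlq : (l + d) * q ≤ L * q := Nat.mul_le_mul_right q (by omega)
  have hexp : (l + d) * q = l * q + d * q := add_mul l d q
  have e : ∀ m, T1Vdc_G N g (m + l * q) * (starRingEnd ℂ) (T1Vdc_G N g (m + (l + d) * q)) =
      if m + l * q ∈ Ioc N (2 * N - d * q) then
        g (m + l * q) * (starRingEnd ℂ) (g (m + l * q + d * q)) else 0 := by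
    intro m
    have e1 : m + (l + d) * q = m + l * q + d * q := by rw [hexp, add_assoc]
    rw [e1, T1Vdc_G, T1Vdc_G]
    by_cases h1 : m + l * q ∈ Ioc N (2 * N - d * q)
    · have h1' := Finset.mem_Ioc.1 h1
      have h2 : m + l * q ∈ Ioc N (2 * N) := Finset.mem_Ioc.2 ⟨h1'.1, by omega⟩
      have h3 : m + l * q + d * q ∈ Ioc N (2 * N) := Finset.mem_Ioc.2 ⟨by omega, by omega⟩
      rw [if_pos h1, if_pos h2, if_pos h3]
    · rw [if_neg h1]
      by_cases h2 : m + l * q ∈ Ioc N (2 * N)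
      · have h2' := Finset.mem_Ioc.1 h2
        have h3 : m + l * q + d * q ∉ Ioc N (2 * N) := by
          intro h3
          have h3' := Finset.mem_Ioc.1 h3
          exact h1 (Finset.mem_Ioc.2 ⟨h2'.1, by omega⟩)
        rw [if_neg h3, map_zero, mul_zero]
      · rw [if_neg h2, zero_mul]
  rw [Finset.sum_congr rfl fun m _ => e m, ← Finset.sum_filter, T1Vdc_D]
  refine Finset.sum_bij (fun m _ => m + l * q) ?_ ?_ ?_ ?_
  · intro m hm
    exact (Finset.mem_filter.1 hm).2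
  · intro a _ b _ hab
    exact Nat.add_right_cancel hab
  · intro n hn
    have hn' := Finset.mem_Ioc.1 hn
    refine ⟨n - l * q, ?_, ?_⟩
    · rw [Finset.mem_filter, Finset.mem_range]
      have e2 : n - l * q + l * q = n := by omega
      rw [e2]
      exact ⟨by omega, hn⟩
    · show n - l * q + l * q = n
      omega
  · intro m _
    rfl

private theorem T1Vdc_norm (N L q : ℕ) (g : ℕ → ℂ) (hq : L * q ≤ N) (l l' : ℕ) (hl : l < L)
    (hl' : l' < L) :
    ‖∑ m ∈ range (2 * N + 1), T1Vdc_G N g (m + l * q) *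
      (starRingEnd ℂ) (T1Vdc_G N g (m + l' * q))‖ =
      ‖T1Vdc_D N q g (if l ≤ l' then l' - l else l - l')‖ := by
  by_cases h : l ≤ l'
  · rw [if_pos h]
    have := T1Vdc_corr N L q g hq l (l' - l) (by omega)
    rw [Nat.add_sub_cancel' h] at this
    rw [this]
  · rw [if_neg h]
    have := T1Vdc_corr N L q g hq l' (l - l') (by omega)
    rw [Nat.add_sub_cancel' (by omega)] at this
    rw [← this, ← Complex.norm_conj, map_sum]
    refine congrArg _ (Finset.sum_congr rfl fun m _ => ?_)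
    rw [map_mul, Complex.conj_conj, mul_comm]

private theorem T1Vdc_D0 (N q : ℕ) (g : ℕ → ℂ) (hg : ∀ n, ‖g n‖ ≤ 1) :
    ‖T1Vdc_D N q g 0‖ ≤ N := by
  rw [T1Vdc_D]
  refine (norm_sum_le _ _).trans ?_
  refine (Finset.sum_le_card_nsmul _ _ 1 fun n _ => ?_).trans ?_
  · rw [norm_mul, Complex.norm_conj]
    exact mul_le_one₀ (hg _) (norm_nonneg _) (hg _)
  · rw [Nat.card_Ioc, nsmul_eq_mul, mul_one]
    exact_mod_cast (by omega)

private theorem T1Vdc_row (L l : ℕ) (f : ℕ → ℝ) (hf : ∀ d, 0 ≤ f d) (hl : l < L) :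
    ∑ l' ∈ range L, f (if l ≤ l' then l' - l else l - l') ≤ f 0 + 2 * ∑ d ∈ Ico 1 L, f d := by
  have h1 : ∑ l' ∈ range L, f (if l ≤ l' then l' - l else l - l') =
      ∑ l' ∈ range l, f (if l ≤ l' then l' - l else l - l') +
        ∑ l' ∈ Ico l L, f (if l ≤ l' then l' - l else l - l') := by
    rw [Finset.range_eq_Ico, Finset.range_eq_Ico, Finset.sum_Ico_consecutive _ (Nat.zero_le l) hl.le]
  have h2 : ∑ l' ∈ Ico l L, f (if l ≤ l' then l' - l else l - l') ≤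
      f 0 + ∑ d ∈ Ico 1 L, f d := by
    rw [Finset.sum_Ico_eq_sum_range]
    have e : ∀ i, f (if l ≤ l + i then l + i - l else l - (l + i)) = f i := fun i => by
      rw [if_pos (Nat.le_add_right l i), Nat.add_sub_cancel_left]
    rw [Finset.sum_congr rfl fun i _ => e i]
    refine (Finset.sum_le_sum_of_subset_of_nonneg (Finset.range_mono (Nat.sub_le L l))
      fun i _ _ => hf i).trans ?_
    rw [Finset.range_eq_Ico, Finset.sum_eq_sum_Ico_succ_bot (by omega : 0 < L)]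
  have h3 : ∑ l' ∈ range l, f (if l ≤ l' then l' - l else l - l') ≤ ∑ d ∈ Ico 1 L, f d := by
    rw [← Finset.sum_range_reflect]
    have e : ∀ j ∈ range l, f (if l ≤ l - 1 - j then l - 1 - j - l else l - (l - 1 - j)) =
        f (1 + j) := fun j hj => by
      have hj' := Finset.mem_range.1 hj
      rw [if_neg (by omega)]
      congr 1
      omega
    rw [Finset.sum_congr rfl e]
    have e2 : ∑ j ∈ range l, f (1 + j) = ∑ d ∈ Ico 1 (l + 1), f d := by
      rw [Finset.sum_Ico_eq_sum_range, Nat.add_sub_cancel]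
    rw [e2]
    exact Finset.sum_le_sum_of_subset_of_nonneg (Finset.Ico_subset_Ico_right (by omega))
      fun i _ _ => hf i
  rw [h1]
  linarith

theorem tT1Vdc : T1VdcStmt := by
  intro N L q φ g hL hq hφ hφ1 hg1
  obtain ⟨S, hS⟩ : ∃ S, S = ∑ n ∈ Ioc N (2 * N), φ n * g n := ⟨_, rfl⟩
  obtain ⟨H, hH⟩ : ∃ H : ℕ → ℂ, H = fun m => ∑ l ∈ range L, T1Vdc_G N g (m + l * q) := ⟨_, rfl⟩
  obtain ⟨A, hA⟩ : ∃ A : ℝ, A = ∑ d ∈ Ico 1 L, ‖T1Vdc_D N q g d‖ := ⟨_, rfl⟩
  have hA' : A = ∑ d ∈ Ico 1 L,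
      ‖∑ n ∈ Ioc N (2 * N - d * q), g n * (starRingEnd ℂ) (g (n + d * q))‖ := hA
  have hlq' : (L - 1) * q ≤ L * q := Nat.mul_le_mul_right q (by omega)
  -- the shifted sums
  have h1 : (L : ℂ) * S = ∑ m ∈ Ioc (N - (L - 1) * q) (2 * N), φ m * H m := by
    have e1 : ∑ l ∈ range L, S = (L : ℂ) * S := by
      rw [Finset.sum_const, Finset.card_range, nsmul_eq_mul]
    rw [← e1, hH]
    have e2 : ∀ l ∈ range L, S = ∑ m ∈ Ioc (N - (L - 1) * q) (2 * N),
        φ m * T1Vdc_G N g (m + l * q) := fun l hl => by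
      rw [hS, T1Vdc_shift N L q φ g hq hφ l (Finset.mem_range.1 hl)]
    rw [Finset.sum_congr rfl e2, Finset.sum_comm]
    exact Finset.sum_congr rfl fun m _ => (Finset.mul_sum _ _ _).symm
  have h2 : ‖(L : ℂ) * S‖ ^ 2 ≤ 2 * N * ∑ m ∈ range (2 * N + 1), ‖H m‖ ^ 2 := by
    have e1 : ‖(L : ℂ) * S‖ ≤ ∑ m ∈ Ioc (N - (L - 1) * q) (2 * N), ‖H m‖ := by
      rw [h1]
      refine (norm_sum_le _ _).trans (Finset.sum_le_sum fun m _ => ?_)
      rw [norm_mul]
      exact mul_le_of_le_one_left (norm_nonneg _) (hφ1 m)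
    have e2 : (∑ m ∈ Ioc (N - (L - 1) * q) (2 * N), ‖H m‖) ^ 2 ≤
        ((Ioc (N - (L - 1) * q) (2 * N)).card : ℝ) *
          ∑ m ∈ Ioc (N - (L - 1) * q) (2 * N), ‖H m‖ ^ 2 := sq_sum_le_card_mul_sum_sq
    have e3 : ((Ioc (N - (L - 1) * q) (2 * N)).card : ℝ) ≤ 2 * N := by
      rw [Nat.card_Ioc]
      have : 2 * N - (N - (L - 1) * q) ≤ 2 * N := Nat.sub_le _ _
      exact_mod_cast this
    have e4 : ∑ m ∈ Ioc (N - (L - 1) * q) (2 * N), ‖H m‖ ^ 2 ≤
        ∑ m ∈ range (2 * N + 1), ‖H m‖ ^ 2 := by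
      refine Finset.sum_le_sum_of_subset_of_nonneg ?_ fun i _ _ => sq_nonneg _
      intro m hm
      have := Finset.mem_Ioc.1 hm
      exact Finset.mem_range.2 (by omega)
    refine (pow_le_pow_left₀ (norm_nonneg _) e1 2).trans (e2.trans ?_)
    exact mul_le_mul e3 e4 (Finset.sum_nonneg fun i _ => sq_nonneg _) (by positivity)
  -- the correlations
  have h3 : ((∑ m ∈ range (2 * N + 1), ‖H m‖ ^ 2 : ℝ) : ℂ) =
      ∑ l ∈ range L, ∑ l' ∈ range L, ∑ m ∈ range (2 * N + 1), T1Vdc_G N g (m + l * q) *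
        (starRingEnd ℂ) (T1Vdc_G N g (m + l' * q)) := by
    have e1 : ∀ m, ((‖H m‖ ^ 2 : ℝ) : ℂ) = ∑ l ∈ range L, ∑ l' ∈ range L,
        T1Vdc_G N g (m + l * q) * (starRingEnd ℂ) (T1Vdc_G N g (m + l' * q)) := by
      intro m
      rw [Complex.ofReal_pow, ← Complex.mul_conj', hH]
      simp only [map_sum]
      rw [Finset.sum_mul_sum]
    rw [Complex.ofReal_sum, Finset.sum_congr rfl fun m _ => e1 m, Finset.sum_comm]
    exact Finset.sum_congr rfl fun l _ => Finset.sum_comm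
  have h4 : ∑ m ∈ range (2 * N + 1), ‖H m‖ ^ 2 ≤ L * (N + 2 * A) := by
    have e0 : 0 ≤ ∑ m ∈ range (2 * N + 1), ‖H m‖ ^ 2 := Finset.sum_nonneg fun i _ => sq_nonneg _
    have e1 : ∑ m ∈ range (2 * N + 1), ‖H m‖ ^ 2 =
        ‖((∑ m ∈ range (2 * N + 1), ‖H m‖ ^ 2 : ℝ) : ℂ)‖ := by
      rw [Complex.norm_real, Real.norm_of_nonneg e0]
    rw [e1, h3]
    refine (norm_sum_le _ _).trans ?_
    refine (Finset.sum_le_card_nsmul _ _ (N + 2 * A) fun l hl => ?_).trans ?_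
    · refine (norm_sum_le _ _).trans ?_
      rw [Finset.sum_congr rfl fun l' hl' => T1Vdc_norm N L q g hq l l'
        (Finset.mem_range.1 hl) (Finset.mem_range.1 hl')]
      refine (T1Vdc_row L l (fun d => ‖T1Vdc_D N q g d‖) (fun d => norm_nonneg _)
        (Finset.mem_range.1 hl)).trans ?_
      rw [hA]
      have := T1Vdc_D0 N q g hg1
      linarith
    · rw [Finset.card_range, nsmul_eq_mul]
  rw [← hA', ← hS]
  have hL0 : (0 : ℝ) < L := by exact_mod_cast hL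
  have h5 : (L : ℝ) ^ 2 * ‖S‖ ^ 2 ≤ 2 * N * (L * (N + 2 * A)) := by
    have e1 : ‖(L : ℂ) * S‖ ^ 2 = (L : ℝ) ^ 2 * ‖S‖ ^ 2 := by
      rw [norm_mul, Complex.norm_natCast, mul_pow]
    rw [← e1]
    exact h2.trans (mul_le_mul_of_nonneg_left h4 (by positivity))
  have h6 : 2 * (N : ℝ) / L * (N + 2 * A) = (2 * N * (L * (N + 2 * A))) / (L : ℝ) ^ 2 := by
    field_simp
  rw [h6, le_div_iff₀ (by positivity)]
  linarith

end Pool.Agent.Lib.MI
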