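import Pool.Agent.Lib.MI.WAll
import Pool.Agent.Lib.MI.T1Vdc
import Pool.Agent.Lib.MI.T1Cmp
import Pool.Agent.Lib.MI.T1Fac
import Pool.Agent.Lib.MI.T1Pha
import Pool.Agent.Lib.MI.T1Phb
import Pool.Agent.Lib.MI.T1Phs
import Pool.Agent.Lib.MI.T1Fht
import Pool.Agent.Lib.MI.T1Gcd
import Pool.Agent.Lib.MI.T1Gsj
import Pool.Agent.Lib.MI.T1Gsa
import Pool.Agent.Lib.MI.T1Gsb
import Pool.Agent.Lib.MI.T1Gav
import Pool.Agent.Lib.MI.T1Num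
import Pool.Agent.Lib.MI.T1Bnd
import Pool.Agent.Lib.MI.T1Avc
import Pool.Agent.Lib.MI.T1Avi
import Pool.Agent.Lib.MI.T1Dia
import Pool.Agent.Lib.MI.T1Cau
import Pool.Agent.Lib.MI.T1Fin

/-! MP_00e23e_nt, directory Lib/MI: chapter T1 without hypotheses. -/

namespace Pool.Agent.Lib.MI

private theorem AllT1_phs : T1PhsStmt := tT1Phs tT1Fac (tT1Pha tT1Fac) (tT1Phb tT1Fac)

private theorem AllT1_bnd : T1BndStmt := tT1Bnd tSsb tT1Cmp tT1Fac tT1Fht tT1Gcd tT1Gsj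

private theorem AllT1_avc : T1AvcStmt := tT1Avc AllT1_bnd (tT1Gav tT1Gsa tT1Gsb) tT1Num

/-- Chapter T1, unconditional. -/
theorem tT1All : T1Stmt :=
  tT1Fin tT1Cau (tT1Dia tT1Gsa) (tT1Avi tT1Vdc tT1Fac AllT1_phs tT1Num AllT1_avc)

end Pool.Agent.Lib.MI
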