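import Pool.Agent.Lib.MI.Defs

/-!
MP_00e23e_nt, directory Lib/MI: basic lemmas about en, iv, dl.
-/

namespace Pool.Agent.Lib.MI

open Finset Pool.Agent.Lib.EH3 Pool.Agent.Lib.TB Pool.Agent.Results.MP_00e23e_nt

lemma norm_en (A : ℤ) (q : ℕ) : ‖en A q‖ = 1 := norm_ee _

lemma en_zero (q : ℕ) : en 0 q = 1 := by
  unfold en
  simp [ee_zero]

/-- en A q depends only on A modulo q -/
lemma en_congr {A B : ℤ} {q : ℕ} (h : (q : ℤ) ∣ A - B) : en A q = en B q := ee_congr h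

lemma en_add (A B : ℤ) (q : ℕ) : en (A + B) q = en A q * en B q := by
  unfold en
  rw [← ee_add]
  congr 1
  push_cast
  ring

lemma conj_en (A : ℤ) (q : ℕ) : (starRingEnd ℂ) (en A q) = en (-A) q := by
  unfold en
  rw [conj_ee]
  congr 1
  push_cast
  ring

lemma en_mul_self (A : ℤ) (q : ℕ) : en A q * en (-A) q = 1 := by
  rw [← en_add]
  simp [en_zero]

/-- cancelling a common factor -/
lemma en_mul_left (k : ℕ) (A : ℤ) (q : ℕ) (hk : 1 ≤ k) : en (k * A) (k * q) = en A q := by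
  unfold en
  congr 1
  have hk' : (k : ℝ) ≠ 0 := by positivity
  push_cast
  rw [mul_div_mul_left _ _ hk']

/-- en of a multiple of q is 1 -/
lemma en_of_dvd {A : ℤ} {q : ℕ} (h : (q : ℤ) ∣ A) : en A q = 1 := by
  rw [← en_zero q]
  exact en_congr (by simpa using h)

lemma iv_add_eq {q1 q2 : ℕ} (h : q1.Coprime q2) (h1 : 1 ≤ q1) (h2 : 1 ≤ q2) :
    ((q1 * q2 : ℕ) : ℤ) ∣ (iv q2 q1 : ℤ) * q2 + (iv q1 q2 : ℤ) * q1 - 1 := by
  have a1 : (q1 : ℤ) ∣ (iv q2 q1 : ℤ) * q2 - 1 := iv_dvd h.symm h1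
  have a2 : (q2 : ℤ) ∣ (iv q1 q2 : ℤ) * q1 - 1 := iv_dvd h h2
  have c : IsCoprime (q1 : ℤ) (q2 : ℤ) := Nat.isCoprime_iff_coprime.2 h
  push_cast
  apply c.mul_dvd
  · have : (iv q2 q1 : ℤ) * q2 + (iv q1 q2 : ℤ) * q1 - 1 = ((iv q2 q1 : ℤ) * q2 - 1) + (q1 : ℤ) * (iv q1 q2 : ℤ) := by ring
    rw [this]
    exact dvd_add a1 (dvd_mul_right _ _)
  · have : (iv q2 q1 : ℤ) * q2 + (iv q1 q2 : ℤ) * q1 - 1 = ((iv q1 q2 : ℤ) * q1 - 1) + (q2 : ℤ) * (iv q2 q1 : ℤ) := by ring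
    rw [this]
    exact dvd_add a2 (dvd_mul_right _ _)

/-- Chinese remainder theorem for the phases -/
lemma en_crt {q1 q2 : ℕ} (h : q1.Coprime q2) (h1 : 1 ≤ q1) (h2 : 1 ≤ q2) (A : ℤ) :
    en A (q1 * q2) = en (A * (iv q2 q1 : ℤ)) q1 * en (A * (iv q1 q2 : ℤ)) q2 := by
  have e1 : en (A * (iv q2 q1 : ℤ)) q1 = en (A * (iv q2 q1 : ℤ) * q2) (q1 * q2) := by
    have := en_mul_left q2 (A * (iv q2 q1 : ℤ)) q1 h2
    rw [← this]
    congr 1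
    · ring
    · ring
  have e2 : en (A * (iv q1 q2 : ℤ)) q2 = en (A * (iv q1 q2 : ℤ) * q1) (q1 * q2) := by
    have := en_mul_left q1 (A * (iv q1 q2 : ℤ)) q2 h1
    rw [← this]
    congr 1
    ring
  rw [e1, e2, ← en_add]
  apply en_congr
  have h3 := iv_add_eq h h1 h2
  have h4 : A - (A * (iv q2 q1 : ℤ) * q2 + A * (iv q1 q2 : ℤ) * q1) =
      -(A * ((iv q2 q1 : ℤ) * q2 + (iv q1 q2 : ℤ) * q1 - 1)) := by ring
  rw [h4]
  exact (dvd_mul_of_dvd_right h3 A).neg_right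

/-- inverses of products -/
lemma iv_mul_mul {a b n : ℕ} (ha : a.Coprime n) (hb : b.Coprime n) (hn : 1 ≤ n) :
    (n : ℤ) ∣ (iv (a * b) n : ℤ) - (iv a n : ℤ) * (iv b n : ℤ) := by
  have h1 : (n : ℤ) ∣ (iv a n : ℤ) * (iv b n : ℤ) * ((a * b : ℕ) : ℤ) - 1 := by
    have a1 := iv_dvd ha hn
    have a2 := iv_dvd hb hn
    have : (iv a n : ℤ) * (iv b n : ℤ) * ((a * b : ℕ) : ℤ) - 1 =
        ((iv a n : ℤ) * a - 1) * ((iv b n : ℤ) * b) + ((iv b n : ℤ) * b - 1) := by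
      push_cast
      ring
    rw [this]
    exact dvd_add (dvd_mul_of_dvd_left a1 _) a2
  have h2 := iv_unique (Nat.Coprime.mul_left ha hb) hn h1
  have h3 := (dvd_neg (a := (n : ℤ))).2 h2
  have h4 : -((iv a n : ℤ) * (iv b n : ℤ) - (iv (a * b) n : ℤ)) =
      (iv (a * b) n : ℤ) - (iv a n : ℤ) * (iv b n : ℤ) := by ring
  rwa [h4] at h3

/-- an inverse modulo n is an inverse modulo every divisor d of n -/
lemma iv_dvd_dvd {a d n : ℕ} (ha : a.Coprime n) (hd : d ∣ n) (hn : 1 ≤ n) :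
    (d : ℤ) ∣ (iv a n : ℤ) - (iv a d : ℤ) := by
  have hd1 : 1 ≤ d := Nat.pos_of_dvd_of_pos hd hn
  have h1 : (d : ℤ) ∣ (iv a n : ℤ) * a - 1 := (Int.natCast_dvd_natCast.2 hd).trans (iv_dvd ha hn)
  exact iv_unique (ha.coprime_dvd_right hd) hd1 h1

lemma dl_nonneg_norm (a : ℤ) (q t : ℕ) : ‖dl a q t‖ = if (q : ℤ) ∣ (t : ℤ) - a then 1 else 0 := by
  unfold dl
  split_ifs <;> simp

/-- Tau for smaller X -/
lemma Tau.mono {X X' T : ℝ} (h : Tau X T) (hX : X' ≤ X) (hX' : 1 ≤ X') : Tau X' T :=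
  ⟨h.1, le_trans (by have := Real.log_le_log (by linarith) hX; linarith) h.2.1,
    fun n hn hnX => h.2.2 n hn (hnX.trans hX)⟩

end Pool.Agent.Lib.MI
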