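import Pool.Agent.Lib.MI.SpecB
import Pool.Agent.Lib.MI.Atu
import Pool.Agent.Lib.TB.Tauk

/-! MP_00e23e_nt, Lib/MI, module Bta. -/

namespace Pool.Agent.Lib.MI

theorem tBta : BtaStmt := tAtu Pool.Agent.Lib.TB.tTauk

end Pool.Agent.Lib.MI
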