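import Pool.Agent.Lib.MI.SpecD

/-!
MP_00e23e_nt, directory Lib/MI, module Dco (helper8): the coefficients of the main part are admissible.
-/

namespace Pool.Agent.Lib.MI

open Finset Pool.Agent.Lib.EH3 Pool.Agent.Lib.TB Pool.Agent.Results.MP_00e23e_nt

private lemma Dco_zero (c : ℕ × ℕ → ℂ) (M H r s1 s2 : ℕ) : ga c M H 0 r s1 s2 = 0 := by
  unfold ga
  rw [if_neg]
  rintro ⟨-, h, -⟩
  exact h (dvd_zero _)

private lemma Dco_supp {P : Finset (ℕ × ℕ)} {c : ℕ × ℕ → ℂ} (hc : ∀ w, w ∉ P → c w = 0) (M H : ℕ) (h : ℤ)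
    (r s1 s2 : ℕ) (hg : ga c M H h r s1 s2 ≠ 0) : (r, s1) ∈ P ∧ (r, s2) ∈ P := by
  unfold ga at hg
  split_ifs at hg with h1
  · constructor
    · by_contra hn
      rw [hc _ hn] at hg
      simp at hg
    · by_contra hn
      rw [hc _ hn] at hg
      simp at hg
  · exact absurd rfl hg

private lemma Dco_bound (hG : DggStmt) {R S M H : ℕ} {P : Finset (ℕ × ℕ)} {c : ℕ × ℕ → ℂ} (hR : 1 ≤ R) (hS : 1 ≤ S)
    (hM : 1 ≤ M) (hH : 2 * H < R) (hP : ∀ w ∈ P, R < w.1 ∧ w.1 ≤ 2 * R ∧ S < w.2 ∧ w.2 ≤ 2 * S)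
    (hc1 : ∀ w, ‖c w‖ ≤ 1) (hc : ∀ w, w ∉ P → c w = 0) (h : ℤ) (r s1 s2 : ℕ) :
    ‖ga c M H h r s1 s2‖ ≤ 4 * (M : ℝ) / ((R : ℝ) * (S : ℝ) ^ 2) *
      min 1 ((4 * ((R : ℝ) * (S : ℝ) ^ 2) / ((M : ℝ) * |(h : ℝ)|)) ^ 2) := by
  have hR0 : (0 : ℝ) < R := by exact_mod_cast hR
  have hS0 : (0 : ℝ) < S := by exact_mod_cast hS
  have hM0 : (0 : ℝ) < M := by exact_mod_cast hM
  have hnn : 0 ≤ 4 * (M : ℝ) / ((R : ℝ) * (S : ℝ) ^ 2) *
      min 1 ((4 * ((R : ℝ) * (S : ℝ) ^ 2) / ((M : ℝ) * |(h : ℝ)|)) ^ 2) := by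
    have : 0 ≤ min (1 : ℝ) ((4 * ((R : ℝ) * (S : ℝ) ^ 2) / ((M : ℝ) * |(h : ℝ)|)) ^ 2) :=
      le_min zero_le_one (sq_nonneg _)
    positivity
  by_cases hg : ga c M H h r s1 s2 = 0
  · rw [hg, norm_zero]
    exact hnn
  obtain ⟨m1, m2⟩ := Dco_supp hc M H h r s1 s2 hg
  obtain ⟨r1, r2, s11, s12⟩ := hP _ m1
  obtain ⟨-, -, s21, s22⟩ := hP _ m2
  simp only at r1 r2 s11 s12 s21 s22
  unfold ga at hg ⊢
  split_ifs at hg ⊢ with h1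
  · obtain ⟨ha, hb, hb'⟩ := h1
    have h0 : h ≠ 0 := by
      rintro rfl
      exact hb (dvd_zero _)
    have hh0 : (h : ℝ) ≠ 0 := by exact_mod_cast h0
    have hh2 : (0 : ℝ) < (h : ℝ) ^ 2 := by positivity
    -- sizes of K
    have e1 : (R : ℝ) ≤ r := by exact_mod_cast r1.le
    have e2 : (r : ℝ) ≤ 2 * R := by exact_mod_cast r2
    have e3 : (S : ℝ) ≤ s1 := by exact_mod_cast s11.le
    have e4 : (s1 : ℝ) ≤ 2 * S := by exact_mod_cast s12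
    have e5 : (S : ℝ) ≤ s2 := by exact_mod_cast s21.le
    have e6 : (s2 : ℝ) ≤ 2 * S := by exact_mod_cast s22
    have K1 : (R : ℝ) * (S : ℝ) ^ 2 ≤ ((r * s1 * s2 : ℕ) : ℝ) := by
      push_cast
      calc (R : ℝ) * (S : ℝ) ^ 2 = R * S * S := by ring
        _ ≤ r * s1 * s2 := by gcongr
    have K2 : ((r * s1 * s2 : ℕ) : ℝ) ≤ 8 * ((R : ℝ) * (S : ℝ) ^ 2) := by
      push_cast
      calc (r : ℝ) * s1 * s2 ≤ (2 * R) * (2 * S) * (2 * S) := by gcongr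
        _ = 8 * ((R : ℝ) * (S : ℝ) ^ 2) := by ring
    have RS0 : 0 < (R : ℝ) * (S : ℝ) ^ 2 := by positivity
    have K0 : 0 < ((r * s1 * s2 : ℕ) : ℝ) := lt_of_lt_of_le RS0 K1
    have Kn : 1 ≤ r * s1 * s2 := by
      have : 0 < r * s1 * s2 := by exact_mod_cast K0
      omega
    have hK : 2 * |h| ≤ ((r * s1 * s2 : ℕ) : ℤ) := by
      have q1 : 2 * |h| ≤ (r : ℤ) := by
        have : (2 : ℤ) * H < R := by exact_mod_cast hH
        have : (R : ℤ) < r := by exact_mod_cast r1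
        linarith
      have q2 : r ≤ r * s1 * s2 := by
        rw [mul_assoc]
        exact Nat.le_mul_of_pos_right _ (Nat.mul_pos (by omega) (by omega))
      exact q1.trans (by exact_mod_cast q2)
    obtain ⟨g1, g2⟩ := hG M (r * s1 * s2) h hM Kn
    have g3 := g2 h0 hK
    set G : ℝ := ‖Ten M (fun m => en (h * m) (r * s1 * s2))‖ with hGd
    set K : ℝ := ((r * s1 * s2 : ℕ) : ℝ) with hKd
    have n1 : ‖c (r, s1) * (starRingEnd ℂ) (c (r, s2)) *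
        ((1 / ((r * s1 * s2 : ℕ) : ℂ)) * Ten M (fun m => en (h * m) (r * s1 * s2)))‖ ≤ (1 / K) * G := by
      rw [norm_mul, norm_mul, norm_mul, norm_div, norm_one, Complex.norm_natCast, RCLike.norm_conj]
      have : ‖c (r, s1)‖ * ‖c (r, s2)‖ ≤ 1 := mul_le_one₀ (hc1 _) (norm_nonneg _) (hc1 _)
      exact mul_le_of_le_one_left (by positivity) this
    refine n1.trans ?_
    rcases min_choice (1 : ℝ) ((4 * ((R : ℝ) * (S : ℝ) ^ 2) / ((M : ℝ) * |(h : ℝ)|)) ^ 2) with hm | hm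
    · rw [hm, mul_one, div_mul_eq_mul_div, one_mul]
      rw [div_le_div_iff₀ K0 RS0]
      exact mul_le_mul g1 K1 RS0.le (by positivity)
    · have hm2 : (4 * ((R : ℝ) * (S : ℝ) ^ 2) / ((M : ℝ) * |(h : ℝ)|)) ^ 2 =
          4 ^ 2 * ((R : ℝ) * (S : ℝ) ^ 2) ^ 2 / ((M : ℝ) ^ 2 * (h : ℝ) ^ 2) := by
        rw [div_pow, mul_pow, mul_pow _ |(h : ℝ)|, sq_abs]
      rw [hm, hm2]
      have a1 : (1 / K) * G ≤ K / ((M : ℝ) * (h : ℝ) ^ 2) := by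
        rw [div_mul_eq_mul_div, one_mul, div_le_div_iff₀ K0 (by positivity)]
        calc G * ((M : ℝ) * (h : ℝ) ^ 2) ≤ (K ^ 2 / ((M : ℝ) * (h : ℝ) ^ 2)) * ((M : ℝ) * (h : ℝ) ^ 2) := by
              gcongr
          _ = K * K := by field_simp
      have a2 : K / ((M : ℝ) * (h : ℝ) ^ 2) ≤ 64 * ((R : ℝ) * (S : ℝ) ^ 2) / ((M : ℝ) * (h : ℝ) ^ 2) := by
        gcongr
        linarith
      have a3 : 64 * ((R : ℝ) * (S : ℝ) ^ 2) / ((M : ℝ) * (h : ℝ) ^ 2) =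
          4 * (M : ℝ) / ((R : ℝ) * (S : ℝ) ^ 2) *
            (4 ^ 2 * ((R : ℝ) * (S : ℝ) ^ 2) ^ 2 / ((M : ℝ) ^ 2 * (h : ℝ) ^ 2)) := by
        field_simp
        ring
      linarith
  · rw [norm_zero]
    exact hnn

theorem tDco (h1 : DggStmt) : DcoStmt := by
  intro R S M H P c hR hS hM hH hP hc1 hc
  refine ⟨⟨fun r s1 s2 => Dco_zero c M H r s1 s2, fun h r s1 s2 hg => Dco_supp hc M H h r s1 s2 hg,
    fun h r s1 s2 => Dco_bound h1 hR hS hM hH hP hc1 hc h r s1 s2⟩,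
    ⟨fun r s1 s2 => Dco_zero c M H r s2 s1, fun h r s1 s2 hg => (Dco_supp hc M H h r s2 s1 hg).symm,
    fun h r s1 s2 => Dco_bound h1 hR hS hM hH hP hc1 hc h r s2 s1⟩⟩

end Pool.Agent.Lib.MI

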