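import Pool.Agent.Lib.TB.SpecK
import Pool.Agent.Lib.KF.Defs

/-!
MP_00e23e_nt, directory Lib/MI (architect helper34; THEOREM MI, note 4560): definitions. Maximum over x^η residue
classes inside the sum, level x^α = x^(1/2+δ), moduli q = t (q/t) with t ≤ x^τ and the primes of q/t in (x^κ0, x^κ];
86 δ + 60 κ < 1 and 8 δ + 6 κ + τ < 1/3 (version 3: h inside the first Cauchy inequality of T1, Weil's bound for the sums SS).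
-/

namespace Pool.Agent.Lib.MI

open Finset Pool.Agent.Lib.EH3 Pool.Agent.Lib.TB Pool.Agent.Results.MP_00e23e_nt

/-- T ≥ 1 bounds the logarithm and the divisor function up to X -/
def Tau (X T : ℝ) : Prop :=
  1 ≤ T ∧ 1 + Real.log X ≤ T ∧ ∀ n : ℕ, 1 ≤ n → (n : ℝ) ≤ X → (n.divisors.card : ℝ) ≤ T

/-- e(A/q) for an integer A -/
noncomputable def en (A : ℤ) (q : ℕ) : ℂ := ee ((A : ℝ) / (q : ℝ))

/-- indicator of t ≡ a mod q -/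
noncomputable def dl (a : ℤ) (q t : ℕ) : ℂ := if (q : ℤ) ∣ (t : ℤ) - a then 1 else 0

/-- 1(t ≡ a mod r s) - (1/s) 1(t ≡ a mod r) -/
noncomputable def Dl (a : ℤ) (r s t : ℕ) : ℂ := dl a (r * s) t - (1 / (s : ℂ)) * dl a r t

/-- 1(n ≡ a mod q) - (1/φ(q/t)) 1(n ≡ a mod t, (n, q/t) = 1); used for t ∣ q -/
noncomputable def Ek (a : ℤ) (t q n : ℕ) : ℂ :=
  dl a q n - (if n.Coprime (q / t) then (1 / ((q / t).totient : ℂ)) * dl a t n else 0)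

/-- the moduli: q = t (q/t) squarefree, q ≤ x^α, t ≤ x^τ, the primes of q/t in (x^κ0, x^κ] -/
def Md (α τ κ κ0 x : ℝ) (t q : ℕ) : Prop :=
  Squarefree q ∧ t ∣ q ∧ (q : ℝ) ≤ x ^ α ∧ (t : ℝ) ≤ x ^ τ ∧
    ∀ p : ℕ, p.Prime → p ∣ q / t → x ^ κ0 < p ∧ (p : ℝ) ≤ x ^ κ

/-- a is a reduced class modulo q equal to the fraction b/c -/
def Fr (a b : ℤ) (c q : ℕ) : Prop := Int.gcd a q = 1 ∧ (q : ℤ) ∣ (c : ℤ) * a - b

/-- the good tuples of the dispersion -/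
def Gd (a : ℤ) (r s1 s2 n1 n2 : ℕ) : Prop :=
  Squarefree (r * s1) ∧ Squarefree (r * s2) ∧ s1.Coprime s2 ∧ n1.Coprime (r * s1) ∧ n2.Coprime (r * s2) ∧
    Int.gcd a ((r * s1 : ℕ) : ℤ) = 1 ∧ Int.gcd a ((r * s2 : ℕ) : ℤ) = 1

/-- e(-h ν/(r s1 s2)) with ν ≡ a/n1 mod r s1, ν ≡ a/n2 mod s2 (n1 ≡ n2 mod r) -/
noncomputable def fz (a h : ℤ) (r s1 s2 n1 n2 : ℕ) : ℂ :=
  en (-(h * a * (iv (n1 * s2) (r * s1) : ℤ))) (r * s1) * en (-(h * a * (iv (n2 * (r * s1)) s2 : ℤ))) s2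

open Classical in
/-- the sums of the dispersion for fixed h and n2 = n1 + k r -/
noncomputable def TT (a h : ℤ) (k R S N : ℕ) (γ : ℕ → ℕ → ℕ → ℂ) (ω : ℕ → ℕ → ℂ) : ℂ :=
  ∑ r ∈ Ioc R (2 * R), ∑ s1 ∈ Ioc S (2 * S), ∑ s2 ∈ Ioc S (2 * S), γ r s1 s2 *
    ∑ n ∈ Ioc N (2 * N), if Gd a r s1 s2 n (n + k * r) then ω r n * fz a h r s1 s2 n (n + k * r) else 0

/-- admissible coefficients of the main part: no h = 0, supported on the pairs of P, decay in h -/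
def Cf (P : Finset (ℕ × ℕ)) (R S M : ℕ) (γ : ℤ → ℕ → ℕ → ℕ → ℂ) : Prop :=
  (∀ r s1 s2, γ 0 r s1 s2 = 0) ∧ (∀ h r s1 s2, γ h r s1 s2 ≠ 0 → (r, s1) ∈ P ∧ (r, s2) ∈ P) ∧
    ∀ h r s1 s2, ‖γ h r s1 s2‖ ≤ 4 * (M : ℝ) / ((R : ℝ) * (S : ℝ) ^ 2) *
      min 1 ((4 * ((R : ℝ) * (S : ℝ) ^ 2) / ((M : ℝ) * |(h : ℝ)|)) ^ 2)

/-- the pairs (r, s) of the dispersion -/
def Pr (a b : ℤ) (c R S : ℕ) (z : ℝ) (P : Finset (ℕ × ℕ)) : Prop :=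
  ∀ w ∈ P, R < w.1 ∧ w.1 ≤ 2 * R ∧ S < w.2 ∧ w.2 ≤ 2 * S ∧ Squarefree (w.1 * w.2) ∧ Fr a b c (w.1 * w.2) ∧
    ∀ p : ℕ, p.Prime → p ∣ w.2 → z < p

/-- the tent weight: F summed over m = i + j + M/2 -/
noncomputable def Ten (M : ℕ) (F : ℕ → ℂ) : ℂ :=
  (4 / (M : ℂ)) * ∑ i ∈ range M, ∑ j ∈ range M, F (i + j + M / 2)

/-- the sums of part T1: S(c, b; q, t) = ∑ e((c (1/n - 1/(n+t)) + b n)/q) -/
noncomputable def SS (c b : ℤ) (q t : ℕ) : ℂ :=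
  ∑ n ∈ (range q).filter (fun n => n.Coprime q ∧ (n + t).Coprime q),
    en (c * ((iv n q : ℤ) - (iv (n + t) q : ℤ)) + b * n) q

end Pool.Agent.Lib.MI
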