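import Pool.Agent.Lib.MI.SpecD
import Pool.Agent.Lib.EH3.LS2

/-!
MP_00e23e_nt, chapter D, module Dfo: the Fourier identity (inclusion-exclusion).
-/

namespace Pool.Agent.Lib.MI

open Finset Pool.Agent.Lib.EH3 Pool.Agent.Lib.TB Pool.Agent.Results.MP_00e23e_nt

private lemma Dfo_all (q : ℕ) (hq : 1 ≤ q) (z : ℤ) :
    ∑ h ∈ range q, en ((h : ℤ) * z) q = if (q : ℤ) ∣ z then (q : ℂ) else 0 := by
  rw [← orth (by omega : 0 < q) z]
  apply Finset.sum_congr rfl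
  intro h _
  unfold en
  congr 1
  push_cast
  ring

private lemma Dfo_div (e q : ℕ) (he : 1 ≤ e) (hq : 1 ≤ q) (z : ℤ) :
    ∑ h ∈ (range (e * q)).filter (fun h => e ∣ h), en ((h : ℤ) * z) (e * q) =
      if (q : ℤ) ∣ z then (q : ℂ) else 0 := by
  rw [← Dfo_all q hq z]
  symm
  refine Finset.sum_bij (fun h _ => e * h) ?_ ?_ ?_ ?_
  · intro h hh
    rw [Finset.mem_filter, Finset.mem_range]
    rw [Finset.mem_range] at hh
    exact ⟨Nat.mul_lt_mul_of_pos_left hh (by omega), dvd_mul_right e h⟩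
  · intro h1 _ h2 _ h12
    exact Nat.eq_of_mul_eq_mul_left (by omega) h12
  · intro h hh
    rw [Finset.mem_filter, Finset.mem_range] at hh
    obtain ⟨hlt, k, hk⟩ := hh
    refine ⟨k, ?_, hk.symm⟩
    rw [Finset.mem_range]
    rw [hk] at hlt
    exact Nat.lt_of_mul_lt_mul_left hlt
  · intro h _
    have h1 := en_mul_left e ((h : ℤ) * z) q he
    rw [← h1]
    congr 1
    push_cast
    ring

private lemma Dfo_ie (K s1 s2 : ℕ) (hc : s1.Coprime s2) (f : ℕ → ℂ) :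
    ∑ h ∈ (range K).filter (fun h => ¬ s1 ∣ h ∧ ¬ s2 ∣ h), f h =
      ∑ h ∈ range K, f h - ∑ h ∈ (range K).filter (fun h => s1 ∣ h), f h -
        ∑ h ∈ (range K).filter (fun h => s2 ∣ h), f h +
        ∑ h ∈ (range K).filter (fun h => s1 * s2 ∣ h), f h := by
  rw [Finset.sum_filter, Finset.sum_filter, Finset.sum_filter, Finset.sum_filter,
    ← Finset.sum_sub_distrib, ← Finset.sum_sub_distrib, ← Finset.sum_add_distrib]
  apply Finset.sum_congr rfl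
  intro h _
  have h12 : s1 * s2 ∣ h ↔ s1 ∣ h ∧ s2 ∣ h := by
    constructor
    · intro hd
      exact ⟨(dvd_mul_right s1 s2).trans hd, (dvd_mul_left s2 s1).trans hd⟩
    · rintro ⟨ha, hb⟩
      exact hc.mul_dvd_of_dvd_of_dvd ha hb
  by_cases ha : s1 ∣ h
  · by_cases hb : s2 ∣ h
    · simp [h12, ha, hb]
    · simp [h12, ha, hb]
  · by_cases hb : s2 ∣ h
    · simp [h12, ha, hb]
    · simp [h12, ha, hb]

theorem tDfo : DfoStmt := by
  intro r s1 s2 z hr hs1 hs2 hc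
  have hK0 : ((r * s1 * s2 : ℕ) : ℂ) ≠ 0 := by
    have : 0 < r * s1 * s2 := by positivity
    exact_mod_cast this.ne'
  have hr0 : (r : ℂ) ≠ 0 := by exact_mod_cast (by omega : r ≠ 0)
  have hs10 : (s1 : ℂ) ≠ 0 := by exact_mod_cast (by omega : s1 ≠ 0)
  have hs20 : (s2 : ℂ) ≠ 0 := by exact_mod_cast (by omega : s2 ≠ 0)
  have hrs1 : 1 ≤ r * s1 := Nat.mul_pos (by omega) (by omega)
  have hrs2 : 1 ≤ r * s2 := Nat.mul_pos (by omega) (by omega)
  have hs12 : 1 ≤ s1 * s2 := Nat.mul_pos (by omega) (by omega)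
  have hKp : 1 ≤ r * s1 * s2 := Nat.mul_pos (by omega) (by omega)
  rw [Dfo_ie (r * s1 * s2) s1 s2 hc (fun h => en ((h : ℤ) * z) (r * s1 * s2))]
  have e0 := Dfo_all (r * s1 * s2) hKp z
  have e1 := Dfo_div s1 (r * s2) hs1 hrs2 z
  have e2 := Dfo_div s2 (r * s1) hs2 hrs1 z
  have e3 := Dfo_div (s1 * s2) r hs12 hr z
  rw [show s1 * (r * s2) = r * s1 * s2 by ring] at e1
  rw [show s2 * (r * s1) = r * s1 * s2 by ring] at e2
  rw [show s1 * s2 * r = r * s1 * s2 by ring] at e3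
  rw [e0, e1, e2, e3]
  have c1 : (1 / ((r * s1 * s2 : ℕ) : ℂ)) * (if ((r * s1 * s2 : ℕ) : ℤ) ∣ z then ((r * s1 * s2 : ℕ) : ℂ) else 0) =
      (if ((r * s1 * s2 : ℕ) : ℤ) ∣ z then 1 else 0) := by
    split_ifs
    · field_simp
    · simp
  have c2 : (1 / ((r * s1 * s2 : ℕ) : ℂ)) * (if ((r * s2 : ℕ) : ℤ) ∣ z then ((r * s2 : ℕ) : ℂ) else 0) =
      (1 / (s1 : ℂ)) * (if ((r * s2 : ℕ) : ℤ) ∣ z then 1 else 0) := by
    split_ifs
    · push_cast
      field_simp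
    · simp
  have c3 : (1 / ((r * s1 * s2 : ℕ) : ℂ)) * (if ((r * s1 : ℕ) : ℤ) ∣ z then ((r * s1 : ℕ) : ℂ) else 0) =
      (1 / (s2 : ℂ)) * (if ((r * s1 : ℕ) : ℤ) ∣ z then 1 else 0) := by
    split_ifs
    · push_cast
      field_simp
    · simp
  have c4 : (1 / ((r * s1 * s2 : ℕ) : ℂ)) * (if (r : ℤ) ∣ z then (r : ℂ) else 0) =
      (1 / ((s1 : ℂ) * (s2 : ℂ))) * (if (r : ℤ) ∣ z then 1 else 0) := by
    split_ifs
    · push_cast
      field_simp
    · simp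
  rw [mul_add, mul_sub, mul_sub, c1, c2, c3, c4]
  ring

end Pool.Agent.Lib.MI
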