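import Pool.Agent.Lib.MI.Stm
import Pool.Agent.Lib.BV.Spl

/-!
MP_00e23e_nt, directory Lib/MI, chapter L (large sieve), module LId: the kernel Ek as a sum over
the characters whose conductor does not divide t.
-/

namespace Pool.Agent.Lib.MI

open Finset Pool.Agent.Lib.EH3 Pool.Agent.Lib.BV

/-- the numbers congruent to a, by a natural representative -/
lemma LId_dvd (a : ℤ) (d n : ℕ) (hd : 1 ≤ d) :
    (d : ℤ) ∣ (n : ℤ) - a ↔ n ≡ (a % (d : ℤ)).toNat [MOD d] := by
  have h0 : (0 : ℤ) ≤ a % (d : ℤ) := Int.emod_nonneg _ (by positivity)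
  have h1 : (((a % (d : ℤ)).toNat : ℕ) : ℤ) = a % (d : ℤ) := Int.toNat_of_nonneg h0
  rw [← Int.natCast_modEq_iff, h1]
  constructor
  · intro h
    have h2 : a ≡ (n : ℤ) [ZMOD d] := (Int.modEq_iff_dvd).2 h
    exact (h2.symm.trans (Int.mod_modEq a d).symm)
  · intro h
    have h2 : a ≡ (n : ℤ) [ZMOD d] := (Int.mod_modEq a d).symm.trans h.symm
    exact (Int.modEq_iff_dvd).1 h2

lemma LId_cop (a : ℤ) (d : ℕ) (hd : 1 ≤ d) (h : Int.gcd a (d : ℤ) = 1) :
    ((a % (d : ℤ)).toNat).Coprime d := by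
  have h0 : (0 : ℤ) ≤ a % (d : ℤ) := Int.emod_nonneg _ (by positivity)
  have h1 : (((a % (d : ℤ)).toNat : ℕ) : ℤ) = a % (d : ℤ) := Int.toNat_of_nonneg h0
  rw [← Nat.isCoprime_iff_coprime, h1]
  have h2 : IsCoprime a (d : ℤ) := Int.isCoprime_iff_gcd_eq_one.2 h
  have h3 : a % (d : ℤ) = a + (d : ℤ) * (-(a / (d : ℤ))) := by
    have := Int.emod_add_mul_ediv a (d : ℤ)
    linarith
  rw [h3]
  exact IsCoprime.add_mul_left_left h2 _

/-- the character sum of a lifted character -/
lemma LId_cs (f : ℕ → ℂ) (N t u : ℕ) (ψ : DirichletCharacter ℂ t) :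
    cs f N 1 (DirichletCharacter.changeLevel (dvd_mul_right t u) ψ) =
      cs (fun n => if n.Coprime u then f n else 0) N 1 ψ := by
  rw [Spl_cs, Spl_cs]
  refine sum_congr rfl fun n _ => ?_
  by_cases h : n.Coprime (t * u)
  · have h2 : n.Coprime u := Nat.Coprime.coprime_mul_left_right h
    rw [if_pos h2]
    have h3 := DirichletCharacter.changeLevel_eq_cast_of_dvd' (χ := ψ) (dvd_mul_right t u)
      (a := (n : ℤ)) (Nat.isCoprime_iff_coprime.2 h)
    rw [Int.cast_natCast, Int.cast_natCast] at h3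
    rw [h3]
  · have h1 : (DirichletCharacter.changeLevel (dvd_mul_right t u) ψ) ((n : ℤ) : ZMod (t * u)) = 0 := by
      rw [DirichletCharacter.apply_eq_zero_iff]
      intro h2
      exact h (Nat.isCoprime_iff_coprime.1 h2)
    rw [Int.cast_natCast] at h1
    rw [h1, mul_zero]
    by_cases h2 : n.Coprime u
    · rw [if_pos h2]
      have h3 : ¬ n.Coprime t := fun h3 => h (Nat.Coprime.mul_right h3 h2)
      have h4 : ψ ((n : ℤ) : ZMod t) = 0 := by
        rw [DirichletCharacter.apply_eq_zero_iff]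
        intro h5
        exact h3 (Nat.isCoprime_iff_coprime.1 h5)
      rw [Int.cast_natCast] at h4
      rw [h4, mul_zero]
    · rw [if_neg h2, zero_mul]

/-- the value at an inverse of a lifted character -/
lemma LId_inv (t u l : ℕ) (ht : 1 ≤ t) (hu : 1 ≤ u) (hl : l.Coprime (t * u))
    (ψ : DirichletCharacter ℂ t) :
    (DirichletCharacter.changeLevel (dvd_mul_right t u) ψ) ((l : ZMod (t * u))⁻¹) =
      ψ ((l : ZMod t)⁻¹) := by
  have hne : NeZero (t * u) := ⟨by positivity⟩
  have hne' : NeZero t := ⟨by omega⟩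
  have h1 : (DirichletCharacter.changeLevel (dvd_mul_right t u) ψ) ((l : ZMod (t * u))) = ψ (l : ZMod t) := by
    have h3 := DirichletCharacter.changeLevel_eq_cast_of_dvd' (χ := ψ) (dvd_mul_right t u)
      (a := (l : ℤ)) (Nat.isCoprime_iff_coprime.2 hl)
    rw [Int.cast_natCast, Int.cast_natCast] at h3
    exact h3
  have hlt : l.Coprime t := Nat.Coprime.coprime_mul_right_right hl
  have e1 : (l : ZMod (t * u)) * (l : ZMod (t * u))⁻¹ = 1 := ZMod.coe_mul_inv_eq_one l hl
  have e2 : (l : ZMod t) * (l : ZMod t)⁻¹ = 1 := ZMod.coe_mul_inv_eq_one l hlt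
  have e3 := congrArg (DirichletCharacter.changeLevel (dvd_mul_right t u) ψ) e1
  have e4 := congrArg ψ e2
  rw [map_mul, map_one, h1] at e3
  rw [map_mul, map_one] at e4
  have h5 : ψ (l : ZMod t) ≠ 0 := by
    intro h6
    rw [h6, zero_mul] at e4
    exact zero_ne_one e4
  exact mul_left_cancel₀ h5 (e3.trans e4.symm)

/-- the sum over the characters whose conductor divides t -/
lemma LId_low (f : ℕ → ℂ) (N t u l : ℕ) (ht : 1 ≤ t) (hu : 1 ≤ u) (hl : l.Coprime (t * u)) :
    (∑ χ ∈ univ.filter (fun χ : DirichletCharacter ℂ (t * u) => χ.conductor ∣ t),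
      χ ((l : ZMod (t * u))⁻¹) * cs f N 1 χ) =
      (t.totient : ℂ) * cls (fun n => if n.Coprime u then f n else 0) N t l := by
  classical
  have hne : NeZero (t * u) := ⟨by positivity⟩
  have hne' : NeZero t := ⟨by omega⟩
  have hlt : l.Coprime t := Nat.Coprime.coprime_mul_right_right hl
  rw [← Spl_all _ N t l ht hlt]
  symm
  refine sum_bij (fun ψ _ => DirichletCharacter.changeLevel (dvd_mul_right t u) ψ) ?_ ?_ ?_ ?_
  · intro ψ _
    rw [mem_filter]
    refine ⟨mem_univ _, ?_⟩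
    rw [← DirichletCharacter.mem_conductorSet_iff_conductor_dvd _ (dvd_mul_right t u)]
    exact DirichletCharacter.changeLevel_factorsThrough ψ (dvd_mul_right t u)
  · intro ψ _ ψ' _ h
    exact DirichletCharacter.changeLevel_injective (dvd_mul_right t u) h
  · intro χ hχ
    rw [mem_filter] at hχ
    rw [← DirichletCharacter.mem_conductorSet_iff_conductor_dvd _ (dvd_mul_right t u)] at hχ
    obtain ⟨_, h1, ψ, h2⟩ := hχ
    exact ⟨ψ, mem_univ _, h2.symm⟩
  · intro ψ _
    rw [LId_cs, LId_inv t u l ht hu hl]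

/-- the kernel Ek as a sum over the characters with conductor not dividing t -/
theorem LId_main (f : ℕ → ℂ) (N t u : ℕ) (a : ℤ) (ht : 1 ≤ t) (hu : 1 ≤ u) (hc : t.Coprime u)
    (ha : Int.gcd a ((t * u : ℕ) : ℤ) = 1) :
    ∑ n ∈ Icc 1 N, f n * Ek a t (t * u) n =
      del (fun c => ¬ c ∣ t) f N (t * u) (a % ((t * u : ℕ) : ℤ)).toNat := by
  classical
  have hd : 1 ≤ t * u := Nat.mul_pos ht hu
  set l := (a % ((t * u : ℕ) : ℤ)).toNat with hl0
  have hl : l.Coprime (t * u) := LId_cop a (t * u) hd ha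
  have hφt : (t.totient : ℂ) ≠ 0 := by
    have h := Nat.totient_pos.2 (show 0 < t by omega)
    exact_mod_cast h.ne'
  have hφu : (u.totient : ℂ) ≠ 0 := by
    have h := Nat.totient_pos.2 (show 0 < u by omega)
    exact_mod_cast h.ne'
  have hφ : ((t * u).totient : ℂ) = (t.totient : ℂ) * (u.totient : ℂ) := by
    rw [Nat.totient_mul hc]
    push_cast
    ring
  have hA := Spl_all f N (t * u) l hd hl
  have hB := LId_low f N t u l ht hu hl
  have hsplit := sum_filter_add_sum_filter_not univ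
    (fun χ : DirichletCharacter ℂ (t * u) => χ.conductor ∣ t)
    (fun χ => χ ((l : ZMod (t * u))⁻¹) * cs f N 1 χ)
  rw [hA, hB] at hsplit
  have hdel : del (fun c => ¬ c ∣ t) f N (t * u) l = cls f N (t * u) l -
      (1 / (u.totient : ℂ)) * cls (fun n => if n.Coprime u then f n else 0) N t l := by
    unfold del
    have h1 : (∑ χ ∈ univ.filter (fun χ : DirichletCharacter ℂ (t * u) => ¬ χ.conductor ∣ t),
        χ ((l : ZMod (t * u))⁻¹) * cs f N 1 χ) = ((t * u).totient : ℂ) * cls f N (t * u) l -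
          (t.totient : ℂ) * cls (fun n => if n.Coprime u then f n else 0) N t l := by
      rw [← hsplit]
      ring
    refine (congrArg (fun z => (1 / ((t * u).totient : ℂ)) * z)
      (Eq.trans (sum_congr ?_ (fun _ _ => rfl)) h1)).trans ?_
    · ext χ
      simp only [mem_filter]
    rw [hφ]
    field_simp
  rw [hdel]
  unfold cls
  rw [sum_filter, sum_filter, mul_sum, ← sum_sub_distrib]
  refine sum_congr rfl fun n _ => ?_
  unfold Ek dl
  have hq : t * u / t = u := Nat.mul_div_cancel_left u (by omega)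
  rw [hq]
  have e1 : ((t * u : ℕ) : ℤ) ∣ (n : ℤ) - a ↔ n ≡ l [MOD (t * u)] := LId_dvd a (t * u) n hd
  have e2 : ((t : ℕ) : ℤ) ∣ (n : ℤ) - a ↔ n ≡ l [MOD t] := by
    have h1 : ((t * u : ℕ) : ℤ) ∣ (l : ℤ) - a := (LId_dvd a (t * u) l hd).2 rfl
    have h2 : (t : ℤ) ∣ (l : ℤ) - a := by
      refine dvd_trans ?_ h1
      push_cast
      exact dvd_mul_right _ _
    rw [← Int.natCast_modEq_iff, Int.modEq_comm, Int.modEq_iff_dvd]
    constructor
    · intro h3
      have : (n : ℤ) - l = ((n : ℤ) - a) - ((l : ℤ) - a) := by ring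
      rw [this]
      exact dvd_sub h3 h2
    · intro h3
      have : (n : ℤ) - a = ((n : ℤ) - l) + ((l : ℤ) - a) := by ring
      rw [this]
      exact dvd_add h3 h2
  by_cases c1 : n ≡ l [MOD (t * u)]
  · have c2 : n ≡ l [MOD t] := Nat.ModEq.of_mul_right u c1
    rw [if_pos (e1.2 c1), if_pos c1, if_pos (e2.2 c2), if_pos c2]
    by_cases c3 : n.Coprime u
    · rw [if_pos c3, if_pos c3]
      ring
    · rw [if_neg c3, if_neg c3]
      ring
  · rw [if_neg (fun h => c1 (e1.1 h)), if_neg c1]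
    by_cases c2 : n ≡ l [MOD t]
    · rw [if_pos (e2.2 c2), if_pos c2]
      by_cases c3 : n.Coprime u
      · rw [if_pos c3, if_pos c3]
        ring
      · rw [if_neg c3, if_neg c3]
        ring
    · rw [if_neg (fun h => c2 (e2.1 h)), if_neg c2]
      split_ifs <;> ring

end Pool.Agent.Lib.MI
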