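import Pool.Agent.Lib.MI.LPr
import Pool.Agent.Lib.BV.SpecB

/-!
MP_00e23e_nt, directory Lib/MI, chapter L (large sieve), module LLr: the convolution and the large sieve; the
statement LrgStmt of the chapter.
-/

namespace Pool.Agent.Lib.MI

open Finset Pool.Agent.Lib.EH3 Pool.Agent.Lib.BV

/-- the convolution of α on (M, 2M] and β on (N, 2N] -/
noncomputable def LLr_f (α β : ℕ → ℂ) (M N n : ℕ) : ℂ :=
  ∑ m ∈ Ioc M (2 * M), ∑ k ∈ Ioc N (2 * N), if m * k = n then α m * β k else 0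

/-- the restriction to (M, 2M] -/
noncomputable def LLr_r (α : ℕ → ℂ) (M n : ℕ) : ℂ := if M < n then α n else 0

private lemma LLr_conv (α β : ℕ → ℂ) (M N : ℕ) (g : ℕ → ℂ) :
    ∑ n ∈ Icc 1 (4 * M * N), LLr_f α β M N n * g n =
      ∑ m ∈ Ioc M (2 * M), ∑ k ∈ Ioc N (2 * N), α m * β k * g (m * k) := by
  unfold LLr_f
  simp only [sum_mul]
  rw [sum_comm]
  refine sum_congr rfl fun m hm => ?_
  rw [sum_comm]
  refine sum_congr rfl fun k hk => ?_
  rw [mem_Ioc] at hm hk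
  have h1 : m * k ∈ Icc 1 (4 * M * N) := by
    rw [mem_Icc]
    refine ⟨Nat.mul_pos (by omega) (by omega), ?_⟩
    calc m * k ≤ (2 * M) * (2 * N) := Nat.mul_le_mul hm.2 hk.2
      _ = 4 * M * N := by ring
  have h2 : ∀ n ∈ Icc 1 (4 * M * N), (if m * k = n then α m * β k else 0) * g n =
      if m * k = n then α m * β k * g (m * k) else 0 := by
    intro n _
    by_cases h : m * k = n
    · rw [if_pos h, if_pos h, h]
    · rw [if_neg h, if_neg h, zero_mul]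
  rw [sum_congr rfl h2, sum_ite_eq, if_pos h1]

private lemma LLr_cs1 (α : ℕ → ℂ) (M e : ℕ) {q : ℕ} (χ : DirichletCharacter ℂ q) :
    cs (LLr_r α M) (2 * M) e χ =
      ∑ m ∈ Ioc M (2 * M), α m * (if m.Coprime e then χ (m : ZMod q) else 0) := by
  unfold cs LLr_r
  rw [sum_filter]
  have hsub : Ioc M (2 * M) ⊆ Icc 1 (2 * M) := by
    intro n hn
    rw [mem_Ioc] at hn
    rw [mem_Icc]
    omega
  rw [← sum_subset hsub]
  · refine sum_congr rfl fun n hn => ?_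
    rw [mem_Ioc] at hn
    rw [if_pos hn.1]
    split_ifs
    · rfl
    · rw [mul_zero]
  · intro n hn hn'
    rw [mem_Icc] at hn
    rw [mem_Ioc] at hn'
    rw [if_neg (show ¬ M < n by omega)]
    split_ifs
    · rw [zero_mul]
    · rfl

private lemma LLr_cs (α β : ℕ → ℂ) (M N e : ℕ) {q : ℕ} (χ : DirichletCharacter ℂ q) :
    cs (LLr_f α β M N) (4 * M * N) e χ =
      cs (LLr_r α M) (2 * M) e χ * cs (LLr_r β N) (2 * N) e χ := by
  rw [LLr_cs1, LLr_cs1, sum_mul_sum]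
  have h1 : cs (LLr_f α β M N) (4 * M * N) e χ =
      ∑ n ∈ Icc 1 (4 * M * N), LLr_f α β M N n * (if n.Coprime e then χ (n : ZMod q) else 0) := by
    unfold cs
    rw [sum_filter]
    refine sum_congr rfl fun n _ => ?_
    split_ifs
    · rfl
    · rw [mul_zero]
  rw [h1, LLr_conv]
  refine sum_congr rfl fun m _ => sum_congr rfl fun k _ => ?_
  by_cases c1 : m.Coprime e
  · by_cases c2 : k.Coprime e
    · rw [if_pos c1, if_pos c2, if_pos (Nat.Coprime.mul_left c1 c2), Nat.cast_mul, map_mul]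
      ring
    · rw [if_neg c2, if_neg (fun h => c2 (Nat.Coprime.coprime_mul_left h))]
      ring
  · rw [if_neg c1, if_neg (fun h => c1 (Nat.Coprime.coprime_mul_right h))]
    ring

private lemma LLr_nrm (α : ℕ → ℂ) (M : ℕ) (h : ∀ m, ‖α m‖ ≤ 1) :
    nrm (LLr_r α M) (2 * M) ≤ Real.sqrt M := by
  unfold nrm LLr_r
  apply Real.sqrt_le_sqrt
  have h1 : ∑ n ∈ Icc 1 (2 * M), ‖(if M < n then α n else 0)‖ ^ 2 ≤
      ∑ n ∈ Icc 1 (2 * M), if M < n then (1 : ℝ) else 0 := by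
    apply sum_le_sum
    intro n _
    by_cases c : M < n
    · rw [if_pos c, if_pos c]
      exact pow_le_one₀ (norm_nonneg _) (h n)
    · rw [if_neg c, if_neg c]
      simp
  refine le_trans h1 ?_
  rw [sum_ite, sum_const_zero, add_zero, sum_const, nsmul_eq_mul, mul_one]
  have h2 : (Icc 1 (2 * M)).filter (fun n => M < n) ⊆ Ioc M (2 * M) := by
    intro n hn
    rw [mem_filter, mem_Icc] at hn
    rw [mem_Ioc]
    omega
  have h3 := card_le_card h2
  rw [Nat.card_Ioc] at h3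
  have h4 : ((Icc 1 (2 * M)).filter (fun n => M < n)).card ≤ M := by omega
  exact_mod_cast h4

/-- Chapter L. -/
theorem tLrg (hI : InjStmt) (hB : BilStmt) (hS : TotStmt) : LrgStmt := by
  classical
  refine ⟨400, by norm_num, 4, ?_⟩
  intro X T Z D M N a W α β hT hZ hM hN hDX hMX hNX hW hα hβ
  have hT1 : 1 ≤ T := hT.1
  have hT0 : 0 ≤ T := le_trans zero_le_one hT1
  have h1 : ∀ w ∈ W, ‖∑ m ∈ Ioc M (2 * M), ∑ n ∈ Ioc N (2 * N),
      α m * β n * Ek (a w) w.1 (w.1 * w.2) (m * n)‖ =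
      ‖∑ n ∈ Icc 1 (4 * M * N), LLr_f α β M N n * Ek (a w) w.1 (w.1 * w.2) n‖ := by
    intro w _
    rw [LLr_conv]
  rw [sum_congr rfl h1]
  refine le_trans (LPr_main hI (LLr_f α β M N) (4 * M * N) D Z X T hT hDX a W hW) ?_
  set K : ℝ := Real.sqrt ((M : ℝ) * N) * (Real.sqrt ((M : ℝ) * N) / Z + Real.sqrt M + Real.sqrt N + D)
    with hK
  have hK0 : 0 ≤ K := by rw [hK]; positivity
  have h2 : ∀ e ∈ Icc 1 D, (1 / (e.totient : ℝ)) * ∑ q ∈ Ioc Z (D / e), (1 / (q.totient : ℝ)) *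
        ∑ χ ∈ prim q, ‖cs (LLr_f α β M N) (4 * M * N) e χ‖ ≤
      (1 / (e.totient : ℝ)) * (400 * T * K) := by
    intro e he
    rw [mem_Icc] at he
    refine mul_le_mul_of_nonneg_left ?_ (by positivity)
    have e1 : ∑ q ∈ Ioc Z (D / e), (1 / (q.totient : ℝ)) *
        ∑ χ ∈ prim q, ‖cs (LLr_f α β M N) (4 * M * N) e χ‖ =
        ∑ q ∈ Ioc Z (D / e), (1 / (q.totient : ℝ)) * ∑ χ ∈ prim q,
          ‖cs (LLr_r α M) (2 * M) e χ‖ * ‖cs (LLr_r β N) (2 * N) e χ‖ := by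
      refine sum_congr rfl fun q _ => ?_
      congr 1
      refine sum_congr rfl fun χ _ => ?_
      rw [LLr_cs, norm_mul]
    rw [e1]
    refine le_trans (hB Z (D / e) (2 * M) (2 * N) e (LLr_r α M) (LLr_r β N) hZ) ?_
    have n1 := LLr_nrm α M hα
    have n2 := LLr_nrm β N hβ
    have n0 : 0 ≤ nrm (LLr_r α M) (2 * M) := Real.sqrt_nonneg _
    have n0' : 0 ≤ nrm (LLr_r β N) (2 * N) := Real.sqrt_nonneg _
    have n3 : nrm (LLr_r α M) (2 * M) * nrm (LLr_r β N) (2 * N) ≤ Real.sqrt ((M : ℝ) * N) := by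
      rw [Real.sqrt_mul (by positivity)]
      exact mul_le_mul n1 n2 n0' (Real.sqrt_nonneg _)
    have hR : ((D / e : ℕ) : ℝ) ≤ D := by
      exact_mod_cast Nat.div_le_self D e
    have hlog : 1 + Real.log ((D / e : ℕ) : ℝ) ≤ T := by
      by_cases c : D / e = 0
      · rw [c, Nat.cast_zero, Real.log_zero, add_zero]
        exact hT1
      · have c1 : (1 : ℝ) ≤ ((D / e : ℕ) : ℝ) := by
          exact_mod_cast Nat.one_le_iff_ne_zero.2 c
        have c2 : Real.log ((D / e : ℕ) : ℝ) ≤ Real.log X :=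
          Real.log_le_log (by linarith) (le_trans hR hDX)
        linarith [hT.2.1]
    have s1 : Real.sqrt (((2 * M : ℕ) : ℝ) * ((2 * N : ℕ) : ℝ)) = 2 * Real.sqrt ((M : ℝ) * N) := by
      have : ((2 * M : ℕ) : ℝ) * ((2 * N : ℕ) : ℝ) = 2 ^ 2 * ((M : ℝ) * N) := by
        push_cast
        ring
      rw [this, Real.sqrt_mul (by positivity), Real.sqrt_sq (by norm_num)]
    have s2 : ∀ m : ℕ, Real.sqrt ((2 * m : ℕ) : ℝ) ≤ 2 * Real.sqrt m := by
      intro m
      have : (2 : ℝ) * Real.sqrt m = Real.sqrt (2 ^ 2 * m) := by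
        rw [Real.sqrt_mul (by positivity), Real.sqrt_sq (by norm_num)]
      rw [this]
      apply Real.sqrt_le_sqrt
      push_cast
      have hm : (0 : ℝ) ≤ m := Nat.cast_nonneg m
      linarith
    have hZ0 : (0 : ℝ) < Z := by exact_mod_cast hZ
    have b1 : Real.sqrt (((2 * M : ℕ) : ℝ) * ((2 * N : ℕ) : ℝ)) / Z +
        (Real.sqrt ((2 * M : ℕ) : ℝ) + Real.sqrt ((2 * N : ℕ) : ℝ)) *
          (1 + Real.log ((D / e : ℕ) : ℝ)) + ((D / e : ℕ) : ℝ) ≤
        2 * T * (Real.sqrt ((M : ℝ) * N) / Z + Real.sqrt M + Real.sqrt N + D) := by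
      rw [s1]
      have t1 : 2 * Real.sqrt ((M : ℝ) * N) / Z ≤ 2 * T * (Real.sqrt ((M : ℝ) * N) / Z) := by
        have : 0 ≤ Real.sqrt ((M : ℝ) * N) / Z := by positivity
        rw [mul_div_assoc]
        nlinarith
      have t2 : (Real.sqrt ((2 * M : ℕ) : ℝ) + Real.sqrt ((2 * N : ℕ) : ℝ)) *
          (1 + Real.log ((D / e : ℕ) : ℝ)) ≤ (2 * Real.sqrt M + 2 * Real.sqrt N) * T := by
        refine le_trans (mul_le_mul_of_nonneg_left hlog (by positivity)) ?_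
        exact mul_le_mul_of_nonneg_right (add_le_add (s2 M) (s2 N)) hT0
      have t3 : ((D / e : ℕ) : ℝ) ≤ 2 * T * D := by
        have : (0 : ℝ) ≤ D := Nat.cast_nonneg D
        nlinarith
      linarith
    have b0 : 0 ≤ Real.sqrt (((2 * M : ℕ) : ℝ) * ((2 * N : ℕ) : ℝ)) / Z +
        (Real.sqrt ((2 * M : ℕ) : ℝ) + Real.sqrt ((2 * N : ℕ) : ℝ)) *
          (1 + Real.log ((D / e : ℕ) : ℝ)) + ((D / e : ℕ) : ℝ) := by
      have : 0 ≤ 1 + Real.log ((D / e : ℕ) : ℝ) := by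
        have := Real.log_natCast_nonneg (D / e)
        linarith
      positivity
    calc 200 * (nrm (LLr_r α M) (2 * M) * nrm (LLr_r β N) (2 * N)) *
        (Real.sqrt (((2 * M : ℕ) : ℝ) * ((2 * N : ℕ) : ℝ)) / Z +
        (Real.sqrt ((2 * M : ℕ) : ℝ) + Real.sqrt ((2 * N : ℕ) : ℝ)) *
          (1 + Real.log ((D / e : ℕ) : ℝ)) + ((D / e : ℕ) : ℝ))
        ≤ 200 * Real.sqrt ((M : ℝ) * N) *
          (2 * T * (Real.sqrt ((M : ℝ) * N) / Z + Real.sqrt M + Real.sqrt N + D)) :=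
          mul_le_mul (mul_le_mul_of_nonneg_left n3 (by norm_num)) b1 b0 (by positivity)
      _ = 400 * T * K := by rw [hK]; ring
  have h3 : ∑ e ∈ Icc 1 D, 1 / (e.totient : ℝ) ≤ T ^ 2 := by
    by_cases c : D = 0
    · rw [c]
      simp only [zero_lt_one, Icc_eq_empty_of_lt, sum_empty]
      positivity
    · have c1 : 1 ≤ D := Nat.one_le_iff_ne_zero.2 c
      refine le_trans (hS.1 D c1) ?_
      have c2 : (1 : ℝ) ≤ D := by exact_mod_cast c1
      have c3 : Real.log D ≤ Real.log X := Real.log_le_log (by linarith) hDX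
      have c4 : 0 ≤ Real.log D := Real.log_nonneg c2
      exact pow_le_pow_left₀ (by linarith) (by linarith [hT.2.1]) 2
  calc T * ∑ e ∈ Icc 1 D, (1 / (e.totient : ℝ)) * ∑ q ∈ Ioc Z (D / e), (1 / (q.totient : ℝ)) *
        ∑ χ ∈ prim q, ‖cs (LLr_f α β M N) (4 * M * N) e χ‖
      ≤ T * ∑ e ∈ Icc 1 D, (1 / (e.totient : ℝ)) * (400 * T * K) :=
        mul_le_mul_of_nonneg_left (sum_le_sum h2) hT0
    _ = T * ((∑ e ∈ Icc 1 D, 1 / (e.totient : ℝ)) * (400 * T * K)) := by rw [sum_mul]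
    _ ≤ T * (T ^ 2 * (400 * T * K)) := by
        refine mul_le_mul_of_nonneg_left (mul_le_mul_of_nonneg_right h3 (by positivity)) hT0
    _ = 400 * T ^ 4 * K := by ring

end Pool.Agent.Lib.MI
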