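import Pool.Agent.Lib.MI.LId
import Pool.Agent.Lib.BV.Inj

/-!
MP_00e23e_nt, directory Lib/MI, chapter L (large sieve), module LPr: reduction to primitive
characters, sum over the cofactor and the conductor.
-/

namespace Pool.Agent.Lib.MI

open Finset Pool.Agent.Lib.EH3 Pool.Agent.Lib.BV

/-- a character mod q vanishes outside the n coprime to q -/
private theorem LPr_cs (f : ℕ → ℂ) (N q e : ℕ) (χ : DirichletCharacter ℂ q) :
    cs f N (q * e) χ = cs f N e χ := by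
  unfold cs
  rw [Finset.sum_filter, Finset.sum_filter]
  apply Finset.sum_congr rfl
  intro n _
  by_cases h : n.Coprime e
  · rw [if_pos h]
    by_cases h' : n.Coprime q
    · rw [if_pos (Nat.Coprime.mul_right h' h)]
    · rw [if_neg (fun h2 => h' (Nat.Coprime.coprime_mul_right_right h2))]
      have h1 : χ ((n : ℤ) : ZMod q) = 0 := by
        rw [χ.apply_eq_zero_iff]
        intro h2
        exact h' (Nat.isCoprime_iff_coprime.mp h2)
      rw [Int.cast_natCast] at h1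
      rw [h1, mul_zero]
  · rw [if_neg h, if_neg (fun h2 => h (Nat.Coprime.coprime_mul_left_right h2))]

/-- the term of the pair (e, q) -/
private noncomputable def LPr_G (f : ℕ → ℂ) (N e q : ℕ) : ℝ :=
  (1 / (e.totient : ℝ)) * ((1 / (q.totient : ℝ)) * ∑ χ ∈ prim q, ‖cs f N e χ‖)

private theorem LPr_term (f : ℕ → ℂ) (N d q : ℕ) (hd : 1 ≤ d) (hq : q ∣ d) :
    (1 / (d.totient : ℝ)) * ∑ χ ∈ prim q, ‖cs f N d χ‖ ≤ LPr_G f N (d / q) q := by
  obtain ⟨e, rfl⟩ := hq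
  have hq0 : 0 < q := Nat.pos_of_ne_zero (by rintro rfl; simp at hd)
  have he0 : 0 < e := Nat.pos_of_ne_zero (by rintro rfl; simp at hd)
  rw [Nat.mul_div_cancel_left e hq0]
  unfold LPr_G
  have h1 : ∑ χ ∈ prim q, ‖cs f N (q * e) χ‖ = ∑ χ ∈ prim q, ‖cs f N e χ‖ :=
    Finset.sum_congr rfl (fun χ _ => by rw [LPr_cs])
  rw [h1, ← mul_assoc]
  apply mul_le_mul_of_nonneg_right _ (Finset.sum_nonneg (fun χ _ => norm_nonneg _))
  have h2 : ((q.totient * e.totient : ℕ) : ℝ) ≤ ((q * e).totient : ℝ) := by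
    exact_mod_cast Nat.totient_super_multiplicative q e
  have h3 : (0 : ℝ) < (q.totient : ℝ) := by exact_mod_cast Nat.totient_pos.mpr hq0
  have h4 : (0 : ℝ) < (e.totient : ℝ) := by exact_mod_cast Nat.totient_pos.mpr he0
  have h6 : 1 / (e.totient : ℝ) * (1 / (q.totient : ℝ)) =
      1 / ((q.totient : ℝ) * (e.totient : ℝ)) := one_div_mul_one_div_rev _ _
  rw [h6]
  have h5 : (q.totient : ℝ) * (e.totient : ℝ) ≤ ((q * e).totient : ℝ) := by
    rw [← Nat.cast_mul]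
    exact h2
  exact one_div_le_one_div_of_le (mul_pos h3 h4) h5

/-- sum over the moduli by cofactor and conductor -/
theorem LPr_sum (f : ℕ → ℂ) (N D Q : ℕ) :
    ∑ d ∈ Icc 1 D, (1 / (d.totient : ℝ)) *
        ∑ q ∈ d.divisors.filter (fun c => Q < c), ∑ χ ∈ prim q, ‖cs f N d χ‖ ≤
      ∑ e ∈ Icc 1 D, (1 / (e.totient : ℝ)) * ∑ q ∈ Ioc Q (D / e), (1 / (q.totient : ℝ)) *
        ∑ χ ∈ prim q, ‖cs f N e χ‖ := by
  classical
  have h1 : ∀ d ∈ Icc 1 D, (1 / (d.totient : ℝ)) *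
        ∑ q ∈ d.divisors.filter (fun c => Q < c), ∑ χ ∈ prim q, ‖cs f N d χ‖ ≤
      ∑ q ∈ d.divisors.filter (fun c => Q < c), LPr_G f N (d / q) q := by
    intro d hd
    have hd1 : 1 ≤ d := (Finset.mem_Icc.mp hd).1
    rw [Finset.mul_sum]
    apply Finset.sum_le_sum
    intro q hq
    exact LPr_term f N d q hd1 (Nat.dvd_of_mem_divisors (Finset.mem_filter.mp hq).1)
  refine le_trans (Finset.sum_le_sum h1) (le_of_eq ?_)
  have h4 : ∑ e ∈ Icc 1 D, (1 / (e.totient : ℝ)) * ∑ q ∈ Ioc Q (D / e), (1 / (q.totient : ℝ)) *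
        ∑ χ ∈ prim q, ‖cs f N e χ‖ = ∑ e ∈ Icc 1 D, ∑ q ∈ Ioc Q (D / e), LPr_G f N e q := by
    apply Finset.sum_congr rfl
    intro e _
    rw [Finset.mul_sum]
    rfl
  rw [h4, Finset.sum_sigma', Finset.sum_sigma']
  apply Finset.sum_nbij' (i := fun p => (⟨p.1 / p.2, p.2⟩ : Σ _ : ℕ, ℕ))
    (j := fun p => (⟨p.1 * p.2, p.2⟩ : Σ _ : ℕ, ℕ))
  · rintro ⟨d, q⟩ hp
    simp only [Finset.mem_sigma, Finset.mem_Icc, Finset.mem_filter, Nat.mem_divisors,
      Finset.mem_Ioc] at hp ⊢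
    obtain ⟨⟨hd1, hd2⟩, ⟨hqd, hd0⟩, hQ⟩ := hp
    have hq0 : 0 < q := by omega
    have hqle : q ≤ d := Nat.le_of_dvd hd1 hqd
    have he : 0 < d / q := Nat.div_pos hqle hq0
    refine ⟨⟨he, le_trans (Nat.div_le_self d q) hd2⟩, hQ, ?_⟩
    rw [Nat.le_div_iff_mul_le he, Nat.mul_div_cancel' hqd]
    exact hd2
  · rintro ⟨e, q⟩ hp
    simp only [Finset.mem_sigma, Finset.mem_Icc, Finset.mem_filter, Nat.mem_divisors,
      Finset.mem_Ioc] at hp ⊢
    obtain ⟨⟨he1, he2⟩, hQ, hq2⟩ := hp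
    have hq0 : 0 < q := by omega
    rw [Nat.le_div_iff_mul_le he1] at hq2
    have hpos : 0 < e * q := Nat.mul_pos he1 hq0
    refine ⟨⟨hpos, ?_⟩, ⟨dvd_mul_left q e, by omega⟩, hQ⟩
    rw [mul_comm]
    exact hq2
  · rintro ⟨d, q⟩ hp
    simp only [Finset.mem_sigma, Finset.mem_Icc, Finset.mem_filter, Nat.mem_divisors] at hp
    simp only [Nat.div_mul_cancel hp.2.1.1]
  · rintro ⟨e, q⟩ hp
    simp only [Finset.mem_sigma, Finset.mem_Icc, Finset.mem_Ioc] at hp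
    have hq0 : 0 < q := by omega
    simp only [Nat.mul_div_cancel e hq0]
  · rintro ⟨d, q⟩ _
    rfl

/-- a divisor of t u which does not divide t has a prime factor dividing u -/
private theorem LPr_big (Z t u q : ℕ) (ht : 1 ≤ t) (hu : 1 ≤ u)
    (hp : ∀ p : ℕ, p.Prime → p ∣ u → Z < p) (hq : q ∣ t * u) (hqt : ¬ q ∣ t) : Z < q := by
  have hq0 : 0 < q := Nat.pos_of_dvd_of_pos hq (Nat.mul_pos ht hu)
  have h1 : ¬ q.Coprime u := fun h => hqt (h.dvd_of_dvd_mul_right hq)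
  obtain ⟨p, hpp, hpq, hpu⟩ := Nat.Prime.not_coprime_iff_dvd.1 h1
  exact lt_of_lt_of_le (hp p hpp hpu) (Nat.le_of_dvd hq0 hpq)

/-- chapter L after the reduction to primitive characters -/
theorem LPr_main (h : InjStmt) (f : ℕ → ℂ) (N D Z : ℕ) (X T : ℝ) (hT : Tau X T) (hDX : (D : ℝ) ≤ X)
    (a : ℕ × ℕ → ℤ) (W : Finset (ℕ × ℕ))
    (hW : ∀ w ∈ W, 1 ≤ w.1 ∧ 1 ≤ w.2 ∧ Squarefree (w.1 * w.2) ∧ w.1 * w.2 ≤ D ∧
      Int.gcd (a w) ((w.1 * w.2 : ℕ) : ℤ) = 1 ∧ ∀ p : ℕ, p.Prime → p ∣ w.2 → Z < p) :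
    ∑ w ∈ W, ‖∑ n ∈ Icc 1 N, f n * Ek (a w) w.1 (w.1 * w.2) n‖ ≤
      T * ∑ e ∈ Icc 1 D, (1 / (e.totient : ℝ)) * ∑ q ∈ Ioc Z (D / e), (1 / (q.totient : ℝ)) *
        ∑ χ ∈ prim q, ‖cs f N e χ‖ := by
  classical
  set G : ℕ → ℝ := fun d => (1 / (d.totient : ℝ)) *
        ∑ q ∈ d.divisors.filter (fun c => Z < c), ∑ χ ∈ prim q, ‖cs f N d χ‖ with hG
  have hG0 : ∀ d, 0 ≤ G d := by
    intro d
    rw [hG]
    positivity
  have h1 : ∀ w ∈ W, ‖∑ n ∈ Icc 1 N, f n * Ek (a w) w.1 (w.1 * w.2) n‖ ≤ G (w.1 * w.2) := by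
    intro w hw
    obtain ⟨ht, hu, hsq, hD, ha, hp⟩ := hW w hw
    have hd : 1 ≤ w.1 * w.2 := Nat.mul_pos ht hu
    have hc : w.1.Coprime w.2 := (Nat.squarefree_mul_iff.1 hsq).1
    rw [LId_main f N w.1 w.2 (a w) ht hu hc ha]
    refine le_trans (h (fun c => ¬ c ∣ w.1) f N (w.1 * w.2) _ hd) ?_
    rw [hG]
    refine mul_le_mul_of_nonneg_left ?_ (by positivity)
    refine sum_le_sum_of_subset_of_nonneg ?_ (fun q _ _ => sum_nonneg (fun χ _ => norm_nonneg _))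
    intro q hq
    simp only [mem_filter] at hq ⊢
    exact ⟨hq.1, LPr_big Z w.1 w.2 q ht hu hp (Nat.dvd_of_mem_divisors hq.1) hq.2⟩
  refine le_trans (sum_le_sum h1) ?_
  have h2 : ∑ w ∈ W, G (w.1 * w.2) ≤ ∑ d ∈ Icc 1 D, T * G d := by
    have hmap : ∀ w ∈ W, w.1 * w.2 ∈ Icc 1 D := by
      intro w hw
      obtain ⟨ht, hu, -, hD, -, -⟩ := hW w hw
      exact mem_Icc.2 ⟨Nat.mul_pos ht hu, hD⟩
    rw [← sum_fiberwise_of_maps_to hmap]
    apply sum_le_sum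
    intro d hd
    rw [mem_Icc] at hd
    have h3 : ∑ w ∈ W.filter (fun w => w.1 * w.2 = d), G (w.1 * w.2) =
        ((W.filter (fun w => w.1 * w.2 = d)).card : ℝ) * G d := by
      rw [sum_congr rfl (fun w hw => by rw [(mem_filter.1 hw).2]), sum_const, nsmul_eq_mul]
    rw [h3]
    refine mul_le_mul_of_nonneg_right ?_ (hG0 d)
    have h4 : (W.filter (fun w => w.1 * w.2 = d)).card ≤ d.divisors.card := by
      refine card_le_card_of_injOn (fun w => w.1) ?_ ?_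
      · intro w hw
        have hw' := (mem_filter.1 hw).2
        exact Nat.mem_divisors.2 ⟨⟨w.2, hw'.symm⟩, by omega⟩
      · intro w hw w' hw' hww
        have e1 := (mem_filter.1 hw).2
        have e2 := (mem_filter.1 hw').2
        have e3 : w.1 = w'.1 := hww
        have e4 : 0 < w.1 := Nat.pos_of_ne_zero (by
          intro h5
          rw [h5, zero_mul] at e1
          omega)
        have e5 : w.1 * w.2 = w.1 * w'.2 := by rw [e1, ← e2, e3]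
        exact Prod.ext e3 (Nat.eq_of_mul_eq_mul_left e4 e5)
    refine le_trans (by exact_mod_cast h4) (hT.2.2 d hd.1 ?_)
    exact le_trans (by exact_mod_cast hd.2) hDX
  refine le_trans h2 ?_
  rw [← mul_sum]
  exact mul_le_mul_of_nonneg_left (LPr_sum f N D Z) (le_trans zero_le_one hT.1)

end Pool.Agent.Lib.MI
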