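import Pool.Agent.Lib.MI.Stm
import Pool.Agent.Lib.MI.Basic
import Pool.Agent.Lib.CO.SpecV

/-!
MP_00e23e_nt, directory Lib/MI, chapter A (helper6): from the bilinear theorem BlStmt to the theorem for the von Mangoldt
function, AAllStmt (Lib/MI/Stm.lean): Vaughan's identity with U = V = ⌊x^(1/3)⌋, type I sums, cells of ratio e^(1/K).

RULES. Module X: file Pool/Agent/Lib/MI/X.lean, first line `import Pool.Agent.Lib.MI.SpecA`, then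
`namespace Pool.Agent.Lib.MI` and `open Finset Pool.Agent.Lib.EH3 Pool.Agent.Lib.TB Pool.Agent.Results.MP_00e23e_nt`,
private lemmas with names starting with X_, final theorem `theorem tX (h1 : AStmt) ... : XStmt`; the statements listed
under Uses are hypotheses of your theorem, in this order. The docstring contains a complete proof. Lemmas about dl, Ek,
Tau (Tau.mono): Lib/MI/Basic.lean. Vaughan's coefficients vg, vh, vl: Lib/CO/SpecV.lean (write CO.vg etc., the namespace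
is Pool.Agent.Lib.CO). The constants are generous: any proof of the statement is welcome. Every module below 60 s.
-/

namespace Pool.Agent.Lib.MI

open Finset Pool.Agent.Lib.EH3 Pool.Agent.Lib.TB Pool.Agent.Results.MP_00e23e_nt

/-- the part of α on the cell {m : i ≤ K log m < i + 1} -/
noncomputable def cl (K i : ℕ) (α : ℕ → ℂ) (m : ℕ) : ℂ :=
  if (i : ℝ) ≤ K * Real.log m ∧ (K : ℝ) * Real.log m < i + 1 then α m else 0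

/-- Module Atu (theorem tAtu; the divisor bound in the form Tau). Uses: TaukStmt (TB/SpecK.lean; theorem tTauk).
Proof. TaukStmt with ε = e/A: C1 ≥ 1 and τ(n) ≤ C1 n^(e/A) ≤ C1 x^e for 1 ≤ n ≤ x^A. 1 + log(x^A) = 1 + A log x ≤
1 + (A/e) x^e ≤ (1 + A/e) x^e (log x ≤ x^e/e, Real.log_le_rpow_div; x^e ≥ 1). C = C1 + 1 + A/e. -/
def AtuStmt : Prop := ∀ e A : ℝ, 0 < e → 0 < A → ∃ C : ℝ, 1 ≤ C ∧ ∀ x : ℝ, 1 ≤ x → Tau (x ^ A) (C * x ^ e)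

/-- Module Ava (theorem tAva; Vaughan's identity for an arbitrary function F). Uses: nothing. MODEL: Lib/CO/Vau.lean (theorem tVau : CO.VauStmt,
there F is completely multiplicative; here the pointwise identity Λ(n) = [n ≤ z] Λ(n) + (μ_≤ * log)(n) - (vg z * 1)(n) + (vh z * vl z)(n), n ≥ 1, of that
file is multiplied by F(n) and summed; ∑_{n ≤ Y} (A * B)(n) F(n) = ∑_{b ≤ Y} ∑_{c ≤ Y/b} A(b) B(c) F(b c); the coefficient μ_≤(b) vanishes for b > z, vg z b for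
b > z², and for b > Y the sums over c ≤ Y/b = 0 are empty). -/
def AvaStmt : Prop := ∀ (z Y : ℕ) (F : ℕ → ℂ), 1 ≤ z →
  ∑ n ∈ Icc 1 Y, ((ArithmeticFunction.vonMangoldt n : ℝ) : ℂ) * F n =
    ∑ n ∈ (Icc 1 Y).filter (fun n => n ≤ z), ((ArithmeticFunction.vonMangoldt n : ℝ) : ℂ) * F n +
    ∑ b ∈ Icc 1 z, ((ArithmeticFunction.moebius b : ℝ) : ℂ) * ∑ c ∈ Icc 1 (Y / b), ((Real.log c : ℝ) : ℂ) * F (b * c) -
    ∑ b ∈ Icc 1 (z ^ 2), ((CO.vg z b : ℝ) : ℂ) * ∑ c ∈ Icc 1 (Y / b), F (b * c) +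
    ∑ m ∈ Icc 1 Y, ∑ n ∈ Icc 1 (Y / m), ((CO.vh z m : ℝ) : ℂ) * ((CO.vl z n : ℝ) : ℂ) * F (m * n)

/-- Module Act (theorem tAct; counting). Uses: nothing.
Proof. 1_{(c,u)=1} = ∑_{e | u, e | c} μ(e), so the number is ∑_{e | u} μ(e) N_e, N_e = #{c ≤ X : e | c, c ≡ a mod t}. Since (e,t) = 1 these c form one residue class
modulo e t, so |N_e - X/(e t)| ≤ 1 (e.g. Nat.count_modEq_card, or c = e c', c' in a class modulo t, c' ≤ X/e). ∑_{e | u} μ(e)/e = φ(u)/u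
(Mathlib: Nat.totient via ArithmeticFunction or Nat.totient_eq_mul_prod_factors; or the case t = 1, X = u). -/
def ActStmt : Prop := ∀ (t u X : ℕ) (a : ℤ), 1 ≤ t → 1 ≤ u → t.Coprime u →
  |((((Icc 1 X).filter (fun c : ℕ => c.Coprime u ∧ (t : ℤ) ∣ (c : ℤ) - a)).card : ℝ)) -
    (X : ℝ) * (u.totient : ℝ) / ((t : ℝ) * u)| ≤ (u.divisors.card : ℝ)

/-- Module Aty (theorem tAty; type I sums). Uses: ActStmt.
Proof. u = q/t, (t,u) = 1 (q = t u squarefree). If some prime p divides b and q: q ∣ b c - a is impossible (p would divide a), and either p | u and b c is not coprime to u, or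
p | t and t ∣ b c - a is impossible; so all terms are 0. Let (b,q) = 1. Then (b c, u) = 1 iff (c,u) = 1, and b c ≡ a mod q iff c ≡ a' mod q, a' = a b^(-1) (any integer with
q ∣ b a' - a). ActStmt with (t,u) → (q,1): |∑ dl a q (b c) - X/q| ≤ 1. ActStmt with (t,u): |∑_{(c,u)=1} dl a t (b c) - X φ(u)/(t u)| ≤ τ(u); divide by φ(u) ≥ 1:
X/(t u) = X/q. So the difference has norm ≤ 1 + τ(u) ≤ 2 τ(q). Second part: G(k) = the sum over c ≤ k, ‖G(k)‖ ≤ B = 3 τ(q) for all k, and by Abel summation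
∑_{c ≤ X} log c g(c) = log X G(X) - ∑_{k=1}^{X-1} G(k) (log(k+1) - log k), norm ≤ 2 B log X (X = 0, 1: both sides 0). -/
def AtyStmt : Prop := ∀ (q t b X : ℕ) (a : ℤ), Squarefree q → t ∣ q → 1 ≤ b → Int.gcd a q = 1 →
  ‖∑ c ∈ Icc 1 X, Ek a t q (b * c)‖ ≤ 3 * (q.divisors.card : ℝ) ∧
  ‖∑ c ∈ Icc 1 X, ((Real.log c : ℝ) : ℂ) * Ek a t q (b * c)‖ ≤ 6 * (q.divisors.card : ℝ) * Real.log X

/-- Module Anm (theorem tAnm; trivial bound on average over q). Uses: nothing.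
Proof. Every q ∈ F is ≥ 1 (squarefree). u = q/t q. The number of k ∈ Ioc K1 K2 with m ∣ k - a is ≤ (K2 - K1)/m + 1. So ∑_k ‖Ek a (t q) q k‖ ≤ (K2-K1)/q + 1 +
(1/φ(u)) ((K2-K1)/t + 1), and 1/φ(u) ≤ τ(u)/u for squarefree u (u/φ(u) = ∏_{p | u} p/(p-1) ≤ 2^ω(u) = τ(u)), 1/φ(u) ≤ 1: ≤ (1 + τ(u)) (K2-K1)/q + 2 ≤
2 T (K2-K1)/q + 2 (τ(u) ≤ τ(q) ≤ T). Sum over q ∈ F ⊆ Icc 1 D: ∑ 1/q ≤ 1 + log D ≤ T (harmonic_le_one_add_log), card F ≤ D. -/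
def AnmStmt : Prop := ∀ (T : ℝ) (D K1 K2 : ℕ) (a : ℤ) (F : Finset ℕ) (t : ℕ → ℕ), Tau D T → 1 ≤ D → K1 ≤ K2 →
  (∀ q ∈ F, Squarefree q ∧ t q ∣ q ∧ q ≤ D) →
  ∑ q ∈ F, ∑ k ∈ Ioc K1 K2, ‖Ek a (t q) q k‖ ≤ 2 * T ^ 2 * ((K2 : ℝ) - K1) + 2 * D

/-- Module Acl (theorem tAcl; decomposition into cells, one function F). Uses: nothing.
Proof. Every m ≥ 1 with m ≤ Y lies in exactly one cell i = ⌊K log m⌋₊ ≤ K log Y < I (K log m ≥ 0), so α m = ∑_{i < I} cl K i α m, and the same for β n. So the left sum is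
∑_{i,j < I} ∑_{m ≤ Y} ∑_{n ≤ Y/m} cl K i α m cl K j β n F(m n). A nonzero term has i + j ≤ K log(m n) < i + j + 2. If (i,j) is good, i.e. G ≤ i + j and i + j + 2 ≤ K log Y, then
for m, n ∈ Icc 1 Y with nonzero cl's K log(m n) < K log Y, so m n ≤ Y (K ≥ 1) and n ≤ Y/m: the sum is the full sum over m, n ∈ Icc 1 Y. The terms of all the other (i,j)
together: ≤ the number of pairs (m,n), m n = k, times ‖F k‖, over the k ≤ Y with K log k < G + 1 (if i + j < G: K log k < i + j + 2 ≤ G + 1) or K log k > K log Y - 2 (if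
i + j + 2 > K log Y: K log k ≥ i + j); every pair (m,n) occurs in only one (i,j), and the number of pairs with product k is τ(k). -/
def AclStmt : Prop := ∀ (K G Y I : ℕ) (α β F : ℕ → ℂ), 1 ≤ K → (K : ℝ) * Real.log Y < I → (∀ m, ‖α m‖ ≤ 1) →
  (∀ n, ‖β n‖ ≤ 1) →
  ‖∑ m ∈ Icc 1 Y, ∑ n ∈ Icc 1 (Y / m), α m * β n * F (m * n)‖ ≤
    (∑ i ∈ range I, ∑ j ∈ range I, if G ≤ i + j ∧ ((i : ℝ) + j + 2) ≤ K * Real.log Y then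
        ‖∑ m ∈ Icc 1 Y, ∑ n ∈ Icc 1 Y, cl K i α m * cl K j β n * F (m * n)‖ else 0) +
      ∑ k ∈ (Icc 1 Y).filter (fun k : ℕ => (K : ℝ) * Real.log k < G + 1 ∨ (K : ℝ) * Real.log Y - 2 < K * Real.log k),
        (k.divisors.card : ℝ) * ‖F k‖

/-- Module Atr (theorem tAtr; the boundary terms on average over q). Uses: AnmStmt.
Proof. τ(k) ≤ T for k ≤ Y ≤ X. The k with K log k < G + 1 lie in Ioc 0 K2, K2 = ⌊e^((G+1)/K)⌋; the k with K log k > K log Y - 2 satisfy k > Y e^(-2/K) ≥ Y (1 - 2/K) ≥ 0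
(K ≥ 2; e^(-s) ≥ 1 - s), so they lie in Ioc K1 Y, K1 = ⌊Y (1 - 2/K)⌋, Y - K1 ≤ 2Y/K + 1. AnmStmt twice (Tau D T from Tau.mono):
≤ T (2 T² (e^((G+1)/K) + 2Y/K + 1) + 4 D) ≤ the right side (T ≥ 1). -/
def AtrStmt : Prop := ∀ (X T : ℝ) (D K G Y : ℕ) (a : ℤ) (F : Finset ℕ) (t : ℕ → ℕ), Tau X T → 1 ≤ D → (D : ℝ) ≤ X →
  (Y : ℝ) ≤ X → 1 ≤ Y → 2 ≤ K → (∀ q ∈ F, Squarefree q ∧ t q ∣ q ∧ q ≤ D) →
  ∑ q ∈ F, ∑ k ∈ (Icc 1 Y).filter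
      (fun k : ℕ => (K : ℝ) * Real.log k < G + 1 ∨ (K : ℝ) * Real.log Y - 2 < K * Real.log k),
    (k.divisors.card : ℝ) * ‖Ek a (t q) q k‖ ≤
      4 * T ^ 3 * (Real.exp (((G : ℝ) + 1) / K) + (Y : ℝ) / K + 1 + D)

/-- Module Acb (theorem tAcb; one good cell by the bilinear theorem). Uses: nothing (BlStmt α τ κ ε is a hypothesis inside).
Proof. η, C, x1 from BlStmt (replace C by |C|). If cl K i f vanishes on Icc 1 Y the sum is 0 ≤ C x^(1-η). Otherwise let m0 ∈ Icc 1 Y with cl K i f m0 ≠ 0,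
E = e^(i/K), E' = e^(j/K): E ≤ m0 < e^(1/K) E ≤ 1.3 E (K ≥ 4), so x^(1/3)/1.3 < E ≤ x^(2/3), E E' = e^((i+j)/K) ≥ 4 x^(1-ε/2), E' ≥ 4 x^(1/3-ε/2). M = ⌈E⌉ - 1,
N = ⌈E'⌉ - 1: E - 1 ≤ M < E, E' - 1 ≤ N < E'; for x large both are ≥ x^(1/3-ε) and E, E' ≥ 10. M N ≥ (E/2)(E'/2) ≥ x^(1-ε/2) ≥ x^(1-ε), M N ≤ E E' ≤ e^(log Y - 2/K) ≤ Y ≤ x.
The cell of i is {m : E ≤ m < e^(1/K) E}: contained in Ioc M (2M) (m ≥ E > M; m < 1.3 E ≤ 2 (E - 1) ≤ 2M) and in Icc 1 Y (m < e^((i+1)/K) ≤ e^((i+j+2)/K) ≤ Y), the same for j. So the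
sum over m, n ∈ Icc 1 Y is the sum over Ioc M 2M × Ioc N 2N, and BlStmt applies to cl K i f, cl K j g (norms ≤ 1). -/
def AcbStmt : Prop := ∀ α τ κ ε κ0 : ℝ, 0 < ε → ε < 1 / 100 → BlStmt α τ κ ε → 0 < κ0 → κ0 < κ →
  ∃ η C x0 : ℝ, 0 < η ∧ 0 ≤ C ∧ 3 ≤ x0 ∧ ∀ (x : ℝ) (a b : ℤ) (c Y K i j : ℕ) (f g : ℕ → ℂ) (F : Finset ℕ) (t : ℕ → ℕ),
  x0 ≤ x → |(b : ℝ)| ≤ x ^ ((9 : ℝ) / 10) → 1 ≤ c → (c : ℝ) ≤ x → (Y : ℝ) ≤ x → 4 ≤ K → (∀ m, ‖f m‖ ≤ 1) →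
  (∀ n, ‖g n‖ ≤ 1) → (∀ m, f m ≠ 0 → x ^ ((1 : ℝ) / 3) < m ∧ (m : ℝ) ≤ x ^ ((2 : ℝ) / 3)) →
  (K : ℝ) * (Real.log 4 + (1 - ε / 2) * Real.log x) ≤ (i : ℝ) + j → (i : ℝ) + j + 2 ≤ K * Real.log Y →
  (∀ q ∈ F, Md α τ κ κ0 x (t q) q ∧ Fr a b c q) →
  ∑ q ∈ F, ‖∑ m ∈ Icc 1 Y, ∑ n ∈ Icc 1 Y, cl K i f m * cl K j g n * Ek a (t q) q (m * n)‖ ≤ C * x ^ (1 - η)

/-- Module Abi (theorem tAbi; the bilinear part). Uses: AclStmt, AtrStmt, AcbStmt, AtuStmt.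
Proof. η1, C1, x1 from AcbStmt; η = min(η1/8, ε/8); K = ⌈x^(2η)⌉ ≥ 4 for x large, G = ⌈K (log 4 + (1 - ε/2) log x)⌉, I = ⌊K log x⌋ + 1, D = ⌊x^(3/5)⌋ ≥ 1 (q ≤ x^α ≤ x^(3/5) for q ∈ F), T = C x^(η/4)
from AtuStmt (e = η/4, A = 1): Tau x T. Y = 0: the sum is 0. AclStmt with F = Ek a (t q) q, sum over q ∈ F. Good cells: at most I² ≤ 16 x^(4η) (log x)² of them (for large x), each ≤ C1 x^(1-η1)
by AcbStmt (i + j ≥ G): total ≤ C x^(1-8η+4η) (log x)² ≤ C' x^(1-η). The rest by AtrStmt with X = x: e^((G+1)/K) ≤ e^(2/K) 4 x^(1-ε/2) ≤ 8 x^(1-ε/2), Y/K ≤ x^(1-2η),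
T³ = C x^(3η/4): ≤ C x^(3η/4) (x^(1-ε/2) + x^(1-2η) + 1 + x^(3/5)) ≤ C' x^(1-η) (2η - 3η/4 ≥ η, ε/2 ≥ 4η, η ≤ 1/800). -/
def AbiStmt : Prop := ∀ α τ κ ε κ0 : ℝ, α ≤ 3 / 5 → 0 < ε → ε < 1 / 100 → BlStmt α τ κ ε → 0 < κ0 → κ0 < κ →
  ∃ η C x0 : ℝ, 0 < η ∧ 0 ≤ C ∧ 3 ≤ x0 ∧ ∀ (x : ℝ) (a b : ℤ) (c Y : ℕ) (f g : ℕ → ℂ) (F : Finset ℕ) (t : ℕ → ℕ),
  x0 ≤ x → |(b : ℝ)| ≤ x ^ ((9 : ℝ) / 10) → 1 ≤ c → (c : ℝ) ≤ x → (Y : ℝ) ≤ x → (∀ m, ‖f m‖ ≤ 1) → (∀ n, ‖g n‖ ≤ 1) →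
  (∀ m, f m ≠ 0 → x ^ ((1 : ℝ) / 3) < m ∧ (m : ℝ) ≤ x ^ ((2 : ℝ) / 3)) →
  (∀ q ∈ F, Md α τ κ κ0 x (t q) q ∧ Fr a b c q) →
  ∑ q ∈ F, ‖∑ m ∈ Icc 1 Y, ∑ n ∈ Icc 1 (Y / m), f m * g n * Ek a (t q) q (m * n)‖ ≤ C * x ^ (1 - η)

/-- Module Afi (theorem tAfi; the theorem for Λ). FINAL STATEMENT AAllStmt (Lib/MI/Stm.lean). Uses: AvaStmt, CO.VgbStmt (Lib/CO/SpecV.lean, theorem tVgb), AtyStmt, AbiStmt, AtuStmt.
Proof. η1, C1, x1 from AbiStmt; η = min(η1/2, 1/100); T = C x^(η/4) from AtuStmt (e = η/4, A = 1): Tau x T; z = ⌊x^(1/3)⌋ ≥ 1, so n > z implies n > x^(1/3), and z² ≤ x^(2/3);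
D = ⌊x^(3/5)⌋; F ⊆ Icc 1 D; τ(q) ≤ T for q ∈ F. Y = 0: trivial; let 1 ≤ Y ≤ x, log Y ≤ T. AvaStmt with F = Ek a (t q) q for each q:
S1 (n ≤ z): Λ(n) ≤ log n ≤ T, ‖Ek‖ ≤ 2: ≤ 2 z T. S2: |μ| ≤ 1 and AtyStmt: ≤ z 6 T². S3, b ≤ z: |vg z b| ≤ log b ≤ T (CO.VgbStmt): ≤ z T 3 T. Summed over q ∈ F: ≤ 11 T² z D ≤ 11 T² x^(1/3+3/5), and
1/3 + 3/5 + 2η/4 < 1 - η.
S3, z < b ≤ z²: = ∑_{m ∈ Icc 1 Y} ∑_{n ≤ Y/m} T f m g n Ek(m n) with f m = [z < m ≤ z²] vg z m/T, g = 1 (for m > Y the inner sum is empty; vg z m = 0 for m > z²); norms ≤ 1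
(|vg z m| ≤ log m ≤ T for m ≤ z² ≤ x), support in (x^(1/3), x^(2/3)]. AbiStmt: total ≤ T C1 x^(1-η1).
S4: = T² ∑∑ f m g n Ek(m n), f m = vh z m/T if m ≤ x^(2/3), else 0; g n = vl z n/T if n ≤ Y, else 0: vh z m = 0 for m ≤ z, |vh z m| ≤ τ(m) ≤ T, vl z n = 0 for n ≤ z; a nonzero term with m n ≤ Y has
n > x^(1/3), so m < x^(2/3): the restriction of m changes nothing. AbiStmt: total ≤ T² C1 x^(1-η1) ≤ C x^(1-2η+η/2). -/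
def AfiStmt : Prop := AAllStmt

end Pool.Agent.Lib.MI
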