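import Pool.Agent.Lib.MI.Defs

/-!
MP_00e23e_nt, directory Lib/MI (architect helper34; THEOREM MI, notes 4560, 4596; version 3): the interface statements
of the chapters. Chapter W (helper18): SsbStmt (Weil). Chapter T1 (Type I): T1Stmt. Chapter T2 (Type II): T2Stmt. Chapter D
(dispersion): DspStmt. Chapter L (large sieve): LrgStmt. Chapter B (assembly of the bilinear theorem): BlStmt from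
T1Stmt, T2Stmt, DspStmt, LrgStmt. Chapter A (Vaughan): CoreStmt from BlStmt. Chapter F: MIStmt from CoreStmt.
-/

namespace Pool.Agent.Lib.MI

open Finset Pool.Agent.Lib.EH3 Pool.Agent.Lib.TB Pool.Agent.Results.MP_00e23e_nt

/-- Chapter W (helper18). Weil's bound for c (1/n - 1/(n+t)) + b n modulo squarefree q. -/
def SsbStmt : Prop := ∀ (q t : ℕ) (c b : ℤ), 1 ≤ q → Squarefree q →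
  ‖SS c b q t‖ ≤ (q.divisors.card : ℝ) ^ 2 *
    Real.sqrt ((q : ℝ) * (Int.gcd ((Int.gcd (c * t) b : ℕ) : ℤ) q : ℝ))

/-- Chapter T1. For fixed k: Cauchy with s1 = u v outside (r, u, s2, n), inside (h, v), then van der Corput with the
shift n → n + l r1, r = r1 r0, and completion modulo r0 u [v,v'] s2 with SsbStmt. -/
def T1Stmt : Prop := ∃ C : ℝ, 0 < C ∧ ∃ A : ℕ, ∀ (X T : ℝ) (a : ℤ) (k R S N H V L L' : ℕ) (r0 v : ℕ → ℕ)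
    (Hs : Finset ℤ) (γ : ℤ → ℕ → ℕ → ℕ → ℂ) (ω : ℕ → ℕ → ℂ), Tau X T → 1 ≤ R → 1 ≤ S → 1 ≤ N → 1 ≤ H → 2 ≤ V →
  1 ≤ L → 100 * (R : ℝ) ^ 2 * (S : ℝ) ^ 4 * (N : ℝ) ^ 2 * (V : ℝ) ^ 2 * (H : ℝ) ^ 2 * (L : ℝ) ^ 2 ≤ X →
  2 * R ≤ N → (∀ h ∈ Hs, h ≠ 0 ∧ |h| ≤ (H : ℤ)) → (∀ h r s1 s2, ‖γ h r s1 s2‖ ≤ 1) → (∀ r n, ‖ω r n‖ ≤ 1) →
  (∀ h r s1 s2, γ h r s1 s2 ≠ 0 → r0 r ∣ r ∧ L < r0 r ∧ r0 r ≤ L' ∧ v s1 ∣ s1 ∧ V < v s1 ∧ v s1 ≤ 2 * V) →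
  ‖∑ h ∈ Hs, TT a h k R S N (γ h) ω‖ ^ 2 ≤ C * T ^ A * ((R : ℝ) * (S : ℝ) ^ 2 * N) ^ 2 *
    ((H : ℝ) / V + (H : ℝ) ^ 2 * Real.sqrt (1 / (L : ℝ) + 1 / (Real.sqrt ((L : ℝ) * V) * S) +
      Real.sqrt ((L' : ℝ) * V) * S / N))

/-- Chapter T2. For fixed k: Cauchy with (r, n) outside, incomplete Kloosterman sums modulo r. -/
def T2Stmt : Prop := ∃ C : ℝ, 0 < C ∧ ∃ A : ℕ, ∀ (X T : ℝ) (a : ℤ) (k R S N H : ℕ) (Hs : Finset ℤ)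
    (γ : ℤ → ℕ → ℕ → ℕ → ℂ) (ω : ℕ → ℕ → ℂ), Tau X T → 1 ≤ R → 1 ≤ S → 1 ≤ N → 1 ≤ H →
  100 * (R : ℝ) ^ 2 * (S : ℝ) ^ 4 * (N : ℝ) ^ 2 * (H : ℝ) ^ 2 ≤ X →
  (∀ h ∈ Hs, h ≠ 0 ∧ |h| ≤ (H : ℤ)) → (∀ h r s1 s2, ‖γ h r s1 s2‖ ≤ 1) → (∀ r n, ‖ω r n‖ ≤ 1) →
  ‖∑ h ∈ Hs, TT a h k R S N (γ h) ω‖ ^ 2 ≤ C * T ^ A * ((R : ℝ) * (S : ℝ) ^ 2 * N) ^ 2 *
    (Real.sqrt R * (H : ℝ) ^ 2 * (S : ℝ) ^ 4 / N + (H : ℝ) / (S : ℝ) ^ 2 + (H : ℝ) ^ 2 / R)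

/-- Chapter D. The dispersion method with the exact Fourier identity. -/
def DspStmt : Prop := ∃ C : ℝ, 0 < C ∧ ∃ A : ℕ, ∀ (X T z B : ℝ) (a b : ℤ) (c R S M N H : ℕ) (P : Finset (ℕ × ℕ))
    (α β : ℕ → ℂ), Tau X T → 1 ≤ z → 0 ≤ B → 1 ≤ c → 1 ≤ S → 1 ≤ N → 8 ≤ M → 1 ≤ H → R ≤ N → 2 * H < R →
  100 * (c : ℝ) * (M : ℝ) ^ 2 * (N : ℝ) ^ 2 * (R : ℝ) ^ 2 * (S : ℝ) ^ 4 ≤ X → 4 * |b| < (M : ℤ) * N →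
  Pr a b c R S z P → (∀ m, ‖α m‖ ≤ 1) → (∀ n, ‖β n‖ ≤ 1) →
  (∀ (k : ℕ) (γ : ℤ → ℕ → ℕ → ℕ → ℂ) (ω : ℕ → ℕ → ℂ), Cf P R S M γ → (∀ r n, ‖ω r n‖ ≤ 1) →
    ‖∑ h ∈ Icc (-(H : ℤ)) H, TT a h k R S N (γ h) ω‖ ≤ B) →
  (∑ w ∈ P, ‖∑ m ∈ Ioc M (2 * M), ∑ n ∈ Ioc N (2 * N), α m * β n * Dl a w.1 w.2 (m * n)‖) ^ 2 ≤
    C * T ^ A * ((R : ℝ) * (M : ℝ) ^ 2 * N + (M : ℝ) ^ 2 * (N : ℝ) ^ 2 / z +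
      (R : ℝ) ^ 2 * (S : ℝ) ^ 4 * (N : ℝ) ^ 2 / H + (M : ℝ) * N * B)

/-- Chapter L. Large sieve: all classes at once. The pairs w = (t, u) stand for r = t u, all primes of u are > Z. -/
def LrgStmt : Prop := ∃ C : ℝ, 0 < C ∧ ∃ A : ℕ, ∀ (X T : ℝ) (Z D M N : ℕ) (a : ℕ × ℕ → ℤ) (W : Finset (ℕ × ℕ))
    (α β : ℕ → ℂ), Tau X T → 1 ≤ Z → 1 ≤ M → 1 ≤ N → (D : ℝ) ≤ X → (M : ℝ) ≤ X → (N : ℝ) ≤ X →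
  (∀ w ∈ W, 1 ≤ w.1 ∧ 1 ≤ w.2 ∧ Squarefree (w.1 * w.2) ∧ w.1 * w.2 ≤ D ∧ Int.gcd (a w) ((w.1 * w.2 : ℕ) : ℤ) = 1 ∧
    ∀ p : ℕ, p.Prime → p ∣ w.2 → Z < p) → (∀ m, ‖α m‖ ≤ 1) → (∀ n, ‖β n‖ ≤ 1) →
  ∑ w ∈ W, ‖∑ m ∈ Ioc M (2 * M), ∑ n ∈ Ioc N (2 * N), α m * β n * Ek (a w) w.1 (w.1 * w.2) (m * n)‖ ≤
    C * T ^ A * (Real.sqrt ((M : ℝ) * N) * (Real.sqrt ((M : ℝ) * N) / Z + Real.sqrt M + Real.sqrt N + D))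

/-- Chapter B. The bilinear theorem for the moduli Md, variables ≥ x^(1/3-ε), product ≥ x^(1-ε). -/
def BlStmt (α τ κ ε : ℝ) : Prop := ∀ κ0 : ℝ, 0 < κ0 → κ0 < κ → ∃ η C x0 : ℝ, 0 < η ∧ ∀ (x : ℝ) (a b : ℤ)
    (c M N : ℕ) (f g : ℕ → ℂ) (F : Finset ℕ) (t : ℕ → ℕ), x0 ≤ x → |(b : ℝ)| ≤ x ^ ((9 : ℝ) / 10) → 1 ≤ c →
  (c : ℝ) ≤ x → x ^ ((1 : ℝ) / 3 - ε) ≤ N → x ^ ((1 : ℝ) / 3 - ε) ≤ M → x ^ (1 - ε) ≤ (M : ℝ) * N →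
  (M : ℝ) * N ≤ x → (∀ m, ‖f m‖ ≤ 1) → (∀ n, ‖g n‖ ≤ 1) → (∀ q ∈ F, Md α τ κ κ0 x (t q) q ∧ Fr a b c q) →
  ∑ q ∈ F, ‖∑ m ∈ Ioc M (2 * M), ∑ n ∈ Ioc N (2 * N), f m * g n * Ek a (t q) q (m * n)‖ ≤ C * x ^ (1 - η)

/-- Chapter A. The theorem for the von Mangoldt function, one fraction b/c and one Y ≤ x. -/
def CoreStmt (α τ κ : ℝ) : Prop := ∀ κ0 : ℝ, 0 < κ0 → κ0 < κ → ∃ η C x0 : ℝ, 0 < η ∧ ∀ (x : ℝ) (a b : ℤ) (c Y : ℕ)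
    (F : Finset ℕ) (t : ℕ → ℕ), x0 ≤ x → |(b : ℝ)| ≤ x ^ ((9 : ℝ) / 10) → 1 ≤ c → (c : ℝ) ≤ x → (Y : ℝ) ≤ x →
  (∀ q ∈ F, Md α τ κ κ0 x (t q) q ∧ Fr a b c q) →
  ∑ q ∈ F, ‖∑ n ∈ Icc 1 Y, (ArithmeticFunction.vonMangoldt n : ℂ) * Ek a (t q) q n‖ ≤ C * x ^ (1 - η)

/-- Chapter F. THEOREM MI for the level x^α, t ≤ x^τ, primes of d/t in (x^κ0, x^κ]. -/
def MIAt (α τ κ : ℝ) : Prop := ∀ κ0 : ℝ, 0 < κ0 → κ0 < κ → ∃ η : ℝ, 0 < η ∧ ∀ U : ℝ, 0 < U → ∃ C : ℝ,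
  ∀ (x : ℝ) (s b : ℕ → ℤ) (c t : ℕ → ℕ) (y : ℕ → ℝ) (M : Finset ℕ), 3 ≤ x →
  ((M.image (fun d => (b d, c d))).card : ℝ) ≤ x ^ η → (∀ d, 2 ≤ y d ∧ y d ≤ x) →
  (∀ d ∈ M, Md α τ κ κ0 x (t d) d ∧ |(b d : ℝ)| ≤ x ^ ((9 : ℝ) / 10) ∧ 1 ≤ c d ∧ (c d : ℝ) ≤ x ∧ (c d).Coprime d ∧
    Int.gcd (s d) d = 1 ∧ (d : ℤ) ∣ (c d : ℤ) * s d - b d) →
  ∑ d ∈ M, |(resCount (y d) d (s d) : ℝ) - (resCount (y d) (t d) (s d) : ℝ) / ((d / t d).totient : ℝ)| ≤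
      C * x ^ (1 - η) ∧
    ∑ d ∈ M, |resErr (y d) d (s d)| ≤ C * (x / (Real.log x) ^ U)

/-- THEOREM MI -/
def MIStmt : Prop := ∀ δ τ κ : ℝ, 0 ≤ δ → 0 ≤ τ → 0 < κ → 86 * δ + 60 * κ < 1 → 8 * δ + 6 * κ + τ < 1 / 3 →
  MIAt (1 / 2 + δ) τ κ

/-- Chapter B: to prove -/
def BAllStmt : Prop := ∀ δ τ κ : ℝ, 0 ≤ δ → 0 ≤ τ → 0 < κ → 86 * δ + 60 * κ < 1 → 8 * δ + 6 * κ + τ < 1 / 3 →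
  ∃ ε : ℝ, 0 < ε ∧ ε < 1 / 100 ∧ BlStmt (1 / 2 + δ) τ κ ε

/-- Chapter A: to prove -/
def AAllStmt : Prop := ∀ α τ κ ε : ℝ, 0 < ε → ε < 1 / 100 → α ≤ 3 / 5 → 0 ≤ τ → τ ≤ 1 / 3 → 0 < κ → κ ≤ 1 / 10 →
  BlStmt α τ κ ε → CoreStmt α τ κ

/-- Chapter F: to prove -/
def FAllStmt : Prop := ∀ α τ κ : ℝ, α ≤ 3 / 5 → 0 ≤ τ → τ ≤ 1 / 3 → 0 < κ → κ ≤ 1 / 10 → CoreStmt α τ κ → MIAt α τ κ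

end Pool.Agent.Lib.MI
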