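import Pool.Agent.Lib.MI.Basic
import Pool.Agent.Lib.MI.Stm

/-!
MP_00e23e_nt, directory Lib/MI, chapter B (helper34): the bilinear theorem BAllStmt (Lib/MI/Stm.lean) from T1Stmt, T2Stmt,
DspStmt, LrgStmt.

RULES. Module X: file Pool/Agent/Lib/MI/X.lean, first line `import Pool.Agent.Lib.MI.SpecB`, then
`namespace Pool.Agent.Lib.MI` and `open Finset Pool.Agent.Lib.EH3 Pool.Agent.Lib.TB Pool.Agent.Results.MP_00e23e_nt`,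
private lemmas with names starting with X_, final theorem `theorem tX (h1 : AStmt) ... : XStmt`; the statements
listed under Uses are hypotheses of your theorem, in this order. The docstring contains a complete proof. Basic lemmas:
MI/Basic.lean. Never use congr!. Every module below 60 s.
-/

namespace Pool.Agent.Lib.MI

open Finset Pool.Agent.Lib.EH3 Pool.Agent.Lib.TB Pool.Agent.Results.MP_00e23e_nt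

/-- the parameters -/
def Par (δ τ κ ε : ℝ) : Prop :=
  0 ≤ δ ∧ 0 ≤ τ ∧ 0 < κ ∧ 0 < ε ∧ ε < 1 / 100 ∧ 86 * δ + 60 * κ + 300 * ε ≤ 1 ∧ 8 * δ + 6 * κ + τ + 30 * ε ≤ 1 / 3

/-- the exponent of Y -/
noncomputable def yy (δ κ ε : ℝ) : ℝ := 2 * δ + κ + 3 * ε

/-- Type I for N ≤ x^(1/2 - sg), Type II above -/
noncomputable def sg (δ κ ε : ℝ) : ℝ := 3 * δ + 2 * κ + 10 * ε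

/-- the sizes of a dyadic block r ∈ (R, 2R], s ∈ (S, 2S] -/
def Blk (δ κ ε x : ℝ) (M N R S : ℕ) : Prop :=
  N ≤ M ∧ x ^ ((1 : ℝ) / 3 - ε) ≤ N ∧ x ^ (1 - ε) ≤ (M : ℝ) * N ∧ (M : ℝ) * N ≤ x ∧ 1 ≤ S ∧
    (R : ℝ) ≤ N * x ^ (-ε) ∧ (N : ℝ) * x ^ (-ε - κ) ≤ 2 * R ∧ (R : ℝ) * S ≤ x ^ (1 / 2 + δ) ∧
    x ^ (1 / 2 - ε / 2) ≤ 4 * ((R : ℝ) * S)

/-- Module Bta (theorem tBta). Uses: nothing. (TB/Tauk.lean: tTauk : TaukStmt.)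
Proof. tTauk with ε = e/A: τ(n) ≤ C1 n^(e/A) ≤ C1 x^e for 1 ≤ n ≤ x^A; 1 + log (x^A) = 1 + A log x ≤ (1 + A/e) x^e (log x ≤ x^e/e: Real.log_le_rpow_div). C = max of C1 and 1 + A/e. -/
def BtaStmt : Prop := ∀ e A : ℝ, 0 < e → 0 < A → ∃ C : ℝ, 1 ≤ C ∧ ∀ x : ℝ, 1 ≤ x → Tau (x ^ A) (C * x ^ e)

/-- Module Bgr (theorem tBgr; greedy divisor). Uses: nothing.
Proof. Among the r with t ∣ r ∣ q and r ≤ Z (finite, nonempty: r = t) take the largest one. r ≠ q (Z < q), so q/r > 1 has a prime factor p; r p ∣ q, t ∣ r p, and p ∣ q/r ∣ q/t (q/t = (q/r)(r/t)), so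
p ≤ y. By maximality r p > Z, so Z < r y. -/
def BgrStmt : Prop := ∀ (q t : ℕ) (Z y : ℝ), 1 ≤ q → t ∣ q → (t : ℝ) ≤ Z → Z < q →
  (∀ p : ℕ, p.Prime → p ∣ q / t → (p : ℝ) ≤ y) → ∃ r : ℕ, t ∣ r ∧ r ∣ q ∧ (r : ℝ) ≤ Z ∧ Z < (r : ℝ) * y

/-- Module Bid (theorem tBid; decomposition of Ek). Uses: nothing.
Proof. t u s/t = u s, t u/t = u, φ(u s) = φ(u) φ(s) (coprime, squarefree). Ek a t (t u s) n - Dl a (t u) s n - (1/s) Ek a t (t u) n = dl a t n ((1/s) (1/φ(u)) [(n,u) = 1] - (1/φ(u s)) [(n, u s) = 1]).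
If (n, u s) = 1: norm (1/φ(u)) |1/s - 1/φ(s)| = (1/φ(u)) (1/φ(s) - 1/s); if (n,u) = 1 and (n,s) > 1: (1/φ(u)) (1/s); otherwise 0. -/
def BidStmt : Prop := ∀ (a : ℤ) (t u s n : ℕ), 1 ≤ t → 1 ≤ u → 1 ≤ s → Squarefree (t * u * s) →
  ‖Ek a t (t * u * s) n - Dl a (t * u) s n - (1 / (s : ℂ)) * Ek a t (t * u) n‖ ≤
    (if (t : ℤ) ∣ (n : ℤ) - a then 1 else 0) * (1 / (u.totient : ℝ)) *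
      ((1 / (s.totient : ℝ) - 1 / (s : ℝ)) + (if n.Coprime s then 0 else 1 / (s : ℝ)))

/-- Module Bph (theorem tBph). Uses: nothing.
Proof. φ(s) ≥ s - ∑_{p ∣ s} s/p ≥ s (1 - T/z) (the numbers ≤ s not coprime to s are multiples of some prime p ∣ s; at most τ(s) ≤ T primes, each > z). If T/z ≤ 1/2: 1/φ(s) ≤ (1/s)(1 + 2T/z). Otherwise
z < 2T, and s ≤ τ(s) φ(s) ≤ T φ(s) (see BV.TotStmt) gives 1/φ(s) ≤ T/s ≤ (T/s)(2T/z). -/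
def BphStmt : Prop := ∀ (X T z : ℝ) (s : ℕ), Tau X T → 1 ≤ z → 1 ≤ s → (s : ℝ) ≤ X →
  (∀ p : ℕ, p.Prime → p ∣ s → z < p) → 1 / (s.totient : ℝ) - 1 / (s : ℝ) ≤ 2 * T ^ 2 / (z * s)

open Classical in
/-- Module Brm (theorem tBrm; the sum of the remainders). Uses: BphStmt. (BV/Tot.lean: tTot : BV.TotStmt, ∑_{u ≤ D} 1/φ(u) ≤ (1 + log D)^2.)
Proof. Z = c m n - b satisfies 1 ≤ Z ≤ X (c m n ≥ M N > 4|b|, c (2M)(2N) + M N ≤ 5 c M N ≤ X). For w = (t, (u, s)) ∈ G with t ∣ m n - a: t ∣ Z (t ∣ c a - b). So the sum is at most the sum over (m, n) (M N pairs), t ∣ Z (at most T),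
u ≤ D of 1/φ(u) (≤ (1 + log D)^2 ≤ T^2) and s ≤ D with all primes > z of 2T^2/(z s) + [m n, s not coprime]/s. ∑_{s ≤ D} 1/s ≤ 1 + log D ≤ T; the s not coprime to m n are p s', p ∣ m n prime, p > z (at most T primes, m n ≤ 4 M N ≤ X):
≤ T (1/z) T. Total ≤ M N T T^2 (2T^3 + T^2)/z ≤ 3 T^6 M N/z. -/
def BrmStmt : Prop := ∀ (X T z : ℝ) (a b : ℤ) (c D M N : ℕ) (G : Finset (ℕ × ℕ × ℕ)), Tau X T → 1 ≤ z → 1 ≤ c →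
  1 ≤ M → 1 ≤ N → (D : ℝ) ≤ X → 5 * (c : ℝ) * M * N ≤ X → 4 * |b| < (M : ℤ) * N →
  (∀ w ∈ G, 1 ≤ w.1 ∧ 1 ≤ w.2.1 ∧ 1 ≤ w.2.2 ∧ w.1 ≤ D ∧ w.2.1 ≤ D ∧ w.2.2 ≤ D ∧
    (w.1 : ℤ) ∣ (c : ℤ) * a - b ∧ ∀ p : ℕ, p.Prime → p ∣ w.2.2 → z < p) →
  ∑ w ∈ G, ∑ m ∈ Ioc M (2 * M), ∑ n ∈ Ioc N (2 * N),
    (if (w.1 : ℤ) ∣ ((m * n : ℕ) : ℤ) - a then 1 else 0) * (1 / (w.2.1.totient : ℝ)) *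
      ((1 / (w.2.2.totient : ℝ) - 1 / (w.2.2 : ℝ)) + (if (m * n).Coprime w.2.2 then 0 else 1 / (w.2.2 : ℝ))) ≤
    3 * T ^ 6 * ((M : ℝ) * N / z)

/-- Module Blg (theorem tBlg; the large sieve with the weights 1/s). Uses: LrgStmt.
Proof. Group the w = (t, (u, s)) ∈ G by (t, u): ∑_s 1/s ≤ 1 + log X ≤ T (distinct s ≤ X, natural numbers). Then LrgStmt with W = the image of G under (t, u), a w = a. -/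
def BlgStmt : Prop := ∃ C : ℝ, 0 < C ∧ ∃ A : ℕ, ∀ (X T : ℝ) (a : ℤ) (Z D M N : ℕ) (G : Finset (ℕ × ℕ × ℕ))
    (f g : ℕ → ℂ), Tau X T → 1 ≤ X → 1 ≤ Z → 1 ≤ M → 1 ≤ N → (D : ℝ) ≤ X → (M : ℝ) ≤ X → (N : ℝ) ≤ X →
  (∀ w ∈ G, 1 ≤ w.1 ∧ 1 ≤ w.2.1 ∧ 1 ≤ w.2.2 ∧ (w.2.2 : ℝ) ≤ X ∧ Squarefree (w.1 * w.2.1) ∧ w.1 * w.2.1 ≤ D ∧
    Int.gcd a ((w.1 * w.2.1 : ℕ) : ℤ) = 1 ∧ ∀ p : ℕ, p.Prime → p ∣ w.2.1 → Z < p) →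
  (∀ m, ‖f m‖ ≤ 1) → (∀ n, ‖g n‖ ≤ 1) →
  ∑ w ∈ G, (1 / (w.2.2 : ℝ)) *
      ‖∑ m ∈ Ioc M (2 * M), ∑ n ∈ Ioc N (2 * N), f m * g n * Ek a w.1 (w.1 * w.2.1) (m * n)‖ ≤
    C * T ^ A * (Real.sqrt ((M : ℝ) * N) * (Real.sqrt ((M : ℝ) * N) / Z + Real.sqrt M + Real.sqrt N + D))

/-- Module Bdh (theorem tBdh; dyadic decomposition in h). Uses: nothing.
Proof. h = 0: γ 0 = 0, TT = 0. For 0 < |h| ≤ H let i be the least natural number with |h| ≤ 2^i Y0; for i ≥ 1: 2^(i-1) Y0 < |h| ≤ H, so 2^i Y0 < 2H. Let Hs_i be the set of these h. By Cf and 4 R S^2/(M |h|) ≤ Y0/|h| ≤ 2 · 2^(-i) for i ≥ 1: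
‖γ h r s1 s2‖ ≤ (4M/(R S^2)) · 4 · 4^(-i) for all i ≥ 0. γ' h = γ h · (R S^2/(16 M)) 4^i on Hs_i (0 outside) has norm ≤ 1, TT is linear in γ, so ‖∑_{h ∈ Hs_i} TT (γ h)‖ ≤ (16 M/(R S^2)) 4^(-i) 2^i E. Sum over i: ∑ 2^(-i) ≤ 2. -/
def BdhStmt : Prop := ∀ (a : ℤ) (k R S M N H Y0 : ℕ) (P : Finset (ℕ × ℕ)) (γ : ℤ → ℕ → ℕ → ℕ → ℂ) (ω : ℕ → ℕ → ℂ)
    (E : ℝ), 1 ≤ R → 1 ≤ S → 1 ≤ M → 1 ≤ Y0 → 4 * (R * S ^ 2) ≤ M * Y0 → 0 ≤ E → Cf P R S M γ →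
  (∀ (i : ℕ) (Hs : Finset ℤ) (γ' : ℤ → ℕ → ℕ → ℕ → ℂ), 2 ^ i * Y0 ≤ 2 * H + Y0 →
    (∀ h ∈ Hs, h ≠ 0 ∧ |h| ≤ ((2 ^ i * Y0 : ℕ) : ℤ)) → (∀ h r s1 s2, ‖γ' h r s1 s2‖ ≤ 1) →
    (∀ h r s1 s2, γ' h r s1 s2 ≠ 0 → (r, s1) ∈ P ∧ (r, s2) ∈ P) →
    ‖∑ h ∈ Hs, TT a h k R S N (γ' h) ω‖ ≤ 2 ^ i * E) →
  ‖∑ h ∈ Icc (-(H : ℤ)) H, TT a h k R S N (γ h) ω‖ ≤ 32 * M * E / (R * (S : ℝ) ^ 2)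

/-- Module Bt1 (theorem tBt1; the main part, Type I). Uses: T1Stmt, BdhStmt.
Proof. Bdh with E = R S^2 N (C T^A)^(1/2) (Y0/V + Y0^2 ρ)^(1/2), ρ = the inner square root: T1Stmt with H := 2^i Y0 ≤ 2H + Y0 and 2^i Y0/V + 4^i Y0^2 ρ ≤ 4^i (Y0/V + Y0^2 ρ). The support condition of T1Stmt follows from (r, s1) ∈ P.
(C T^A)^(1/2) ≤ (1 + C) T^A. -/
def Bt1Stmt : Prop := ∃ C : ℝ, 0 < C ∧ ∃ A : ℕ, ∀ (X T : ℝ) (a : ℤ) (k R S M N H Y0 V L L' : ℕ) (r0 v : ℕ → ℕ)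
    (P : Finset (ℕ × ℕ)) (γ : ℤ → ℕ → ℕ → ℕ → ℂ) (ω : ℕ → ℕ → ℂ), Tau X T → 1 ≤ R → 1 ≤ S → 1 ≤ M → 1 ≤ N →
  1 ≤ Y0 → 2 ≤ V → 1 ≤ L →
  100 * (R : ℝ) ^ 2 * (S : ℝ) ^ 4 * (N : ℝ) ^ 2 * (V : ℝ) ^ 2 * (2 * H + Y0 : ℝ) ^ 2 * (L : ℝ) ^ 2 ≤ X →
  2 * R ≤ N → 4 * (R * S ^ 2) ≤ M * Y0 → Cf P R S M γ → (∀ r n, ‖ω r n‖ ≤ 1) →
  (∀ w ∈ P, r0 w.1 ∣ w.1 ∧ L < r0 w.1 ∧ r0 w.1 ≤ L' ∧ v w.2 ∣ w.2 ∧ V < v w.2 ∧ v w.2 ≤ 2 * V) →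
  ‖∑ h ∈ Icc (-(H : ℤ)) H, TT a h k R S N (γ h) ω‖ ≤ C * T ^ A * ((M : ℝ) * N) *
    Real.sqrt ((Y0 : ℝ) / V + (Y0 : ℝ) ^ 2 * Real.sqrt (1 / (L : ℝ) + 1 / (Real.sqrt ((L : ℝ) * V) * S) +
      Real.sqrt ((L' : ℝ) * V) * S / N))

/-- Module Bt2 (theorem tBt2; the main part, Type II). Uses: T2Stmt, BdhStmt.
Proof. As Bt1: T2Stmt with H := 2^i Y0; 2^i, 4^i ≤ 4^i. -/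
def Bt2Stmt : Prop := ∃ C : ℝ, 0 < C ∧ ∃ A : ℕ, ∀ (X T : ℝ) (a : ℤ) (k R S M N H Y0 : ℕ)
    (P : Finset (ℕ × ℕ)) (γ : ℤ → ℕ → ℕ → ℕ → ℂ) (ω : ℕ → ℕ → ℂ), Tau X T → 1 ≤ R → 1 ≤ S → 1 ≤ M → 1 ≤ N →
  1 ≤ Y0 → 100 * (R : ℝ) ^ 2 * (S : ℝ) ^ 4 * (N : ℝ) ^ 2 * (2 * H + Y0 : ℝ) ^ 2 ≤ X →
  4 * (R * S ^ 2) ≤ M * Y0 → Cf P R S M γ → (∀ r n, ‖ω r n‖ ≤ 1) →
  ‖∑ h ∈ Icc (-(H : ℤ)) H, TT a h k R S N (γ h) ω‖ ≤ C * T ^ A * ((M : ℝ) * N) *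
    Real.sqrt (Real.sqrt R * (Y0 : ℝ) ^ 2 * (S : ℝ) ^ 4 / N + (Y0 : ℝ) / (S : ℝ) ^ 2 + (Y0 : ℝ) ^ 2 / R)

/-- Module Bbo (theorem tBbo; one block, Type I). Uses: DspStmt, Bt1Stmt, BtaStmt.
Proof. y = yy. (a) R S^2/M = (R S)^2/(R M) ≤ x^(1+2δ) 2 x^(ε+κ)/(M N) ≤ 2 x^(2δ+κ+2ε) ≤ x^y/8 for large x. Y0 = ⌈x^y⌉, H = ⌈x^(2y+ε)⌉; 4 R S^2 ≤ M Y0. R ≥ N x^(-ε-κ)/2 ≥ x^(1/3-2ε-κ)/2 > 2H (4δ + 2κ + 7ε < 1/3 - 2ε - κ).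
S ≤ x^(1/2+δ)/R ≤ 2 x^(1/2+δ+ε+κ)/N; S ≥ x^(1/2-ε/2)/(4R) ≥ x^(1/2+ε/2)/(4N) ≥ x^(sg+ε/2)/4. L = ⌊x^(4y+8ε)⌋, L' = ⌊x^(4y+8ε+κ)⌋; r0, v: choice (both conditions depend only on w.1, on w.2); X = x^30, T = C1 x^e (Bta, e small).
(b) Y0/V ≤ 4 x^(-4ε); 1/L ≤ 2 x^(-4y-8ε); 1/((L V)^(1/2) S) ≤ 16 x^(-(5y+12ε)/2 - sg - ε/2) ≤ 16 x^(-4y-8ε) (1.5 y = 3δ + 1.5κ + 4.5ε ≤ sg - 5ε); (L' V)^(1/2) S/N ≤ 2 x^((5y+2κ+12ε)/2 + 1/2+δ+ε+κ - 2/3+2ε) ≤ 2 x^(-4y-8ε)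
(6.5 y + 2κ + δ + 17ε = 14δ + 8.5κ + 36.5ε ≤ 1/6). So Bt1: B ≤ C T^A M N (4 x^(-4ε) + 4 x^(2y) (20 x^(-4y-8ε))^(1/2))^(1/2) ≤ 5 C T^A M N x^(-2ε).
(c) DspStmt with z = x^κ0 (4|b| < M N: 4 x^(9/10) < x^(1-ε)): the square of the sum is ≤ C T^A (M N)^2 (R/N + x^(-κ0) + (R S^2/M)^2/H + B/(M N)) ≤ C' T^A' (M N)^2 x^(-μ), μ = min(ε, κ0). So the sum is ≤ C'' T^A' x^(1-μ/2), and T^A' ≤ C x^(μ/4) for e = μ/(4A'+4). η = μ/4. -/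
def BboStmt : Prop := ∀ δ τ κ ε κ0 : ℝ, Par δ τ κ ε → 0 < κ0 → κ0 < κ → ∃ η C x0 : ℝ, 0 < η ∧
  ∀ (x : ℝ) (a b : ℤ) (c M N R S V : ℕ) (P : Finset (ℕ × ℕ)) (f g : ℕ → ℂ), x0 ≤ x →
  |(b : ℝ)| ≤ x ^ ((9 : ℝ) / 10) → 1 ≤ c → (c : ℝ) ≤ x → Blk δ κ ε x M N R S →
  (N : ℝ) ≤ x ^ (1 / 2 - sg δ κ ε) → x ^ (yy δ κ ε + 4 * ε) ≤ 2 * V → (V : ℝ) ≤ x ^ (yy δ κ ε + κ + 4 * ε) →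
  Pr a b c R S (x ^ κ0) P → (∀ w ∈ P, (∃ v : ℕ, v ∣ w.2 ∧ V < v ∧ v ≤ 2 * V) ∧
    ∃ r0 : ℕ, r0 ∣ w.1 ∧ x ^ (4 * yy δ κ ε + 8 * ε) < r0 ∧ (r0 : ℝ) ≤ x ^ (4 * yy δ κ ε + 8 * ε + κ)) →
  (∀ m, ‖f m‖ ≤ 1) → (∀ n, ‖g n‖ ≤ 1) →
  ∑ w ∈ P, ‖∑ m ∈ Ioc M (2 * M), ∑ n ∈ Ioc N (2 * N), f m * g n * Dl a w.1 w.2 (m * n)‖ ≤ C * x ^ (1 - η)

/-- Module Bbt (theorem tBbt; one block, Type II). Uses: DspStmt, Bt2Stmt, BtaStmt.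
Proof. y = yy. (a) as in Bbo: R S^2/M ≤ x^y/8, H = ⌈x^(2y+ε)⌉, 2H < R, S ≤ 2 x^(1/2+δ+ε+κ)/N. N ≤ (M N)^(1/2) ≤ x^(1/2), so R ≤ x^(1/2-ε) and S ≥ x^(1/2-ε/2)/(4R) ≥ x^(ε/2)/4. Y0 = ⌈4 R S^2/M⌉ ≤ x^y and Y0 ≤ 4 R S^2/M + 1 (Y0 ≥ 1 since R S^2 > 0).
(b) Y0/S^2 ≤ 4 R/M + 1/S^2 ≤ 4 x^(-ε) + 16 x^(-ε) (R ≤ N x^(-ε) ≤ M x^(-ε)); Y0^2/R ≤ x^(2y) 2 x^(-1/3+2ε+κ) ≤ 2 x^(-ε); R^(1/2) Y0^2 S^4/N ≤ x^(2y) 16 x^(2+4δ+4ε+4κ) N^(-9/2) ≤ 16 x^(2y+4δ+4ε+4κ-1/4+(9/2) sg) (N ≥ x^(1/2-sg)) ≤ 16 x^(-ε)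
(8δ + 6κ + 10ε + 4.5 sg = 21.5δ + 15κ + 55ε ≤ 1/4 - ε). So B ≤ 7 C T^A M N x^(-ε/2). (c) As in Bbo (X = x^30): the square of the sum is ≤ C' T^A' (M N)^2 x^(-μ), μ = min(ε/2, κ0). -/
def BbtStmt : Prop := ∀ δ τ κ ε κ0 : ℝ, Par δ τ κ ε → 0 < κ0 → κ0 < κ → ∃ η C x0 : ℝ, 0 < η ∧
  ∀ (x : ℝ) (a b : ℤ) (c M N R S : ℕ) (P : Finset (ℕ × ℕ)) (f g : ℕ → ℂ), x0 ≤ x →
  |(b : ℝ)| ≤ x ^ ((9 : ℝ) / 10) → 1 ≤ c → (c : ℝ) ≤ x → Blk δ κ ε x M N R S →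
  x ^ (1 / 2 - sg δ κ ε) ≤ (N : ℝ) → Pr a b c R S (x ^ κ0) P →
  (∀ m, ‖f m‖ ≤ 1) → (∀ n, ‖g n‖ ≤ 1) →
  ∑ w ∈ P, ‖∑ m ∈ Ioc M (2 * M), ∑ n ∈ Ioc N (2 * N), f m * g n * Dl a w.1 w.2 (m * n)‖ ≤ C * x ^ (1 - η)

/-- Module Bds (theorem tBds; all blocks). Uses: BboStmt, BbtStmt, BgrStmt.
Proof. N ≤ (M N)^(1/2) ≤ x^(1/2). For q ∈ F apply Bgr with Z = N x^(-ε) and y = x^κ (t ≤ x^τ ≤ x^(1/3-2ε) ≤ Z < x^(1/2-ε/2) < q): r, t ∣ r ∣ q, N x^(-ε-κ) < r ≤ N x^(-ε); u = r/t, s = q/r ≥ x^(1/2-ε/2)/(N x^(-ε)) ≥ x^(ε/2) ≥ 2. R = 2^j < r ≤ 2^(j+1), S = 2^l < s ≤ 2^(l+1)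
(j, l ≤ 2 log x): Blk holds (R S < q ≤ x^(1/2+δ), 4 R S ≥ q > x^(1/2-ε/2)). Pr for P = {(r(q), s(q))}: the primes of s divide q/t (s ∣ q/t), Fr for q = r s. Case N > x^(1/2-sg): for each (j, l) apply Bbt to the set of the (r(q), s(q)) (q ↦ (r,s) is injective, q = r s).
Case N ≤ x^(1/2-sg): s ≥ x^(1/2+ε/2)/N ≥ x^(sg+ε/2) > x^(y+κ+4ε); Bgr for s with t = 1, Z = x^(y+κ+4ε): v ∣ s, x^(y+4ε) < v ≤ x^(y+κ+4ε), V = 2^i < v ≤ 2^(i+1). u = r/t ≥ N x^(-ε-κ)/x^τ ≥ x^(1/3-2ε-κ-τ) > x^(4y+8ε+κ); Bgr for u with t = 1, Z = x^(4y+8ε+κ):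
r0 ∣ u ∣ r, x^(4y+8ε) < r0 ≤ x^(4y+8ε+κ). For each (j, l, i) apply Bbo. At most (2 log x + 2)^3 blocks, ≤ C x^(η/2). -/
def BdsStmt : Prop := ∀ δ τ κ ε κ0 : ℝ, Par δ τ κ ε → 0 < κ0 → κ0 < κ → ∃ η C x0 : ℝ, 0 < η ∧
  ∀ (x : ℝ) (a b : ℤ) (c M N : ℕ) (f g : ℕ → ℂ) (F : Finset ℕ) (t : ℕ → ℕ), x0 ≤ x →
  |(b : ℝ)| ≤ x ^ ((9 : ℝ) / 10) → 1 ≤ c → (c : ℝ) ≤ x → N ≤ M → x ^ ((1 : ℝ) / 3 - ε) ≤ N →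
  x ^ (1 - ε) ≤ (M : ℝ) * N → (M : ℝ) * N ≤ x → (∀ m, ‖f m‖ ≤ 1) → (∀ n, ‖g n‖ ≤ 1) →
  (∀ q ∈ F, Md (1 / 2 + δ) τ κ κ0 x (t q) q ∧ Fr a b c q ∧ x ^ (1 / 2 - ε / 2) < (q : ℝ)) →
  ∃ u s : ℕ → ℕ, (∀ q ∈ F, q = t q * u q * s q ∧ ((t q * u q : ℕ) : ℝ) ≤ N * x ^ (-ε)) ∧
    ∑ q ∈ F, ‖∑ m ∈ Ioc M (2 * M), ∑ n ∈ Ioc N (2 * N), f m * g n * Dl a (t q * u q) (s q) (m * n)‖ ≤ C * x ^ (1 - η)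

/-- Module Bfi (theorem tBfi). FINAL STATEMENT BAllStmt (MI/Stm.lean). Uses: BdsStmt, BidStmt, BrmStmt, BlgStmt, LrgStmt, BtaStmt.
Proof. ε = min(1 - 86δ - 60κ, 1/3 - 8δ - 6κ - τ, 1)/1000: Par. Fix κ0. By symmetry (f, g exchanged, m n = n m) let N ≤ M. M ≤ x/N ≤ x^(2/3+ε). z = x^κ0, Z = ⌊x^κ0⌋ ≥ x^κ0/2, X = x^10, T = C x^e (Bta).
(1) q ∈ F with q ≤ x^(1/2-ε/2): LrgStmt with W = the pairs (t q, q/t q), D = ⌊x^(1/2-ε/2)⌋: ≤ C T^A x^(1/2) (2 x^(1/2-κ0) + 2 x^(1/3+ε) + x^(1/2-ε/2)).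
(2) The other q: Bds gives u, s; Ek a t q = Dl a (t u) s + (1/s) Ek a t (t u) + remainder (Bid with q = t u s). First part: Bds. Second: Blg with G = the triples (t, u, s) (q ↦ (t,u,s) injective), D = ⌊N x^(-ε)⌋ ≤ x^(1/2-ε) (the primes of u divide q/t, > x^κ0 ≥ Z). Third:
the norm of ∑_m ∑_n f g (remainder) is at most the sum of Bid's bounds: Brm, ≤ 3 T^6 x^(1-κ0) (primes of s divide q/t). With T ≤ C x^e, e small against κ0, ε: all ≤ C x^(1-η). -/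
def BfiStmt : Prop := BAllStmt

end Pool.Agent.Lib.MI
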