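import Pool.Agent.Lib.MI.Basic
import Pool.Agent.Lib.MI.Stm

/-!
MP_00e23e_nt, directory Lib/MI, chapter D (helper34): the dispersion method with the exact Fourier identity. Final statement
DspStmt (Lib/MI/Stm.lean).

RULES. Module X: file Pool/Agent/Lib/MI/X.lean, first line `import Pool.Agent.Lib.MI.SpecD`, then
`namespace Pool.Agent.Lib.MI` and `open Finset Pool.Agent.Lib.EH3 Pool.Agent.Lib.TB Pool.Agent.Results.MP_00e23e_nt`,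
private lemmas with names starting with X_, final theorem `theorem tX (h1 : AStmt) ... : XStmt`; the statements
listed under Uses are hypotheses of your theorem, in this order. The docstring contains a complete proof. Basic lemmas:
MI/Basic.lean (en_congr, en_add, conj_en, norm_en, en_mul_left, en_of_dvd, en_crt, iv_mul_mul, iv_dvd_dvd),
TB/Basic.lean (iv_dvd, iv_unique, iv_congr), EH3/LS1.lean (ee, GG, norm_GG_le, norm_GG_mul_le). Never use congr!.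
Every module below 60 s.
-/

namespace Pool.Agent.Lib.MI

open Finset Pool.Agent.Lib.EH3 Pool.Agent.Lib.TB Pool.Agent.Results.MP_00e23e_nt

/-- the tent weight for real functions -/
noncomputable def TR (M : ℕ) (F : ℕ → ℝ) : ℝ :=
  (4 / (M : ℝ)) * ∑ i ∈ range M, ∑ j ∈ range M, F (i + j + M / 2)

/-- the smoothed correlation of two discrepancies -/
noncomputable def Ph (a : ℤ) (M r s1 s2 n1 n2 : ℕ) : ℂ :=
  Ten M (fun m => Dl a r s1 (m * n1) * Dl a r s2 (m * n2))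

/-- good tuple with n1 ≡ n2 mod r -/
def GdC (a : ℤ) (r s1 s2 n1 n2 : ℕ) : Prop := Gd a r s1 s2 n1 n2 ∧ (r : ℤ) ∣ (n2 : ℤ) - n1

/-- bad tuple -/
def Bd (a : ℤ) (P : Finset (ℕ × ℕ)) (r s1 s2 n1 n2 : ℕ) : Prop :=
  (r, s1) ∈ P ∧ (r, s2) ∈ P ∧ ¬ GdC a r s1 s2 n1 n2

/-- the two parts of |Dl| -/
noncomputable def D1 (a : ℤ) (r s t : ℕ) : ℝ := if ((r * s : ℕ) : ℤ) ∣ (t : ℤ) - a then 1 else 0
noncomputable def D2 (a : ℤ) (r s t : ℕ) : ℝ := (1 / (s : ℝ)) * (if (r : ℤ) ∣ (t : ℤ) - a then 1 else 0)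

/-- the hypotheses on the sizes used for the bad terms -/
def Sz (X T z : ℝ) (b : ℤ) (c R S M N : ℕ) : Prop :=
  Tau X T ∧ 1 ≤ z ∧ 1 ≤ c ∧ 1 ≤ R ∧ 1 ≤ S ∧ 1 ≤ N ∧ 8 ≤ M ∧ R ≤ N ∧
    100 * (c : ℝ) * (M : ℝ) ^ 2 * (N : ℝ) ^ 2 * (R : ℝ) ^ 2 * (S : ℝ) ^ 4 ≤ X ∧ 4 * |b| < (M : ℤ) * N

/-! ### The Fourier identity -/

/-- Module Dfo (theorem tDfo; inclusion-exclusion). Uses: nothing.
Proof. K = r s1 s2. The sum over the h < K with s1 ∤ h and s2 ∤ h is the sum over all h minus the sum over s1 ∣ h minus the sum over s2 ∣ h plus the sum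
over s1 s2 ∣ h (s1, s2 coprime: s1 ∣ h and s2 ∣ h iff s1 s2 ∣ h). For a divisor e of K: the h < K with e ∣ h are e h', h' < K/e, and en (e h' z) K = en (h' z) (K/e)
(en_mul_left), so the sum is K/e if K/e ∣ z and 0 otherwise (geometric series; orth in EH3). Divide by K: 1/e [K/e ∣ z] for e = 1, s1, s2, s1 s2. -/
def DfoStmt : Prop := ∀ (r s1 s2 : ℕ) (z : ℤ), 1 ≤ r → 1 ≤ s1 → 1 ≤ s2 → s1.Coprime s2 →
  (1 / ((r * s1 * s2 : ℕ) : ℂ)) *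
      ∑ h ∈ (range (r * s1 * s2)).filter (fun h => ¬ s1 ∣ h ∧ ¬ s2 ∣ h), en ((h : ℤ) * z) (r * s1 * s2) =
    (if ((r * s1 * s2 : ℕ) : ℤ) ∣ z then 1 else 0) - (1 / (s2 : ℂ)) * (if ((r * s1 : ℕ) : ℤ) ∣ z then 1 else 0) -
      (1 / (s1 : ℂ)) * (if ((r * s2 : ℕ) : ℤ) ∣ z then 1 else 0) +
      (1 / ((s1 : ℂ) * (s2 : ℂ))) * (if (r : ℤ) ∣ z then 1 else 0)

/-- Module Dph (theorem tDph; the class ν and the phase). Uses: nothing.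
Proof. q1 = r s1 and s2 are coprime (r s2 squarefree gives (r, s2) = 1; s1, s2 coprime), both ≥ 1. Chinese remainder theorem: ν with q1 ∣ ν - a iv n1 q1 and s2 ∣ ν - a iv n2 s2
(e.g. ν = a iv n1 q1 (iv s2 q1) s2 + a iv n2 s2 (iv q1 s2) q1). Then q1 ∣ ν n1 - a (iv_dvd), s2 ∣ ν n2 - a, and r ∣ ν n2 - a because n2 ≡ n1 mod r; r, s2 coprime, so r s2 ∣ ν n2 - a.
en_crt: en (-(h ν)) (q1 s2) = en (-(h ν) iv s2 q1) q1 * en (-(h ν) iv q1 s2) s2, and ν iv s2 q1 ≡ a iv n1 q1 iv s2 q1 ≡ a iv (n1 s2) q1 mod q1 (iv_mul_mul), ν iv q1 s2 ≡ a iv n2 s2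
iv q1 s2 ≡ a iv (n2 q1) s2 mod s2. en_congr. -/
def DphStmt : Prop := ∀ (a : ℤ) (r s1 s2 n1 n2 : ℕ), GdC a r s1 s2 n1 n2 → ∃ ν : ℤ,
  ((r * s1 : ℕ) : ℤ) ∣ ν * n1 - a ∧ ((r * s2 : ℕ) : ℤ) ∣ ν * n2 - a ∧
    ∀ h : ℤ, en (-(h * ν)) (r * s1 * s2) = fz a h r s1 s2 n1 n2

/-- Module Did (theorem tDid; the exact identity). Uses: DfoStmt, DphStmt.
Proof. ν of Dph, z = m - ν. r s1 ∣ m n1 - a iff r s1 ∣ z (m n1 - a = z n1 + (ν n1 - a), n1 coprime to r s1); r ∣ m n1 - a iff r ∣ z; r s2 ∣ m n2 - a iff r s2 ∣ z; r ∣ m n2 - a iff r ∣ z.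
So Dl Dl = ([r s1 ∣ z] - (1/s1) [r ∣ z]) ([r s2 ∣ z] - (1/s2) [r ∣ z]) = [r s1 s2 ∣ z] - (1/s2) [r s1 ∣ z] - (1/s1) [r s2 ∣ z] + (1/(s1 s2)) [r ∣ z] (r s1 ∣ z and r s2 ∣ z iff r s1 s2 ∣ z since
s1, s2 are coprime: r s1 s2 is the lcm of r s1, r s2). Dfo, and en (h z) K = en (h m) K * en (-(h ν)) K = en (h m) K * fz. -/
def DidStmt : Prop := ∀ (a : ℤ) (r s1 s2 n1 n2 m : ℕ), GdC a r s1 s2 n1 n2 →
  Dl a r s1 (m * n1) * Dl a r s2 (m * n2) = (1 / ((r * s1 * s2 : ℕ) : ℂ)) *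
    ∑ h ∈ (range (r * s1 * s2)).filter (fun h => ¬ s1 ∣ h ∧ ¬ s2 ∣ h),
      en ((h : ℤ) * m) (r * s1 * s2) * fz a h r s1 s2 n1 n2

/-- Module Dgg (theorem tDgg; the tent transform). Uses: nothing.
Proof. en (h (i + j + M/2)) K = en (h (M/2)) K * ee (i (h/K)) * ee (j (h/K)), so Ten M (..) = (4/M) en (h (M/2)) K (GG M (h/K))^2 and its norm is (4/M) ‖GG M (h/K)‖^2 ≤ (4/M) M^2 (norm_GG_le).
If h ≠ 0 and 2|h| ≤ K then |h/K - round (h/K)| = |h|/K (for |t| ≤ 1/2 the distance to the nearest integer is |t|), so norm_GG_mul_le gives ‖GG‖ ≤ K/(2|h|) and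
(4/M) ‖GG‖^2 ≤ K^2/(M h^2). -/
def DggStmt : Prop := ∀ (M K : ℕ) (h : ℤ), 1 ≤ M → 1 ≤ K →
  ‖Ten M (fun m => en (h * m) K)‖ ≤ 4 * (M : ℝ) ∧
  (h ≠ 0 → 2 * |h| ≤ (K : ℤ) → ‖Ten M (fun m => en (h * m) K)‖ ≤ (K : ℝ) ^ 2 / ((M : ℝ) * (h : ℝ) ^ 2))

open Classical in
/-- Module Dta (theorem tDta; frequencies above H). Uses: DidStmt, DggStmt.
Proof. K = r s1 s2. By Did (and linearity of Ten) Ph = (1/K) ∑_{h < K, s1 ∤ h, s2 ∤ h} G(h), G(h) = Ten M (en (h m) K) * fz a h ..; G(h) depends only on h mod K (en_congr; r s1 ∣ K, s2 ∣ K) and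
so do the two conditions. Replace h < K by h' = h if 2h ≤ K and h' = h - K otherwise: 2|h'| ≤ K, h' ≠ 0 (s1 ∤ h). The h' with |h'| ≤ H are exactly the elements of the filtered Icc (-H) H
(2 H < K: distinct modulo K). The others: ‖G(h')‖ ≤ K^2/(M h'^2) (‖fz‖ = 1), every h' at most once, ∑_{|h'| > H} 1/h'^2 ≤ 2/H (∑_{h > H} 1/h^2 ≤ 1/H by
1/h^2 ≤ 1/(h-1) - 1/h). So the difference is ≤ (1/K) (K^2/M) (2/H) = 2K/(M H). -/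
def DtaStmt : Prop := ∀ (a : ℤ) (M H r s1 s2 n1 n2 : ℕ), GdC a r s1 s2 n1 n2 → 1 ≤ M → 1 ≤ H → 2 * H < r * s1 * s2 →
  ‖Ph a M r s1 s2 n1 n2 - (1 / ((r * s1 * s2 : ℕ) : ℂ)) *
      ∑ h ∈ (Icc (-(H : ℤ)) H).filter (fun h => ¬ (s1 : ℤ) ∣ h ∧ ¬ (s2 : ℤ) ∣ h),
        Ten M (fun m => en (h * m) (r * s1 * s2)) * fz a h r s1 s2 n1 n2‖ ≤
    2 * ((r : ℝ) * s1 * s2) / ((M : ℝ) * H)

/-- Module Dsy (theorem tDsy; symmetry). Uses: DphStmt.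
Proof. GdC is symmetric (Nat.Coprime.symm, dvd_sub_comm). Dph for both tuples gives ν, ν'. Both satisfy r s1 ∣ ν n1 - a, r s2 ∣ ν n2 - a (for the second tuple the two conditions are exchanged), so
r s1 ∣ (ν - ν') n1 and r s2 ∣ (ν - ν') n2, hence r s1 ∣ ν - ν', s2 ∣ ν - ν', r s1 s2 ∣ ν - ν' (coprime), en_congr and r * s2 * s1 = r * s1 * s2. -/
def DsyStmt : Prop := ∀ (a h : ℤ) (r s1 s2 n1 n2 : ℕ), GdC a r s1 s2 n1 n2 →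
  GdC a r s2 s1 n2 n1 ∧ fz a h r s1 s2 n1 n2 = fz a h r s2 s1 n2 n1

/-! ### Cauchy's inequality -/

/-- Module Dtr (theorem tDtr; the tent weight). Uses: nothing.
Proof. TR M F = (4/M) ∑_m N(m) F(m), N(m) = number of (i,j), i, j < M, i + j + M/2 = m (a sum over m ∈ Icc (M/2) (3M)); N(m) ≤ M (i determines j). For M < m ≤ 2M put t = m - M/2:
M/2 + 1 ≤ t ≤ 2M - M/2 ≤ (3M + 1)/2. N(m) is at least the number of i with t - (M - 1) ≤ i ≤ min(t, M - 1), i.e. of the i ∈ [t - M + 1, M - 1] if t ≥ M - 1: 2M - 1 - t ≥ M/2 - 3/2 ≥ M/4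
(M ≥ 8: M/4 ≥ 3/2... since 2M - 1 - t ≥ 2M - 1 - (3M+1)/2 = (M - 3)/2 ≥ M/4 for M ≥ 6), and of the i ∈ [0, t] if t < M - 1: t + 1 ≥ M/2. So (4/M) N(m) ≥ 1. -/
def DtrStmt : Prop := ∀ (M : ℕ) (F : ℕ → ℝ), 8 ≤ M → (∀ m, 0 ≤ F m) →
  ∑ m ∈ Ioc M (2 * M), F m ≤ TR M F ∧ TR M F ≤ 4 * ∑ m ∈ Icc (M / 2) (3 * M), F m

/-- Module Dca (theorem tDca; Cauchy). Uses: DtrStmt.
Proof. For w ∈ P choose c w with ‖c w‖ = 1 and c w * Z_w = ‖Z_w‖, Z_w = ∑_m ∑_n α β Dl (c w = 1 if Z_w = 0), c w = 0 outside P. The sum is ∑_{r ∈ Ioc R 2R} ∑_{m ∈ Ioc M 2M} α m B(r,m),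
B(r,m) = ∑_{s ∈ Ioc S 2S} c (r,s) ∑_n β n Dl a r s (m n) (group the w ∈ P by r = w.1, s = w.2). By Cauchy over the pairs (r,m) (R M of them, ‖α‖ ≤ 1) its square is ≤ R M ∑_r ∑_{m ∈ Ioc M 2M} ‖B(r,m)‖^2 ≤
R M ∑_r TR M (‖B(r,·)‖^2). -/
def DcaStmt : Prop := ∀ (a : ℤ) (R S M N : ℕ) (P : Finset (ℕ × ℕ)) (α β : ℕ → ℂ), 8 ≤ M →
  (∀ w ∈ P, R < w.1 ∧ w.1 ≤ 2 * R ∧ S < w.2 ∧ w.2 ≤ 2 * S) → (∀ m, ‖α m‖ ≤ 1) →
  ∃ c : ℕ × ℕ → ℂ, (∀ w, ‖c w‖ ≤ 1) ∧ (∀ w, w ∉ P → c w = 0) ∧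
    (∑ w ∈ P, ‖∑ m ∈ Ioc M (2 * M), ∑ n ∈ Ioc N (2 * N), α m * β n * Dl a w.1 w.2 (m * n)‖) ^ 2 ≤
      (R : ℝ) * M * ∑ r ∈ Ioc R (2 * R), TR M (fun m =>
        ‖∑ s ∈ Ioc S (2 * S), c (r, s) * ∑ n ∈ Ioc N (2 * N), β n * Dl a r s (m * n)‖ ^ 2)

open Classical in
/-- Module Dex (theorem tDex; opening the square). Uses: nothing.
Proof. ‖B‖^2 = B conj B, conj (Dl a r s t) = Dl a r s t (real), so (as complex numbers) the left side is ∑_r ∑_{s1,s2} ∑_{n1,n2} c(r,s1) conj c(r,s2) β n1 conj (β n2) Ph a M r s1 s2 n1 n2. Split the tuples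
into those with GdC and the others; the others with a nonzero coefficient have (r,s1), (r,s2) ∈ P, so they are Bd, and their coefficients have norm ≤ 1. The left side is real: it is ≤ the norm of the sum. -/
def DexStmt : Prop := ∀ (a : ℤ) (R S M N : ℕ) (P : Finset (ℕ × ℕ)) (β : ℕ → ℂ) (c : ℕ × ℕ → ℂ), 8 ≤ M →
  (∀ n, ‖β n‖ ≤ 1) → (∀ w, ‖c w‖ ≤ 1) → (∀ w, w ∉ P → c w = 0) →
  ∑ r ∈ Ioc R (2 * R), TR M (fun m =>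
      ‖∑ s ∈ Ioc S (2 * S), c (r, s) * ∑ n ∈ Ioc N (2 * N), β n * Dl a r s (m * n)‖ ^ 2) ≤
    ‖∑ r ∈ Ioc R (2 * R), ∑ s1 ∈ Ioc S (2 * S), ∑ s2 ∈ Ioc S (2 * S), ∑ n1 ∈ Ioc N (2 * N), ∑ n2 ∈ Ioc N (2 * N),
      (if GdC a r s1 s2 n1 n2 then
        c (r, s1) * (starRingEnd ℂ) (c (r, s2)) * (β n1 * (starRingEnd ℂ) (β n2)) * Ph a M r s1 s2 n1 n2 else 0)‖ +
    ∑ r ∈ Ioc R (2 * R), ∑ s1 ∈ Ioc S (2 * S), ∑ s2 ∈ Ioc S (2 * S), ∑ n1 ∈ Ioc N (2 * N), ∑ n2 ∈ Ioc N (2 * N),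
      (if Bd a P r s1 s2 n1 n2 then ‖Ph a M r s1 s2 n1 n2‖ else 0)

/-! ### The bad terms -/

open Classical in
/-- Module Dnd (theorem tDnd; the divisor bound). Uses: nothing.
Proof. Z = c m n - b. m ≥ M/2 ≥ (M - 1)/2 ≥ (7/16) M, n > N, c ≥ 1: c m n > 7/16 M N > |b| (4|b| < M N), so Z ≥ 1 and Z ≤ c (3M)(2N) + M N ≤ 7 c M N ≤ X. (1) If w ∈ P and w.1 w.2 ∣ m n - a then
w.1 w.2 ∣ c (m n - a) + (c a - b) = Z (Fr in Pr), so w.1, w.2 ∈ Z.natAbs.divisors: at most T^2 pairs. (2) If r = w.1 for a w ∈ P and r ∣ m n - a then r ∣ Z: at most T values of r. -/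
def DndStmt : Prop := ∀ (X T z : ℝ) (a b : ℤ) (c R S M N m n : ℕ) (P : Finset (ℕ × ℕ)), Sz X T z b c R S M N →
  Pr a b c R S z P → M / 2 ≤ m → m ≤ 3 * M → N < n → n ≤ 2 * N →
  ((P.filter (fun w => ((w.1 * w.2 : ℕ) : ℤ) ∣ ((m * n : ℕ) : ℤ) - a)).card : ℝ) ≤ T ^ 2 ∧
  (((P.image Prod.fst).filter (fun r : ℕ => (r : ℤ) ∣ ((m * n : ℕ) : ℤ) - a)).card : ℝ) ≤ T

open Classical in
/-- Module Dpr (theorem tDpr). Uses: nothing.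
Proof. If s is not coprime to Z there is a prime p ∣ Z, p ∣ s, and z < p by the hypothesis on s. Z has at most τ(Z) ≤ T prime factors; for each p > z the number of s ∈ Ioc S 2S with p ∣ s is ≤ 2S/p ≤ 2S/z,
and 1/s ≤ 1/S. Total ≤ T (2S/z)/S. -/
def DprStmt : Prop := ∀ (X T z : ℝ) (S Z : ℕ), Tau X T → 1 ≤ z → 1 ≤ S → 1 ≤ Z → (Z : ℝ) ≤ X →
  ∑ s ∈ (Ioc S (2 * S)).filter (fun s => (∀ p : ℕ, p.Prime → p ∣ s → z < p) ∧ ¬ s.Coprime Z), 1 / (s : ℝ) ≤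
    2 * T / z

open Classical in
/-- Module Dea (theorem tDea; both full). Uses: DndStmt.
Proof. A nonzero term has r s1 ∣ m n1 - a, r s2 ∣ m n2 - a, Fr: gcd (a, r s_i) = 1 so m, n1 are coprime to r s1, m, n2 coprime to r s2, and r ∣ m (n2 - n1) gives r ∣ n2 - n1; squarefreeness and gcd's of a hold by Pr, so Bd
forces s1, s2 not coprime: a prime p divides both, p > z, and r p ∣ m n1 - a, m n2 - a, so r p ∣ n2 - n1. Count: (m, n1): at most (3M + 1) N ≤ 4 M N; then (r, s1) ∈ P: at most T^2 (Dnd); then p ∣ s1: at most T (prime divisors of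
s1 ≤ 2S ≤ X); then n2 ∈ Ioc N 2N with r p ∣ n2 - n1: at most N/(r p) + 1 ≤ N/(R z) + 1; then s2: (r, s2) ∈ P with r s2 ∣ m n2 - a: at most T^2 (Dnd). Total ≤ 4 M N T^5 (N/(R z) + 1). -/
def DeaStmt : Prop := ∀ (X T z : ℝ) (a b : ℤ) (c R S M N : ℕ) (P : Finset (ℕ × ℕ)), Sz X T z b c R S M N →
  Pr a b c R S z P →
  ∑ m ∈ Icc (M / 2) (3 * M), ∑ r ∈ Ioc R (2 * R), ∑ s1 ∈ Ioc S (2 * S), ∑ s2 ∈ Ioc S (2 * S),
    ∑ n1 ∈ Ioc N (2 * N), ∑ n2 ∈ Ioc N (2 * N),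
      (if Bd a P r s1 s2 n1 n2 then D1 a r s1 (m * n1) * D1 a r s2 (m * n2) else 0) ≤
    4 * T ^ 5 * ((M : ℝ) * N * (1 + N / ((R : ℝ) * z)))

open Classical in
/-- Module Deb (theorem tDeb; first full, second averaged). Uses: DndStmt, DprStmt.
Proof. A nonzero term has r s1 ∣ m n1 - a and r ∣ m n2 - a: m, n1 coprime to r s1, n2 coprime to r, r ∣ n2 - n1. Bd forces: s1, s2 not coprime or n2, s2 not coprime, i.e. s2 not coprime to Z = s1 n2 (1 ≤ Z ≤ 4 S N ≤ X).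
Count: (m, n1): ≤ 4 M N; (r, s1) ∈ P: ≤ T^2 (Dnd); n2 with r ∣ n2 - n1: ≤ N/R + 1; the sum over s2 of 1/s2 (all primes of s2 are > z by Pr): ≤ 2T/z (Dpr). Total ≤ 8 M N T^3 (N/R + 1)/z and
(N/R + 1)/z ≤ 1 + N/(R z) (z ≥ 1). -/
def DebStmt : Prop := ∀ (X T z : ℝ) (a b : ℤ) (c R S M N : ℕ) (P : Finset (ℕ × ℕ)), Sz X T z b c R S M N →
  Pr a b c R S z P →
  ∑ m ∈ Icc (M / 2) (3 * M), ∑ r ∈ Ioc R (2 * R), ∑ s1 ∈ Ioc S (2 * S), ∑ s2 ∈ Ioc S (2 * S),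
    ∑ n1 ∈ Ioc N (2 * N), ∑ n2 ∈ Ioc N (2 * N),
      (if Bd a P r s1 s2 n1 n2 then D1 a r s1 (m * n1) * D2 a r s2 (m * n2) else 0) ≤
    8 * T ^ 3 * ((M : ℝ) * N * (1 + N / ((R : ℝ) * z)))

open Classical in
/-- Module Dec (theorem tDec; both averaged). Uses: DndStmt, DprStmt.
Proof. A nonzero term has r ∣ m n1 - a, r ∣ m n2 - a: n1, n2, m coprime to r, r ∣ n2 - n1. Bd forces: s1, s2 not coprime, or n1, s1 not coprime, or n2, s2 not coprime. Count: (m, n1): ≤ 4 M N; r ∈ P.image fst with r ∣ m n1 - a: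
≤ T (Dnd); n2: ≤ N/R + 1; the sum over (s1, s2) of 1/(s1 s2): ∑_{s ∈ Ioc S 2S} 1/s ≤ 1, Dpr with Z = s1, Z = n1, Z = n2: each case ≤ 2T/z, total ≤ 6T/z. Total ≤ 24 M N T^2 (N/R + 1)/z. -/
def DecStmt : Prop := ∀ (X T z : ℝ) (a b : ℤ) (c R S M N : ℕ) (P : Finset (ℕ × ℕ)), Sz X T z b c R S M N →
  Pr a b c R S z P →
  ∑ m ∈ Icc (M / 2) (3 * M), ∑ r ∈ Ioc R (2 * R), ∑ s1 ∈ Ioc S (2 * S), ∑ s2 ∈ Ioc S (2 * S),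
    ∑ n1 ∈ Ioc N (2 * N), ∑ n2 ∈ Ioc N (2 * N),
      (if Bd a P r s1 s2 n1 n2 then D2 a r s1 (m * n1) * D2 a r s2 (m * n2) else 0) ≤
    24 * T ^ 2 * ((M : ℝ) * N * (1 + N / ((R : ℝ) * z)))

open Classical in
/-- Module Dba (theorem tDba; the bad terms). Uses: DtrStmt, DeaStmt, DebStmt, DecStmt.
Proof. ‖Dl a r s t‖ ≤ D1 a r s t + D2 a r s t, so ‖Ph‖ ≤ TR M (fun m => (D1 + D2)(s1, m n1) (D1 + D2)(s2, m n2)) ≤ 4 ∑_{m ∈ Icc (M/2) 3M} (..) (Dtr). Sum over the bad tuples and exchange the sums: four products, D1 D1 (Dea), D1 D2 (Deb),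
D2 D1 (Deb after exchanging (s1, n1) and (s2, n2): Bd is symmetric in this exchange, GdC is), D2 D2 (Dec). 4 (4 + 8 + 8 + 24) = 176 ≤ 200, T ≥ 1. -/
def DbaStmt : Prop := ∀ (X T z : ℝ) (a b : ℤ) (c R S M N : ℕ) (P : Finset (ℕ × ℕ)), Sz X T z b c R S M N →
  Pr a b c R S z P →
  ∑ r ∈ Ioc R (2 * R), ∑ s1 ∈ Ioc S (2 * S), ∑ s2 ∈ Ioc S (2 * S), ∑ n1 ∈ Ioc N (2 * N), ∑ n2 ∈ Ioc N (2 * N),
      (if Bd a P r s1 s2 n1 n2 then ‖Ph a M r s1 s2 n1 n2‖ else 0) ≤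
    200 * T ^ 5 * ((M : ℝ) * N * (1 + N / ((R : ℝ) * z)))

/-! ### The good terms -/

open Classical in
/-- the coefficients of the main part -/
noncomputable def ga (c : ℕ × ℕ → ℂ) (M H : ℕ) (h : ℤ) (r s1 s2 : ℕ) : ℂ :=
  if |h| ≤ (H : ℤ) ∧ ¬ (s1 : ℤ) ∣ h ∧ ¬ (s2 : ℤ) ∣ h then
    c (r, s1) * (starRingEnd ℂ) (c (r, s2)) * ((1 / ((r * s1 * s2 : ℕ) : ℂ)) * Ten M (fun m => en (h * m) (r * s1 * s2)))
  else 0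

/-- Module Dco (theorem tDco; the coefficients are admissible). Uses: DggStmt.
Proof. ga at h = 0 vanishes (s1 ∣ 0); ga ≠ 0 implies c (r,s1) ≠ 0 ≠ c (r,s2), so both pairs are in P, hence R < r ≤ 2R, S < s_i ≤ 2S and K = r s1 s2 satisfies R S^2 ≤ K ≤ 8 R S^2, 2|h| ≤ 2H < R ≤ K. Norm: ≤ ‖Ten‖/K ≤ 4M/K ≤ 4M/(R S^2)
and ≤ K/(M h^2) ≤ 8 R S^2/(M h^2) ≤ (4M/(R S^2)) (4 R S^2/(M |h|))^2 = 64 R S^2/(M h^2). (If ga = 0 the right side is ≥ 0.) The second family is ga with the roles of s1, s2 exchanged: same proof. -/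
def DcoStmt : Prop := ∀ (R S M H : ℕ) (P : Finset (ℕ × ℕ)) (c : ℕ × ℕ → ℂ), 1 ≤ R → 1 ≤ S → 1 ≤ M → 2 * H < R →
  (∀ w ∈ P, R < w.1 ∧ w.1 ≤ 2 * R ∧ S < w.2 ∧ w.2 ≤ 2 * S) → (∀ w, ‖c w‖ ≤ 1) → (∀ w, w ∉ P → c w = 0) →
  Cf P R S M (ga c M H) ∧ Cf P R S M (fun h r s1 s2 => ga c M H h r s2 s1)

open Classical in
/-- Module Dspn (theorem tDspn; n2 = n1 ± k r). Uses: nothing.
Proof. R < r, n1, n2 ∈ Ioc N 2N, r ∣ n2 - n1. If n2 ≥ n1 then n2 = n1 + k r with k r < N, k ≤ N/R (natural division: k R < k r < N for k ≥ 1). If n2 < n1 then n1 = n2 + k r with 1 ≤ k ≤ N/R. Both maps are bijections onto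
the index sets on the right. -/
def DspnStmt : Prop := ∀ (R r N : ℕ) (F : ℕ → ℕ → ℂ), 1 ≤ R → R < r →
  ∑ n1 ∈ Ioc N (2 * N), ∑ n2 ∈ Ioc N (2 * N), (if (r : ℤ) ∣ (n2 : ℤ) - n1 then F n1 n2 else 0) =
    ∑ k ∈ range (N / R + 1), ∑ n ∈ Ioc N (2 * N), (if n + k * r ≤ 2 * N then F n (n + k * r) else 0) +
    ∑ k ∈ Icc 1 (N / R), ∑ n ∈ Ioc N (2 * N), (if n + k * r ≤ 2 * N then F (n + k * r) n else 0)

open Classical in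
/-- Module Dgm (theorem tDgm; the main part). Uses: DcoStmt, DspnStmt, DsyStmt.
Proof. For r ∈ Ioc R 2R and fixed s1, s2 apply Dspn with F n1 n2 = if Gd a r s1 s2 n1 n2 then β n1 conj (β n2) fz a h r s1 s2 n1 n2 else 0. The first part gives, for every k ∈ range (N/R + 1), ∑_h TT a h k R S N (ga c M H h) ω_k with
ω_k r n = if n + k r ≤ 2N then β n conj (β (n + k r)) else 0 (note (r : ℤ) ∣ (n + k r) - n). In the second part F (n + k r) n: by Dsy Gd a r s1 s2 (n + k r) n iff Gd a r s2 s1 n (n + k r) and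
fz a h r s1 s2 (n + k r) n = fz a h r s2 s1 n (n + k r); exchanging the names of s1 and s2 it is ∑_h TT a h k R S N (fun r s1 s2 => ga c M H h r s2 s1) ω'_k with ω'_k r n = if n + k r ≤ 2N then β (n + k r) conj (β n) else 0. All
these sums have norm ≤ B by hypothesis (Dco). Number of k: (N/R + 1) + N/R ≤ 2 (N/R + 1) ≤ 4 N/R in real numbers (R ≤ N). The condition of the filter is contained in ga. -/
def DgmStmt : Prop := ∀ (B : ℝ) (a : ℤ) (R S M N H : ℕ) (P : Finset (ℕ × ℕ)) (β : ℕ → ℂ) (c : ℕ × ℕ → ℂ),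
  0 ≤ B → 1 ≤ R → 1 ≤ S → 1 ≤ N → 8 ≤ M → R ≤ N → 2 * H < R →
  (∀ w ∈ P, R < w.1 ∧ w.1 ≤ 2 * R ∧ S < w.2 ∧ w.2 ≤ 2 * S) → (∀ n, ‖β n‖ ≤ 1) → (∀ w, ‖c w‖ ≤ 1) →
  (∀ w, w ∉ P → c w = 0) →
  (∀ (k : ℕ) (γ : ℤ → ℕ → ℕ → ℕ → ℂ) (ω : ℕ → ℕ → ℂ), Cf P R S M γ → (∀ r n, ‖ω r n‖ ≤ 1) →
    ‖∑ h ∈ Icc (-(H : ℤ)) H, TT a h k R S N (γ h) ω‖ ≤ B) →
  ‖∑ h ∈ Icc (-(H : ℤ)) H, ∑ r ∈ Ioc R (2 * R), ∑ s1 ∈ Ioc S (2 * S), ∑ s2 ∈ Ioc S (2 * S),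
    ∑ n1 ∈ Ioc N (2 * N), ∑ n2 ∈ Ioc N (2 * N), (if GdC a r s1 s2 n1 n2 then
      ga c M H h r s1 s2 * (β n1 * (starRingEnd ℂ) (β n2)) * fz a h r s1 s2 n1 n2 else 0)‖ ≤ 4 * N / R * B

open Classical in
/-- Module Dgo (theorem tDgo; the good terms). Uses: DtaStmt, DgmStmt.
Proof. For a tuple with GdC and c(r,s1) ≠ 0 ≠ c(r,s2) (so R < r ≤ 2R, S < s_i ≤ 2S, 2H < R ≤ K = r s1 s2 ≤ 8 R S^2) Dta: Ph = (1/K) ∑_{h ∈ filtered Icc} Ten fz + O(2K/(M H)), 2K/(M H) ≤ 16 R S^2/(M H). Multiplied by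
c(r,s1) conj c(r,s2) β n1 conj (β n2): the main term is the sum over h ∈ Icc (-H) H of ga c M H h r s1 s2 β conj β fz: total ≤ 4 N/R B by Dgm. The number of tuples with GdC: r: R, (s1, s2): S^2, n1: N, n2 ≡ n1 mod r: N/r + 1 ≤ 2N/R (R ≤ N):
≤ 2 S^2 N^2, so the error is ≤ 32 R S^4 N^2/(M H). -/
def DgoStmt : Prop := ∀ (B : ℝ) (a : ℤ) (R S M N H : ℕ) (P : Finset (ℕ × ℕ)) (β : ℕ → ℂ) (c : ℕ × ℕ → ℂ),
  0 ≤ B → 1 ≤ R → 1 ≤ S → 1 ≤ N → 8 ≤ M → 1 ≤ H → R ≤ N → 2 * H < R →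
  (∀ w ∈ P, R < w.1 ∧ w.1 ≤ 2 * R ∧ S < w.2 ∧ w.2 ≤ 2 * S) → (∀ n, ‖β n‖ ≤ 1) → (∀ w, ‖c w‖ ≤ 1) →
  (∀ w, w ∉ P → c w = 0) →
  (∀ (k : ℕ) (γ : ℤ → ℕ → ℕ → ℕ → ℂ) (ω : ℕ → ℕ → ℂ), Cf P R S M γ → (∀ r n, ‖ω r n‖ ≤ 1) →
    ‖∑ h ∈ Icc (-(H : ℤ)) H, TT a h k R S N (γ h) ω‖ ≤ B) →
  ‖∑ r ∈ Ioc R (2 * R), ∑ s1 ∈ Ioc S (2 * S), ∑ s2 ∈ Ioc S (2 * S), ∑ n1 ∈ Ioc N (2 * N), ∑ n2 ∈ Ioc N (2 * N),
      (if GdC a r s1 s2 n1 n2 then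
        c (r, s1) * (starRingEnd ℂ) (c (r, s2)) * (β n1 * (starRingEnd ℂ) (β n2)) * Ph a M r s1 s2 n1 n2 else 0)‖ ≤
    4 * N / R * B + 32 * ((R : ℝ) * (S : ℝ) ^ 4 * (N : ℝ) ^ 2) / ((M : ℝ) * H)

/-- Module Dfi (theorem tDfi). FINAL STATEMENT DspStmt (MI/Stm.lean). Uses: DcaStmt, DexStmt, DbaStmt, DgoStmt.
Proof. 2H < R gives R ≥ 3. If P is empty: 0. Dca, Dex, Dba (Sz from the hypotheses), Dgo: the square is ≤ R M (4 N/R B + 32 R S^4 N^2/(M H) + 200 T^5 M N (1 + N/(R z))) =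
4 M N B + 32 R^2 S^4 N^2/H + 200 T^5 (R M^2 N + M^2 N^2/z). C = 200, A = 5, T ≥ 1. -/
def DfiStmt : Prop := DspStmt

end Pool.Agent.Lib.MI
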