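import Pool.Agent.Lib.MI.Stm
import Pool.Agent.Lib.MI.Basic
import Pool.Agent.Lib.MI.SpecA
import Pool.Agent.Lib.BV.SpecE
import Pool.Agent.Lib.KF.SpecF

/-!
MP_00e23e_nt, directory Lib/MI, chapter F (helper6): from CoreStmt (von Mangoldt function, one fraction b/c, one Y) to
MIAt: FAllStmt (Lib/MI/Stm.lean): prime powers, Abel summation, one residue for all moduli (CRT), the union over
the x^η fractions, a grid for the y(d), Bombieri-Vinogradov modulo t.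

RULES. Module X: file Pool/Agent/Lib/MI/X.lean, first line `import Pool.Agent.Lib.MI.SpecF`, then
`namespace Pool.Agent.Lib.MI` and `open Finset Pool.Agent.Lib.EH3 Pool.Agent.Lib.TB Pool.Agent.Results.MP_00e23e_nt`,
private lemmas with names starting with X_, final theorem `theorem tX (h1 : AStmt) ... : XStmt`; the statements listed
under Uses are hypotheses of your theorem, in this order. The docstring contains a complete proof. resCount, resErr: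
Lib/KF/Defs.lean; li, maxErr: Lib/EH/Defs.lean, lemmas in Lib/EH/Basic.lean (le_totient, card_primeFactors_le, maxErr_le,
li_le). The constants are generous: any proof of the statement is welcome. Every module below 60 s.
-/

namespace Pool.Agent.Lib.MI

open Finset Pool.Agent.Lib.EH3 Pool.Agent.Lib.TB Pool.Agent.Results.MP_00e23e_nt

/-- the difference π(y;d,s) - π(y;t,s)/φ(d/t) -/
noncomputable def df (y : ℝ) (d t : ℕ) (s : ℤ) : ℝ :=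
  (resCount y d s : ℝ) - (resCount y t s : ℝ) / ((d / t).totient : ℝ)

/-- Module Ftn (theorem tFtn; sums of 1/φ). Uses: nothing.
Proof. u ≤ (ω(u) + 1) φ(u) ≤ (1 + 2 log u) φ(u) (EH.le_totient, EH.card_primeFactors_le), so 1/φ(u) ≤ (1 + 2 log x)/u for 1 ≤ u ≤ x, ∑ 1/u ≤ 1 + log x, and log x ≥ 1:
the first sum is ≤ (1 + 2 log x)(1 + log x) ≤ 6 (log x)². Second: for a set F of d with t d ∣ d the map d ↦ (t d, d/t d) is injective on F (d = t d · (d/t d), d ≥ 1), with values in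
Icc 1 ⌊Z⌋ × Icc 1 ⌊x⌋ if t d ≤ Z, d ≤ x: ∑_{d ∈ F} g(t d)/φ(d/t d) ≤ ∑_{t ≤ Z} g(t) ∑_{u ≤ x} 1/φ(u) for every g ≥ 0. -/
def FtnStmt : Prop := (∀ x : ℝ, 3 ≤ x → ∑ u ∈ Icc 1 ⌊x⌋₊, 1 / (u.totient : ℝ) ≤ 6 * Real.log x ^ 2) ∧
  ∀ (x Z : ℝ) (F : Finset ℕ) (t : ℕ → ℕ) (g : ℕ → ℝ), 3 ≤ x → (∀ n, 0 ≤ g n) →
    (∀ d ∈ F, 1 ≤ d ∧ t d ∣ d ∧ (d : ℝ) ≤ x ∧ (t d : ℝ) ≤ Z) →
    ∑ d ∈ F, g (t d) / ((d / t d).totient : ℝ) ≤ 6 * Real.log x ^ 2 * ∑ n ∈ Icc 1 ⌊Z⌋₊, g n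

/-- Module Ftp (theorem tFtp; prime powers). Uses: nothing.
Proof. The sum is ψ(Y) - θ(Y) (Mathlib: Chebyshev.abs_psi_sub_theta_le_sqrt_mul_log, or crude: the n with Λ(n) ≠ 0, n not prime, are p^k with k ≥ 2, p ≤ √Y, k ≤ log Y/log 2, at most
√Y (1 + 2 log Y) of them, Λ(n) ≤ log Y). Y = 0, 1: the sum is 0. -/
def FtpStmt : Prop := ∃ C : ℝ, 0 ≤ C ∧ ∀ Y : ℕ, ∑ n ∈ (Icc 1 Y).filter (fun n => ¬ n.Prime), ArithmeticFunction.vonMangoldt n ≤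
  C * (Real.sqrt Y * (Real.log Y) ^ 2)

/-- Module Fth (theorem tFth; from Λ to the primes with weights log p). Uses: FtpStmt, FtnStmt, AtuStmt (Lib/MI/SpecA.lean). (CoreStmt α τ κ is a hypothesis inside.)
Proof. η1, C1, x1 from CoreStmt (C1 replaced by |C1|). T = C x^(1/100) from AtuStmt (e = 1/100, A = 3): Tau (x^3) T. For q ∈ F: ∑_{n ≤ Y} Λ(n) Ek = ∑_p log p Ek(p) + ∑_{n ∈ N} Λ(n) Ek(n), N = the
non-primes of Icc 1 Y (Λ(p) = log p), and ‖Ek a t q n‖ ≤ [q ∣ n - a] + [t ∣ n - a]/φ(q/t). First part, summed over q ∈ F: q ∣ n - a and q ∣ c a - b give q ∣ c n - b; if c n ≠ b the number of q ∈ F is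
≤ τ(|c n - b|) ≤ T (|c n - b| ≤ x² + x ≤ x³); at most one n has c n = b (c ≥ 1), it contributes ≤ Λ(n) card F ≤ T x^(3/5): total ≤ T ∑_{n ∈ N} Λ(n) + T x^(3/5) ≤ T C √x (log x)² + T x^(3/5).
Second part: ≤ ∑_{q ∈ F} (1/φ(q/t q)) ∑_{n ∈ N} Λ(n) ≤ 6 (log x)² x^(1/3) C √x (log x)² (FtnStmt, second part with g = 1, Z = x^(1/3)). Exponents 1/2 + 1/100, 3/5 + 1/100, 5/6 < 9/10:
η = min(η1, 1/10). -/
def FthStmt : Prop := ∀ α τ κ κ0 : ℝ, α ≤ 3 / 5 → 0 ≤ τ → τ ≤ 1 / 3 → CoreStmt α τ κ → 0 < κ0 → κ0 < κ →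
  ∃ η C x0 : ℝ, 0 < η ∧ 0 ≤ C ∧ 3 ≤ x0 ∧ ∀ (x : ℝ) (a b : ℤ) (c Y : ℕ) (F : Finset ℕ) (t : ℕ → ℕ), x0 ≤ x →
  |(b : ℝ)| ≤ x ^ ((9 : ℝ) / 10) → 1 ≤ c → (c : ℝ) ≤ x → (Y : ℝ) ≤ x →
  (∀ q ∈ F, Md α τ κ κ0 x (t q) q ∧ Fr a b c q) →
  ∑ q ∈ F, ‖∑ p ∈ (Icc 1 Y).filter Nat.Prime, ((Real.log p : ℝ) : ℂ) * Ek a (t q) q p‖ ≤ C * x ^ (1 - η)

/-- Module Fab (theorem tFab; Abel summation). Uses: nothing.
Proof. n = 0: 0 ≤ G. Θ_q(n) = ∑_{p ≤ n} log p f q p. For Y ≥ 2: ∑_{p ≤ Y} f q p = Θ_q(Y)/log Y + ∑_{n=2}^{Y-1} Θ_q(n) (1/log n - 1/log(n+1)). Norms, sum over q: ≤ G (1/log Y + 1/log 2 - 1/log Y) =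
G/log 2 ≤ 3 G (log 2 > 0.69). Y ≤ 1: no primes. (Compare module Abl of Lib/CO/SpecV.lean.) -/
def FabStmt : Prop := ∀ (F : Finset ℕ) (f : ℕ → ℕ → ℂ) (Y : ℕ) (G : ℝ),
  (∀ n : ℕ, n ≤ Y → ∑ q ∈ F, ‖∑ p ∈ (Icc 1 n).filter Nat.Prime, ((Real.log p : ℝ) : ℂ) * f q p‖ ≤ G) →
  ∑ q ∈ F, ‖∑ p ∈ (Icc 1 Y).filter Nat.Prime, f q p‖ ≤ 3 * G

/-- Module Fpi (theorem tFpi; the difference of the prime counting functions, one fraction, one Y). Uses: FthStmt, FabStmt, AtuStmt (Lib/MI/SpecA.lean).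
Proof. ⌊(Y:ℝ)⌋₊ = Y. u = q/t. df Y q t a = ∑_{p ≤ Y} (dl a q p - dl a t p/φ(u)) = ∑_{p ≤ Y} Ek a t q p - (1/φ(u)) ∑_{p ≤ Y, p ∣ u} dl a t p (for a prime p: coprime to u iff not p ∣ u), so
|df Y q t a| ≤ ‖∑_{p ≤ Y} Ek a t q p‖ + #{p ∣ u} and #{p ∣ u} ≤ τ(q) ≤ T. Sum over q: FthStmt (for all Y' ≤ Y) and FabStmt: ≤ 3 C1 x^(1-η1) + T x^(3/5), T = C x^(1/100) from AtuStmt
(e = 1/100, A = 1), 3/5 + 1/100 < 9/10, η = min(η1, 1/10). -/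
def FpiStmt : Prop := ∀ α τ κ κ0 : ℝ, α ≤ 3 / 5 → 0 ≤ τ → τ ≤ 1 / 3 → CoreStmt α τ κ → 0 < κ0 → κ0 < κ →
  ∃ η C x0 : ℝ, 0 < η ∧ 0 ≤ C ∧ 3 ≤ x0 ∧ ∀ (x : ℝ) (a b : ℤ) (c Y : ℕ) (F : Finset ℕ) (t : ℕ → ℕ), x0 ≤ x →
  |(b : ℝ)| ≤ x ^ ((9 : ℝ) / 10) → 1 ≤ c → (c : ℝ) ≤ x → (Y : ℝ) ≤ x →
  (∀ q ∈ F, Md α τ κ κ0 x (t q) q ∧ Fr a b c q) → ∑ q ∈ F, |df Y q (t q) a| ≤ C * x ^ (1 - η)

/-- Module Fcr (theorem tFcr; one residue for all moduli). Uses: nothing.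
Proof. W = ∏_{q ∈ F} q ≥ 1 is coprime to c; let c' be an integer with W ∣ c c' - 1 and a = b c'. Then W ∣ c a - b, so q ∣ c a - b for q ∈ F; c (a - s q) = (c a - b) - (c s q - b) is divisible by q, and
(c,q) = 1, so q ∣ a - s q; hence Int.gcd a q = Int.gcd (s q) q = 1. -/
def FcrStmt : Prop := ∀ (F : Finset ℕ) (s : ℕ → ℤ) (b : ℤ) (c : ℕ),
  (∀ q ∈ F, 1 ≤ q ∧ c.Coprime q ∧ Int.gcd (s q) q = 1 ∧ (q : ℤ) ∣ (c : ℤ) * s q - b) →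
  ∃ a : ℤ, ∀ q ∈ F, Fr a b c q ∧ (q : ℤ) ∣ a - s q

/-- Module Fgr (theorem tFgr; a grid for y). Uses: nothing. (Compare module Grd of Lib/KF/SpecV.lean.)
Proof. n = ⌊y⌋ ≤ ⌊x⌋ = Y_G, Y_j = ⌊j x/G⌋. Let j be the least index with n ≤ Y_j; j ≥ 1 as n ≥ 2 > Y_0 = 0. resCount is monotone: resCount Y_(j-1) ≤ resCount y ≤ resCount Y_j for both moduli, so
df y ≤ df Y_j + (resCount Y_j t s - resCount Y_(j-1) t s)/φ(d/t) and df y ≥ df Y_(j-1) - (the same)/φ(d/t), and the difference of the resCounts is ≤ #{k ∈ (Y_(j-1), Y_j] : t ∣ k - s} ≤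
(Y_j - Y_(j-1))/t + 1 ≤ (x/G + 1)/t + 1 ≤ x/(G t) + 2 (t ≥ 1). -/
def FgrStmt : Prop := ∀ (x y : ℝ) (G d t : ℕ) (s : ℤ), 2 ≤ y → y ≤ x → 1 ≤ G → 1 ≤ d → t ∣ d →
  |df y d t s| ≤ ∑ j ∈ range (G + 1), |df (⌊(j : ℝ) * x / G⌋₊ : ℝ) d t s| +
    (x / ((G : ℝ) * t) + 2) / ((d / t).totient : ℝ)

/-- Module Fps (theorem tFps; the first assertion for large x). Uses: FpiStmt, FcrStmt, FgrStmt, FtnStmt. (CoreStmt α τ κ is a hypothesis inside.)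
Proof. η1, C1, x1 from FpiStmt; η = min(η1/4, 1/10), G = ⌈x^(2η)⌉. FgrStmt for every d ∈ M and sum: ∑_{j ≤ G} ∑_{d ∈ M} |df Y_j d (t d) (s d)| + ∑_{d ∈ M} (x/(G t d) + 2)/φ(d/t d). For fixed j split M by the
values w of (b d, c d), at most x^η of them; for M_w FcrStmt gives a with Fr a b c d and d ∣ a - s d for d ∈ M_w; then resCount y d (s d) = resCount y d a and (t d ∣ d) the same modulo t d, so
df Y_j d (t d) (s d) = df Y_j d (t d) a and FpiStmt (Y_j ≤ x): ∑_{d ∈ M_w} ≤ C1 x^(1-η1). Total ≤ (G + 1) x^η C1 x^(1-η1) ≤ 3 C1 x^(3η+1-4η). The second sum by FtnStmt with Z = x^(1/3), g(n) = x/(G n) + 2 for n ≥ 1,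
g(0) = 0: ≤ 6 (log x)² (x^(1-2η) (1 + log x) + 2 x^(1/3)) ≤ C x^(1-η). -/
def FpsStmt : Prop := ∀ α τ κ κ0 : ℝ, α ≤ 3 / 5 → 0 ≤ τ → τ ≤ 1 / 3 → CoreStmt α τ κ → 0 < κ0 → κ0 < κ →
  ∃ η C x0 : ℝ, 0 < η ∧ η ≤ 1 / 10 ∧ 0 ≤ C ∧ 3 ≤ x0 ∧
  ∀ (x : ℝ) (s b : ℕ → ℤ) (c t : ℕ → ℕ) (y : ℕ → ℝ) (M : Finset ℕ), x0 ≤ x →
  ((M.image (fun d => (b d, c d))).card : ℝ) ≤ x ^ η → (∀ d, 2 ≤ y d ∧ y d ≤ x) →
  (∀ d ∈ M, Md α τ κ κ0 x (t d) d ∧ |(b d : ℝ)| ≤ x ^ ((9 : ℝ) / 10) ∧ 1 ≤ c d ∧ (c d : ℝ) ≤ x ∧ (c d).Coprime d ∧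
    Int.gcd (s d) d = 1 ∧ (d : ℤ) ∣ (c d : ℤ) * s d - b d) →
  ∑ d ∈ M, |df (y d) d (t d) (s d)| ≤ C * x ^ (1 - η)

/-- Module Fbv (theorem tFbv; Bombieri-Vinogradov modulo t). Uses: Pool.Agent.Lib.BV.ExtStmt (Lib/BV/SpecE.lean), Pool.Agent.Lib.KF.RseStmt (Lib/KF/SpecF.lean), FtnStmt.
Proof. For n ≥ 1 let y*(n) be the y d, d ∈ M, t d = n, for which maxErr (y d) n is largest (y*(n) = 2 if there is no such d). For d ∈ M: gcd(s d, t d) = 1 (t d ∣ d), |resErr (y d) (t d) (s d)| ≤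
maxErr (y d) (t d) ≤ maxErr (y* (t d)) (t d) (RseStmt; t d ≥ 1). FtnStmt with Z = x^(1/3), g(n) = maxErr (y* n) n (≥ 0; put g(0) = 0): the sum is ≤ 6 (log x)² ∑_{n ≤ x^(1/3)} maxErr (y* n) n, and ExtStmt with exponent
U + 2, D = ⌊x^(1/3)⌋ (x ≥ 16): ≤ 6 (log x)² C (x/(log x)^(U+2) + √x x^(1/3) log(Kf) loglog(Kf)), Kf x D = 16 + √x/(D log x) ≤ 16 + √x, so log Kf loglog Kf ≤ (log(16 + √x))² ≤ C' x^(1/100): all ≤ C'' x/(log x)^U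
(as module Bvy of Lib/KF/SpecV.lean, file Lib/KF/Bvy.lean). -/
def FbvStmt : Prop := ∀ U : ℝ, 0 < U → ∃ C : ℝ, 0 ≤ C ∧ ∀ (x : ℝ) (s : ℕ → ℤ) (t : ℕ → ℕ) (y : ℕ → ℝ) (M : Finset ℕ),
  16 ≤ x → (∀ d, 2 ≤ y d ∧ y d ≤ x) →
  (∀ d ∈ M, 1 ≤ d ∧ t d ∣ d ∧ (d : ℝ) ≤ x ∧ (t d : ℝ) ≤ x ^ ((1 : ℝ) / 3) ∧ Int.gcd (s d) d = 1) →
  ∑ d ∈ M, |resErr (y d) (t d) (s d)| / ((d / t d).totient : ℝ) ≤ C * (x / (Real.log x) ^ U)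

/-- Module Fmi (theorem tFmi). FINAL STATEMENT FAllStmt (Lib/MI/Stm.lean). Uses: FpsStmt, FbvStmt.
Proof. η, C1, x1 from FpsStmt; x2 = max(x1, 16). For x ≥ x2: the first assertion is FpsStmt (unfold df). For d ∈ M squarefree, t = t d, u = d/t coprime to t: φ(d) = φ(t) φ(u), so
resErr y d s = df y d t s + resErr y t s/φ(u), |resErr (y d) d (s d)| ≤ |df ..| + |resErr (y d) (t d) (s d)|/φ(u), sum (FbvStmt; t d ≤ x^τ ≤ x^(1/3), d ≤ x^(3/5) ≤ x): C1 x^(1-η) + C2 x/(log x)^U ≤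
C x/(log x)^U (x^η ≥ c (log x)^U). For 3 ≤ x < x2: card M ≤ x2 (1 ≤ d ≤ x), |df| ≤ 2x, |resErr| ≤ 3x (li y ≤ 2y: EH.li_le; at most x primes): both sums are ≤ 3 x2², while x^(1-η) ≥ 1 and
x/(log x)^U ≥ (log x2)^(-U) ((log x)^U ≤ (log x2)^U, log x ≥ 1): C large. -/
def FmiStmt : Prop := FAllStmt

end Pool.Agent.Lib.MI
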