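import Pool.Agent.Lib.MI.T1Base

/-!
MP_00e23e_nt, directory Lib/MI, chapter T1 of THEOREM MI (Type I sums; architect helper51; version 3). Final statement:
T1Stmt of Lib/MI/Stm.lean (from SsbStmt, Weil bound, same file).

RULES. Module X (for example T1Vdc): file Pool/Agent/Lib/MI/X.lean, first line `import Pool.Agent.Lib.MI.SpecT1`, then
`namespace Pool.Agent.Lib.MI` and `open Finset Pool.Agent.Lib.EH3 Pool.Agent.Lib.TB Pool.Agent.Results.MP_00e23e_nt`,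
private lemmas with names starting with X_, final theorem `theorem tX (h1 : AStmt) ... : XStmt`; the statements listed
under Uses are hypotheses of your theorem, in this order. The docstring contains a complete proof. Definitions: MI/Defs.lean
(en, fz, Gd, TT, SS, Tau) and MI/T1Base.lean (t1e, t1q, t1g, T1Gq, t1K, t1In, t1cA, t1cB, t1G, t1C, t1w, t1Sum). Basic
lemmas: MI/Basic.lean (norm_en, en_congr, en_add, conj_en, en_mul_left, en_of_dvd, en_crt, iv_mul_mul, iv_dvd_dvd, Tau.mono),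
MI/T1Base.lean (t1_en_sub, t1_g_add, t1_g_add_mul, t1_g_congr, t1_g_mul_conj, t1_norm_g, t1_norm_K, t1_norm_G, t1_e_mul,
t1_e_zero, t1_e_le, t1_Sum_mono), TB/Basic.lean (iv_mul, iv_dvd, iv_lt, iv_congr, iv_unique). Never use congr!. Every
module below 60 s.
-/

namespace Pool.Agent.Lib.MI

open Finset Pool.Agent.Lib.EH3 Pool.Agent.Lib.TB Pool.Agent.Results.MP_00e23e_nt

/-- Module T1Vdc (theorem tT1Vdc; van der Corput's inequality with a periodic factor). Uses: nothing.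
Proof. Let G n = g n if N < n ≤ 2N, 0 otherwise. For l < L: ∑_{n ∈ Ioc N (2N)} φ n g n = ∑_{m ∈ Ioc (N - (L-1) q) (2N)} φ m G (m + l q):
put n = m + l q (n > N ≥ L q ≥ l q), φ (m + l q) = φ m, the terms with m + l q outside (N, 2N] vanish, and N < n = m + l q ≤ 2N gives N - (L-1) q < m ≤ 2N. Sum over
l < L: L ∑ φ g = ∑_m φ m ∑_{l<L} G (m + l q). There are at most N + (L-1) q ≤ 2N values m, ‖φ‖ ≤ 1, Cauchy: L^2 ‖∑ φ g‖^2 ≤ 2N ∑_m ‖∑_{l<L} G (m + l q)‖^2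
= 2N Re ∑_{l,l'<L} ∑_m G (m + l q) conj (G (m + l' q)). For l = l': ∑_m ‖G (m + l q)‖^2 ≤ N. For l < l', d = l' - l: ∑_m = ∑_{n ∈ Ioc N (2N - d q)} g n conj (g (n + d q))
(n = m + l q runs over all n with n, n + d q in (N, 2N]); for l > l' the conjugate with d = l - l'. Every d ∈ Ico 1 L occurs for at most 2L pairs (l, l'). So
L^2 ‖∑ φ g‖^2 ≤ 2N (L N + 2L ∑_{1≤d<L} ‖..‖); divide by L^2. (You may sum m over range (2N+1) instead of the interval after Cauchy: more nonnegative terms.) -/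
def T1VdcStmt : Prop := ∀ (N L q : ℕ) (φ g : ℕ → ℂ), 1 ≤ L → L * q ≤ N → (∀ n, φ (n + q) = φ n) →
  (∀ n, ‖φ n‖ ≤ 1) → (∀ n, ‖g n‖ ≤ 1) →
  ‖∑ n ∈ Ioc N (2 * N), φ n * g n‖ ^ 2 ≤ 2 * (N : ℝ) / L * ((N : ℝ) + 2 * ∑ d ∈ Ico 1 L,
    ‖∑ n ∈ Ioc N (2 * N - d * q), g n * (starRingEnd ℂ) (g (n + d * q))‖)

/-- Module T1Cmp (theorem tT1Cmp; completing with weights). Uses: nothing. (Look at TB/Cmp.lean, TB/Geo.lean: the same orthogonality and geometric series.)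
Proof. Fh j = ∑_{x<q} F x en (j x) q for integers j. For every n: F n = (1/q) ∑_{j<q} Fh j en (-j n) q (∑_{j<q} en (j (x - n)) q = q if x ≡ n mod q, 0 otherwise; F is periodic). So
‖∑_{n ∈ Ioc N1 N2} F n‖ ≤ ∑_{j<q} ‖Fh j‖ (1/q) ‖∑_{n ∈ Ioc N1 N2} en (-j n) q‖. For j < q put j* = j if 2j ≤ q, j* = j - q otherwise; |j*| ≤ q/2, Fh j = Fh j*, en (-j n) q = en (-j* n) q
(en_congr), j* = 0 iff j = 0. If j* = 0: the inner sum is N2 - N1 and (N2 - N1)/q ≤ W. If j* ≠ 0: a geometric series with ratio z = en (-j*) q, ‖z - 1‖ ≥ 4 |j*|/q (EH3.norm_ee_sub_one), so it is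
≤ 2/‖z - 1‖ ≤ q/(2|j*|). j ↦ j* is injective on range q with values in Icc (-J) J, the other terms on the right are ≥ 0. -/
def T1CmpStmt : Prop := ∀ (F : ℕ → ℂ) (q J N1 N2 : ℕ) (W : ℝ), 1 ≤ q → q ≤ J → N1 ≤ N2 → 0 ≤ W →
  ((N2 : ℝ) - N1) / q ≤ W → (∀ n, F (n + q) = F n) →
  ‖∑ n ∈ Ioc N1 N2, F n‖ ≤ ∑ j ∈ Icc (-(J : ℤ)) (J : ℤ), t1w W j * ‖∑ n ∈ range q, F n * en (j * n) q‖

/-- Module T1Fac (theorem tT1Fac; arithmetic facts about the good tuples). Uses: nothing.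
Proof. Write q = t1q r0 u w w' = r0 u lcm(w,w'), r1 = r/r0, r = r0 r1. Squarefree numbers are ≥ 1, so r, u, w, w', s2 ≥ 1 and r0 ≥ 1. r1 q = r u lcm(w,w') = lcm(r u w, r u w') (Nat.lcm_mul_left) is the lcm of two
squarefree numbers, hence squarefree (a prime power p^2 dividing the lcm divides one of them; factorization of the lcm is the sup). So r1 ⊥ q (Nat.squarefree_mul_iff).
s2 ⊥ r (Nat.squarefree_mul_iff for r s2), s2 ⊥ u w, s2 ⊥ u w', so s2 ⊥ r (u w) (u w'), which is a multiple of q and of r1. gcd(a, r1 q) divides gcd(a, (r u w)(r u w')) = 1. q gcd(w,w') = r0 u w w' (Nat.gcd_mul_lcm), S < u w ≤ 2S. -/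
def T1FacStmt : Prop := ∀ (a : ℤ) (S r r0 u w w' s2 : ℕ), r0 ∣ r → T1Gq a S r u w w' s2 →
  (1 ≤ r ∧ 1 ≤ r0 ∧ 1 ≤ u ∧ 1 ≤ w ∧ 1 ≤ w' ∧ 1 ≤ s2) ∧ (1 ≤ r / r0 ∧ 1 ≤ t1q r0 u w w' ∧ r0 * (r / r0) = r) ∧
  (r / r0) * t1q r0 u w w' = r * u * Nat.lcm w w' ∧ Squarefree ((r / r0) * t1q r0 u w w') ∧
  (r / r0).Coprime (t1q r0 u w w') ∧ (t1q r0 u w w').Coprime s2 ∧ (r / r0).Coprime s2 ∧ r.Coprime s2 ∧
  Int.gcd a ((t1q r0 u w w' : ℕ) : ℤ) = 1 ∧ Int.gcd a (s2 : ℤ) = 1 ∧ Squarefree (t1q r0 u w w') ∧ Squarefree s2 ∧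
  r0 * S * w' ≤ t1q r0 u w w' * Nat.gcd w w' ∧ t1q r0 u w w' ≤ 2 * r0 * S * w'

/-- Module T1Pha (theorem tT1Pha; the phases modulo r s1, r s1'). Uses: T1FacStmt.
Proof. q = t1q r0 u w w', r1 = r/r0, Q = r1 q = r u lcm(w,w'), g0 = gcd(w,w'), I = iv (n * s2) Q. n and s2 are coprime to Q (n is coprime to r u w and to r u w', hence to their product, a multiple of Q). iv (n * s2) (r * (u * w)) ≡ I modulo
r u w (iv_dvd_dvd), so en (-(h a iv (n s2) (r u w))) (r u w) = en (-(h a I)) (r u w) = en (-(h a I) (w'/g0)) Q (en_mul_left with the factor w'/g0: r u w (w'/g0) = Q since lcm = w (w'/g0)). In the same way the conjugate of the second one is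
en (h' a I (w/g0)) Q. Product: en (-(a D) I) Q with D = t1e h h' w w' = h (w'/g0) - h' (w/g0). en_crt with Q = r1 q: = en (-(a D) I iv q r1) r1 * en (-(a D) I iv r1 q) q; I ≡ iv n r1 iv s2 r1 modulo r1 and I ≡ iv n q iv s2 q modulo q
(iv_dvd_dvd and iv_mul_mul). -/
def T1PhaStmt : Prop := ∀ (a h h' : ℤ) (S r r0 u w w' s2 n : ℕ), r0 ∣ r → T1Gq a S r u w w' s2 →
  n.Coprime (r * (u * w)) → n.Coprime (r * (u * w')) →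
  en (-(h * a * (iv (n * s2) (r * (u * w)) : ℤ))) (r * (u * w)) *
      (starRingEnd ℂ) (en (-(h' * a * (iv (n * s2) (r * (u * w')) : ℤ))) (r * (u * w'))) =
    en (-(a * t1e h h' w w') * (iv (t1q r0 u w w') (r / r0) : ℤ) * (iv s2 (r / r0) : ℤ) * (iv n (r / r0) : ℤ)) (r / r0) *
      en (t1cA a h h' r r0 u w w' * (iv s2 (t1q r0 u w w') : ℤ) * (iv n (t1q r0 u w w') : ℤ)) (t1q r0 u w w')

/-- Module T1Phb (theorem tT1Phb; the phases modulo s2). Uses: T1FacStmt.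
Proof. q, r1, g0, D as in T1Pha. Everything is coprime to s2: r u w, r u w' (r ⊥ s2, u w ⊥ s2), n2, q, r1. iv (n2 * (r * (u * w))) s2 ≡ iv n2 s2 * iv (r * (u * w)) s2 (iv_mul_mul). Claim: E := h iv (r (u w)) s2 - h' iv (r (u w')) s2 ≡ D iv r1 s2 iv q s2 modulo s2. Multiply
by the unit r u w w': E r u w w' ≡ h w' - h' w = g0 D (t1_e_mul); and r u w w' = r1 q g0 (r1 q = r u lcm, lcm g0 = w w'), so D iv r1 iv q r u w w' ≡ D g0. Cancel (r u w w' coprime to s2). The product is en (-a E iv n2) s2 = en (t1cB iv q s2 iv n2 s2) s2 (en_congr). -/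
def T1PhbStmt : Prop := ∀ (a h h' : ℤ) (S r r0 u w w' s2 n2 : ℕ), r0 ∣ r → T1Gq a S r u w w' s2 → n2.Coprime s2 →
  en (-(h * a * (iv (n2 * (r * (u * w))) s2 : ℤ))) s2 *
      (starRingEnd ℂ) (en (-(h' * a * (iv (n2 * (r * (u * w'))) s2 : ℤ))) s2) =
    en (t1cB a h h' r r0 w w' s2 * (iv (t1q r0 u w w') s2 : ℤ) * (iv n2 s2 : ℤ)) s2

/-- Module T1Phs (theorem tT1Phs; the factorisation of the kernel). Uses: T1FacStmt, T1PhaStmt, T1PhbStmt.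
Proof. Q = (r/r0) t1q = r u lcm(w,w'). Given T1Gq, the conditions Gd for (r, u w) and (r, u w') together say: n coprime to r u w and to r u w', n + k r coprime to r s2; equivalently n coprime to Q (Q divides the product of r u w and r u w', and both divide Q),
i.e. n coprime to r/r0 and to t1q, and n + k r coprime to s2 (n + k r is coprime to r iff n is). So both sides vanish at the same n. At the other n: fz is a product of a term modulo r s1 and a term modulo s2; multiply T1Pha and T1Phb (n2 = n + k r), and regroup;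
t1g, t1G on the right are the en there. -/
def T1PhsStmt : Prop := ∀ (a h h' : ℤ) (k S r r0 u w w' s2 n : ℕ), r0 ∣ r → T1Gq a S r u w w' s2 →
  t1K a h k r (u * w) s2 n * (starRingEnd ℂ) (t1K a h' k r (u * w') s2 n) =
    t1g (-(a * t1e h h' w w') * (iv (t1q r0 u w w') (r / r0) : ℤ) * (iv s2 (r / r0) : ℤ)) (r / r0) n *
      t1G a h h' k r r0 u w w' s2 n

/-- Module T1Fht (theorem tT1Fht; the complete sums factor). Uses: nothing.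
Proof. By t1_g_mul_conj the summand is A n * B n * en (j n) (q s), A n = [n ⊥ q and n + t ⊥ q] en (c (iv n q - iv (n+t) q)) q depends only on n modulo q, B n = [n + e ⊥ s and n + e + t ⊥ s] en (c' (iv (n+e) s - iv (n+e+t) s)) s only on n modulo s, and
en (j n) (q s) = en (j n iv s q) q * en (j n iv q s) s (en_crt). n ↦ (n mod q, n mod s) is a bijection of range (q s) onto range q × range s, so the sum is the product of ∑_{n<q} A n en (j iv s q n) q = SS c (j iv s q) q t and ∑_{n<s} B n en (j iv q s n) s. In the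
second one put n' = (n + e) mod s, a bijection of range s: en (j iv q s n) s = en (-j iv q s e) s * en (j iv q s n') s, so it is a number of absolute value 1 times SS c' (j iv q s) s t. -/
def T1FhtStmt : Prop := ∀ (c c' j : ℤ) (q s e t : ℕ), 1 ≤ q → 1 ≤ s → q.Coprime s →
  ‖∑ n ∈ range (q * s), t1g c q n * t1g c' s (n + e) * (starRingEnd ℂ) (t1g c q (n + t) * t1g c' s (n + t + e)) *
      en (j * n) (q * s)‖ = ‖SS c (j * (iv s q : ℤ)) q t‖ * ‖SS c' (j * (iv q s : ℤ)) s t‖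

/-- Module T1Gcd (theorem tT1Gcd; the gcd). Uses: nothing.
Proof. x := (-(a D) iv r1 q) iv z q (d r1) ≡ -(a D d) iv z q modulo q (iv r1 q * r1 ≡ 1), and gcd(gcd(x, j iv z q), q) = gcd(gcd(a D d, j), q) as iv z q is coprime to q, = gcd(gcd(D d, j), q) as a is coprime to q. (An integer g divides gcd(gcd(A, B), q) iff it divides A, B and q; if A ≡ e A', B ≡ e' B' modulo q with e, e'
coprime to q, the common divisors of A, B, q and of A', B', q are the same: Int.gcd_eq or dvd_antisymm.) -/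
def T1GcdStmt : Prop := ∀ (a D j : ℤ) (q r1 d z : ℕ), 1 ≤ q → r1.Coprime q → z.Coprime q → Int.gcd a q = 1 →
  Int.gcd ((Int.gcd ((-(a * D) * (iv r1 q : ℤ)) * (iv z q : ℤ) * ((d * r1 : ℕ) : ℤ)) (j * (iv z q : ℤ)) : ℕ) : ℤ) q =
    Int.gcd ((Int.gcd (D * d) j : ℕ) : ℤ) q

/-- Module T1Gsj (theorem tT1Gsj; sum of gcd(Z, j)/j). Uses: nothing.
Proof. gcd(Z, j) ≤ ∑_{e | Z, e | j} e. ∑_{1 ≤ j ≤ J} (1/j) ∑_{e | Z, e | j} e = ∑_{e | Z} ∑_{1 ≤ i ≤ J/e} 1/i (j = e i) ≤ τ(|Z|) (1 + log J) (harmonic_le_one_add_log; J = 0 is trivial). -/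
def T1GsjStmt : Prop := ∀ (Z : ℤ) (J : ℕ), Z ≠ 0 →
  ∑ j ∈ Icc 1 J, (Int.gcd Z (j : ℤ) : ℝ) / (j : ℝ) ≤ (Z.natAbs.divisors.card : ℝ) * (1 + Real.log J)

/-- Module T1Gsa (theorem tT1Gsa; sums of gcd(Z, r)). Uses: nothing.
Proof. gcd(Z, r) ≤ ∑_{e | Z, e | r} e, and the number of the multiples of e in (R, 2R] is ≤ 2R/e (none if e > 2R), in [1, U] ≤ U/e. -/
def T1GsaStmt : Prop := ∀ (Z : ℤ), Z ≠ 0 →
  (∀ R : ℕ, ∑ r ∈ Ioc R (2 * R), (Int.gcd Z r : ℝ) ≤ 2 * (R : ℝ) * (Z.natAbs.divisors.card : ℝ)) ∧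
  (∀ U : ℕ, ∑ u ∈ Icc 1 U, (Int.gcd Z u : ℝ) ≤ (U : ℝ) * (Z.natAbs.divisors.card : ℝ))

/-- Module T1Gsb (theorem tT1Gsb; gcd with [w, w']). Uses: nothing.
Proof. g0 = gcd(w,w'), w = g0 x, w' = g0 y, x ⊥ y, D = t1e h h' w w' = h y - h' x, m = lcm(w,w') = g0 x y. gcd(D, m) ≤ gcd(D, g0) gcd(D, x) gcd(D, y) (Nat.gcd_mul_dvd_mul_gcd), gcd(D, x) = gcd(h y, x) = gcd(h, x) ≤ gcd(h, w), gcd(D, y) = gcd(h' x, y) = gcd(h', y) ≤ gcd(h', w'). -/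
def T1GsbStmt : Prop := ∀ (h h' : ℤ) (w w' : ℕ), 1 ≤ w → 1 ≤ w' →
  Int.gcd (t1e h h' w w') (Nat.lcm w w' : ℕ) ≤ Nat.gcd w w' * Int.gcd h w * Int.gcd h' w'

/-- Module T1Gav (theorem tT1Gav; average of the gcd's). Uses: T1GsaStmt, T1GsbStmt.
Proof. Z = D d, D = t1e h h' w w' ≠ 0, 1 ≤ |Z| ≤ 4 H V L ≤ X (t1_e_le), m = lcm(w,w') ≤ 4 V^2 ≤ X. gcd(Z, r u m) ≤ gcd(Z,r) gcd(Z,u) gcd(Z,m) and gcd(Z,m) ≤ gcd(D,m) gcd(d,m) ≤ g0 gcd(h,w) gcd(h',w') gcd(d,m) (T1Gsb). Since √(g0 g0) = g0 and √x ≤ x for the other factors (≥ 1), the summand is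
≤ gcd(Z,r) gcd(Z,u) gcd(Z,s2) g0 gcd(h,w) gcd(h',w') gcd(d,m). (The condition T1Gq and the conditions on r0 are dropped: nonnegative terms.) Sum over r, u ≤ 2S/V, s2 for fixed d, h, h', w, w' (T1Gsa, τ(|Z|) ≤ T): ≤ (2RT)(2S/V T)(2ST). Sum over d < L: ∑ gcd(d,m) ≤ L τ(m) ≤ L T (T1Gsa with Z = m). Sum over
h, h' ∈ Hs ⊆ [-H, H] - 0: ∑_h gcd(h,w) ≤ 2 ∑_{1≤h≤H} gcd(w,h) ≤ 2HT. Sum over w, w': ∑ gcd(w,w') ≤ ∑_w 2V τ(w) ≤ 2V^2 T. Total: 8 T^3 (R S^2/V) L T 4 H^2 T^2 2 V^2 T = 64 T^7 L H^2 V R S^2. -/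
def T1GavStmt : Prop := ∀ (X T : ℝ) (a : ℤ) (R S H V L L' : ℕ) (Hs : Finset ℤ) (r0 : ℕ → ℕ), Tau X T → 1 ≤ R →
  1 ≤ S → 1 ≤ V → (∀ h ∈ Hs, h ≠ 0 ∧ |h| ≤ (H : ℤ)) → 4 * (H : ℝ) * V * L ≤ X → 4 * (V : ℝ) ^ 2 ≤ X →
  ∑ d ∈ Ico 1 L, t1Sum a R S V L L' Hs r0 (fun h h' w w' r u s2 => Real.sqrt ((Nat.gcd w w' : ℝ) *
      (Int.gcd (t1e h h' w w' * d) ((r * u * Nat.lcm w w' : ℕ) : ℤ) : ℝ) *
        (Int.gcd (t1e h h' w w' * d) s2 : ℝ))) ≤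
    64 * T ^ 7 * ((L : ℝ) * (H : ℝ) ^ 2 * V * R * (S : ℝ) ^ 2)

/-- Module T1Num (theorem tT1Num; number of tuples). Uses: nothing.
Proof. At most (2H)^2 pairs (h, h') (Hs ⊆ [-H, H] - 0), V^2 pairs (w, w'), R values r, 2S/V values u, S values s2: 8 H^2 V R S^2. -/
def T1NumStmt : Prop := ∀ (a : ℤ) (R S H V L L' : ℕ) (Hs : Finset ℤ) (r0 : ℕ → ℕ) (B : ℝ), 1 ≤ V → 0 ≤ B →
  (∀ h ∈ Hs, h ≠ 0 ∧ |h| ≤ (H : ℤ)) →
  t1Sum a R S V L L' Hs r0 (fun _ _ _ _ _ _ _ => B) ≤ 8 * (H : ℝ) ^ 2 * V * R * (S : ℝ) ^ 2 * B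

/-- Module T1Bnd (theorem tT1Bnd; the correlation of a good tuple). Uses: SsbStmt, T1CmpStmt, T1FacStmt, T1FhtStmt, T1GcdStmt, T1GsjStmt.
Proof. q = t1q r0 u w w', t = d (r/r0), Z = D d, D = t1e h h' w w' ≠ 0, |Z| ≤ 4 H V L ≤ X, z = iv s2 q, z' = iv q s2. q ≤ 2 r0 S w' ≤ 4 r0 S V, so q s2 ≤ 8 r0 S^2 V =: J ≤ 8 r S^2 V ≤ X (r0 | r). F n = t1G n * conj (t1G (n + t)) is periodic modulo q s2 (t1_g_add_mul), t1C = ∑_{n ∈ Ioc N (2N - t)} F n (0 if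
2N - t < N; otherwise the length is ≤ N). T1Cmp with W = N/(q s2) and T1Fht (e = k r): ‖t1C‖ ≤ ∑_{|j| ≤ J} t1w W j ‖SS (cA z) (j z) q t‖ ‖SS (cB z') (j z') s2 t‖. SsbStmt and T1Gcd (moduli q and s2; q, s2 squarefree, τ ≤ T): the product is ≤ T^4 (q s2 G G')^(1/2), G = gcd(gcd(Z,j),q), G' = gcd(gcd(Z,j),s2), q ⊥ s2.
j ≠ 0: G G' divides gcd(Z,j), so ≤ T^4 (q s2)^(1/2) gcd(Z,j); ∑_{j ≠ 0} (1/(2|j|)) gcd(Z,j) = ∑_{1≤j≤J} gcd(Z,j)/j ≤ τ(|Z|) (1 + log J) ≤ T^2 (T1Gsj), and (q s2)^(1/2) ≤ (8 L' V)^(1/2) S ≤ 3 (L' V)^(1/2) S (r0 ≤ L').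
j = 0: W T^4 (q s2 gcd(Z,q) gcd(Z,s2))^(1/2) = T^4 N (gcd(Z,q) gcd(Z,s2))^(1/2)/(q s2)^(1/2); q s2 g0 ≥ r0 S w' S ≥ L V S^2 (T1Fac), gcd(Z,q) ≤ gcd(Z, r u lcm(w,w')) (q divides it): ≤ T^4 (N/((L V)^(1/2) S)) (g0 gcd gcd)^(1/2). -/
def T1BndStmt : Prop := ∀ (X T : ℝ) (a h h' : ℤ) (k S r r0 u w w' s2 N d H V L L' : ℕ), Tau X T → r0 ∣ r → L < r0 →
  r0 ≤ L' → 1 ≤ S → 1 ≤ L → 1 ≤ V → V < w → w ≤ 2 * V → V < w' → w' ≤ 2 * V → |h| ≤ (H : ℤ) → |h'| ≤ (H : ℤ) →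
  1 ≤ d → d ≤ L → t1e h h' w w' ≠ 0 → T1Gq a S r u w w' s2 → 8 * (r : ℝ) * (S : ℝ) ^ 2 * V ≤ X →
  4 * (H : ℝ) * V * L ≤ X →
  ‖t1C a h h' k r r0 u w w' s2 N d‖ ≤ 3 * T ^ 6 * (Real.sqrt ((L' : ℝ) * V) * S) +
    T ^ 4 * ((N : ℝ) / (Real.sqrt ((L : ℝ) * V) * S)) * Real.sqrt ((Nat.gcd w w' : ℝ) *
      (Int.gcd (t1e h h' w w' * d) ((r * u * Nat.lcm w w' : ℕ) : ℤ) : ℝ) *
        (Int.gcd (t1e h h' w w' * d) s2 : ℝ))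

/-- Module T1Avc (theorem tT1Avc; average of the correlations). Uses: T1BndStmt, T1GavStmt, T1NumStmt.
Proof. Sum T1Bnd over the tuples (t1_Sum_mono; 8 r S^2 V ≤ 16 R S^2 V ≤ X) and d: the first term with T1Num (at most L values d): ≤ L 8 H^2 V R S^2 3 T^6 (L' V)^(1/2) S; the second one with T1Gav: ≤ T^4 (N/((L V)^(1/2) S)) 64 T^7 L H^2 V R S^2. (t1Sum is additive and homogeneous in f: unfold, sum_add_distrib, mul_sum.) -/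
def T1AvcStmt : Prop := ∀ (X T : ℝ) (a : ℤ) (k R S N H V L L' : ℕ) (Hs : Finset ℤ) (r0 : ℕ → ℕ), Tau X T → 1 ≤ R →
  1 ≤ S → 1 ≤ L → 1 ≤ V → (∀ h ∈ Hs, h ≠ 0 ∧ |h| ≤ (H : ℤ)) → 16 * (R : ℝ) * (S : ℝ) ^ 2 * V ≤ X →
  4 * (H : ℝ) * V * L ≤ X → 4 * (V : ℝ) ^ 2 ≤ X →
  ∑ d ∈ Ico 1 L, t1Sum a R S V L L' Hs r0 (fun h h' w w' r u s2 => ‖t1C a h h' k r (r0 r) u w w' s2 N d‖) ≤
    64 * T ^ 11 * ((L : ℝ) * (H : ℝ) ^ 2 * V * R * (S : ℝ) ^ 2) *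
      ((N : ℝ) / (Real.sqrt ((L : ℝ) * V) * S) + Real.sqrt ((L' : ℝ) * V) * S)

/-- Module T1Avi (theorem tT1Avi; average of the inner sums). Uses: T1VdcStmt, T1FacStmt, T1PhsStmt, T1NumStmt, T1AvcStmt.
Proof. M0 = 8 H^2 V R S^2. For a tuple of t1Sum, r0 = r0 r, r1 = r/r0: L r1 ≤ r0 r1 = r ≤ 2R ≤ N. T1Phs and T1Vdc (φ = the t1g modulo r1, g = t1G, q = r1; t1_g_add): ‖t1In‖^2 ≤ (2N/L)(N + 2 ∑_{1≤d<L} ‖t1C d‖). Cauchy: (t1Sum ‖t1In‖)^2 ≤ (t1Sum 1)(t1Sum ‖t1In‖^2) ≤ M0 (2N/L)(M0 N + 2 ∑_d t1Sum ‖t1C d‖) (T1Num) ≤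
8 H^2 V R S^2 (2N/L)(8 H^2 V R S^2 N + 128 T^11 L H^2 V R S^2 (N/((L V)^(1/2) S) + (L' V)^(1/2) S)) (T1Avc) = (H^2 V R S^2 N)^2 (128/L + 2048 T^11 (1/((L V)^(1/2) S) + (L' V)^(1/2) S/N)), and 2048 T^11 ≤ (46 T^6)^2. (For Cauchy write t1Sum as one sum over a product Finset, or apply
t1Sum ‖t1In‖ ≤ t1Sum (1/(2λ) + λ ‖t1In‖^2/2) for every λ > 0 and choose λ.) -/
def T1AviStmt : Prop := ∀ (X T : ℝ) (a : ℤ) (k R S N H V L L' : ℕ) (Hs : Finset ℤ) (r0 : ℕ → ℕ), Tau X T → 1 ≤ R →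
  1 ≤ S → 1 ≤ L → 1 ≤ V → 2 * R ≤ N → (∀ h ∈ Hs, h ≠ 0 ∧ |h| ≤ (H : ℤ)) → 16 * (R : ℝ) * (S : ℝ) ^ 2 * V ≤ X →
  4 * (H : ℝ) * V * L ≤ X → 4 * (V : ℝ) ^ 2 ≤ X →
  t1Sum a R S V L L' Hs r0 (fun h h' w w' r u s2 => ‖t1In a h h' k r u w w' s2 N‖) ≤
    46 * T ^ 6 * ((H : ℝ) ^ 2 * V * R * (S : ℝ) ^ 2 * N) *
      Real.sqrt (1 / (L : ℝ) + 1 / (Real.sqrt ((L : ℝ) * V) * S) + Real.sqrt ((L' : ℝ) * V) * S / N)

/-- Module T1Dia (theorem tT1Dia; the diagonal). Uses: T1GsaStmt.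
Proof. t1e h h' w w' = 0 iff h w' = h' w (t1_e_zero). Fix h, w: w' determines h' = h w'/w, and w | h w' means that w/gcd(h,w) divides w' ∈ (V, 2V]: at most 2V/(w/gcd(h,w)) ≤ 2 gcd(h,w) values (w > V). ∑_{h,w} 2 gcd(h,w) ≤ 2 ∑_w 2 ∑_{1≤h≤H} gcd(w,h) ≤ 4 V H T (T1Gsa with Z = w ≤ 2V ≤ X, τ(w) ≤ T). -/
def T1DiaStmt : Prop := ∀ (X T : ℝ) (H V : ℕ) (Hs : Finset ℤ), Tau X T → 1 ≤ V →
  (∀ h ∈ Hs, h ≠ 0 ∧ |h| ≤ (H : ℤ)) → 2 * (V : ℝ) ≤ X →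
  ∑ h ∈ Hs, ∑ h' ∈ Hs, ∑ w ∈ Ioc V (2 * V), ∑ w' ∈ Ioc V (2 * V), (if t1e h h' w w' = 0 then (1 : ℝ) else 0) ≤
    4 * (H : ℝ) * V * T

/-- Module T1Cau (theorem tT1Cau; Cauchy's inequality). Uses: nothing.
Proof. U = 2S/V (in ℕ). ∑_h TT = ∑_r ∑_{s2} ∑_n ω r n ∑_h ∑_{s1} γ h r s1 s2 t1K a h k r s1 s2 n (the if of TT is ω t1K). Fix r, s2, n, h. For 1 ≤ u ≤ U, V < w ≤ 2V let δ(h,u,w) = γ h r (u w) s2 if S < u w ≤ 2S and v (u w) = w, and δ = 0 otherwise. ∑_{s1} γ t1K = ∑_{u ∈ Icc 1 U} ∑_{w ∈ Ioc V 2V} δ(h,u,w) t1K .. (u w) ..: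
s1 ↦ (s1/v s1, v s1) is a bijection of {s1 : γ h r s1 s2 ≠ 0} onto {(u,w) : δ ≠ 0} with inverse (u,w) ↦ u w (s1 = u w, w > V, s1 ≤ 2S give u ≤ 2S/V). So ‖∑_h TT‖ ≤ ∑_{r,u,s2,n} ‖∑_{h,w} δ(h,u,w) t1K‖, and Cauchy with R U S N ≤ 2 R S^2 N/V terms: ‖∑_h TT‖^2 ≤ (2 R S^2 N/V) ∑_{r,u,s2,n} ‖∑_{h,w} δ t1K‖^2.
Expand the square: ∑_n ‖..‖^2 = ∑_{h,h',w,w'} δ(h,u,w) conj δ(h',u,w') t1In a h h' k r u w w' s2 N, ‖δ‖ ≤ 1. t1e h h' w w' = 0: ‖t1In‖ ≤ N (t1_norm_K), and there are R U S ≤ 2 R S^2/V triples (r, u, s2). t1e ≠ 0 and δ(h,u,w) δ(h',u,w') ≠ 0: the hypothesis on γ gives the conditions on r0 r; and if T1Gq fails then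
t1K .. (u w) t1K .. (u w') = 0 for every n (Gd for both pairs, S < u w, u w' ≤ 2S and s2 ∈ Ioc S (2S) give T1Gq), so t1In = 0. -/
def T1CauStmt : Prop := ∀ (a : ℤ) (k R S N V L L' : ℕ) (r0 v : ℕ → ℕ) (Hs : Finset ℤ)
    (γ : ℤ → ℕ → ℕ → ℕ → ℂ) (ω : ℕ → ℕ → ℂ),
  1 ≤ R → 1 ≤ S → 1 ≤ N → 1 ≤ V → (∀ h r s1 s2, ‖γ h r s1 s2‖ ≤ 1) → (∀ r n, ‖ω r n‖ ≤ 1) →
  (∀ h r s1 s2, γ h r s1 s2 ≠ 0 → r0 r ∣ r ∧ L < r0 r ∧ r0 r ≤ L' ∧ v s1 ∣ s1 ∧ V < v s1 ∧ v s1 ≤ 2 * V) →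
  ‖∑ h ∈ Hs, TT a h k R S N (γ h) ω‖ ^ 2 ≤ 2 * (R : ℝ) * (S : ℝ) ^ 2 * N / V *
    (2 * (R : ℝ) * (S : ℝ) ^ 2 * N / V * (∑ h ∈ Hs, ∑ h' ∈ Hs, ∑ w ∈ Ioc V (2 * V), ∑ w' ∈ Ioc V (2 * V),
        (if t1e h h' w w' = 0 then (1 : ℝ) else 0)) +
      t1Sum a R S V L L' Hs r0 (fun h h' w w' r u s2 => ‖t1In a h h' k r u w w' s2 N‖))

/-- Module T1Fin (theorem tT1Fin : T1CauStmt → T1DiaStmt → T1AviStmt → T1Stmt; the final theorem of the chapter; T1Stmt is in MI/Stm.lean). Uses: T1CauStmt, T1DiaStmt, T1AviStmt.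
Proof. C = 92, A = 6. All numbers are ≥ 1, so the hypothesis 100 R^2 S^4 N^2 V^2 H^2 L^2 ≤ X gives the conditions of T1Avi and T1Dia. With Z = (1/L + 1/((L V)^(1/2) S) + (L' V)^(1/2) S/N)^(1/2): ‖∑ TT‖^2 ≤ (2 R S^2 N/V)((2 R S^2 N/V) 4 H V T + 46 T^6 H^2 V R S^2 N Z) = (R S^2 N)^2 (16 T H/V + 92 T^6 H^2 Z). -/
def T1FinStmt : Prop := T1CauStmt → T1DiaStmt → T1AviStmt → T1Stmt

end Pool.Agent.Lib.MI
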