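import Pool.Agent.Lib.MI.Stm
import Pool.Agent.Lib.MI.Basic

/-!
MP_00e23e_nt, directory Lib/MI, chapter T1 (Type I; architect helper51; version 3): definitions and basic lemmas.
-/

namespace Pool.Agent.Lib.MI

open Finset Pool.Agent.Lib.EH3 Pool.Agent.Lib.TB

/-! ### basic lemmas about en -/

lemma t1_en_sub (A B : ℤ) (q : ℕ) : en (A - B) q = en A q * (starRingEnd ℂ) (en B q) := by
  rw [conj_en, ← en_add, sub_eq_add_neg]

/-! ### definitions -/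

/-- (h w' - h' w)/(w, w') -/
def t1e (h h' : ℤ) (w w' : ℕ) : ℤ := h * ((w' / Nat.gcd w w' : ℕ) : ℤ) - h' * ((w / Nat.gcd w w' : ℕ) : ℤ)

/-- the modulus r0 u [w, w'] -/
def t1q (r0 u w w' : ℕ) : ℕ := r0 * u * Nat.lcm w w'

/-- n ↦ e(c n⁻¹/q) for n coprime to q, 0 otherwise -/
noncomputable def t1g (c : ℤ) (q n : ℕ) : ℂ := if n.Coprime q then en (c * (iv n q : ℤ)) q else 0

/-- the conditions on r, u, w, w', s2 (w, w' are the two values of v, s1 = u w and s1' = u w') -/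
def T1Gq (a : ℤ) (S r u w w' s2 : ℕ) : Prop :=
  Squarefree (r * (u * w)) ∧ Squarefree (r * (u * w')) ∧ Squarefree (r * s2) ∧ (u * w).Coprime s2 ∧
    (u * w').Coprime s2 ∧ Int.gcd a ((r * (u * w) : ℕ) : ℤ) = 1 ∧ Int.gcd a ((r * (u * w') : ℕ) : ℤ) = 1 ∧
    Int.gcd a ((r * s2 : ℕ) : ℤ) = 1 ∧ S < u * w ∧ u * w ≤ 2 * S ∧ S < u * w' ∧ u * w' ≤ 2 * S ∧
    S < s2 ∧ s2 ≤ 2 * S

open Classical in
/-- the kernel: fz on the good tuples, 0 elsewhere -/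
noncomputable def t1K (a h : ℤ) (k r s1 s2 n : ℕ) : ℂ :=
  if Gd a r s1 s2 n (n + k * r) then fz a h r s1 s2 n (n + k * r) else 0

/-- the inner sum over n for the pair (h, w), (h', w') -/
noncomputable def t1In (a h h' : ℤ) (k r u w w' s2 N : ℕ) : ℂ :=
  ∑ n ∈ Ioc N (2 * N), t1K a h k r (u * w) s2 n * (starRingEnd ℂ) (t1K a h' k r (u * w') s2 n)

/-- the coefficient modulo q = r0 u [w, w'], without the factor s2⁻¹ (q coprime to r1 = r/r0) -/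
noncomputable def t1cA (a h h' : ℤ) (r r0 u w w' : ℕ) : ℤ :=
  -(a * t1e h h' w w') * (iv (r / r0) (t1q r0 u w w') : ℤ)

/-- the coefficient modulo s2, without the factor q⁻¹ -/
noncomputable def t1cB (a h h' : ℤ) (r r0 w w' s2 : ℕ) : ℤ := -(a * t1e h h' w w') * (iv (r / r0) s2 : ℤ)

/-- the part of the phase which is not periodic modulo r1 -/
noncomputable def t1G (a h h' : ℤ) (k r r0 u w w' s2 n : ℕ) : ℂ :=
  t1g (t1cA a h h' r r0 u w w' * (iv s2 (t1q r0 u w w') : ℤ)) (t1q r0 u w w') n *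
    t1g (t1cB a h h' r r0 w w' s2 * (iv (t1q r0 u w w') s2 : ℤ)) s2 (n + k * r)

/-- the correlation with the shift t = d r1 -/
noncomputable def t1C (a h h' : ℤ) (k r r0 u w w' s2 N d : ℕ) : ℂ :=
  ∑ n ∈ Ioc N (2 * N - d * (r / r0)),
    t1G a h h' k r r0 u w w' s2 n * (starRingEnd ℂ) (t1G a h h' k r r0 u w w' s2 (n + d * (r / r0)))

/-- weights of the completed sums -/
noncomputable def t1w (W : ℝ) (j : ℤ) : ℝ := if j = 0 then W else 1 / (2 * |(j : ℝ)|)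

open Classical in
/-- the sum of f over the tuples (h, h', w, w', r, u, s2) off the diagonal which satisfy T1Gq; r0 r is a divisor of r in
(L, L'] -/
noncomputable def t1Sum (a : ℤ) (R S V L L' : ℕ) (Hs : Finset ℤ) (r0 : ℕ → ℕ)
    (f : ℤ → ℤ → ℕ → ℕ → ℕ → ℕ → ℕ → ℝ) : ℝ :=
  ∑ h ∈ Hs, ∑ h' ∈ Hs, ∑ w ∈ Ioc V (2 * V), ∑ w' ∈ Ioc V (2 * V), ∑ r ∈ Ioc R (2 * R),
    ∑ u ∈ Icc 1 (2 * S / V), ∑ s2 ∈ Ioc S (2 * S),
      if t1e h h' w w' ≠ 0 ∧ (r0 r ∣ r ∧ L < r0 r ∧ r0 r ≤ L') ∧ T1Gq a S r u w w' s2 then f h h' w w' r u s2 else 0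

/-! ### basic lemmas about t1e -/

lemma t1_e_mul (h h' : ℤ) (w w' : ℕ) : t1e h h' w w' * (Nat.gcd w w' : ℤ) = h * (w' : ℤ) - h' * (w : ℤ) := by
  unfold t1e
  have h1 : ((w' / Nat.gcd w w' : ℕ) : ℤ) * (Nat.gcd w w' : ℤ) = w' := by
    exact_mod_cast Nat.div_mul_cancel (Nat.gcd_dvd_right w w')
  have h2 : ((w / Nat.gcd w w' : ℕ) : ℤ) * (Nat.gcd w w' : ℤ) = w := by
    exact_mod_cast Nat.div_mul_cancel (Nat.gcd_dvd_left w w')
  calc (h * ((w' / Nat.gcd w w' : ℕ) : ℤ) - h' * ((w / Nat.gcd w w' : ℕ) : ℤ)) * (Nat.gcd w w' : ℤ)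
      = h * (((w' / Nat.gcd w w' : ℕ) : ℤ) * (Nat.gcd w w' : ℤ)) -
        h' * (((w / Nat.gcd w w' : ℕ) : ℤ) * (Nat.gcd w w' : ℤ)) := by ring
    _ = _ := by rw [h1, h2]

lemma t1_e_zero {h h' : ℤ} {w w' : ℕ} (hw : 1 ≤ w) : t1e h h' w w' = 0 ↔ h * (w' : ℤ) = h' * (w : ℤ) := by
  have h1 := t1_e_mul h h' w w'
  have h2 : (0 : ℤ) < (Nat.gcd w w' : ℤ) := by
    have : 0 < Nat.gcd w w' := Nat.gcd_pos_of_pos_left _ (by omega)
    exact_mod_cast this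
  constructor
  · intro h0
    rw [h0, zero_mul] at h1
    linarith
  · intro h0
    have h3 : t1e h h' w w' * (Nat.gcd w w' : ℤ) = 0 := by
      rw [h1]
      linarith
    rcases mul_eq_zero.1 h3 with h4 | h4
    · exact h4
    · omega

lemma t1_e_le {h h' : ℤ} {w w' V H : ℕ} (h1 : |h| ≤ (H : ℤ)) (h2 : |h'| ≤ (H : ℤ)) (h3 : w ≤ 2 * V)
    (h4 : w' ≤ 2 * V) : |t1e h h' w w'| ≤ 4 * (H : ℤ) * V := by
  unfold t1e
  have h5 : (w' / Nat.gcd w w' : ℕ) ≤ 2 * V := (Nat.div_le_self _ _).trans h4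
  have h6 : (w / Nat.gcd w w' : ℕ) ≤ 2 * V := (Nat.div_le_self _ _).trans h3
  have h7 : |h * ((w' / Nat.gcd w w' : ℕ) : ℤ)| ≤ (H : ℤ) * (2 * V) := by
    rw [abs_mul, Nat.abs_cast]
    exact mul_le_mul h1 (by exact_mod_cast h5) (by positivity) (by positivity)
  have h8 : |h' * ((w / Nat.gcd w w' : ℕ) : ℤ)| ≤ (H : ℤ) * (2 * V) := by
    rw [abs_mul, Nat.abs_cast]
    exact mul_le_mul h2 (by exact_mod_cast h6) (by positivity) (by positivity)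
  calc _ ≤ |h * ((w' / Nat.gcd w w' : ℕ) : ℤ)| + |h' * ((w / Nat.gcd w w' : ℕ) : ℤ)| := abs_sub _ _
    _ ≤ (H : ℤ) * (2 * V) + (H : ℤ) * (2 * V) := add_le_add h7 h8
    _ = _ := by ring

/-! ### basic lemmas about t1g -/

lemma t1_norm_g (c : ℤ) (q n : ℕ) : ‖t1g c q n‖ ≤ 1 := by
  unfold t1g
  split_ifs
  · rw [norm_en]
  · simp

lemma t1_g_add (c : ℤ) (q n : ℕ) : t1g c q (n + q) = t1g c q n := by
  unfold t1g
  have h1 : (n + q).Coprime q ↔ n.Coprime q := by simp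
  have h2 : iv (n + q) q = iv n q := iv_congr (by simp [Nat.ModEq])
  simp only [h1, h2]

lemma t1_g_add_mul (c : ℤ) (q n m : ℕ) : t1g c q (n + m * q) = t1g c q n := by
  induction m with
  | zero => simp
  | succ m ih =>
    rw [show n + (m + 1) * q = (n + m * q) + q by ring, t1_g_add, ih]

/-- t1g depends only on c modulo q -/
lemma t1_g_congr {c c' : ℤ} {q : ℕ} (h : (q : ℤ) ∣ c - c') (n : ℕ) : t1g c q n = t1g c' q n := by
  unfold t1g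
  split_ifs
  · apply en_congr
    rw [← sub_mul]
    exact dvd_mul_of_dvd_left h _
  · rfl

/-- product of t1g at two points -/
lemma t1_g_mul_conj (c : ℤ) (q n t : ℕ) : t1g c q n * (starRingEnd ℂ) (t1g c q (n + t)) =
    if n.Coprime q ∧ (n + t).Coprime q then en (c * ((iv n q : ℤ) - (iv (n + t) q : ℤ))) q else 0 := by
  unfold t1g
  by_cases h1 : n.Coprime q <;> by_cases h2 : (n + t).Coprime q
  · rw [if_pos h1, if_pos h2, if_pos ⟨h1, h2⟩, ← t1_en_sub]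
    congr 1
    ring
  · have h3 : ¬ (n.Coprime q ∧ (n + t).Coprime q) := fun h => h2 h.2
    rw [if_neg h3, if_neg h2]
    simp
  · have h3 : ¬ (n.Coprime q ∧ (n + t).Coprime q) := fun h => h1 h.1
    rw [if_neg h3, if_neg h1]
    simp
  · have h3 : ¬ (n.Coprime q ∧ (n + t).Coprime q) := fun h => h1 h.1
    rw [if_neg h3, if_neg h1]
    simp

lemma t1_norm_K (a h : ℤ) (k r s1 s2 n : ℕ) : ‖t1K a h k r s1 s2 n‖ ≤ 1 := by
  unfold t1K fz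
  split_ifs
  · rw [norm_mul, norm_en, norm_en, one_mul]
  · simp

lemma t1_norm_G (a h h' : ℤ) (k r r0 u w w' s2 n : ℕ) : ‖t1G a h h' k r r0 u w w' s2 n‖ ≤ 1 := by
  unfold t1G
  rw [norm_mul]
  exact mul_le_one₀ (t1_norm_g _ _ _) (norm_nonneg _) (t1_norm_g _ _ _)

/-- the sum of functions f ≤ g -/
lemma t1_Sum_mono {a : ℤ} {R S V L L' : ℕ} {Hs : Finset ℤ} {r0 : ℕ → ℕ}
    {f g : ℤ → ℤ → ℕ → ℕ → ℕ → ℕ → ℕ → ℝ}
    (hfg : ∀ h ∈ Hs, ∀ h' ∈ Hs, ∀ w ∈ Ioc V (2 * V), ∀ w' ∈ Ioc V (2 * V), ∀ r ∈ Ioc R (2 * R),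
      ∀ u ∈ Icc 1 (2 * S / V), ∀ s2 ∈ Ioc S (2 * S), t1e h h' w w' ≠ 0 → (r0 r ∣ r ∧ L < r0 r ∧ r0 r ≤ L') →
        T1Gq a S r u w w' s2 → f h h' w w' r u s2 ≤ g h h' w w' r u s2) :
    t1Sum a R S V L L' Hs r0 f ≤ t1Sum a R S V L L' Hs r0 g := by
  unfold t1Sum
  refine sum_le_sum fun h hh => sum_le_sum fun h' hh' => sum_le_sum fun w hw => sum_le_sum fun w' hw' =>
    sum_le_sum fun r hr => sum_le_sum fun u hu => sum_le_sum fun s2 hs2 => ?_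
  split_ifs with hc
  · exact hfg _ hh _ hh' _ hw _ hw' _ hr _ hu _ hs2 hc.1 hc.2.1 hc.2.2
  · exact le_rfl

end Pool.Agent.Lib.MI
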