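import Pool.Agent.Lib.MI.SpecT1

namespace Pool.Agent.Lib.MI

open Finset Pool.Agent.Lib.EH3 Pool.Agent.Lib.TB Pool.Agent.Results.MP_00e23e_nt

private lemma T1Num_card (H : ℕ) (Hs : Finset ℤ) (h : ∀ h ∈ Hs, h ≠ 0 ∧ |h| ≤ (H : ℤ)) :
    (Hs.card : ℝ) ≤ 2 * (H : ℝ) := by
  have h1 : Hs ⊆ (Icc (-(H : ℤ)) (H : ℤ)).erase 0 := by
    intro x hx
    rw [Finset.mem_erase, Finset.mem_Icc]
    exact ⟨(h x hx).1, abs_le.1 (h x hx).2⟩
  have h2 : Hs.card ≤ 2 * H := by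
    calc Hs.card ≤ ((Icc (-(H : ℤ)) (H : ℤ)).erase 0).card := Finset.card_le_card h1
      _ = 2 * H := by
        rw [Finset.card_erase_of_mem (by simp), Int.card_Icc]
        omega
  exact_mod_cast h2

theorem tT1Num : T1NumStmt := by
  classical
  intro a R S H V L L' Hs r0 B hV hB hHs
  have hV' : (0 : ℝ) < V := by exact_mod_cast hV
  have hc := T1Num_card H Hs hHs
  have h1 : t1Sum a R S V L L' Hs r0 (fun _ _ _ _ _ _ _ => B) ≤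
      ∑ _h ∈ Hs, ∑ _h' ∈ Hs, ∑ _w ∈ Ioc V (2 * V), ∑ _w' ∈ Ioc V (2 * V), ∑ _r ∈ Ioc R (2 * R),
        ∑ _u ∈ Icc 1 (2 * S / V), ∑ _s2 ∈ Ioc S (2 * S), B := by
    unfold t1Sum
    refine sum_le_sum fun h _ => sum_le_sum fun h' _ => sum_le_sum fun w _ => sum_le_sum fun w' _ =>
      sum_le_sum fun r _ => sum_le_sum fun u _ => sum_le_sum fun s2 _ => ?_
    split_ifs
    · exact le_rfl
    · exact hB
  refine h1.trans ?_
  have e1 : 2 * V - V = V := by omega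
  have e2 : 2 * R - R = R := by omega
  have e3 : 2 * S - S = S := by omega
  simp only [sum_const, Nat.card_Ioc, Nat.card_Icc, nsmul_eq_mul, e1, e2, e3, Nat.add_sub_cancel]
  have h3 : ((2 * S / V : ℕ) : ℝ) ≤ 2 * (S : ℝ) / V := by
    have h4 : ((2 * S / V : ℕ) : ℝ) ≤ ((2 * S : ℕ) : ℝ) / (V : ℝ) := Nat.cast_div_le
    rw [Nat.cast_mul, Nat.cast_ofNat] at h4
    exact h4
  calc (Hs.card : ℝ) * ((Hs.card : ℝ) * ((V : ℝ) * ((V : ℝ) * ((R : ℝ) *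
        (((2 * S / V : ℕ) : ℝ) * ((S : ℝ) * B))))))
      ≤ (2 * (H : ℝ)) * ((2 * (H : ℝ)) * ((V : ℝ) * ((V : ℝ) * ((R : ℝ) *
        ((2 * (S : ℝ) / V) * ((S : ℝ) * B)))))) := by gcongr
    _ = 8 * (H : ℝ) ^ 2 * V * R * (S : ℝ) ^ 2 * B := by
      field_simp
      ring

end Pool.Agent.Lib.MI
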