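import Pool.Agent.Lib.MI.Stm
import Pool.Agent.Lib.MI.Basic

/-!
MP_00e23e_nt, directory Lib/MI, chapter T2 of THEOREM MI (Type II sums; helper2): the factorisation of the phases.
-/

namespace Pool.Agent.Lib.MI

open Finset Pool.Agent.Lib.EH3 Pool.Agent.Lib.TB Pool.Agent.Results.MP_00e23e_nt

open Classical in
/-- the kernel of TT -/
noncomputable def t2K (a h : ℤ) (k r s1 s2 n : ℕ) : ℂ :=
  if Gd a r s1 s2 n (n + k * r) then fz a h r s1 s2 n (n + k * r) else 0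

/-- the conditions which do not depend on n -/
def T2Gd (a : ℤ) (r s1 s2 : ℕ) : Prop :=
  Squarefree (r * s1) ∧ Squarefree (r * s2) ∧ s1.Coprime s2 ∧
    Int.gcd a ((r * s1 : ℕ) : ℤ) = 1 ∧ Int.gcd a ((r * s2 : ℕ) : ℤ) = 1

/-- the part of the kernel modulo r -/
noncomputable def t2g (c : ℤ) (r n : ℕ) : ℂ := if n.Coprime r then en (c * (iv n r : ℤ)) r else 0

/-- the periodic part of the kernel -/
noncomputable def t2P (a h : ℤ) (k r s1 s2 n : ℕ) : ℂ :=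
  if n.Coprime s1 ∧ (n + k * r).Coprime s2 then
    en (-(h * a) * (iv n s1 : ℤ) * (iv s2 s1 : ℤ) * (iv r s1 : ℤ)) s1 *
      en (-(h * a) * (iv (n + k * r) s2 : ℤ) * (iv (r * s1) s2 : ℤ)) s2
  else 0

lemma t2_norm_K (a h : ℤ) (k r s1 s2 n : ℕ) : ‖t2K a h k r s1 s2 n‖ ≤ 1 := by
  unfold t2K fz
  split_ifs
  · rw [norm_mul, norm_en, norm_en, one_mul]
  · simp

lemma t2_norm_P (a h : ℤ) (k r s1 s2 n : ℕ) : ‖t2P a h k r s1 s2 n‖ ≤ 1 := by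
  unfold t2P
  split_ifs
  · rw [norm_mul, norm_en, norm_en, one_mul]
  · simp

lemma t2_K_zero {a h : ℤ} {k r s1 s2 n : ℕ} (hg : ¬ T2Gd a r s1 s2) : t2K a h k r s1 s2 n = 0 := by
  unfold t2K
  refine if_neg fun h1 => hg ?_
  exact ⟨h1.1, h1.2.1, h1.2.2.1, h1.2.2.2.2.2.1, h1.2.2.2.2.2.2⟩

lemma t2_cop {a b q : ℕ} (h : a ≡ b [MOD q]) : a.Coprime q ↔ b.Coprime q := by
  unfold Nat.Coprime
  rw [Nat.ModEq.gcd_eq h]

lemma t2_P_congr {a h : ℤ} {k r s1 s2 n n' : ℕ} (h1 : n ≡ n' [MOD s1]) (h2 : n ≡ n' [MOD s2]) :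
    t2P a h k r s1 s2 n = t2P a h k r s1 s2 n' := by
  have h3 : n + k * r ≡ n' + k * r [MOD s2] := Nat.ModEq.add_right _ h2
  unfold t2P
  rw [iv_congr h1, iv_congr h3]
  by_cases h4 : n.Coprime s1 ∧ (n + k * r).Coprime s2
  · rw [if_pos h4, if_pos ⟨(t2_cop h1).1 h4.1, (t2_cop h3).1 h4.2⟩]
  · rw [if_neg h4, if_neg]
    rintro ⟨h5, h6⟩
    exact h4 ⟨(t2_cop h1).2 h5, (t2_cop h3).2 h6⟩

lemma t2_Gd_pos {a : ℤ} {r s1 s2 : ℕ} (hg : T2Gd a r s1 s2) : 1 ≤ r ∧ 1 ≤ s1 ∧ 1 ≤ s2 ∧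
    r.Coprime s1 ∧ r.Coprime s2 ∧ Squarefree r := by
  obtain ⟨q1, q2, -⟩ := hg
  have h1 := q1.ne_zero
  have h2 := q2.ne_zero
  refine ⟨Nat.pos_of_ne_zero fun h => h1 (by rw [h, zero_mul]),
    Nat.pos_of_ne_zero fun h => h1 (by rw [h, mul_zero]),
    Nat.pos_of_ne_zero fun h => h2 (by rw [h, mul_zero]),
    Nat.coprime_of_squarefree_mul q1, Nat.coprime_of_squarefree_mul q2, q1.of_mul_left⟩

lemma t2_K_eq {a h : ℤ} {k r s1 s2 n : ℕ} (hg : T2Gd a r s1 s2) :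
    t2K a h k r s1 s2 n =
      t2g (-(h * a * (iv (s1 * s2) r : ℤ))) r n * t2P a h k r s1 s2 n := by
  obtain ⟨hr, hs1, hs2, c1, c2, -⟩ := t2_Gd_pos hg
  obtain ⟨q1, q2, q3, q4, q5⟩ := hg
  have c3 : (n + k * r).Coprime r ↔ n.Coprime r := t2_cop (by simp [Nat.ModEq])
  unfold t2K t2g t2P
  by_cases hn : n.Coprime r
  · by_cases hP : n.Coprime s1 ∧ (n + k * r).Coprime s2
    · have h1 : n.Coprime (r * s1) := Nat.Coprime.mul_right hn hP.1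
      have h2 : (n + k * r).Coprime (r * s2) := Nat.Coprime.mul_right (c3.2 hn) hP.2
      rw [if_pos ⟨q1, q2, q3, h1, h2, q4, q5⟩, if_pos hn, if_pos hP, ← mul_assoc]
      unfold fz
      rw [en_crt c1 hr hs1]
      have hns : (n * s2).Coprime (r * s1) :=
        Nat.Coprime.mul_left h1 (Nat.Coprime.mul_right c2.symm q3.symm)
      have hrs : 1 ≤ r * s1 := Nat.mul_pos hr hs1
      refine congrArg₂ (· * ·) (congrArg₂ (· * ·) (en_congr ?_) (en_congr ?_)) (en_congr ?_)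
      · obtain ⟨z1, e1⟩ := iv_dvd_dvd hns (dvd_mul_right r s1) hrs
        obtain ⟨z2, e2⟩ := iv_mul_mul hn c2.symm hr
        obtain ⟨z3, e3⟩ := iv_mul_mul c1.symm c2.symm hr
        refine ⟨-(h * a) * (iv s1 r : ℤ) * (z1 + z2) + h * a * (iv n r : ℤ) * z3, ?_⟩
        linear_combination (-(h * a) * (iv s1 r : ℤ)) * e1 + (-(h * a) * (iv s1 r : ℤ)) * e2 +
          (h * a * (iv n r : ℤ)) * e3
      · obtain ⟨z1, e1⟩ := iv_dvd_dvd hns (dvd_mul_left s1 r) hrs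
        obtain ⟨z2, e2⟩ := iv_mul_mul hP.1 q3.symm hs1
        refine ⟨-(h * a) * (iv r s1 : ℤ) * (z1 + z2), ?_⟩
        linear_combination (-(h * a) * (iv r s1 : ℤ)) * e1 + (-(h * a) * (iv r s1 : ℤ)) * e2
      · obtain ⟨z1, e1⟩ := iv_mul_mul hP.2 (Nat.Coprime.mul_left c2 q3) hs2
        refine ⟨-(h * a) * z1, ?_⟩
        linear_combination (-(h * a)) * e1
    · rw [if_neg hP, mul_zero, if_neg]
      rintro ⟨-, -, -, h1, h2, -⟩
      exact hP ⟨(Nat.coprime_mul_iff_right.1 h1).2, (Nat.coprime_mul_iff_right.1 h2).2⟩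
  · rw [if_neg hn, zero_mul, if_neg]
    rintro ⟨-, -, -, h1, -⟩
    exact hn (Nat.coprime_mul_iff_right.1 h1).1

/-- the product of two kernels -/
lemma t2_prod {a h h' : ℤ} {k r s1 s2 s1' s2' n : ℕ} (hg : T2Gd a r s1 s2) (hg' : T2Gd a r s1' s2') :
    t2K a h k r s1 s2 n * (starRingEnd ℂ) (t2K a h' k r s1' s2' n) =
      t2g (-(h * a * (iv (s1 * s2) r : ℤ)) + h' * a * (iv (s1' * s2') r : ℤ)) r n *
        (t2P a h k r s1 s2 n * (starRingEnd ℂ) (t2P a h' k r s1' s2' n)) := by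
  rw [t2_K_eq hg, t2_K_eq hg', map_mul]
  have h1 : t2g (-(h * a * (iv (s1 * s2) r : ℤ))) r n *
      (starRingEnd ℂ) (t2g (-(h' * a * (iv (s1' * s2') r : ℤ))) r n) =
      t2g (-(h * a * (iv (s1 * s2) r : ℤ)) + h' * a * (iv (s1' * s2') r : ℤ)) r n := by
    unfold t2g
    by_cases hn : n.Coprime r
    · rw [if_pos hn, if_pos hn, if_pos hn, conj_en, ← en_add]
      congr 1
      ring
    · rw [if_neg hn, zero_mul, if_neg hn]
  rw [← h1]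
  ring

/-- the product of the periodic parts -/
lemma t2_P_per {a h h' : ℤ} {k r s1 s2 s1' s2' W n n' : ℕ} (h1 : s1 ∣ W) (h2 : s2 ∣ W) (h3 : s1' ∣ W)
    (h4 : s2' ∣ W) (hn : n ≡ n' [MOD W]) :
    t2P a h k r s1 s2 n * (starRingEnd ℂ) (t2P a h' k r s1' s2' n) =
      t2P a h k r s1 s2 n' * (starRingEnd ℂ) (t2P a h' k r s1' s2' n') := by
  rw [t2_P_congr (hn.of_dvd h1) (hn.of_dvd h2), t2_P_congr (hn.of_dvd h3) (hn.of_dvd h4)]

end Pool.Agent.Lib.MI
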