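import Pool.Agent.Lib.MI.T2a
import Pool.Agent.Lib.TV.SpecV

/-!
MP_00e23e_nt, directory Lib/MI, chapter T2 of THEOREM MI (Type II sums; helper2): the inner sums.
-/

namespace Pool.Agent.Lib.MI

open Finset Pool.Agent.Lib.EH3 Pool.Agent.Lib.TB Pool.Agent.Results.MP_00e23e_nt

lemma t2_gcd_unit {w c : ℤ} {r : ℕ} (hw : IsCoprime w (r : ℤ)) : Int.gcd (c * w) r = Int.gcd c r := by
  apply Nat.dvd_antisymm
  · have h1 : ((Int.gcd (c * w) r : ℕ) : ℤ) ∣ c * w := Int.gcd_dvd_left _ _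
    have h2 : ((Int.gcd (c * w) r : ℕ) : ℤ) ∣ r := Int.gcd_dvd_right _ _
    have h3 : IsCoprime w ((Int.gcd (c * w) r : ℕ) : ℤ) := hw.of_isCoprime_of_dvd_right h2
    exact Int.natCast_dvd_natCast.1 (Int.dvd_coe_gcd (h3.symm.dvd_of_dvd_mul_right h1) h2)
  · have h1 : ((Int.gcd c r : ℕ) : ℤ) ∣ c * w := dvd_mul_of_dvd_left (Int.gcd_dvd_left _ _) _
    have h2 : ((Int.gcd c r : ℕ) : ℤ) ∣ r := Int.gcd_dvd_right _ _
    exact Int.natCast_dvd_natCast.1 (Int.dvd_coe_gcd h1 h2)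

lemma t2_iv_coprime {e q : ℕ} (h : e.Coprime q) (hq : 1 ≤ q) : IsCoprime (iv e q : ℤ) (q : ℤ) := by
  obtain ⟨z, hz⟩ := iv_dvd h hq
  exact ⟨e, -z, by linear_combination hz⟩

/-- the sum over one class modulo W -/
lemma t2_class (hV : TV.VsqStmt) {r W N n0 : ℕ} (c : ℤ) (hr : 1 ≤ r) (hsq : Squarefree r) (hW : 1 ≤ W)
    (hcop : W.Coprime r) (hn0 : n0 < W) :
    ‖∑ n ∈ (Ioc N (2 * N)).filter (fun n => n % W = n0), t2g c r n‖ ≤
      (r.divisors.card : ℝ) * ((N : ℝ) * (Int.gcd c r : ℝ) / (W * r) +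
        Real.sqrt r * (4 + Real.log r)) := by
  have hr0 : (0 : ℝ) < r := by exact_mod_cast hr
  have hW0 : (0 : ℝ) < W := by exact_mod_cast hW
  set T1 := (N + W - n0) / W with hT1
  set T2 := (2 * N + W - n0) / W with hT2
  set e := n0 * iv W r with he
  have hT : T1 ≤ T2 := Nat.div_le_div_right (by omega)
  have k1 : ∀ t, T1 ≤ t ↔ N < n0 + W * t := by
    intro t
    rw [hT1, ← Nat.lt_succ_iff, Nat.div_lt_iff_lt_mul (by omega), Nat.succ_mul, mul_comm t W]
    omega
  have k2 : ∀ t, t < T2 ↔ n0 + W * t ≤ 2 * N := by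
    intro t
    have h1 : T2 ≤ t ↔ 2 * N < n0 + W * t := by
      have h0 : (t + 1) * W = W * t + W := by ring
      rw [hT2, ← Nat.lt_succ_iff, Nat.div_lt_iff_lt_mul (by omega), Nat.succ_eq_add_one, h0]
      omega
    rw [← not_le, h1, not_lt]
  have hsum : ∑ n ∈ (Ioc N (2 * N)).filter (fun n => n % W = n0), t2g c r n =
      ∑ m ∈ (Ico (T1 + e) (T2 + e)).filter (fun m => m.Coprime r),
        ee (((c * (iv W r : ℤ) : ℤ) : ℝ) * (iv m r : ℝ) / r) := by
    have s1 : ∑ n ∈ (Ioc N (2 * N)).filter (fun n => n % W = n0), t2g c r n =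
        ∑ t ∈ Ico T1 T2, t2g c r (n0 + W * t) := by
      symm
      refine sum_bij (fun t _ => n0 + W * t) ?_ ?_ ?_ ?_
      · intro t ht
        rw [mem_Ico] at ht
        rw [mem_filter, mem_Ioc]
        refine ⟨⟨(k1 t).1 ht.1, (k2 t).1 ht.2⟩, ?_⟩
        rw [Nat.add_mul_mod_self_left, Nat.mod_eq_of_lt hn0]
      · intro t _ t' _ h
        have h2 : W * t = W * t' := by omega
        exact Nat.eq_of_mul_eq_mul_left (by omega) h2
      · intro n hn
        rw [mem_filter, mem_Ioc] at hn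
        refine ⟨n / W, ?_, ?_⟩
        · have h3 : n0 + W * (n / W) = n := by
            rw [← hn.2]
            exact Nat.mod_add_div n W
          rw [mem_Ico, k1, k2, h3]
          exact hn.1
        · rw [← hn.2]
          exact Nat.mod_add_div n W
      · intro t _
        rfl
    rw [s1, sum_filter, Finset.sum_Ico_add' (fun m => if m.Coprime r then
        ee (((c * (iv W r : ℤ) : ℤ) : ℝ) * (iv m r : ℝ) / r) else 0) T1 T2 e |>.symm]
    refine sum_congr rfl fun t _ => ?_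
    -- W (t + e) = n0 + W t modulo r
    have h1 : W * (t + e) ≡ n0 + W * t [MOD r] := by
      have h2 : W * e ≡ n0 [MOD r] := by
        have h3 := iv_mul hcop hr
        have h4 := Nat.ModEq.mul_left n0 h3
        rw [mul_one] at h4
        rw [he, show W * (n0 * iv W r) = n0 * (iv W r * W) by ring]
        exact h4
      have h5 := Nat.ModEq.add_right (W * t) h2
      rwa [show W * e + W * t = W * (t + e) by ring] at h5
    have h2 : (n0 + W * t).Coprime r ↔ (t + e).Coprime r := by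
      rw [← t2_cop h1]
      exact ⟨fun h => (Nat.coprime_mul_iff_left.1 h).2, fun h => Nat.Coprime.mul_left hcop h⟩
    unfold t2g
    by_cases h3 : (t + e).Coprime r
    · rw [if_pos (h2.2 h3), if_pos h3, ← iv_congr h1]
      have h4 : en (c * (iv (W * (t + e)) r : ℤ)) r = en (c * (iv W r : ℤ) * (iv (t + e) r : ℤ)) r := by
        refine en_congr ?_
        obtain ⟨z, hz⟩ := iv_mul_mul hcop h3 hr
        exact ⟨c * z, by linear_combination c * hz⟩
      rw [h4]
      unfold en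
      push_cast
      rfl
    · rw [if_neg (fun h => h3 (h2.1 h)), if_neg h3]
  rw [hsum]
  refine (hV r (T1 + e) (T2 + e) (c * (iv W r : ℤ)) hr hsq (by omega)).trans ?_
  rw [t2_gcd_unit (t2_iv_coprime hcop hr)]
  apply mul_le_mul_of_nonneg_left _ (Nat.cast_nonneg _)
  -- the length
  have hlen : (((T2 + e : ℕ) : ℝ) - ((T1 + e : ℕ) : ℝ)) ≤ (N : ℝ) / W + 1 := by
    have h1 : (T2 : ℝ) * W ≤ 2 * N + W - n0 := by
      have h2 : T2 * W ≤ 2 * N + W - n0 := Nat.div_mul_le_self _ _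
      have h3 : T2 * W + n0 ≤ 2 * N + W := by omega
      have h4 : ((T2 * W + n0 : ℕ) : ℝ) ≤ ((2 * N + W : ℕ) : ℝ) := by exact_mod_cast h3
      push_cast at h4
      linarith
    have h2 : (N : ℝ) < n0 + W * T1 := by
      have := (k1 T1).1 le_rfl
      exact_mod_cast this
    push_cast
    have h3 : ((T2 : ℝ) - T1) * W ≤ N + W := by nlinarith
    have h4 : (T2 : ℝ) - T1 ≤ (N + W) / W := by
      rw [le_div_iff₀ hW0]
      exact h3
    have h5 : ((N : ℝ) + W) / W = N / W + 1 := by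
      rw [add_div, div_self hW0.ne']
    linarith
  set g := Int.gcd c r with hg
  have hg1 : 1 ≤ g := by
    have : 0 < g := Int.gcd_pos_of_ne_zero_right _ (by exact_mod_cast (by omega : r ≠ 0))
    exact this
  have hgr : (g : ℝ) ≤ r := by
    have h1 : g ∣ r := by
      have : (g : ℤ) ∣ (r : ℤ) := Int.gcd_dvd_right _ _
      exact_mod_cast this
    exact_mod_cast Nat.le_of_dvd (by omega) h1
  have hg0 : (1 : ℝ) ≤ g := by exact_mod_cast hg1
  have hlog : 0 ≤ Real.log r := Real.log_nonneg (by exact_mod_cast hr)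
  have hsr : 1 ≤ Real.sqrt r := by
    rw [Real.one_le_sqrt]
    exact_mod_cast hr
  have e1 : ((((T2 + e : ℕ) : ℝ) - ((T1 + e : ℕ) : ℝ)) * g / r) ≤ (N : ℝ) * g / (W * r) + 1 := by
    have h1 : (((T2 + e : ℕ) : ℝ) - ((T1 + e : ℕ) : ℝ)) * g / r ≤ ((N : ℝ) / W + 1) * g / r := by
      gcongr
    have h2 : ((N : ℝ) / W + 1) * g / r = (N : ℝ) * g / (W * r) + g / r := by
      field_simp
    have h3 : (g : ℝ) / r ≤ 1 := by
      rw [div_le_one hr0]
      exact hgr
    linarith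
  have e2 : ((r : ℝ) / g) ^ ((1 : ℝ) / 2) ≤ Real.sqrt r := by
    rw [← Real.sqrt_eq_rpow]
    apply Real.sqrt_le_sqrt
    exact div_le_self hr0.le hg0
  have e3 : ((r : ℝ) / g) ^ ((1 : ℝ) / 2) * (3 + Real.log r) ≤ Real.sqrt r * (3 + Real.log r) :=
    mul_le_mul_of_nonneg_right e2 (by linarith)
  nlinarith

/-- the inner sums -/
lemma t2_inner (hV : TV.VsqStmt) {r W N : ℕ} (c : ℤ) (P : ℕ → ℂ) (hr : 1 ≤ r) (hsq : Squarefree r)
    (hW : 1 ≤ W) (hcop : W.Coprime r) (hP : ∀ n, ‖P n‖ ≤ 1)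
    (hper : ∀ n n', n ≡ n' [MOD W] → P n = P n') :
    ‖∑ n ∈ Ioc N (2 * N), t2g c r n * P n‖ ≤
      (r.divisors.card : ℝ) * ((N : ℝ) * (Int.gcd c r : ℝ) / r +
        (W : ℝ) * Real.sqrt r * (4 + Real.log r)) := by
  have hr0 : (0 : ℝ) < r := by exact_mod_cast hr
  have hW0 : (0 : ℝ) < W := by exact_mod_cast hW
  have h1 : ∑ n ∈ Ioc N (2 * N), t2g c r n * P n =
      ∑ n0 ∈ range W, P n0 * ∑ n ∈ (Ioc N (2 * N)).filter (fun n => n % W = n0), t2g c r n := by
    rw [← sum_fiberwise_of_maps_to (g := fun n => n % W) (t := range W)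
      (fun n _ => mem_range.2 (Nat.mod_lt n (by omega)))]
    refine sum_congr rfl fun n0 _ => ?_
    rw [mul_sum]
    refine sum_congr rfl fun n hn => ?_
    rw [mem_filter] at hn
    have h2 : P n = P n0 := by
      refine hper n n0 ?_
      rw [← hn.2]
      exact (Nat.mod_modEq n W).symm
    rw [h2, mul_comm]
  rw [h1]
  calc ‖∑ n0 ∈ range W, P n0 * ∑ n ∈ (Ioc N (2 * N)).filter (fun n => n % W = n0), t2g c r n‖
      ≤ ∑ n0 ∈ range W, (r.divisors.card : ℝ) * ((N : ℝ) * (Int.gcd c r : ℝ) / (W * r) +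
        Real.sqrt r * (4 + Real.log r)) := by
        refine norm_sum_le_of_le _ fun n0 hn0 => ?_
        rw [norm_mul]
        calc ‖P n0‖ * ‖∑ n ∈ (Ioc N (2 * N)).filter (fun n => n % W = n0), t2g c r n‖
            ≤ 1 * ‖∑ n ∈ (Ioc N (2 * N)).filter (fun n => n % W = n0), t2g c r n‖ :=
              mul_le_mul_of_nonneg_right (hP n0) (norm_nonneg _)
          _ ≤ _ := by
              rw [one_mul]
              exact t2_class hV c hr hsq hW hcop (mem_range.1 hn0)
    _ = (W : ℝ) * ((r.divisors.card : ℝ) * ((N : ℝ) * (Int.gcd c r : ℝ) / (W * r) +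
        Real.sqrt r * (4 + Real.log r))) := by
        rw [sum_const, card_range, nsmul_eq_mul]
    _ = _ := by
        field_simp

end Pool.Agent.Lib.MI
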