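import Pool.Agent.Lib.MI.T2b

/-!
MP_00e23e_nt, directory Lib/MI, chapter T2 of THEOREM MI (Type II sums; helper2): the correlations and the counting.
-/

namespace Pool.Agent.Lib.MI

open Finset Pool.Agent.Lib.EH3 Pool.Agent.Lib.TB Pool.Agent.Results.MP_00e23e_nt

lemma t2_gcd_congr {x y : ℤ} {r : ℕ} (h : (r : ℤ) ∣ x - y) : Int.gcd x r = Int.gcd y r := by
  obtain ⟨z, hz⟩ := h
  have hx : x = y + r * z := by linarith
  apply Nat.dvd_antisymm
  · have h2 : ((Int.gcd x r : ℕ) : ℤ) ∣ r := Int.gcd_dvd_right _ _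
    have h1 : ((Int.gcd x r : ℕ) : ℤ) ∣ y := by
      have h3 : ((Int.gcd x r : ℕ) : ℤ) ∣ x := Int.gcd_dvd_left _ _
      have h4 : y = x - r * z := by linarith
      rw [h4]
      exact dvd_sub h3 (dvd_mul_of_dvd_left h2 _)
    exact Int.natCast_dvd_natCast.1 (Int.dvd_coe_gcd h1 h2)
  · have h2 : ((Int.gcd y r : ℕ) : ℤ) ∣ r := Int.gcd_dvd_right _ _
    have h1 : ((Int.gcd y r : ℕ) : ℤ) ∣ x := by
      rw [hx]
      exact dvd_add (Int.gcd_dvd_left _ _) (dvd_mul_of_dvd_left h2 _)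
    exact Int.natCast_dvd_natCast.1 (Int.dvd_coe_gcd h1 h2)

/-- the determinant of two tuples -/
def t2T (h h' : ℤ) (s1 s2 s1' s2' : ℕ) : ℤ := h * ((s1' : ℤ) * s2') - h' * ((s1 : ℤ) * s2)

lemma t2_gcd {a h h' : ℤ} {r s1 s2 s1' s2' : ℕ} (hr : 1 ≤ r) (c1 : s1.Coprime r) (c2 : s2.Coprime r)
    (c1' : s1'.Coprime r) (c2' : s2'.Coprime r) (ha : Int.gcd a r = 1) :
    Int.gcd (-(h * a * (iv (s1 * s2) r : ℤ)) + h' * a * (iv (s1' * s2') r : ℤ)) r =
      Int.gcd (t2T h h' s1 s2 s1' s2') r := by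
  have hs : (s1 * s2).Coprime r := Nat.Coprime.mul_left c1 c2
  have hs' : (s1' * s2').Coprime r := Nat.Coprime.mul_left c1' c2'
  have hw : IsCoprime (((s1 * s2 * (s1' * s2') : ℕ)) : ℤ) (r : ℤ) :=
    Nat.isCoprime_iff_coprime.2 (Nat.Coprime.mul_left hs hs')
  have ha' : IsCoprime (-a) (r : ℤ) := ((Int.isCoprime_iff_gcd_eq_one).2 ha).neg_left
  rw [← t2_gcd_unit hw, ← t2_gcd_unit (c := t2T h h' s1 s2 s1' s2') ha']
  refine t2_gcd_congr ?_
  obtain ⟨z1, e1⟩ := iv_dvd hs hr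
  obtain ⟨z2, e2⟩ := iv_dvd hs' hr
  push_cast at e1 e2 ⊢
  refine ⟨-(h * a) * z1 * ((s1' : ℤ) * s2') + h' * a * z2 * ((s1 : ℤ) * s2), ?_⟩
  unfold t2T
  linear_combination (-(h * a) * ((s1' : ℤ) * s2')) * e1 + (h' * a * ((s1 : ℤ) * s2)) * e2

/-- the correlation of two kernels -/
lemma t2_In (hV : TV.VsqStmt) {X T : ℝ} (hT : Tau X T) {a h h' : ℤ} {k r s1 s2 s1' s2' R S N : ℕ}
    (hR : 1 ≤ R) (hX : 2 * (R : ℝ) ≤ X) (hr1 : R < r) (hr2 : r ≤ 2 * R)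
    (h1 : s1 ≤ 2 * S) (h2 : s2 ≤ 2 * S) (h3 : s1' ≤ 2 * S) (h4 : s2' ≤ 2 * S) :
    ‖∑ n ∈ Ioc N (2 * N), t2K a h k r s1 s2 n * (starRingEnd ℂ) (t2K a h' k r s1' s2' n)‖ ≤
      T * ((N : ℝ) * (Int.gcd (t2T h h' s1 s2 s1' s2') r : ℝ) / R) +
        91 * T ^ 2 * ((S : ℝ) ^ 4 * Real.sqrt R) := by
  obtain ⟨hT1, hT2, hT3⟩ := hT
  have hR0 : (0 : ℝ) < R := by exact_mod_cast hR
  have hS0 : (0 : ℝ) ≤ S := Nat.cast_nonneg _
  have hsR : 0 ≤ Real.sqrt R := Real.sqrt_nonneg _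
  have hnn : 0 ≤ T * ((N : ℝ) * (Int.gcd (t2T h h' s1 s2 s1' s2') r : ℝ) / R) +
        91 * T ^ 2 * ((S : ℝ) ^ 4 * Real.sqrt R) := by positivity
  by_cases hg : T2Gd a r s1 s2
  swap
  · have h5 : ∑ n ∈ Ioc N (2 * N), t2K a h k r s1 s2 n *
        (starRingEnd ℂ) (t2K a h' k r s1' s2' n) = 0 := by
      refine sum_eq_zero fun n _ => ?_
      rw [t2_K_zero hg, zero_mul]
    rw [h5, norm_zero]
    exact hnn
  by_cases hg' : T2Gd a r s1' s2'
  swap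
  · have h5 : ∑ n ∈ Ioc N (2 * N), t2K a h k r s1 s2 n *
        (starRingEnd ℂ) (t2K a h' k r s1' s2' n) = 0 := by
      refine sum_eq_zero fun n _ => ?_
      rw [t2_K_zero hg', map_zero, mul_zero]
    rw [h5, norm_zero]
    exact hnn
  obtain ⟨hr, p1, p2, c1, c2, hsq⟩ := t2_Gd_pos hg
  obtain ⟨-, p1', p2', c1', c2', -⟩ := t2_Gd_pos hg'
  have ha : Int.gcd a r = 1 := by
    have h5 := hg.2.2.2.1
    rw [← Int.isCoprime_iff_gcd_eq_one] at h5 ⊢
    push_cast at h5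
    exact h5.of_mul_right_left
  set W := s1 * s2 * (s1' * s2') with hW
  have hW1 : 1 ≤ W := Nat.mul_pos (Nat.mul_pos p1 p2) (Nat.mul_pos p1' p2')
  have hWc : W.Coprime r := Nat.Coprime.mul_left (Nat.Coprime.mul_left c1.symm c2.symm)
    (Nat.Coprime.mul_left c1'.symm c2'.symm)
  have e1 : ∑ n ∈ Ioc N (2 * N), t2K a h k r s1 s2 n * (starRingEnd ℂ) (t2K a h' k r s1' s2' n) =
      ∑ n ∈ Ioc N (2 * N), t2g (-(h * a * (iv (s1 * s2) r : ℤ)) + h' * a * (iv (s1' * s2') r : ℤ)) r n *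
        (t2P a h k r s1 s2 n * (starRingEnd ℂ) (t2P a h' k r s1' s2' n)) :=
    sum_congr rfl fun n _ => t2_prod hg hg'
  rw [e1]
  refine (t2_inner hV _ _ hr hsq hW1 hWc (fun n => ?_) (fun n n' hn => ?_)).trans ?_
  · rw [norm_mul, RCLike.norm_conj]
    exact mul_le_one₀ (t2_norm_P _ _ _ _ _ _ _) (norm_nonneg _) (t2_norm_P _ _ _ _ _ _ _)
  · exact t2_P_per (dvd_mul_of_dvd_left (dvd_mul_right s1 s2) _)
      (dvd_mul_of_dvd_left (dvd_mul_left s2 s1) _) (dvd_mul_of_dvd_right (dvd_mul_right s1' s2') _)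
      (dvd_mul_of_dvd_right (dvd_mul_left s2' s1') _) hn
  rw [t2_gcd hr c1.symm c2.symm c1'.symm c2'.symm ha]
  set g := Int.gcd (t2T h h' s1 s2 s1' s2') r with hgdef
  have hrR : (R : ℝ) ≤ r := by exact_mod_cast hr1.le
  have hr2R : (r : ℝ) ≤ 2 * R := by exact_mod_cast hr2
  have hr0 : (0 : ℝ) < r := by exact_mod_cast hr
  have hτ : (r.divisors.card : ℝ) ≤ T := hT3 r hr (hr2R.trans hX)
  have hlog : Real.log r ≤ T - 1 := by
    have := Real.log_le_log hr0 (hr2R.trans hX)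
    linarith
  have hlog0 : 0 ≤ Real.log r := Real.log_nonneg (by exact_mod_cast hr)
  have hWS : (W : ℝ) ≤ 16 * (S : ℝ) ^ 4 := by
    have h5 : W ≤ (2 * S) * (2 * S) * ((2 * S) * (2 * S)) :=
      Nat.mul_le_mul (Nat.mul_le_mul h1 h2) (Nat.mul_le_mul h3 h4)
    have h6 : (W : ℝ) ≤ (((2 * S) * (2 * S) * ((2 * S) * (2 * S)) : ℕ) : ℝ) := by exact_mod_cast h5
    push_cast at h6
    nlinarith
  have hsr : Real.sqrt r ≤ 1.415 * Real.sqrt R := by
    have h5 : Real.sqrt r ≤ Real.sqrt (2 * R) := Real.sqrt_le_sqrt hr2R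
    have h6 : Real.sqrt (2 * R) = Real.sqrt 2 * Real.sqrt R := Real.sqrt_mul (by norm_num) _
    have h7 : Real.sqrt 2 ≤ 1.415 := by
      rw [Real.sqrt_le_left (by norm_num)]
      norm_num
    rw [h6] at h5
    exact h5.trans (mul_le_mul_of_nonneg_right h7 hsR)
  have hA : (N : ℝ) * g / r ≤ (N : ℝ) * g / R := by
    gcongr
  have hB : (W : ℝ) * Real.sqrt r * (4 + Real.log r) ≤ 91 * T * ((S : ℝ) ^ 4 * Real.sqrt R) := by
    have h5 : (W : ℝ) * Real.sqrt r ≤ 16 * (S : ℝ) ^ 4 * (1.415 * Real.sqrt R) :=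
      mul_le_mul hWS hsr (Real.sqrt_nonneg _) (by positivity)
    have h6 : 4 + Real.log r ≤ 4 * T := by linarith
    calc (W : ℝ) * Real.sqrt r * (4 + Real.log r)
        ≤ 16 * (S : ℝ) ^ 4 * (1.415 * Real.sqrt R) * (4 * T) :=
          mul_le_mul h5 h6 (by linarith) (by positivity)
      _ = 90.56 * (T * ((S : ℝ) ^ 4 * Real.sqrt R)) := by ring
      _ ≤ 91 * (T * ((S : ℝ) ^ 4 * Real.sqrt R)) := by
          apply mul_le_mul_of_nonneg_right (by norm_num)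
          positivity
      _ = _ := by ring
  have hC0 : 0 ≤ (N : ℝ) * g / r + (W : ℝ) * Real.sqrt r * (4 + Real.log r) := by positivity
  calc (r.divisors.card : ℝ) * ((N : ℝ) * g / r + (W : ℝ) * Real.sqrt r * (4 + Real.log r))
      ≤ T * ((N : ℝ) * g / r + (W : ℝ) * Real.sqrt r * (4 + Real.log r)) :=
        mul_le_mul_of_nonneg_right hτ hC0
    _ ≤ T * ((N : ℝ) * g / R + 91 * T * ((S : ℝ) ^ 4 * Real.sqrt R)) := by
        apply mul_le_mul_of_nonneg_left (by linarith) (by linarith)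
    _ = _ := by ring

/-- the sum of the gcd's -/
lemma t2_sum_gcd {Z : ℤ} (hZ : Z ≠ 0) (R : ℕ) :
    ∑ r ∈ Ioc R (2 * R), (Int.gcd Z r : ℝ) ≤ 2 * (R : ℝ) * (Z.natAbs.divisors.card : ℝ) := by
  have h1 : ∀ r ∈ Ioc R (2 * R), (Int.gcd Z r : ℝ) ≤
      ∑ e ∈ Z.natAbs.divisors, (if e ∣ r then (e : ℝ) else 0) := by
    intro r _
    have h2 : Int.gcd Z r ∈ Z.natAbs.divisors := by
      rw [Nat.mem_divisors]
      refine ⟨?_, by omega⟩
      have : ((Int.gcd Z r : ℕ) : ℤ) ∣ Z := Int.gcd_dvd_left _ _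
      exact Int.natCast_dvd.1 this
    have h3 : Int.gcd Z r ∣ r := by
      have : ((Int.gcd Z r : ℕ) : ℤ) ∣ (r : ℤ) := Int.gcd_dvd_right _ _
      exact_mod_cast this
    have h4 := single_le_sum (f := fun e : ℕ => (if e ∣ r then (e : ℝ) else 0))
      (fun e _ => by split_ifs <;> positivity) h2
    simp only [if_pos h3] at h4
    exact h4
  refine (sum_le_sum h1).trans ?_
  rw [sum_comm]
  calc ∑ e ∈ Z.natAbs.divisors, ∑ r ∈ Ioc R (2 * R), (if e ∣ r then (e : ℝ) else 0)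
      ≤ ∑ e ∈ Z.natAbs.divisors, 2 * (R : ℝ) := by
        refine sum_le_sum fun e he => ?_
        rw [← sum_filter, sum_const, nsmul_eq_mul]
        have h5 : ((Ioc R (2 * R)).filter (fun r => e ∣ r)).card ≤ (2 * R) / e := by
          rw [← Nat.Ioc_filter_dvd_card_eq_div]
          apply card_le_card
          apply filter_subset_filter
          apply Ioc_subset_Ioc_left
          omega
        have h6 : ((Ioc R (2 * R)).filter (fun r => e ∣ r)).card * e ≤ 2 * R :=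
          (Nat.mul_le_mul_right e h5).trans (Nat.div_mul_le_self _ _)
        have h7 : ((((Ioc R (2 * R)).filter (fun r => e ∣ r)).card * e : ℕ) : ℝ) ≤
            ((2 * R : ℕ) : ℝ) := by exact_mod_cast h6
        push_cast at h7
        exact h7
    _ = 2 * (R : ℝ) * (Z.natAbs.divisors.card : ℝ) := by
        rw [sum_const, nsmul_eq_mul]
        ring

end Pool.Agent.Lib.MI
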