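import Pool.Agent.Lib.MI.T2c

/-!
MP_00e23e_nt, directory Lib/MI, chapter T2 of THEOREM MI (Type II sums; helper2): the final theorem of the chapter,
`tT2 : TV.VsqStmt → T2Stmt`.
-/

namespace Pool.Agent.Lib.MI

open Finset Pool.Agent.Lib.EH3 Pool.Agent.Lib.TB Pool.Agent.Results.MP_00e23e_nt

/-- the triples (h, s1, s2) -/
def t2U (Hs : Finset ℤ) (S : ℕ) : Finset (ℤ × ℕ × ℕ) := Hs ×ˢ (Ioc S (2 * S) ×ˢ Ioc S (2 * S))

/-- the kernel for a triple -/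
noncomputable def t2F (a : ℤ) (k : ℕ) (γ : ℤ → ℕ → ℕ → ℕ → ℂ) (u : ℤ × ℕ × ℕ) (r n : ℕ) : ℂ :=
  γ u.1 r u.2.1 u.2.2 * t2K a u.1 k r u.2.1 u.2.2 n

/-- the correlation -/
noncomputable def t2I (a : ℤ) (k N : ℕ) (r : ℕ) (p : (ℤ × ℕ × ℕ) × (ℤ × ℕ × ℕ)) : ℂ :=
  ∑ n ∈ Ioc N (2 * N), t2K a p.1.1 k r p.1.2.1 p.1.2.2 n *
    (starRingEnd ℂ) (t2K a p.2.1 k r p.2.2.1 p.2.2.2 n)

/-- the determinant of a pair of triples -/
def t2D (p : (ℤ × ℕ × ℕ) × (ℤ × ℕ × ℕ)) : ℤ := t2T p.1.1 p.2.1 p.1.2.1 p.1.2.2 p.2.2.1 p.2.2.2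

/-- rearrangement -/
lemma t2_rearr (a : ℤ) (k R S N : ℕ) (Hs : Finset ℤ) (γ : ℤ → ℕ → ℕ → ℕ → ℂ) (ω : ℕ → ℕ → ℂ) :
    ∑ h ∈ Hs, TT a h k R S N (γ h) ω =
      ∑ r ∈ Ioc R (2 * R), ∑ n ∈ Ioc N (2 * N), ω r n * ∑ u ∈ t2U Hs S, t2F a k γ u r n := by
  have h1 : ∀ h, TT a h k R S N (γ h) ω = ∑ r ∈ Ioc R (2 * R), ∑ s1 ∈ Ioc S (2 * S),
      ∑ s2 ∈ Ioc S (2 * S), ∑ n ∈ Ioc N (2 * N), ω r n * t2F a k γ (h, s1, s2) r n := by
    intro h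
    unfold TT
    refine sum_congr rfl fun r _ => sum_congr rfl fun s1 _ => sum_congr rfl fun s2 _ => ?_
    rw [mul_sum]
    refine sum_congr rfl fun n _ => ?_
    unfold t2F t2K
    split_ifs
    · ring
    · ring
  rw [sum_congr rfl fun h _ => h1 h, sum_comm]
  refine sum_congr rfl fun r _ => ?_
  have h2 : ∀ n, ω r n * ∑ u ∈ t2U Hs S, t2F a k γ u r n =
      ∑ h ∈ Hs, ∑ s1 ∈ Ioc S (2 * S), ∑ s2 ∈ Ioc S (2 * S), ω r n * t2F a k γ (h, s1, s2) r n := by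
    intro n
    unfold t2U
    rw [mul_sum, sum_product]
    refine sum_congr rfl fun h _ => ?_
    rw [sum_product]
  rw [sum_congr rfl fun n _ => h2 n]
  symm
  rw [sum_comm]
  refine sum_congr rfl fun h _ => ?_
  rw [sum_comm]
  refine sum_congr rfl fun s1 _ => ?_
  rw [sum_comm]

/-- Cauchy's inequality -/
lemma t2_cauchy (R N : ℕ) (ω G : ℕ → ℕ → ℂ) (hω : ∀ r n, ‖ω r n‖ ≤ 1) :
    ‖∑ r ∈ Ioc R (2 * R), ∑ n ∈ Ioc N (2 * N), ω r n * G r n‖ ^ 2 ≤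
      (R : ℝ) * N * ∑ r ∈ Ioc R (2 * R), ∑ n ∈ Ioc N (2 * N), ‖G r n‖ ^ 2 := by
  have h1 : ‖∑ r ∈ Ioc R (2 * R), ∑ n ∈ Ioc N (2 * N), ω r n * G r n‖ ≤
      ∑ p ∈ Ioc R (2 * R) ×ˢ Ioc N (2 * N), ‖G p.1 p.2‖ := by
    rw [← sum_product']
    refine norm_sum_le_of_le _ fun p _ => ?_
    rw [norm_mul]
    calc ‖ω p.1 p.2‖ * ‖G p.1 p.2‖ ≤ 1 * ‖G p.1 p.2‖ :=
          mul_le_mul_of_nonneg_right (hω _ _) (norm_nonneg _)
      _ = _ := one_mul _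
  have h2 := sq_sum_le_card_mul_sum_sq (s := Ioc R (2 * R) ×ˢ Ioc N (2 * N))
    (f := fun p => ‖G p.1 p.2‖)
  have h3 : (((Ioc R (2 * R) ×ˢ Ioc N (2 * N)).card : ℕ) : ℝ) = (R : ℝ) * N := by
    rw [card_product, Nat.card_Ioc, Nat.card_Ioc, show 2 * R - R = R by omega,
      show 2 * N - N = N by omega]
    push_cast
    ring
  rw [h3, sum_product (f := fun p : ℕ × ℕ => ‖G p.1 p.2‖ ^ 2)] at h2
  exact (pow_le_pow_left₀ (norm_nonneg _) h1 2).trans h2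

/-- expanding the square -/
lemma t2_expand (a : ℤ) (k N r : ℕ) (U : Finset (ℤ × ℕ × ℕ)) (γ : ℤ → ℕ → ℕ → ℕ → ℂ)
    (hγ : ∀ h r s1 s2, ‖γ h r s1 s2‖ ≤ 1) :
    ∑ n ∈ Ioc N (2 * N), ‖∑ u ∈ U, t2F a k γ u r n‖ ^ 2 ≤ ∑ p ∈ U ×ˢ U, ‖t2I a k N r p‖ := by
  have h1 : ((∑ n ∈ Ioc N (2 * N), ‖∑ u ∈ U, t2F a k γ u r n‖ ^ 2 : ℝ) : ℂ) =
      ∑ p ∈ U ×ˢ U, γ p.1.1 r p.1.2.1 p.1.2.2 * (starRingEnd ℂ) (γ p.2.1 r p.2.2.1 p.2.2.2) *
        t2I a k N r p := by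
    push_cast
    have h2 : ∀ n, ((‖∑ u ∈ U, t2F a k γ u r n‖ : ℝ) : ℂ) ^ 2 =
        ∑ p ∈ U ×ˢ U, t2F a k γ p.1 r n * (starRingEnd ℂ) (t2F a k γ p.2 r n) := by
      intro n
      rw [← Complex.mul_conj', map_sum, sum_mul_sum, sum_product]
    rw [sum_congr rfl fun n _ => h2 n, sum_comm]
    refine sum_congr rfl fun p _ => ?_
    unfold t2I t2F
    rw [mul_sum]
    refine sum_congr rfl fun n _ => ?_
    rw [map_mul]
    ring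
  have h0 : 0 ≤ ∑ n ∈ Ioc N (2 * N), ‖∑ u ∈ U, t2F a k γ u r n‖ ^ 2 :=
    sum_nonneg fun n _ => by positivity
  have h3 : ∑ n ∈ Ioc N (2 * N), ‖∑ u ∈ U, t2F a k γ u r n‖ ^ 2 =
      ‖((∑ n ∈ Ioc N (2 * N), ‖∑ u ∈ U, t2F a k γ u r n‖ ^ 2 : ℝ) : ℂ)‖ := by
    rw [Complex.norm_real, Real.norm_of_nonneg h0]
  rw [h3, h1]
  refine norm_sum_le_of_le _ fun p _ => ?_
  rw [norm_mul, norm_mul, RCLike.norm_conj]
  calc ‖γ p.1.1 r p.1.2.1 p.1.2.2‖ * ‖γ p.2.1 r p.2.2.1 p.2.2.2‖ * ‖t2I a k N r p‖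
      ≤ 1 * ‖t2I a k N r p‖ := by
        apply mul_le_mul_of_nonneg_right _ (norm_nonneg _)
        exact mul_le_one₀ (hγ _ _ _ _) (norm_nonneg _) (hγ _ _ _ _)
    _ = _ := one_mul _

lemma t2_I_triv (a : ℤ) (k N r : ℕ) (p : (ℤ × ℕ × ℕ) × (ℤ × ℕ × ℕ)) : ‖t2I a k N r p‖ ≤ N := by
  unfold t2I
  calc ‖∑ n ∈ Ioc N (2 * N), t2K a p.1.1 k r p.1.2.1 p.1.2.2 n *
        (starRingEnd ℂ) (t2K a p.2.1 k r p.2.2.1 p.2.2.2 n)‖
      ≤ ∑ n ∈ Ioc N (2 * N), (1 : ℝ) := by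
        refine norm_sum_le_of_le _ fun n _ => ?_
        rw [norm_mul, RCLike.norm_conj]
        exact mul_le_one₀ (t2_norm_K _ _ _ _ _ _ _) (norm_nonneg _) (t2_norm_K _ _ _ _ _ _ _)
    _ = N := by
        rw [sum_const, Nat.card_Ioc, show 2 * N - N = N by omega]
        simp

/-- the number of the triples -/
lemma t2_card_U {Hs : Finset ℤ} {H S : ℕ} (hH : ∀ h ∈ Hs, h ≠ 0 ∧ |h| ≤ (H : ℤ)) :
    ((t2U Hs S).card : ℝ) ≤ 2 * (H : ℝ) * (S : ℝ) ^ 2 := by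
  have h1 : Hs.card ≤ 2 * H := by
    have h2 : Hs ⊆ (Icc (-(H : ℤ)) H).erase 0 := by
      intro h hh
      obtain ⟨h3, h4⟩ := hH h hh
      rw [mem_erase, mem_Icc]
      exact ⟨h3, abs_le.1 h4⟩
    have h3 := card_le_card h2
    rw [card_erase_of_mem (by rw [mem_Icc]; omega), Int.card_Icc] at h3
    omega
  unfold t2U
  rw [card_product, card_product, Nat.card_Ioc, show 2 * S - S = S by omega]
  have h2 : (Hs.card : ℝ) ≤ 2 * H := by exact_mod_cast h1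
  push_cast
  nlinarith [sq_nonneg (S : ℝ), mul_nonneg (Nat.cast_nonneg (α := ℝ) S) (Nat.cast_nonneg (α := ℝ) S)]

/-- the number of the degenerate pairs -/
lemma t2_count {X T : ℝ} (hT : Tau X T) {Hs : Finset ℤ} {H S : ℕ}
    (hH : ∀ h ∈ Hs, h ≠ 0 ∧ |h| ≤ (H : ℤ)) (hX : 4 * (H : ℝ) * (S : ℝ) ^ 2 ≤ X) :
    ((((t2U Hs S) ×ˢ (t2U Hs S)).filter (fun p => t2D p = 0)).card : ℝ) ≤
      2 * (H : ℝ) * (S : ℝ) ^ 2 * T ^ 2 := by
  classical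
  obtain ⟨hT1, -, hT3⟩ := hT
  have hmap : ∀ p ∈ ((t2U Hs S) ×ˢ (t2U Hs S)).filter (fun p => t2D p = 0),
      ((p.1.1, p.2.2.1, p.2.2.2) : ℤ × ℕ × ℕ) ∈ t2U Hs S := by
    intro p hp
    unfold t2U at hp ⊢
    simp only [mem_filter, mem_product] at hp ⊢
    exact ⟨hp.1.1.1, hp.1.2.2.1, hp.1.2.2.2⟩
  rw [card_eq_sum_card_fiberwise hmap]
  push_cast
  have hfib : ∀ v ∈ t2U Hs S,
      ((((((t2U Hs S) ×ˢ (t2U Hs S)).filter (fun p => t2D p = 0)).filter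
        (fun p => ((p.1.1, p.2.2.1, p.2.2.2) : ℤ × ℕ × ℕ) = v)).card : ℕ) : ℝ) ≤ T ^ 2 := by
    rintro ⟨h, t1, t2⟩ hv
    have hv2 : h ∈ Hs ∧ (S < t1 ∧ t1 ≤ 2 * S) ∧ (S < t2 ∧ t2 ≤ 2 * S) := by
      unfold t2U at hv
      simpa only [mem_product, mem_Ioc] using hv
    obtain ⟨hh, ht1, ht2⟩ := hv2
    obtain ⟨hh0, hhH⟩ := hH h hh
    set Z : ℕ := h.natAbs * (t1 * t2) with hZ
    have hna : 1 ≤ h.natAbs := by omega
    have hZ1 : 1 ≤ Z := Nat.mul_pos hna (Nat.mul_pos (by omega) (by omega))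
    have hZX : (Z : ℝ) ≤ X := by
      have h1 : h.natAbs ≤ H := by
        have h9 : ((h.natAbs : ℕ) : ℤ) ≤ (H : ℤ) := by
          rw [Int.natCast_natAbs]
          exact hhH
        exact_mod_cast h9
      have h2 : Z ≤ H * ((2 * S) * (2 * S)) :=
        Nat.mul_le_mul h1 (Nat.mul_le_mul ht1.2 ht2.2)
      have h3 : (Z : ℝ) ≤ ((H * ((2 * S) * (2 * S)) : ℕ) : ℝ) := by exact_mod_cast h2
      push_cast at h3
      nlinarith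
    have hcard : (((((t2U Hs S) ×ˢ (t2U Hs S)).filter (fun p => t2D p = 0)).filter
        (fun p => ((p.1.1, p.2.2.1, p.2.2.2) : ℤ × ℕ × ℕ) = (h, t1, t2))).card) ≤
        (Z.divisors ×ˢ Z.divisors).card := by
      refine card_le_card_of_injOn (fun p => (p.1.2.1, p.1.2.2)) ?_ ?_
      · intro p hp
        have hp2 := mem_coe.1 hp
        rw [mem_filter, mem_filter] at hp2
        obtain ⟨⟨-, hD⟩, hpv⟩ := hp2
        have e1 : p.1.1 = h := congrArg Prod.fst hpv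
        have e2 : p.2.2.1 = t1 := congrArg (fun v => v.2.1) hpv
        have e3 : p.2.2.2 = t2 := congrArg (fun v => v.2.2) hpv
        have hD2 : h * ((t1 : ℤ) * t2) = p.2.1 * ((p.1.2.1 : ℤ) * p.1.2.2) := by
          unfold t2D t2T at hD
          rw [e1, e2, e3] at hD
          linarith
        have hZe : Z = p.2.1.natAbs * (p.1.2.1 * p.1.2.2) := by
          have h3 := congrArg Int.natAbs hD2
          rw [Int.natAbs_mul, Int.natAbs_mul, Int.natAbs_mul, Int.natAbs_mul, Int.natAbs_natCast,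
            Int.natAbs_natCast, Int.natAbs_natCast, Int.natAbs_natCast] at h3
          exact h3
        rw [mem_coe, mem_product, Nat.mem_divisors, Nat.mem_divisors]
        refine ⟨⟨?_, by omega⟩, ⟨?_, by omega⟩⟩
        · exact ⟨p.2.1.natAbs * p.1.2.2, by rw [hZe]; ring⟩
        · exact ⟨p.2.1.natAbs * p.1.2.1, by rw [hZe]; ring⟩
      · intro p hp q hq hpq
        have hp2 := mem_coe.1 hp
        have hq2 := mem_coe.1 hq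
        rw [mem_filter, mem_filter] at hp2 hq2
        obtain ⟨⟨hpU, hD⟩, hpv⟩ := hp2
        obtain ⟨⟨-, hD'⟩, hqv⟩ := hq2
        have e1 : p.1.1 = h := congrArg Prod.fst hpv
        have e2 : p.2.2.1 = t1 := congrArg (fun v => v.2.1) hpv
        have e3 : p.2.2.2 = t2 := congrArg (fun v => v.2.2) hpv
        have f1 : q.1.1 = h := congrArg Prod.fst hqv
        have f2 : q.2.2.1 = t1 := congrArg (fun v => v.2.1) hqv
        have f3 : q.2.2.2 = t2 := congrArg (fun v => v.2.2) hqv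
        have g1 : p.1.2.1 = q.1.2.1 := congrArg Prod.fst hpq
        have g2 : p.1.2.2 = q.1.2.2 := congrArg Prod.snd hpq
        have hs : 0 < p.1.2.1 ∧ 0 < p.1.2.2 := by
          unfold t2U at hpU
          simp only [mem_product, mem_Ioc] at hpU
          omega
        have g3 : p.2.1 = q.2.1 := by
          unfold t2D t2T at hD hD'
          rw [e1, e2, e3] at hD
          rw [f1, f2, f3, ← g1, ← g2] at hD'
          have h4 : (p.2.1 - q.2.1) * ((p.1.2.1 : ℤ) * p.1.2.2) = 0 := by linarith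
          have h5 : ((p.1.2.1 : ℤ) * p.1.2.2) ≠ 0 := by
            have := hs.1
            have := hs.2
            positivity
          have h6 := (mul_eq_zero.1 h4).resolve_right h5
          linarith
        ext
        · rw [e1, f1]
        · rw [g1]
        · rw [g2]
        · rw [g3]
        · rw [e2, f2]
        · rw [e3, f3]
    have hτ : (Z.divisors.card : ℝ) ≤ T := hT3 Z hZ1 hZX
    calc ((((((t2U Hs S) ×ˢ (t2U Hs S)).filter (fun p => t2D p = 0)).filter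
        (fun p => ((p.1.1, p.2.2.1, p.2.2.2) : ℤ × ℕ × ℕ) = (h, t1, t2))).card : ℕ) : ℝ)
        ≤ (((Z.divisors ×ˢ Z.divisors).card : ℕ) : ℝ) := by exact_mod_cast hcard
      _ = (Z.divisors.card : ℝ) ^ 2 := by
          rw [card_product]
          push_cast
          ring
      _ ≤ T ^ 2 := pow_le_pow_left₀ (Nat.cast_nonneg _) hτ 2
  calc ∑ v ∈ t2U Hs S, ((((((t2U Hs S) ×ˢ (t2U Hs S)).filter (fun p => t2D p = 0)).filter
        (fun p => ((p.1.1, p.2.2.1, p.2.2.2) : ℤ × ℕ × ℕ) = v)).card : ℕ) : ℝ)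
      ≤ ∑ v ∈ t2U Hs S, T ^ 2 := sum_le_sum hfib
    _ = ((t2U Hs S).card : ℝ) * T ^ 2 := by rw [sum_const, nsmul_eq_mul]
    _ ≤ _ := mul_le_mul_of_nonneg_right (t2_card_U hH) (by positivity)

/-- the sum over r of one correlation -/
lemma t2_row (hV : TV.VsqStmt) {X T : ℝ} (hT : Tau X T) (a : ℤ) (k : ℕ) {R S N H : ℕ} (hR : 1 ≤ R)
    (hN : 1 ≤ N) {Hs : Finset ℤ}
    (hH : ∀ h ∈ Hs, h ≠ 0 ∧ |h| ≤ (H : ℤ)) (hX1 : 2 * (R : ℝ) ≤ X) (hX2 : 8 * (H : ℝ) * (S : ℝ) ^ 2 ≤ X)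
    {p : (ℤ × ℕ × ℕ) × (ℤ × ℕ × ℕ)} (hp : p ∈ t2U Hs S ×ˢ t2U Hs S) (hD : t2D p ≠ 0) :
    ∑ r ∈ Ioc R (2 * R), ‖t2I a k N r p‖ ≤
      2 * T ^ 2 * N + 91 * T ^ 2 * ((S : ℝ) ^ 4 * (R * Real.sqrt R)) := by
  have hR0 : (0 : ℝ) < R := by exact_mod_cast hR
  have hT1 := hT.1
  unfold t2U at hp
  simp only [mem_product, mem_Ioc] at hp
  obtain ⟨⟨hh, ha1, ha2⟩, ⟨hh', hb1, hb2⟩⟩ := hp
  have hDX : ((t2D p).natAbs : ℝ) ≤ X := by
    have h1 := hH _ hh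
    have h2 := hH _ hh'
    have i1 : |p.1.1 * ((p.2.2.1 : ℤ) * p.2.2.2)| ≤ (H : ℤ) * ((2 * S) * (2 * S)) := by
      rw [abs_mul, abs_of_nonneg (by positivity : (0 : ℤ) ≤ (p.2.2.1 : ℤ) * p.2.2.2)]
      apply mul_le_mul h1.2 _ (by positivity) (by positivity)
      apply mul_le_mul (by exact_mod_cast hb1.2) (by exact_mod_cast hb2.2) (by positivity)
        (by positivity)
    have i2 : |p.2.1 * ((p.1.2.1 : ℤ) * p.1.2.2)| ≤ (H : ℤ) * ((2 * S) * (2 * S)) := by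
      rw [abs_mul, abs_of_nonneg (by positivity : (0 : ℤ) ≤ (p.1.2.1 : ℤ) * p.1.2.2)]
      apply mul_le_mul h2.2 _ (by positivity) (by positivity)
      apply mul_le_mul (by exact_mod_cast ha1.2) (by exact_mod_cast ha2.2) (by positivity)
        (by positivity)
    have i3 : |t2D p| ≤ 8 * (H : ℤ) * (S : ℤ) ^ 2 := by
      unfold t2D t2T
      refine (abs_sub _ _).trans ?_
      nlinarith
    have i4 : ((t2D p).natAbs : ℤ) ≤ 8 * (H : ℤ) * (S : ℤ) ^ 2 := by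
      rw [Int.natCast_natAbs]
      exact i3
    have i5 : ((t2D p).natAbs : ℝ) ≤ 8 * (H : ℝ) * (S : ℝ) ^ 2 := by exact_mod_cast i4
    exact i5.trans hX2
  have hτ : ((t2D p).natAbs.divisors.card : ℝ) ≤ T := hT.2.2 _ (by omega) hDX
  have hsum := t2_sum_gcd hD R
  calc ∑ r ∈ Ioc R (2 * R), ‖t2I a k N r p‖
      ≤ ∑ r ∈ Ioc R (2 * R), (T * ((N : ℝ) * (Int.gcd (t2D p) r : ℝ) / R) +
        91 * T ^ 2 * ((S : ℝ) ^ 4 * Real.sqrt R)) := by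
        refine sum_le_sum fun r hr => ?_
        rw [mem_Ioc] at hr
        exact t2_In hV hT hR hX1 hr.1 hr.2 ha1.2 ha2.2 hb1.2 hb2.2
    _ = T * ((N : ℝ) / R) * ∑ r ∈ Ioc R (2 * R), (Int.gcd (t2D p) r : ℝ) +
        (R : ℝ) * (91 * T ^ 2 * ((S : ℝ) ^ 4 * Real.sqrt R)) := by
        rw [sum_add_distrib, sum_const, Nat.card_Ioc, show 2 * R - R = R by omega, nsmul_eq_mul,
          mul_sum]
        congr 1
        refine sum_congr rfl fun r _ => ?_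
        ring
    _ ≤ T * ((N : ℝ) / R) * (2 * (R : ℝ) * T) +
        (R : ℝ) * (91 * T ^ 2 * ((S : ℝ) ^ 4 * Real.sqrt R)) := by
        have h1 : 2 * (R : ℝ) * ((t2D p).natAbs.divisors.card : ℝ) ≤ 2 * (R : ℝ) * T :=
          mul_le_mul_of_nonneg_left hτ (by positivity)
        have h2 : 0 ≤ T * ((N : ℝ) / R) := by positivity
        have h3 := mul_le_mul_of_nonneg_left (hsum.trans h1) h2
        linarith
    _ = _ := by
        field_simp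

theorem tT2 (hV : TV.VsqStmt) : T2Stmt := by
  refine ⟨364, by norm_num, 2, ?_⟩
  intro X T a k R S N H Hs γ ω hT hR hS hN hH1 hX hHs hγ hω
  have hR0 : (1 : ℝ) ≤ R := by exact_mod_cast hR
  have hS0 : (1 : ℝ) ≤ S := by exact_mod_cast hS
  have hN0 : (1 : ℝ) ≤ N := by exact_mod_cast hN
  have hH0 : (1 : ℝ) ≤ H := by exact_mod_cast hH1
  have hT1 := hT.1
  have hR2 : (R : ℝ) ≤ (R : ℝ) ^ 2 := by nlinarith
  have hS2 : (S : ℝ) ^ 2 ≤ (S : ℝ) ^ 4 := pow_le_pow_right₀ hS0 (by norm_num)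
  have hH2 : (H : ℝ) ≤ (H : ℝ) ^ 2 := by nlinarith
  have hR21 : (1 : ℝ) ≤ (R : ℝ) ^ 2 := one_le_pow₀ hR0
  have hS41 : (1 : ℝ) ≤ (S : ℝ) ^ 4 := one_le_pow₀ hS0
  have hN21 : (1 : ℝ) ≤ (N : ℝ) ^ 2 := one_le_pow₀ hN0
  have hH21 : (1 : ℝ) ≤ (H : ℝ) ^ 2 := one_le_pow₀ hH0
  have hX1 : 2 * (R : ℝ) ≤ X := by
    have h1 : (R : ℝ) * 1 * 1 * 1 ≤ (R : ℝ) ^ 2 * (S : ℝ) ^ 4 * (N : ℝ) ^ 2 * (H : ℝ) ^ 2 := by
      gcongr
    nlinarith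
  have hX2 : 8 * (H : ℝ) * (S : ℝ) ^ 2 ≤ X := by
    have h1 : 1 * (S : ℝ) ^ 2 * 1 * (H : ℝ) ≤ (R : ℝ) ^ 2 * (S : ℝ) ^ 4 * (N : ℝ) ^ 2 * (H : ℝ) ^ 2 := by
      gcongr
    nlinarith
  set U := t2U Hs S with hU
  set B : ℝ := 2 * T ^ 2 * N + 91 * T ^ 2 * ((S : ℝ) ^ 4 * (R * Real.sqrt R)) with hB
  have hB0 : 0 ≤ B := by positivity
  have hcU : (U.card : ℝ) ≤ 2 * (H : ℝ) * (S : ℝ) ^ 2 := t2_card_U hHs
  have hcD : (((U ×ˢ U).filter (fun p => t2D p = 0)).card : ℝ) ≤ 2 * (H : ℝ) * (S : ℝ) ^ 2 * T ^ 2 :=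
    t2_count hT hHs (by nlinarith)
  -- the sum of the correlations
  have hcor : ∑ r ∈ Ioc R (2 * R), ∑ p ∈ U ×ˢ U, ‖t2I a k N r p‖ ≤
      2 * (H : ℝ) * (S : ℝ) ^ 2 * T ^ 2 * (R * N) + (2 * (H : ℝ) * (S : ℝ) ^ 2) ^ 2 * B := by
    rw [sum_comm]
    calc ∑ p ∈ U ×ˢ U, ∑ r ∈ Ioc R (2 * R), ‖t2I a k N r p‖
        ≤ ∑ p ∈ U ×ˢ U, ((if t2D p = 0 then (R : ℝ) * N else 0) + B) := by
          refine sum_le_sum fun p hp => ?_
          by_cases hD : t2D p = 0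
          · rw [if_pos hD]
            calc ∑ r ∈ Ioc R (2 * R), ‖t2I a k N r p‖ ≤ ∑ r ∈ Ioc R (2 * R), (N : ℝ) :=
                  sum_le_sum fun r _ => t2_I_triv a k N r p
              _ = (R : ℝ) * N := by
                  rw [sum_const, Nat.card_Ioc, show 2 * R - R = R by omega, nsmul_eq_mul]
              _ ≤ _ := by linarith
          · rw [if_neg hD, zero_add]
            exact t2_row hV hT a k hR hN hHs hX1 hX2 hp hD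
      _ = (((U ×ˢ U).filter (fun p => t2D p = 0)).card : ℝ) * (R * N) +
          ((U ×ˢ U).card : ℝ) * B := by
          rw [sum_add_distrib, ← sum_filter, sum_const, sum_const, nsmul_eq_mul, nsmul_eq_mul]
      _ ≤ 2 * (H : ℝ) * (S : ℝ) ^ 2 * T ^ 2 * (R * N) + (2 * (H : ℝ) * (S : ℝ) ^ 2) ^ 2 * B := by
          have h1 : ((U ×ˢ U).card : ℝ) ≤ (2 * (H : ℝ) * (S : ℝ) ^ 2) ^ 2 := by
            rw [card_product]
            push_cast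
            rw [sq]
            exact mul_le_mul hcU hcU (Nat.cast_nonneg _) (by positivity)
          have h2 := mul_le_mul_of_nonneg_right hcD (by positivity : (0 : ℝ) ≤ (R : ℝ) * N)
          have h3 := mul_le_mul_of_nonneg_right h1 hB0
          linarith
  have hmain : ‖∑ h ∈ Hs, TT a h k R S N (γ h) ω‖ ^ 2 ≤ (R : ℝ) * N *
      (2 * (H : ℝ) * (S : ℝ) ^ 2 * T ^ 2 * (R * N) + (2 * (H : ℝ) * (S : ℝ) ^ 2) ^ 2 * B) := by
    rw [t2_rearr]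
    refine (t2_cauchy R N ω (fun r n => ∑ u ∈ t2U Hs S, t2F a k γ u r n) hω).trans ?_
    apply mul_le_mul_of_nonneg_left _ (by positivity)
    refine (sum_le_sum fun r _ => t2_expand a k N r (t2U Hs S) γ hγ).trans ?_
    exact hcor
  refine hmain.trans ?_
  have hR00 : (R : ℝ) ≠ 0 := by positivity
  have hS00 : (S : ℝ) ≠ 0 := by positivity
  have hN00 : (N : ℝ) ≠ 0 := by positivity
  have e1 : (364 : ℝ) * T ^ 2 * ((R : ℝ) * (S : ℝ) ^ 2 * N) ^ 2 *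
      (Real.sqrt R * (H : ℝ) ^ 2 * (S : ℝ) ^ 4 / N + (H : ℝ) / (S : ℝ) ^ 2 + (H : ℝ) ^ 2 / R) =
      364 * (T ^ 2 * ((R : ℝ) ^ 2 * (S : ℝ) ^ 8 * N * ((H : ℝ) ^ 2 * Real.sqrt R))) +
      364 * (T ^ 2 * ((R : ℝ) ^ 2 * (S : ℝ) ^ 2 * (N : ℝ) ^ 2 * H)) +
      364 * (T ^ 2 * ((R : ℝ) * (S : ℝ) ^ 4 * (N : ℝ) ^ 2 * (H : ℝ) ^ 2)) := by
    field_simp
  have e2 : (R : ℝ) * N *
      (2 * (H : ℝ) * (S : ℝ) ^ 2 * T ^ 2 * (R * N) + (2 * (H : ℝ) * (S : ℝ) ^ 2) ^ 2 * B) =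
      364 * (T ^ 2 * ((R : ℝ) ^ 2 * (S : ℝ) ^ 8 * N * ((H : ℝ) ^ 2 * Real.sqrt R))) +
      2 * (T ^ 2 * ((R : ℝ) ^ 2 * (S : ℝ) ^ 2 * (N : ℝ) ^ 2 * H)) +
      8 * (T ^ 2 * ((R : ℝ) * (S : ℝ) ^ 4 * (N : ℝ) ^ 2 * (H : ℝ) ^ 2)) := by
    rw [hB]
    ring
  rw [e1, e2]
  have p1 : 0 ≤ T ^ 2 * ((R : ℝ) ^ 2 * (S : ℝ) ^ 2 * (N : ℝ) ^ 2 * H) := by positivity
  have p2 : 0 ≤ T ^ 2 * ((R : ℝ) * (S : ℝ) ^ 4 * (N : ℝ) ^ 2 * (H : ℝ) ^ 2) := by positivity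
  linarith

end Pool.Agent.Lib.MI
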