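import Pool.Agent.Lib.MI.Basic
import Pool.Agent.Lib.WR.All

/-! MP_00e23e_nt, Lib/MI, chapter W: Weil's bound for the sums SS modulo a prime. -/

namespace Pool.Agent.Lib.MI

open Finset Pool.Agent.Lib.EH3 Pool.Agent.Lib.TB Pool.Agent.Results.MP_00e23e_nt

private lemma WPr_en (p : ℕ) [Fact p.Prime] (j : ℤ) : en j p = ZMod.stdAddChar ((j : ℤ) : ZMod p) := by
  rw [ZMod.stdAddChar_coe]
  unfold en ee
  congr 1
  push_cast
  ring

private lemma WPr_cop (p : ℕ) [hp : Fact p.Prime] (n : ℕ) : n.Coprime p ↔ (n : ZMod p) ≠ 0 := by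
  rw [Nat.coprime_comm, hp.out.coprime_iff_not_dvd, Ne, ZMod.natCast_eq_zero_iff]

private lemma WPr_eq (p : ℕ) [hp : Fact p.Prime] (c b : ℤ) (t : ℕ) :
    SS c b p t = ∑ z ∈ (univ : Finset (ZMod p)).filter (fun z => z ≠ 0 ∧ z + (t : ZMod p) ≠ 0),
      ZMod.stdAddChar ((c : ZMod p) * (z⁻¹ - (z + (t : ZMod p))⁻¹) + (b : ZMod p) * z) := by
  unfold SS
  refine Finset.sum_nbij' (fun x => (x : ZMod p)) (fun z => z.val) ?_ ?_ ?_ ?_ ?_
  · intro x hx
    rw [mem_filter, mem_range] at hx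
    rw [mem_filter]
    refine ⟨mem_univ _, (WPr_cop p x).1 hx.2.1, ?_⟩
    have := (WPr_cop p (x + t)).1 hx.2.2
    push_cast at this
    exact this
  · intro z hz
    rw [mem_filter] at hz
    rw [mem_filter, mem_range]
    refine ⟨ZMod.val_lt z, (WPr_cop p _).2 ?_, (WPr_cop p _).2 ?_⟩
    · rw [ZMod.natCast_zmod_val]
      exact hz.2.1
    · push_cast
      rw [ZMod.natCast_zmod_val]
      exact hz.2.2
  · intro x hx
    rw [mem_filter, mem_range] at hx
    exact ZMod.val_cast_of_lt hx.1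
  · intro z _
    exact ZMod.natCast_zmod_val z
  · intro x _
    rw [WPr_en]
    congr 1
    push_cast
    unfold iv
    rw [ZMod.natCast_zmod_val, ZMod.natCast_zmod_val]
    push_cast
    rfl

private lemma WPr_main (p : ℕ) [hp : Fact p.Prime] (c b : ℤ) (t : ℕ)
    (h : ¬ ((p : ℤ) ∣ c * t ∧ (p : ℤ) ∣ b)) : ‖SS c b p t‖ ≤ 4 * Real.sqrt p := by
  classical
  have hp0 : (0 : ℝ) ≤ Real.sqrt p := Real.sqrt_nonneg _
  rw [WPr_eq]
  by_cases ht : (t : ZMod p) = 0
  · have hb : (b : ZMod p) ≠ 0 := by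
      intro hb
      apply h
      refine ⟨?_, (ZMod.intCast_zmod_eq_zero_iff_dvd b p).1 hb⟩
      rw [← ZMod.intCast_zmod_eq_zero_iff_dvd]
      push_cast
      rw [ht, mul_zero]
    have h1 := WR.wr p {0} (fun _ => 0) (b : ZMod p) (Or.inl hb)
    have h2 : ∑ z ∈ (univ : Finset (ZMod p)).filter (fun z => z ≠ 0 ∧ z + (t : ZMod p) ≠ 0),
        (ZMod.stdAddChar ((c : ZMod p) * (z⁻¹ - (z + (t : ZMod p))⁻¹) + (b : ZMod p) * z) : ℂ) =
        ∑ z ∈ univ \ {0}, (ZMod.stdAddChar ((b : ZMod p) * z +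
          ∑ a ∈ ({0} : Finset (ZMod p)), (0 : ZMod p) / (z - a)) : ℂ) := by
      refine Finset.sum_congr ?_ fun z _ => ?_
      · ext z
        rw [mem_filter, mem_sdiff, mem_singleton, ht, add_zero]
        tauto
      · rw [ht, add_zero, sub_self, mul_zero, zero_add, sum_singleton, zero_div, add_zero]
    rw [h2]
    refine h1.trans ?_
    rw [card_singleton]
    push_cast
    nlinarith
  · have hnt : -(t : ZMod p) ≠ 0 := neg_ne_zero.2 ht
    have h0t : (0 : ZMod p) ≠ -(t : ZMod p) := fun h => hnt h.symm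
    have hcb : (b : ZMod p) ≠ 0 ∨ ∃ a ∈ ({0, -(t : ZMod p)} : Finset (ZMod p)),
        (if a = 0 then (c : ZMod p) else -(c : ZMod p)) ≠ 0 := by
      by_cases hb : (b : ZMod p) = 0
      · right
        refine ⟨0, by simp, ?_⟩
        rw [if_pos rfl]
        intro hc
        apply h
        refine ⟨?_, (ZMod.intCast_zmod_eq_zero_iff_dvd b p).1 hb⟩
        exact Dvd.dvd.mul_right ((ZMod.intCast_zmod_eq_zero_iff_dvd c p).1 hc) _
      · exact Or.inl hb
    have h1 := WR.wr p {0, -(t : ZMod p)} (fun a => if a = 0 then (c : ZMod p) else -(c : ZMod p))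
      (b : ZMod p) hcb
    have h2 : ∑ z ∈ (univ : Finset (ZMod p)).filter (fun z => z ≠ 0 ∧ z + (t : ZMod p) ≠ 0),
        (ZMod.stdAddChar ((c : ZMod p) * (z⁻¹ - (z + (t : ZMod p))⁻¹) + (b : ZMod p) * z) : ℂ) =
        ∑ z ∈ univ \ {0, -(t : ZMod p)}, (ZMod.stdAddChar ((b : ZMod p) * z +
          ∑ a ∈ ({0, -(t : ZMod p)} : Finset (ZMod p)),
            (if a = 0 then (c : ZMod p) else -(c : ZMod p)) / (z - a)) : ℂ) := by
      refine Finset.sum_congr ?_ fun z _ => ?_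
      · ext z
        rw [mem_filter, mem_sdiff, mem_insert, mem_singleton, ← add_eq_zero_iff_eq_neg]
        tauto
      · rw [sum_pair h0t, if_pos rfl, if_neg hnt, sub_zero, sub_neg_eq_add]
        congr 1
        rw [div_eq_mul_inv, div_eq_mul_inv]
        ring
    rw [h2]
    refine h1.trans ?_
    rw [card_pair h0t]
    push_cast
    nlinarith

private lemma WPr_triv (c b : ℤ) (q t : ℕ) : ‖SS c b q t‖ ≤ q := by
  unfold SS
  refine (norm_sum_le _ _).trans ?_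
  rw [sum_congr rfl (fun x _ => norm_en _ _), sum_const, nsmul_eq_mul, mul_one]
  have := card_filter_le (range q) (fun x => x.Coprime q ∧ (x + t).Coprime q)
  rw [card_range] at this
  exact_mod_cast this

/-- the prime case -/
theorem SS_prime (p : ℕ) (hp : p.Prime) (c b : ℤ) (t : ℕ) :
    ‖SS c b p t‖ ≤ 4 * Real.sqrt ((p : ℝ) * (Int.gcd ((Int.gcd (c * t) b : ℕ) : ℤ) p : ℝ)) := by
  have : Fact p.Prime := ⟨hp⟩
  have hp0 : (0 : ℝ) ≤ p := Nat.cast_nonneg p
  by_cases h : (p : ℤ) ∣ c * t ∧ (p : ℤ) ∣ b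
  · have h1 : (p : ℤ) ∣ ((Int.gcd (c * t) b : ℕ) : ℤ) := Int.dvd_coe_gcd h.1 h.2
    have h2 : Int.gcd ((Int.gcd (c * t) b : ℕ) : ℤ) p = p := by
      have h6 : (Int.gcd ((Int.gcd (c * t) b : ℕ) : ℤ) p : ℤ) = p := Int.gcd_eq_right (by positivity) h1
      exact_mod_cast h6
    rw [h2, Real.sqrt_mul_self hp0]
    refine (WPr_triv c b p t).trans ?_
    linarith
  · refine (WPr_main p c b t h).trans ?_
    refine mul_le_mul_of_nonneg_left (Real.sqrt_le_sqrt ?_) (by norm_num)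
    have h3 : 1 ≤ Int.gcd ((Int.gcd (c * t) b : ℕ) : ℤ) p :=
      Int.gcd_pos_of_ne_zero_right _ (by exact_mod_cast hp.ne_zero)
    have h4 : (1 : ℝ) ≤ (Int.gcd ((Int.gcd (c * t) b : ℕ) : ℤ) p : ℝ) := by exact_mod_cast h3
    nlinarith

end Pool.Agent.Lib.MI
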