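import Pool.Agent.Lib.MI.WMul
import Pool.Agent.Lib.MI.WPr
import Pool.Agent.Lib.MI.Stm

/-! MP_00e23e_nt, Lib/MI, chapter W: Weil's bound for the sums SS modulo a squarefree number. -/

namespace Pool.Agent.Lib.MI

open Finset Pool.Agent.Lib.EH3 Pool.Agent.Lib.TB Pool.Agent.Results.MP_00e23e_nt

private lemma WAll_gcd (q : ℕ) (g : ℤ → ℕ) (c b u : ℤ) (t : ℕ) (v : ℤ) (hu : (q : ℤ) ∣ u * v - 1) :
    Int.gcd ((Int.gcd (c * u * t) (b * u) : ℕ) : ℤ) q = Int.gcd ((Int.gcd (c * t) b : ℕ) : ℤ) q := by
  have h1 : IsCoprime u (q : ℤ) := by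
    obtain ⟨z, hz⟩ := hu
    exact ⟨v, -z, by linear_combination hz⟩
  have h2 : Int.gcd u q = 1 := Int.isCoprime_iff_gcd_eq_one.1 h1
  have h3 : Int.gcd (c * u * t) (b * u) = u.natAbs * Int.gcd (c * t) b := by
    have e1 : c * u * t = u * (c * t) := by ring
    have e2 : b * u = u * b := by ring
    rw [e1, e2, Int.gcd_mul_left]
  rw [h3, Int.gcd_natCast_natCast, Int.gcd_natCast_natCast]
  rw [Int.gcd_def, Int.natAbs_natCast] at h2
  exact Nat.Coprime.gcd_mul_left_cancel _ h2

theorem tSsb : SsbStmt := by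
  intro q
  induction q using Nat.strong_induction_on with
  | _ q ih =>
    intro t c b hq hsq
    rcases Nat.lt_or_ge q 2 with hq2 | hq2
    · have hq1 : q = 1 := by omega
      subst hq1
      have h1 : ‖SS c b 1 t‖ ≤ 1 := by
        unfold SS
        refine (norm_sum_le _ _).trans ?_
        rw [sum_congr rfl (fun x _ => norm_en _ _), sum_const, nsmul_eq_mul, mul_one]
        have := card_filter_le (range 1) (fun x => x.Coprime 1 ∧ (x + t).Coprime 1)
        rw [card_range] at this
        exact_mod_cast this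
      simpa using h1
    · set p := q.minFac with hp
      have hpp : p.Prime := Nat.minFac_prime (by omega)
      obtain ⟨m, hm⟩ : p ∣ q := Nat.minFac_dvd q
      have hm1 : 1 ≤ m := by
        rcases Nat.eq_zero_or_pos m with h0 | h0
        · rw [h0] at hm; omega
        · exact h0
      have hpm : p.Coprime m := by
        rw [hm] at hsq
        exact Nat.coprime_of_squarefree_mul hsq
      have hmsq : Squarefree m := by
        rw [hm] at hsq
        exact hsq.of_mul_right
      have hmq : m < q := by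
        rw [hm]
        nlinarith [hpp.two_le]
      have hu : (p : ℤ) ∣ (iv m p : ℤ) * m - 1 := iv_dvd hpm.symm hpp.one_le
      have hv : (m : ℤ) ∣ (iv p m : ℤ) * p - 1 := iv_dvd hpm hm1
      have h1 := SS_mul hpm hpp.one_le hm1 c b t
      rw [← hm] at h1
      have h2 := SS_prime p hpp (c * (iv m p : ℤ)) (b * (iv m p : ℤ)) t
      have h3 := ih m hmq t (c * (iv p m : ℤ)) (b * (iv p m : ℤ)) hm1 hmsq
      rw [WAll_gcd p (fun _ => 0) c b (iv m p : ℤ) t m hu] at h2
      rw [WAll_gcd m (fun _ => 0) c b (iv p m : ℤ) t p hv] at h3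
      set g := Int.gcd (c * t) b with hg
      have h4 : Int.gcd ((g : ℕ) : ℤ) q = Int.gcd ((g : ℕ) : ℤ) p * Int.gcd ((g : ℕ) : ℤ) m := by
        rw [Int.gcd_natCast_natCast, Int.gcd_natCast_natCast, Int.gcd_natCast_natCast]
        conv_lhs => rw [hm]
        exact Nat.Coprime.gcd_mul g hpm
      have h5 : (q.divisors.card : ℝ) = 2 * (m.divisors.card : ℝ) := by
        have h6 : q.divisors.card = 2 * m.divisors.card := by
          rw [hm, hpm.card_divisors_mul, hpp.divisors, card_pair hpp.one_lt.ne]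
        exact_mod_cast h6
      have h7 : Real.sqrt ((q : ℝ) * (Int.gcd ((g : ℕ) : ℤ) q : ℝ)) =
          Real.sqrt ((p : ℝ) * (Int.gcd ((g : ℕ) : ℤ) p : ℝ)) *
            Real.sqrt ((m : ℝ) * (Int.gcd ((g : ℕ) : ℤ) m : ℝ)) := by
        rw [← Real.sqrt_mul (by positivity), h4]
        congr 1
        have h8 : (q : ℝ) = p * m := by exact_mod_cast hm
        rw [h8]
        push_cast
        ring
      rw [h1, norm_mul, h5, h7]
      refine (mul_le_mul h2 h3 (norm_nonneg _) (by positivity)).trans (le_of_eq ?_)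
      ring

end Pool.Agent.Lib.MI
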