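import Pool.Agent.Lib.MI.Basic

/-! MP_00e23e_nt, Lib/MI, chapter W: multiplicativity of the sums SS. -/

namespace Pool.Agent.Lib.MI

open Finset Pool.Agent.Lib.EH3 Pool.Agent.Lib.TB Pool.Agent.Results.MP_00e23e_nt

private lemma WMul_iv (n q : ℕ) : iv (n % q) q = iv n q := by
  unfold iv
  rw [ZMod.natCast_mod]

private lemma WMul_iv_add (n t q : ℕ) : iv (n % q + t) q = iv (n + t) q := by
  unfold iv
  push_cast
  rw [ZMod.natCast_mod]

private lemma WMul_cop (n q : ℕ) : (n % q).Coprime q ↔ n.Coprime q := by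
  unfold Nat.Coprime
  rw [(Nat.mod_modEq n q).gcd_eq]

private lemma WMul_cop_add (n t q : ℕ) : (n % q + t).Coprime q ↔ (n + t).Coprime q := by
  unfold Nat.Coprime
  rw [((Nat.mod_modEq n q).add_right t).gcd_eq]

private lemma WMul_val {c b : ℤ} {n t q Q : ℕ} (hq : q ∣ Q) (hQ : 1 ≤ Q) (hn : n.Coprime Q)
    (hnt : (n + t).Coprime Q) (u : ℤ) :
    en ((c * ((iv n Q : ℤ) - (iv (n + t) Q : ℤ)) + b * n) * u) q =
      en ((c * u) * ((iv (n % q) q : ℤ) - (iv (n % q + t) q : ℤ)) + (b * u) * ((n % q : ℕ) : ℤ)) q := by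
  apply en_congr
  rw [WMul_iv, WMul_iv_add]
  have h1 : (q : ℤ) ∣ (iv n Q : ℤ) - (iv n q : ℤ) := iv_dvd_dvd hn hq hQ
  have h2 : (q : ℤ) ∣ (iv (n + t) Q : ℤ) - (iv (n + t) q : ℤ) := iv_dvd_dvd hnt hq hQ
  have h3 : (q : ℤ) ∣ (n : ℤ) - ((n % q : ℕ) : ℤ) := by
    rw [Int.natCast_mod]
    exact Int.dvd_self_sub_emod
  have e : (c * ((iv n Q : ℤ) - (iv (n + t) Q : ℤ)) + b * n) * u -
      ((c * u) * ((iv n q : ℤ) - (iv (n + t) q : ℤ)) + (b * u) * ((n % q : ℕ) : ℤ)) =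
      c * u * ((iv n Q : ℤ) - (iv n q : ℤ)) - c * u * ((iv (n + t) Q : ℤ) - (iv (n + t) q : ℤ)) +
        b * u * ((n : ℤ) - ((n % q : ℕ) : ℤ)) := by
    ring
  rw [e]
  exact dvd_add (dvd_sub (Dvd.dvd.mul_left h1 _) (Dvd.dvd.mul_left h2 _)) (Dvd.dvd.mul_left h3 _)

/-- multiplicativity -/
theorem SS_mul {q1 q2 : ℕ} (h : q1.Coprime q2) (h1 : 1 ≤ q1) (h2 : 1 ≤ q2) (c b : ℤ) (t : ℕ) :
    SS c b (q1 * q2) t = SS (c * (iv q2 q1 : ℤ)) (b * (iv q2 q1 : ℤ)) q1 t *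
      SS (c * (iv q1 q2 : ℤ)) (b * (iv q1 q2 : ℤ)) q2 t := by
  have hQ : 1 ≤ q1 * q2 := Nat.mul_pos h1 h2
  unfold SS
  rw [Finset.sum_mul_sum, ← Finset.sum_product']
  refine Finset.sum_nbij' (fun n => (n % q1, n % q2)) (fun w => (Nat.chineseRemainder h w.1 w.2 : ℕ))
    ?_ ?_ ?_ ?_ ?_
  · intro n hn
    rw [mem_filter, mem_range] at hn
    obtain ⟨-, hn1, hn2⟩ := hn
    rw [Nat.coprime_mul_iff_right] at hn1 hn2
    rw [mem_product, mem_filter, mem_filter, mem_range, mem_range]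
    exact ⟨⟨Nat.mod_lt _ h1, (WMul_cop n q1).2 hn1.1, (WMul_cop_add n t q1).2 hn2.1⟩,
      ⟨Nat.mod_lt _ h2, (WMul_cop n q2).2 hn1.2, (WMul_cop_add n t q2).2 hn2.2⟩⟩
  · rintro ⟨a, b'⟩ hw
    rw [mem_product, mem_filter, mem_filter, mem_range, mem_range] at hw
    obtain ⟨⟨ha, ha1, ha2⟩, ⟨hb, hb1, hb2⟩⟩ := hw
    have k1 := (Nat.chineseRemainder h a b').2.1
    have k2 := (Nat.chineseRemainder h a b').2.2
    rw [mem_filter, mem_range]
    refine ⟨Nat.chineseRemainder_lt_mul h a b' (by omega) (by omega), ?_, ?_⟩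
    · rw [Nat.coprime_mul_iff_right]
      unfold Nat.Coprime
      rw [k1.gcd_eq, k2.gcd_eq]
      exact ⟨ha1, hb1⟩
    · rw [Nat.coprime_mul_iff_right]
      unfold Nat.Coprime
      rw [(k1.add_right t).gcd_eq, (k2.add_right t).gcd_eq]
      exact ⟨ha2, hb2⟩
  · intro n hn
    rw [mem_filter, mem_range] at hn
    have k1 := (Nat.chineseRemainder h (n % q1) (n % q2)).2.1
    have k2 := (Nat.chineseRemainder h (n % q1) (n % q2)).2.2
    have k3 : (Nat.chineseRemainder h (n % q1) (n % q2) : ℕ) < q1 * q2 :=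
      Nat.chineseRemainder_lt_mul h _ _ (by omega) (by omega)
    have k4 : (Nat.chineseRemainder h (n % q1) (n % q2) : ℕ) ≡ n [MOD q1 * q2] := by
      rw [← Nat.modEq_and_modEq_iff_modEq_mul h]
      exact ⟨k1.trans (Nat.mod_modEq n q1), k2.trans (Nat.mod_modEq n q2)⟩
    exact k4.eq_of_lt_of_lt k3 hn.1
  · rintro ⟨a, b'⟩ hw
    rw [mem_product, mem_filter, mem_filter, mem_range, mem_range] at hw
    obtain ⟨⟨ha, -, -⟩, ⟨hb, -, -⟩⟩ := hw
    have k1 := (Nat.chineseRemainder h a b').2.1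
    have k2 := (Nat.chineseRemainder h a b').2.2
    rw [Prod.mk.injEq]
    refine ⟨?_, ?_⟩
    · have : (Nat.chineseRemainder h a b' : ℕ) % q1 = a % q1 := k1
      rw [this, Nat.mod_eq_of_lt ha]
    · have : (Nat.chineseRemainder h a b' : ℕ) % q2 = b' % q2 := k2
      rw [this, Nat.mod_eq_of_lt hb]
  · intro n hn
    rw [mem_filter, mem_range] at hn
    obtain ⟨-, hn1, hn2⟩ := hn
    rw [en_crt h h1 h2, WMul_val (Nat.dvd_mul_right q1 q2) hQ hn1 hn2,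
      WMul_val (Nat.dvd_mul_left q2 q1) hQ hn1 hn2]

end Pool.Agent.Lib.MI
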